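import Pool.Agent.H71.ZW.PolyANE

set_option autoImplicit false

/-!
# The ambient space of the stages: basic facts
-/

namespace Pool.Agent.H71.ZW

open Set Topology TopologicalSpace

theorem tr_lt {n i : ℕ} (h : i < n) (x : W) : tr n x i = x i := by
  simp [tr, h]

theorem tr_ge {n i : ℕ} (h : n ≤ i) (x : W) : tr n x i = 0 := by
  simp [tr, not_lt.2 h]

theorem tr_tr {m n : ℕ} (h : m ≤ n) (x : W) : tr m (tr n x) = tr m x := by
  funext i
  simp only [tr]
  split_ifs with h1 h2
  · rfl
  · omega
  · rfl

theorem tr_eq {n : ℕ} {x : W} (h : ∀ k, n ≤ k → x k = 0) : tr n x = x := by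
  funext i
  simp only [tr]
  split_ifs with h1
  · rfl
  · exact (h i (not_lt.1 h1)).symm

theorem tr_succ (n : ℕ) (x : W) : tr (n + 1) x = upd (tr n x) n (x n) := by
  funext i
  simp only [tr, upd, Function.update_apply]
  split_ifs with h1 h2 h3 h4
  · rw [h2]
  · rfl
  · omega
  · omega
  · omega
  · rfl

theorem tr_upd (n : ℕ) (x : W) (κ : E) : tr n (upd x n κ) = tr n x := by
  funext i
  simp only [tr, upd]
  split_ifs with h1
  · rw [Function.update_of_ne (by omega)]
  · rfl

theorem upd_same (n : ℕ) (x : W) (κ : E) : upd x n κ n = κ := by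
  simp [upd]

theorem upd_ne {n i : ℕ} (h : i ≠ n) (x : W) (κ : E) : upd x n κ i = x i := by
  simp [upd, Function.update_of_ne h]

theorem upd_self (n : ℕ) (x : W) : upd x n (x n) = x := by
  simp [upd]

theorem upd_upd (n : ℕ) (x : W) (κ κ' : E) : upd (upd x n κ) n κ' = upd x n κ' := by
  simp [upd]

theorem continuous_tr (n : ℕ) : Continuous (tr n) := by
  refine continuous_pi fun i => ?_
  simp only [tr]
  split_ifs with h1
  · exact continuous_apply i
  · exact continuous_const

theorem continuous_upd (n : ℕ) : Continuous fun p : W × E => upd p.1 n p.2 :=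
  continuous_fst.update n continuous_snd

/-- The truncation as a continuous linear map. -/
noncomputable def trL (n : ℕ) : W →L[ℝ] W where
  toFun := tr n
  map_add' x y := by
    funext i
    simp only [tr, Pi.add_apply]
    split_ifs
    · rfl
    · simp
  map_smul' a x := by
    funext i
    simp only [tr, Pi.smul_apply, RingHom.id_apply]
    split_ifs
    · rfl
    · simp
  cont := continuous_tr n

theorem trL_apply (n : ℕ) (x : W) : trL n x = tr n x := rfl

/-- The change of a coordinate as a continuous linear map. -/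
noncomputable def updL (n : ℕ) : (W × E) →L[ℝ] W where
  toFun p := upd p.1 n p.2
  map_add' p q := by
    funext i
    simp only [upd, Function.update_apply, Prod.fst_add, Prod.snd_add, Pi.add_apply]
    split_ifs <;> rfl
  map_smul' a p := by
    funext i
    simp only [upd, Function.update_apply, Prod.smul_fst, Prod.smul_snd, Pi.smul_apply,
      RingHom.id_apply]
    split_ifs <;> rfl
  cont := continuous_upd n

theorem updL_apply (n : ℕ) (p : W × E) : updL n p = upd p.1 n p.2 := rfl

theorem dm_nonneg (m : ℕ) (x y : W) : 0 ≤ dm m x y :=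
  Finset.sum_nonneg fun _ _ => norm_nonneg _

theorem dm_self (m : ℕ) (x : W) : dm m x x = 0 := by
  simp [dm]

theorem dm_comm (m : ℕ) (x y : W) : dm m x y = dm m y x := by
  simp [dm, norm_sub_rev]

theorem dm_triangle (m : ℕ) (x y z : W) : dm m x z ≤ dm m x y + dm m y z := by
  simp only [dm, ← Finset.sum_add_distrib]
  exact Finset.sum_le_sum fun i _ => norm_sub_le_norm_sub_add_norm_sub _ _ _

theorem dm_mono {m m' : ℕ} (h : m ≤ m') (x y : W) : dm m x y ≤ dm m' x y :=
  Finset.sum_le_sum_of_subset_of_nonneg (Finset.range_mono h) fun _ _ _ => norm_nonneg _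

theorem dm_congr {m : ℕ} {x y x' y' : W} (h : ∀ i < m, x i = x' i) (h' : ∀ i < m, y i = y' i) :
    dm m x y = dm m x' y' :=
  Finset.sum_congr rfl fun i hi => by
    rw [h i (Finset.mem_range.1 hi), h' i (Finset.mem_range.1 hi)]

theorem dm_tr {m n n' : ℕ} (h : m ≤ n) (h' : m ≤ n') (x y : W) :
    dm m (tr n x) (tr n' y) = dm m x y :=
  dm_congr (fun i hi => tr_lt (by omega) x) (fun i hi => tr_lt (by omega) y)

theorem dm_eq_zero {m : ℕ} {x y : W} (h : ∀ i < m, x i = y i) : dm m x y = 0 := by
  rw [dm_congr h (fun i _ => rfl), dm_self]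

theorem norm_sub_le_dm {m i : ℕ} (h : i < m) (x y : W) : ‖x i - y i‖ ≤ dm m x y :=
  Finset.single_le_sum (f := fun i => ‖x i - y i‖) (fun _ _ => norm_nonneg _)
    (Finset.mem_range.2 h)

theorem continuous_dm (m : ℕ) : Continuous fun p : W × W => dm m p.1 p.2 := by
  simp only [dm]
  fun_prop

theorem convexOn_dm (m : ℕ) (a : W) : ConvexOn ℝ univ fun x => dm m x a := by
  refine ⟨convex_univ, fun x _ y _ s t hs ht hst => ?_⟩
  simp only [dm, smul_eq_mul, Finset.mul_sum, ← Finset.sum_add_distrib]
  refine Finset.sum_le_sum fun i _ => ?_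
  have h1 : (s • x + t • y) i - a i = s • (x i - a i) + t • (y i - a i) := by
    have h2 : a i = s • a i + t • a i := by rw [← add_smul, hst, one_smul]
    rw [Pi.add_apply, Pi.smul_apply, Pi.smul_apply, smul_sub, smul_sub]
    conv_lhs => rw [h2]
    abel
  rw [h1]
  refine (norm_add_le _ _).trans ?_
  rw [norm_smul, norm_smul, Real.norm_of_nonneg hs, Real.norm_of_nonneg ht]

theorem convex_dm_le (m : ℕ) (a : W) (r : ℝ) : Convex ℝ {x | dm m x a ≤ r} := by
  have h := (convexOn_dm m a).convex_le r
  simpa using h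

theorem isClosed_dm_le (m : ℕ) (a : W) (r : ℝ) : IsClosed {x | dm m x a ≤ r} :=
  isClosed_le ((continuous_dm m).comp (continuous_id.prodMk continuous_const)) continuous_const

theorem isClosed_le_dm (m : ℕ) (a : W) (r : ℝ) : IsClosed {x | r ≤ dm m x a} :=
  isClosed_le continuous_const ((continuous_dm m).comp (continuous_id.prodMk continuous_const))

theorem tr_cur (n : ℕ) (I : Set ℕ) (κ : E) : tr n (cur I κ) = cur (I ∩ Iio n) κ := by
  classical
  funext i
  simp only [tr, cur, mem_inter_iff, mem_Iio]
  by_cases h1 : i < n <;> by_cases h2 : i ∈ I <;> simp [h1, h2]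

theorem upd_cur {n : ℕ} {I : Set ℕ} (κ : E) : upd (cur I κ) n κ = cur (insert n I) κ := by
  classical
  funext i
  simp only [upd, cur, Function.update_apply, mem_insert_iff]
  by_cases h1 : i = n <;> by_cases h2 : i ∈ I <;> simp [h1, h2]

theorem cur_apply {I : Set ℕ} {i : ℕ} (h : i ∈ I) (κ : E) : cur I κ i = κ := by
  classical
  simp [cur, h]

theorem cur_apply_not {I : Set ℕ} {i : ℕ} (h : i ∉ I) (κ : E) : cur I κ i = 0 := by
  classical
  simp [cur, h]

theorem continuous_cur (I : Set ℕ) : Continuous (cur I) := by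
  classical
  refine continuous_pi fun i => ?_
  by_cases h : i ∈ I
  · simp only [cur_apply h]
    exact continuous_id
  · simp only [cur_apply_not h]
    exact continuous_const

end Pool.Agent.H71.ZW
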