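import Pool.Agent.H71.ZW.Defs

set_option autoImplicit false

/-!
# Gluing of continuous maps
-/

namespace Pool.Agent.H71.ZW

open Set Topology TopologicalSpace

/-- Maps which are continuous on closed sets and agree on the intersections can be glued. -/
theorem exists_glue {X Y : Type} [TopologicalSpace X] [TopologicalSpace Y] [Nonempty Y]
    {ι : Type} [Finite ι] {C : ι → Set X} (hC : ∀ i, IsClosed (C i)) {f : ι → X → Y}
    (hf : ∀ i, ContinuousOn (f i) (C i)) (h : ∀ i j x, x ∈ C i → x ∈ C j → f i x = f j x) :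
    ∃ F : X → Y, ContinuousOn F (⋃ i, C i) ∧ ∀ i, EqOn F (f i) (C i) := by
  classical
  let F : X → Y := fun x => if hx : ∃ i, x ∈ C i then f hx.choose x else Classical.arbitrary Y
  have hF : ∀ i, EqOn F (f i) (C i) := by
    intro i x hx
    have hx' : ∃ i, x ∈ C i := ⟨i, hx⟩
    simp only [F, dif_pos hx']
    exact h _ _ x hx'.choose_spec hx
  exact ⟨F, (locallyFinite_of_finite C).continuousOn_iUnion hC
    fun i => (hf i).congr (hF i), hF⟩

/-- Gluing of two maps. -/
theorem exists_glue₂ {X Y : Type} [TopologicalSpace X] [TopologicalSpace Y] [Nonempty Y]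
    {A B : Set X} (hA : IsClosed A) (hB : IsClosed B) {f g : X → Y} (hf : ContinuousOn f A)
    (hg : ContinuousOn g B) (h : ∀ x ∈ A, x ∈ B → f x = g x) :
    ∃ F : X → Y, ContinuousOn F (A ∪ B) ∧ EqOn F f A ∧ EqOn F g B := by
  obtain ⟨F, hF, hE⟩ := exists_glue (ι := Bool) (C := fun b => cond b A B)
    (f := fun b => cond b f g) (by rintro (_ | _) <;> assumption)
    (by rintro (_ | _) <;> assumption)
    (by
      rintro (_ | _) (_ | _) x hx hx'
      · rfl
      · exact (h x hx' hx).symm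
      · exact h x hx hx'
      · rfl)
  refine ⟨F, hF.mono ?_, hE true, hE false⟩
  rintro x (hx | hx)
  · exact mem_iUnion.2 ⟨true, hx⟩
  · exact mem_iUnion.2 ⟨false, hx⟩

/-- Gluing of three maps. -/
theorem exists_glue₃ {X Y : Type} [TopologicalSpace X] [TopologicalSpace Y] [Nonempty Y]
    {A B C : Set X} (hA : IsClosed A) (hB : IsClosed B) (hC : IsClosed C) {f g k : X → Y}
    (hf : ContinuousOn f A) (hg : ContinuousOn g B) (hk : ContinuousOn k C)
    (h : ∀ x ∈ A, x ∈ B → f x = g x) (h' : ∀ x ∈ A, x ∈ C → f x = k x)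
    (h'' : ∀ x ∈ B, x ∈ C → g x = k x) :
    ∃ F : X → Y, ContinuousOn F (A ∪ B ∪ C) ∧ EqOn F f A ∧ EqOn F g B ∧ EqOn F k C := by
  obtain ⟨F, hF, hEf, hEg⟩ := exists_glue₂ hA hB hf hg h
  obtain ⟨G, hG, hEF, hEk⟩ := exists_glue₂ (hA.union hB) hC hF hk (by
    rintro x (hx | hx) hx'
    · rw [hEf hx, h' x hx hx']
    · rw [hEg hx, h'' x hx hx'])
  exact ⟨G, hG, fun x hx => by rw [hEF (Or.inl hx), hEf hx],
    fun x hx => by rw [hEF (Or.inr hx), hEg hx], hEk⟩

end Pool.Agent.H71.ZW
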