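import Pool.Agent.H71.ZW.PolyANE
import Pool.Agent.H71.ZW.Glue

set_option autoImplicit false

/-!
# Certificates for elementary expansions and collapses
-/

namespace Pool.Agent.H71.ZW

open Set Topology TopologicalSpace

/-! ### The check -/

/-- The number whose bits are the numbers below `2 ^ k` with the bit `u`. -/
def mk (u : ℕ) : ℕ → ℕ
  | 0 => 0
  | k + 1 => bif Nat.beq k u then (2 ^ (2 ^ k) - 1) <<< (2 ^ k) else mk u k ||| (mk u k <<< (2 ^ k))

/-- A bit of a number. -/
def bt (C σ : ℕ) : Bool := Nat.beq ((C >>> σ) &&& 1) 1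

/-- The check that no face in `C` contains all vertices of the list. -/
def nc (L : List ℕ) (C : ℕ) : Bool := Nat.beq (L.foldl (fun a u => a &&& mk u 13) C) 0

/-- The face with the vertices of the list. -/
def fcl (L : List ℕ) : ℕ := L.foldr (fun u a => a ||| 2 ^ u) 0

/-- The check that all the facets of `σ` opposite to the vertices of the list are in `C`. -/
def hc (L : List ℕ) (σ C : ℕ) : Bool := L.all fun u => bt C (σ ^^^ 2 ^ u)

/-- The check of one elementary pair. -/
def ok (v : ℕ) (L : List ℕ) (C : ℕ) : Bool :=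
  nc L C && hc L (fcl L ||| 2 ^ v) C && Nat.blt v 13 && !L.isEmpty &&
    L.all (fun u => Nat.blt u 13 && !Nat.beq u v)

/-- The elementary pair. -/
def pr (v : ℕ) (L : List ℕ) : ℕ := 2 ^ (fcl L ||| 2 ^ v) ||| 2 ^ fcl L

/-- The check of a sequence of elementary expansions and collapses. -/
noncomputable def run (ops : List (Bool × ℕ × List ℕ)) (D : ℕ) : ℕ → Bool :=
  List.rec (fun C => Nat.beq C D)
    (fun o _ ih C =>
      bif o.1 then bif ok o.2.1 o.2.2 C then ih (C ||| pr o.2.1 o.2.2) else false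
      else bif ok o.2.1 o.2.2 (C ^^^ pr o.2.1 o.2.2) &&
        Nat.beq ((C ^^^ pr o.2.1 o.2.2) ||| pr o.2.1 o.2.2) C then
          ih (C ^^^ pr o.2.1 o.2.2) else false) ops

/-! ### The polyhedra -/

/-- The face with the vertices given by the bits of `σ`. -/
def fc (σ : ℕ) : Set (Fin 13 → ℝ) :=
  {κ | (∀ v, 0 ≤ κ v) ∧ ∑ v, κ v = 1 ∧ ∀ v : Fin 13, σ.testBit v = false → κ v = 0}

/-- The polyhedron whose faces are given by the bits of `C`. -/
def cx (C : ℕ) : Set (Fin 13 → ℝ) := {κ | ∃ σ < 8192, C.testBit σ = true ∧ κ ∈ fc σ}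

theorem testBit_mk {u k ρ : ℕ} (hu : u < k) (hρ : ρ < 2 ^ k) :
    (mk u k).testBit ρ = ρ.testBit u := by
  have hlt : ∀ k ≤ u, mk u k = 0 := by
    intro k hk
    induction k with
    | zero => rfl
    | succ k ih =>
      have h1 : Nat.beq k u = false := by
        rw [← Bool.not_eq_true, Nat.beq_eq]
        omega
      simp [mk, h1, ih (by omega)]
  induction k generalizing ρ with
  | zero => omega
  | succ k ih =>
    rw [mk]
    by_cases hk : k = u
    · subst hk
      have h1 : Nat.beq k k = true := Nat.beq_refl k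
      rw [h1, cond_true, Nat.testBit_shiftLeft, Nat.testBit_two_pow_sub_one]
      by_cases h2 : 2 ^ k ≤ ρ
      · have h3 : ρ - 2 ^ k < 2 ^ k := by
          rw [pow_succ] at hρ
          omega
        have h4 : ρ.testBit k = true := by
          have h5 : ρ = 2 ^ k + (ρ - 2 ^ k) := by omega
          rw [h5, Nat.testBit_two_pow_add_eq, Nat.testBit_lt_two_pow h3]
          rfl
        simp [h2, h3, h4]
      · rw [Nat.testBit_lt_two_pow (not_le.1 h2)]
        simp [h2]
    · have h1 : Nat.beq k u = false := by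
        rw [← Bool.not_eq_true, Nat.beq_eq]
        exact hk
      have huk : u < k := by omega
      rw [h1, cond_false, Nat.testBit_or, Nat.testBit_shiftLeft]
      have hmk : mk u k < 2 ^ (2 ^ k) := by
        have : ∀ k, mk u k < 2 ^ (2 ^ k) := by
          intro k
          induction k with
          | zero => simp [mk]
          | succ k ih =>
            rw [mk]
            have h3 : 2 ^ (2 ^ (k + 1)) = 2 ^ (2 ^ k) * 2 ^ (2 ^ k) := by
              rw [← pow_add, ← two_mul, pow_succ, mul_comm]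
            rcases hb : Nat.beq k u with _ | _
            · rw [cond_false]
              refine Nat.or_lt_two_pow ?_ ?_
              · exact ih.trans (Nat.pow_lt_pow_right (by norm_num)
                  (Nat.pow_lt_pow_right (by norm_num) (by omega)))
              · rw [Nat.shiftLeft_eq, h3]
                exact Nat.mul_lt_mul_of_pos_right ih (by positivity)
            · rw [cond_true, Nat.shiftLeft_eq, h3]
              exact Nat.mul_lt_mul_of_pos_right
                (Nat.sub_lt (by positivity) (by norm_num)) (by positivity)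
        exact this k
      by_cases h2 : 2 ^ k ≤ ρ
      · have h3 : ρ - 2 ^ k < 2 ^ k := by
          rw [pow_succ] at hρ
          omega
        have h4 : (mk u k).testBit ρ = false :=
          Nat.testBit_lt_two_pow (hmk.trans_le (Nat.pow_le_pow_right (by norm_num) h2))
        rw [h4, ih huk h3]
        have h5 : ρ = 2 ^ k + (ρ - 2 ^ k) := by omega
        have h6 : ρ.testBit u = (ρ - 2 ^ k).testBit u := by
          conv_lhs => rw [h5]
          rw [Nat.testBit_two_pow_add_gt huk]
        simp [h2, h6]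
      · rw [ih huk (not_le.1 h2)]
        simp [h2]

theorem bt_eq (C σ : ℕ) : bt C σ = C.testBit σ := by
  have h : C.testBit σ = true ↔ (C >>> σ) &&& 1 = 1 := by
    rw [Nat.testBit, Nat.and_comm, Nat.and_one_is_mod]
    rcases Nat.mod_two_eq_zero_or_one (C >>> σ) with h1 | h1 <;> simp [h1]
  rcases hb : C.testBit σ with _ | _
  · rw [bt, ← Bool.not_eq_true, Nat.beq_eq]
    intro h1
    rw [h.2 h1] at hb
    exact absurd hb (by decide)
  · rw [bt, Nat.beq_eq]
    exact h.1 hb

theorem testBit_foldl (L : List ℕ) (C ρ : ℕ) : (L.foldl (fun a u => a &&& mk u 13) C).testBit ρ =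
    (C.testBit ρ && L.all fun u => (mk u 13).testBit ρ) := by
  induction L generalizing C with
  | nil => simp
  | cons u L ih => rw [List.foldl_cons, ih, Nat.testBit_and, List.all_cons, Bool.and_assoc]

theorem nc_spec {L : List ℕ} {C : ℕ} (h : nc L C = true) (hL : ∀ u ∈ L, u < 13) {ρ : ℕ}
    (hρ : ρ < 8192) (hC : C.testBit ρ = true) : ∃ u ∈ L, ρ.testBit u = false := by
  by_contra hcon
  push Not at hcon
  have h1 := testBit_foldl L C ρ
  rw [nc, Nat.beq_eq] at h
  rw [h, hC, Nat.zero_testBit, Bool.true_and, eq_comm, List.all_eq_false] at h1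
  obtain ⟨u, hu, h2⟩ := h1
  rw [testBit_mk (hL u hu) hρ] at h2
  exact h2 (by simpa using hcon u hu)

theorem testBit_fcl (L : List ℕ) (w : ℕ) : (fcl L).testBit w = true ↔ w ∈ L := by
  induction L with
  | nil => simp [fcl]
  | cons u L ih =>
    rw [fcl, List.foldr_cons, Nat.testBit_or, Nat.testBit_two_pow, Bool.or_eq_true, ← fcl, ih,
      List.mem_cons, decide_eq_true_eq]
    tauto

theorem convex_fc (σ : ℕ) : Convex ℝ (fc σ) := by
  rintro κ ⟨h1, h2, h3⟩ κ' ⟨h1', h2', h3'⟩ a b ha hb hab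
  refine ⟨fun v => ?_, ?_, fun v hv => ?_⟩
  · exact add_nonneg (mul_nonneg ha (h1 v)) (mul_nonneg hb (h1' v))
  · simp only [Pi.add_apply, Pi.smul_apply, smul_eq_mul, Finset.sum_add_distrib, ← Finset.mul_sum,
      h2, h2', mul_one, hab]
  · simp [h3 v hv, h3' v hv]

theorem isCompact_fc (σ : ℕ) : IsCompact (fc σ) := by
  have h : fc σ ⊆ stdSimplex ℝ (Fin 13) := fun κ hκ => ⟨hκ.1, hκ.2.1⟩
  refine (isCompact_stdSimplex ℝ (Fin 13)).of_isClosed_subset ?_ h
  have h1 : fc σ = {κ | ∀ v, 0 ≤ κ v} ∩ ({κ | ∑ v, κ v = 1} ∩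
      ⋂ v : Fin 13, {κ | σ.testBit v = false → κ v = 0}) := by
    ext κ
    simp [fc]
  rw [h1]
  refine IsClosed.inter ?_ (IsClosed.inter ?_ (isClosed_iInter fun v => ?_))
  · simp only [ofPred_forall]
    exact isClosed_iInter fun v => isClosed_le continuous_const (continuous_apply v)
  · exact isClosed_eq (by fun_prop) continuous_const
  · by_cases hv : σ.testBit v = false
    · simp only [hv, forall_const]
      exact isClosed_eq (continuous_apply v) continuous_const
    · simp [hv]

theorem single_mem_fc {σ : ℕ} {v : ℕ} (hv : v < 13) (h : σ.testBit v = true) :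
    (Pi.single (⟨v, hv⟩ : Fin 13) 1 : Fin 13 → ℝ) ∈ fc σ := by
  refine ⟨fun w => ?_, ?_, fun w hw => ?_⟩
  · by_cases hw : w = ⟨v, hv⟩
    · subst hw
      simp
    · simp [Pi.single_eq_of_ne hw]
  · rw [Finset.sum_eq_single (⟨v, hv⟩ : Fin 13)]
    · simp
    · intro w _ hw
      simp [Pi.single_eq_of_ne hw]
    · simp
  · by_cases hw' : w = ⟨v, hv⟩
    · subst hw'
      rw [h] at hw
      exact absurd hw (by decide)
    · simp [Pi.single_eq_of_ne hw']

theorem fc_mono {σ τ : ℕ} (h : ∀ v < 13, τ.testBit v = true → σ.testBit v = true) :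
    fc τ ⊆ fc σ := by
  rintro κ ⟨h1, h2, h3⟩
  refine ⟨h1, h2, fun v hv => h3 v ?_⟩
  rcases hb : τ.testBit v with _ | _
  · rfl
  · rw [h v v.2 hb] at hv
    exact absurd hv (by decide)

theorem ae_fc {σ : ℕ} {v : ℕ} (hv : v < 13) (h : σ.testBit v = true) : AE (fc σ) :=
  ae_convex (convex_fc σ) ⟨_, single_mem_fc hv h⟩

theorem cx_eq_biUnion (C : ℕ) : cx C = ⋃ σ ∈ {σ | σ < 8192 ∧ C.testBit σ = true}, fc σ := by
  ext κ
  simp [cx, and_assoc]

theorem isPoly_cx (C : ℕ) : IsPoly (cx C) := by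
  rw [cx_eq_biUnion]
  exact isPoly_biUnion ((Set.finite_lt_nat 8192).subset fun σ hσ => hσ.1)
    fun σ _ => isPoly_of_convex (isCompact_fc σ) (convex_fc σ)

/-! ### Elementary pairs -/

/-- Adding a piece which meets the rest in an absolute extensor. -/
theorem ae_iff_union {V : Type} [TopologicalSpace V] [MetrizableSpace V] {A B : Set V}
    (hA : IsClosed A) (hB : IsCompact B) (hBc : IsClosed B) (aB : AE B) (a : AE (A ∩ B)) :
    AE (A ∪ B) ↔ AE A := by
  constructor
  · intro h
    obtain ⟨r, hr, hrm, hre⟩ := AE.extend (V' := V) a hB (hA.inter hBc) inter_subset_right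
      (f := id) continuousOn_id (mapsTo_id _)
    rcases isEmpty_or_nonempty V with hV | hV
    · have h1 : A = A ∪ B := by
        ext x
        exact (hV.false x).elim
      rw [h1]
      exact h
    obtain ⟨F, hF, hFA, hFB⟩ := exists_glue₂ hA hBc (f := id) (g := r) continuousOn_id hr
      (fun x hx hx' => (hre ⟨hx, hx'⟩).symm)
    refine h.retract id F continuousOn_id hF (fun x hx => Or.inl hx) ?_ ?_
    · rintro x (hx | hx)
      · rw [hFA hx]
        exact hx
      · rw [hFB hx]
        exact (hrm hx).1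
    · intro x hx
      exact hFA hx
  · exact fun h => h.union hA hBc aB a

theorem ae_ok {v : ℕ} {L : List ℕ} {C : ℕ} (h : ok v L C = true) :
    AE (cx (C ||| pr v L)) ↔ AE (cx C) := by
  simp only [ok, Bool.and_eq_true, hc, List.all_eq_true, Bool.not_eq_true', Nat.blt_eq, bt_eq,
    List.isEmpty_eq_false_iff] at h
  obtain ⟨⟨⟨⟨h1, h2⟩, h3⟩, h4⟩, h5⟩ := h
  set τ := fcl L with hτ
  set σ := fcl L ||| 2 ^ v with hσ
  have hL : ∀ u ∈ L, u < 13 := fun u hu => (h5 u hu).1
  have hLv : ∀ u ∈ L, u ≠ v := by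
    intro u hu huv
    have h6 := (h5 u hu).2
    rw [huv, ← Bool.not_eq_true, Nat.beq_eq] at h6
    exact h6 rfl
  have hσb : ∀ w, σ.testBit w = true ↔ w ∈ L ∨ w = v := by
    intro w
    rw [hσ, Nat.testBit_or, Nat.testBit_two_pow, Bool.or_eq_true, testBit_fcl, decide_eq_true_eq]
    tauto
  have hlt : ∀ ρ : ℕ, (∀ w, ρ.testBit w = true → w < 13) → ρ < 8192 := by
    intro ρ hρ
    have : ρ < 2 ^ 13 := by
      refine Nat.lt_pow_two_of_testBit ρ fun i hi => ?_
      rcases hb : ρ.testBit i with _ | _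
      · rfl
      · exact absurd (hρ i hb) (by omega)
    simpa using this
  have hσlt : σ < 8192 := hlt σ fun w hw => by
    rcases (hσb w).1 hw with h6 | h6
    · exact hL w h6
    · omega
  have hτlt : τ < 8192 := hlt τ fun w hw => hL w ((testBit_fcl L w).1 hw)
  have hf : ∀ u ∈ L, ∀ w, (σ ^^^ 2 ^ u).testBit w = true ↔ (w ∈ L ∨ w = v) ∧ w ≠ u := by
    intro u hu w
    rw [Nat.testBit_xor, Nat.testBit_two_pow]
    by_cases hw : w = u
    · subst hw
      rw [(hσb w).2 (Or.inl hu)]
      simp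
    · have : (decide (u = w)) = false := by simpa using fun h => hw h.symm
      rw [this, Bool.xor_false, hσb]
      simp [hw]
  have hflt : ∀ u ∈ L, σ ^^^ 2 ^ u < 8192 := fun u hu => hlt _ fun w hw => by
    rcases ((hf u hu w).1 hw).1 with h6 | h6
    · exact hL w h6
    · omega
  have hcx : cx (C ||| pr v L) = cx C ∪ fc σ := by
    ext κ
    constructor
    · rintro ⟨ρ, hρ, hb, hκ⟩
      rw [pr, Nat.testBit_or, Nat.testBit_or, Nat.testBit_two_pow, Nat.testBit_two_pow,
        Bool.or_eq_true, Bool.or_eq_true, decide_eq_true_eq, decide_eq_true_eq] at hb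
      rcases hb with hb | hb | hb
      · exact Or.inl ⟨ρ, hρ, hb, hκ⟩
      · rw [← hb] at hκ
        exact Or.inr hκ
      · rw [← hb] at hκ
        refine Or.inr (fc_mono ?_ hκ)
        intro w _ hw
        exact (hσb w).2 (Or.inl ((testBit_fcl L w).1 hw))
    · rintro (⟨ρ, hρ, hb, hκ⟩ | hκ)
      · exact ⟨ρ, hρ, by rw [Nat.testBit_or, hb, Bool.true_or], hκ⟩
      · refine ⟨σ, hσlt, ?_, hκ⟩
        rw [pr, Nat.testBit_or, Nat.testBit_or, Nat.testBit_two_pow, Nat.testBit_two_pow]
        simp [hσ]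
  have hin : cx C ∩ fc σ = ⋃ u ∈ {u | u ∈ L}, fc (σ ^^^ 2 ^ u) := by
    ext κ
    simp only [mem_inter_iff, mem_iUnion, mem_ofPred_eq, exists_prop]
    constructor
    · rintro ⟨⟨ρ, hρ, hb, hκ⟩, hκ'⟩
      obtain ⟨u, hu, hu'⟩ := nc_spec h1 hL hρ hb
      refine ⟨u, hu, hκ.1, hκ.2.1, fun w hw => ?_⟩
      by_cases hwu : w.1 = u
      · exact hκ.2.2 w (by rw [hwu]; exact hu')
      · refine hκ'.2.2 w ?_
        rw [← Bool.not_eq_true] at hw ⊢
        rw [hf u hu] at hw
        rw [hσb]
        tauto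
    · rintro ⟨u, hu, hκ⟩
      refine ⟨⟨_, hflt u hu, h2 u hu, hκ⟩, fc_mono (fun w _ hw => ?_) hκ⟩
      exact (hσb w).2 ((hf u hu w).1 hw).1
  have hv13 : v < 13 := h3
  obtain ⟨u₀, hu₀⟩ := List.exists_mem_of_ne_nil L h4
  have hfv : ∀ u ∈ L, (σ ^^^ 2 ^ u).testBit v = true := fun u hu =>
    (hf u hu v).2 ⟨Or.inr rfl, fun h => hLv u hu h.symm⟩
  have ha : AE (cx C ∩ fc σ) := by
    rw [hin]
    have hp : IsPoly (⋃ u ∈ {u | u ∈ L}, fc (σ ^^^ 2 ^ u)) :=
      isPoly_biUnion (List.finite_toSet L) fun u _ =>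
        isPoly_of_convex (isCompact_fc _) (convex_fc _)
    refine hp.ae_of_star (p := Pi.single (⟨v, hv13⟩ : Fin 13) 1) ?_ ?_
    · simp only [mem_iUnion, mem_ofPred_eq, exists_prop]
      exact ⟨u₀, hu₀, single_mem_fc hv13 (hfv u₀ hu₀)⟩
    · intro κ hκ t ht
      simp only [mem_iUnion, mem_ofPred_eq, exists_prop] at hκ ⊢
      obtain ⟨u, hu, hκ⟩ := hκ
      exact ⟨u, hu, convex_fc _ hκ (single_mem_fc hv13 (hfv u hu)) (by linarith [ht.2]) ht.1
        (by ring)⟩
  rw [hcx]
  exact ae_iff_union (isPoly_cx C).isCompact.isClosed (isCompact_fc σ) (isCompact_fc σ).isClosed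
    (ae_fc hv13 ((hσb v).2 (Or.inr rfl))) ha

theorem ae_of_run {ops : List (Bool × ℕ × List ℕ)} {D C : ℕ} (h : run ops D C = true)
    (hD : AE (cx D)) : AE (cx C) := by
  induction ops generalizing C with
  | nil =>
    have h1 : Nat.beq C D = true := h
    rw [Nat.beq_eq] at h1
    rw [h1]
    exact hD
  | cons o l ih =>
    have h1 : (bif o.1 then bif ok o.2.1 o.2.2 C then run l D (C ||| pr o.2.1 o.2.2) else false
      else bif ok o.2.1 o.2.2 (C ^^^ pr o.2.1 o.2.2) &&
        Nat.beq ((C ^^^ pr o.2.1 o.2.2) ||| pr o.2.1 o.2.2) C then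
          run l D (C ^^^ pr o.2.1 o.2.2) else false) = true := h
    rcases ho : o.1 with _ | _
    · rw [ho, cond_false] at h1
      rcases hk : ok o.2.1 o.2.2 (C ^^^ pr o.2.1 o.2.2) &&
        Nat.beq ((C ^^^ pr o.2.1 o.2.2) ||| pr o.2.1 o.2.2) C with _ | _
      · rw [hk, cond_false] at h1
        exact absurd h1 (by decide)
      · rw [hk, cond_true] at h1
        rw [Bool.and_eq_true, Nat.beq_eq] at hk
        have h2 := (ae_ok hk.1).2 (ih h1)
        rwa [hk.2] at h2
    · rw [ho, cond_true] at h1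
      rcases hk : ok o.2.1 o.2.2 C with _ | _
      · rw [hk, cond_false] at h1
        exact absurd h1 (by decide)
      · rw [hk, cond_true] at h1
        exact (ae_ok hk).1 (ih h1)

end Pool.Agent.H71.ZW
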