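import Pool.Agent.H71.ZW.CertB

set_option autoImplicit false

/-!
# The certificate, part 3
-/

namespace Pool.Agent.H71.ZW

/-- A state of the reduction. -/
def st3 : ℕ := 0x13330000000000000000000000000000000000000000000000000000000000000000000000000000000000000000000000000000000000000000000000000017007700000000000000000000000000000000000000000000000000000000010503770000000000000000000000110017131f000001010111057f0103115f013f577f000000000000000000000000000000000000000000000000000000000000000000000000000000000000000000000000000000000000000000000000000000000000000000000000000000000000000000000000000000000000000000000000000000000000000000000000000000000000000000000000000000000007075700000000000000000000000000000000000000000000000000000000000000000000000000000000000000000000000000000000000000000000000000071537000000000000000000000000000000000000000000000000000000000105137f00000000000000000000000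00115171700000000000000000013117f01573fff0000000000000000000000000000000000000000000000000000000000000000000000000000000000000000000000000000000000000000000000000000000000000000000000000000000000000000000000000000000000000000000011110000000000000000000000000000000000000000000000000000000000775777000000000000000000000000000000000000000000000000000000000000000000000000000000000000000000000000000000000000000000000000001755770000000000000000000000000000000000000000000000000000000001051f7f00000000000000000000001111371f3f0000010111113f7f1157117f117f7fff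

/-- Elementary expansions and collapses. -/
def ops3 : List (Bool × ℕ × List ℕ) :=
  [(false, 0, [5, 7]), (true, 12, [0, 1, 2]), (true, 12, [3, 4, 7]), (true, 11, [0, 3, 9]),
   (true, 11, [0, 4, 8]), (true, 12, [1, 2, 4]), (true, 12, [1, 2, 3]), (true, 3, [1, 2, 9]),
   (true, 1, [0, 2, 3]), (true, 11, [0, 2, 5]), (true, 2, [0, 1, 8]), (true, 4, [9, 10]),
   (true, 12, [3, 4, 9]), (true, 3, [1, 2, 9, 12]), (true, 11, [2, 4, 8]), (true, 12, [2, 3, 6]),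
   (true, 0, [1, 2, 6]), (true, 12, [5, 7]), (true, 12, [2, 5, 7]), (true, 12, [1, 4, 6]),
   (false, 12, [3, 4, 9]), (false, 11, [0, 4, 8]), (false, 11, [2, 4, 8]),
   (false, 1, [2, 3, 9, 12]), (false, 12, [1, 2, 4]), (false, 12, [1, 4, 6]),
   (false, 2, [5, 7, 12]), (false, 11, [0, 3, 9]), (false, 12, [3, 4, 7]),
   (false, 12, [2, 3, 6]), (false, 1, [0, 2, 3]), (false, 2, [0, 1, 8]), (false, 11, [0, 2, 5]),
   (false, 4, [9, 10]), (false, 1, [3, 9, 12]), (false, 0, [1, 2, 6]), (false, 12, [0, 1, 2]),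
   (false, 2, [5, 7]), (true, 12, [2, 3, 8]), (true, 11, [0, 4, 6]), (true, 11, [0, 2, 5]),
   (true, 11, [1, 3, 4]), (true, 12, [1, 2, 4]), (true, 5, [0, 1, 2]), (true, 12, [2, 3, 10]),
   (true, 11, [1, 4, 5]), (true, 11, [2, 4, 9]), (true, 11, [1, 4, 10]), (true, 12, [2, 4, 5]),
   (true, 2, [0, 1, 8]), (true, 2, [1, 3, 8]), (true, 0, [1, 6, 11]), (true, 11, [0, 3, 9]),
   (true, 12, [7, 9]), (true, 2, [0, 1, 9]), (true, 12, [0, 3, 4]), (true, 11, [3, 4, 9]),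
   (true, 3, [0, 1, 10]), (true, 12, [2, 3, 6]), (false, 12, [2, 4, 5]), (false, 12, [2, 3, 10]),
   (false, 12, [2, 3, 6]), (false, 11, [1, 4, 10]), (false, 12, [0, 3, 4]),
   (false, 3, [0, 1, 10]), (false, 0, [1, 6, 11]), (false, 11, [1, 3, 4]), (false, 2, [0, 1, 9]),
   (false, 11, [1, 4, 5]), (false, 2, [1, 3, 8]), (false, 12, [1, 2, 4]), (false, 11, [2, 4, 9]),
   (false, 11, [0, 4, 6]), (false, 12, [2, 3, 8]), (false, 11, [3, 4, 9]), (false, 2, [0, 1, 8]),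
   (false, 5, [0, 1, 2]), (false, 11, [0, 2, 5]), (false, 11, [0, 3, 9]), (false, 12, [7, 9]),
   (true, 12, [2, 3, 4]), (true, 12, [1, 3, 8]), (true, 9, [11, 12]), (true, 11, [2, 4, 8]),
   (true, 12, [0, 1, 2]), (true, 2, [7, 9]), (true, 4, [2, 3, 6]), (true, 11, [3, 4, 10]),
   (true, 11, [1, 4, 5]), (false, 11, [2, 4, 8]), (false, 11, [3, 4, 10]),
   (false, 11, [1, 4, 5]), (false, 12, [1, 3, 8]), (false, 12, [0, 1, 2]), (false, 4, [2, 3, 6]),
   (false, 12, [2, 3, 4]), (false, 2, [7, 9]), (false, 9, [11, 12]), (true, 12, [1, 3, 4]),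
   (true, 11, [2, 3, 10]), (false, 11, [2, 3, 10]), (false, 12, [1, 3, 4]), (true, 3, [6, 9]),
   (true, 2, [6, 7]), (true, 11, [0, 3, 5]), (true, 12, [2, 4, 5]), (true, 12, [0, 4, 7]),
   (true, 12, [2, 4, 9]), (true, 11, [2, 3, 10]), (true, 12, [1, 3, 4]), (true, 2, [4, 10, 12]),
   (true, 11, [0, 3, 4]), (true, 12, [1, 4, 5]), (true, 11, [0, 4, 6]), (true, 12, [2, 4, 8]),
   (true, 3, [0, 1, 10]), (true, 11, [0, 1, 8]), (true, 11, [0, 3, 4, 5]), (true, 8, [11, 12]),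
   (true, 9, [1, 2, 4]), (true, 11, [3, 4, 7]), (true, 3, [0, 7, 11]), (true, 12, [1, 4, 10]),
   (true, 11, [2, 3, 6]), (true, 10, [0, 1, 2]), (false, 11, [0, 1, 8]), (false, 11, [3, 4, 7]),
   (false, 12, [1, 4, 10]), (false, 4, [0, 3, 5, 11]), (false, 9, [1, 2, 4]),
   (false, 12, [2, 4, 8]), (false, 12, [2, 4, 5]), (false, 3, [0, 7, 11]),
   (false, 11, [2, 3, 6]), (false, 12, [2, 4, 9]), (false, 12, [0, 4, 7]),
   (false, 12, [1, 4, 5]), (false, 10, [0, 1, 2]), (false, 12, [1, 3, 4]), (false, 4, [0, 3, 5]),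
   (false, 3, [0, 1, 10]), (false, 11, [0, 4, 6]), (false, 11, [0, 3, 4]), (false, 2, [6, 7]),
   (false, 2, [4, 10, 12]), (false, 11, [2, 3, 10]), (false, 3, [6, 9]), (false, 8, [11, 12]),
   (true, 11, [0, 3, 9]), (false, 11, [0, 3, 9]), (true, 1, [2, 3, 10]), (true, 11, [1, 2, 7]),
   (true, 11, [0, 3, 5]), (true, 11, [0, 3, 9]), (true, 11, [3, 4, 10]), (true, 9, [0, 2, 3]),
   (true, 3, [0, 2, 7]), (true, 2, [0, 4, 6]), (true, 4, [7, 9]), (true, 11, [0, 1, 2]),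
   (false, 3, [0, 2, 7]), (false, 11, [1, 2, 7]), (false, 11, [0, 3, 5]), (false, 9, [0, 2, 3]),
   (false, 11, [0, 3, 9]), (false, 1, [2, 3, 10]), (false, 11, [3, 4, 10]),
   (false, 11, [0, 1, 2]), (false, 2, [0, 4, 6]), (false, 4, [7, 9]), (true, 12, [0, 1, 8]),
   (true, 0, [1, 3, 8]), (true, 12, [0, 1, 10]), (true, 11, [3, 4, 7]), (true, 12, [0, 1, 4]),
   (true, 0, [1, 4, 10]), (true, 11, [0, 3, 4]), (true, 3, [0, 4, 7]), (true, 10, [1, 2, 4]),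
   (true, 3, [0, 4, 6]), (true, 1, [3, 9, 12]), (false, 1, [3, 9, 12]), (false, 3, [0, 4, 7]),
   (false, 3, [0, 4, 6]), (false, 10, [1, 2, 4]), (false, 0, [1, 4, 10]), (false, 12, [0, 1, 4]),
   (false, 11, [3, 4, 7]), (false, 0, [1, 3, 8]), (false, 12, [0, 1, 10]),
   (false, 12, [0, 1, 8]), (false, 11, [0, 3, 4]), (true, 11, [1, 3, 4]), (true, 2, [5, 7]),
   (true, 12, [2, 4, 9]), (true, 3, [1, 6, 11]), (true, 1, [3, 4, 9]), (true, 3, [0, 1, 10]),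
   (true, 2, [5, 7, 11]), (true, 9, [2, 3, 4]), (true, 3, [0, 1, 6, 11]), (true, 11, [2, 3, 8]),
   (true, 12, [0, 4, 7]), (true, 12, [0, 2, 4, 9]), (true, 11, [1, 2, 7]),
   (true, 1, [3, 4, 9, 11]), (true, 11, [0, 3, 4]), (true, 11, [2, 3, 10]), (true, 3, [0, 1, 4]),
   (true, 2, [7, 9]), (true, 0, [8, 10]), (true, 3, [2, 4, 8]), (true, 2, [1, 5, 7]),
   (true, 4, [0, 7, 11]), (true, 11, [0, 1, 8]), (true, 12, [0, 4, 6]), (true, 2, [3, 4, 10]),
   (true, 2, [7, 9, 11]), (true, 3, [0, 1, 10, 11]), (false, 11, [0, 1, 3, 10]),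
   (false, 12, [0, 2, 4, 9]), (false, 1, [3, 4, 9, 11]), (false, 3, [0, 1, 4]),
   (false, 3, [0, 1, 6, 11]), (false, 2, [5, 7, 11]), (false, 2, [3, 4, 10]),
   (false, 2, [1, 5, 7]), (false, 11, [0, 1, 10]), (false, 11, [2, 3, 10]),
   (false, 11, [0, 1, 8]), (false, 12, [0, 4, 6]), (false, 11, [1, 2, 7]),
   (false, 2, [7, 9, 11]), (false, 3, [2, 4, 8]), (false, 4, [0, 7, 11]), (false, 11, [0, 3, 4]),
   (false, 11, [2, 3, 8]), (false, 9, [2, 3, 4]), (false, 2, [7, 9]), (false, 1, [3, 4, 9]),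
   (false, 12, [2, 4, 9]), (false, 3, [1, 6, 11]), (false, 12, [0, 4, 7]),
   (false, 11, [1, 3, 4]), (false, 0, [8, 10]), (false, 2, [5, 7]), (true, 4, [6, 7]),
   (true, 11, [0, 3, 5]), (true, 11, [0, 4, 6]), (true, 11, [1, 3, 8]), (true, 12, [0, 4, 8]),
   (true, 8, [1, 3, 4]), (true, 1, [2, 3, 10]), (true, 0, [5, 7]), (true, 3, [5, 8]),
   (true, 12, [0, 2, 7]), (true, 1, [9, 10]), (true, 11, [1, 2, 4]), (true, 0, [4, 10, 12]),
   (true, 12, [2, 3, 4]), (true, 4, [1, 2, 7]), (true, 12, [1, 4, 5]), (true, 2, [0, 4, 7]),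
   (true, 8, [0, 3, 4]), (true, 12, [0, 1, 2]), (false, 11, [0, 3, 5]), (false, 12, [0, 1, 2]),
   (false, 4, [1, 2, 7]), (false, 8, [1, 3, 4]), (false, 2, [0, 4, 7]), (false, 12, [0, 2, 7]),
   (false, 0, [4, 10, 12]), (false, 11, [1, 3, 8]), (false, 11, [1, 2, 4]),
   (false, 1, [2, 3, 10]), (false, 8, [0, 3, 4]), (false, 11, [0, 4, 6]), (false, 12, [2, 3, 4]),
   (false, 12, [1, 4, 5]), (false, 12, [0, 4, 8]), (false, 1, [9, 10]), (false, 3, [5, 8]),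
   (false, 4, [6, 7]), (false, 0, [5, 7]), (true, 11, [2, 3, 8]), (true, 0, [6, 8]),
   (true, 11, [2, 3, 4]), (true, 11, [2, 4, 5]), (true, 11, [0, 2, 3]), (true, 1, [5, 6]),
   (true, 4, [6, 10]), (true, 2, [3, 9, 12]), (true, 0, [3, 6, 8]), (true, 12, [0, 1, 9]),
   (true, 2, [3, 4, 7]), (true, 11, [1, 3, 8]), (true, 11, [5, 8]), (true, 2, [1, 3, 9, 12]),
   (true, 1, [2, 3, 10]), (false, 11, [1, 3, 8]), (false, 1, [2, 3, 9, 12]),
   (false, 11, [2, 4, 5]), (false, 0, [3, 6, 8]), (false, 4, [6, 10]), (false, 1, [3, 9, 12]),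
   (false, 2, [3, 4, 7]), (false, 1, [2, 3, 10]), (false, 11, [2, 3, 4]), (false, 11, [0, 2, 3]),
   (false, 12, [0, 1, 9]), (false, 11, [5, 8]), (false, 11, [2, 3, 8]), (false, 0, [6, 8]),
   (false, 1, [5, 6]), (true, 11, [6, 10]), (true, 11, [0, 1, 2]), (true, 0, [2, 4, 9]),
   (true, 1, [2, 3, 10]), (true, 12, [0, 2, 3]), (true, 0, [2, 3, 6]), (true, 11, [0, 1, 8]),
   (true, 11, [2, 3, 8]), (true, 11, [0, 6, 10]), (false, 11, [0, 1, 2]), (false, 0, [2, 4, 9]),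
   (false, 0, [6, 10, 11]), (false, 11, [0, 1, 8]), (false, 1, [2, 3, 10]),
   (false, 11, [2, 3, 8]), (false, 0, [2, 3, 6]), (false, 12, [0, 2, 3]), (false, 0, [6, 10]),
   (true, 0, [2, 4, 9]), (true, 2, [3, 9, 12]), (true, 3, [1, 2, 7]), (true, 11, [3, 4, 9]),
   (true, 11, [2, 3, 4]), (true, 11, [0, 1, 10]), (true, 10, [0, 1, 2]), (true, 11, [0, 3, 4]),
   (true, 11, [0, 4, 8]), (true, 11, [0, 2, 5]), (true, 3, [2, 4, 5]), (false, 10, [0, 1, 2]),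
   (false, 2, [3, 9, 12]), (false, 3, [1, 2, 7]), (false, 3, [2, 4, 5]), (false, 11, [0, 2, 5]),
   (false, 11, [0, 1, 10]), (false, 11, [2, 3, 4]), (false, 11, [3, 4, 9]),
   (false, 11, [0, 4, 8]), (false, 0, [2, 4, 9]), (false, 11, [0, 3, 4]), (true, 12, [0, 4, 6]),
   (true, 1, [3, 9, 12]), (true, 12, [0, 3, 5]), (true, 3, [11, 12]), (true, 3, [2, 11, 12]),
   (true, 2, [5, 9]), (true, 2, [9, 11, 12]), (true, 3, [7, 11, 12]), (true, 3, [4, 11, 12]),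
   (true, 12, [0, 1, 4]), (true, 11, [3, 4, 10]), (true, 5, [0, 3, 4]), (true, 0, [1, 3, 4]),
   (true, 11, [0, 2, 3]), (true, 1, [0, 7, 11]), (true, 12, [0, 2, 4, 6]), (true, 11, [2, 4, 8]),
   (true, 12, [1, 2, 7]), (false, 2, [0, 4, 6, 12]), (false, 11, [3, 4, 10]),
   (false, 1, [0, 7, 11]), (false, 2, [9, 11, 12]), (false, 3, [4, 11, 12]),
   (false, 11, [2, 4, 8]), (false, 3, [7, 11, 12]), (false, 2, [0, 4, 6]),
   (false, 1, [3, 9, 12]), (false, 0, [1, 3, 4]), (false, 11, [0, 2, 3]), (false, 5, [0, 3, 4]),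
   (false, 2, [3, 11, 12]), (false, 12, [0, 1, 4]), (false, 12, [1, 2, 7]),
   (false, 12, [0, 3, 5]), (false, 2, [11, 12]), (false, 2, [5, 9]), (true, 12, [1, 4, 6]),
   (true, 11, [1, 3, 5]), (true, 11, [2, 3, 4]), (true, 2, [3, 4, 7]), (true, 12, [0, 3, 5]),
   (true, 11, [1, 4, 5]), (true, 4, [2, 3, 6]), (true, 12, [5, 7]), (true, 12, [1, 2, 7]),
   (true, 12, [1, 2, 4]), (true, 12, [0, 1, 8]), (true, 11, [0, 2, 5]), (false, 4, [2, 3, 6]),
   (false, 12, [1, 2, 7]), (false, 12, [1, 2, 4]), (false, 12, [0, 3, 5]), (false, 2, [3, 4, 7]),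
   (false, 11, [1, 4, 5]), (false, 12, [1, 4, 6]), (false, 11, [2, 3, 4]),
   (false, 11, [1, 3, 5]), (false, 11, [0, 2, 5]), (false, 12, [5, 7]), (false, 12, [0, 1, 8]),
   (true, 1, [3, 9, 12]), (true, 11, [2, 3, 4]), (true, 11, [0, 1, 8]), (true, 3, [2, 4, 5]),
   (true, 4, [2, 3, 6]), (true, 12, [0, 2, 5]), (true, 3, [2, 4, 5, 11]), (true, 11, [3, 4, 9]),
   (true, 1, [2, 3, 9, 12]), (true, 4, [2, 3, 6, 11]), (true, 1, [0, 7, 11]),
   (true, 2, [1, 3, 5]), (true, 11, [0, 1, 10]), (true, 1, [5, 6]), (true, 12, [0, 3, 5]),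
   (true, 11, [5, 7]), (true, 5, [0, 1, 2]), (true, 11, [0, 1, 9]), (true, 1, [6, 10]),
   (true, 2, [4, 10, 12]), (false, 2, [3, 4, 6, 11]), (false, 3, [2, 4, 5, 11]),
   (false, 3, [2, 4, 5]), (false, 1, [2, 3, 9, 12]), (false, 11, [0, 1, 10]),
   (false, 2, [4, 10, 12]), (false, 1, [0, 7, 11]), (false, 2, [1, 3, 5]),
   (false, 11, [0, 1, 9]), (false, 11, [3, 4, 9]), (false, 5, [0, 1, 2]), (false, 12, [0, 2, 5]),
   (false, 11, [0, 1, 8]), (false, 1, [6, 10]), (false, 12, [0, 3, 5]), (false, 2, [4, 6, 11]),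
   (false, 1, [5, 6]), (false, 1, [3, 9, 12]), (false, 11, [5, 7]), (true, 2, [3, 4, 7]),
   (true, 12, [1, 2, 7]), (true, 12, [0, 1, 9]), (false, 12, [1, 2, 7]), (false, 2, [3, 4, 7]),
   (false, 12, [0, 1, 9]), (true, 12, [2, 3, 10]), (true, 12, [1, 2, 4]), (true, 11, [1, 2, 7]),
   (true, 5, [11, 12]), (true, 11, [1, 4, 5]), (true, 12, [3, 4, 7]), (true, 12, [8, 9]),
   (true, 2, [3, 4, 10]), (true, 2, [0, 4, 6]), (true, 11, [1, 3, 8]), (true, 11, [0, 1, 9]),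
   (true, 12, [0, 3, 4]), (true, 4, [0, 2, 3]), (true, 11, [0, 2, 5]), (true, 3, [0, 1, 8]),
   (true, 1, [2, 4, 8]), (true, 1, [2, 3, 8]), (true, 2, [0, 3, 5]), (true, 12, [0, 1, 4]),
   (false, 11, [1, 2, 7]), (false, 11, [0, 1, 9]), (false, 2, [0, 4, 6]), (false, 2, [0, 3, 5]),
   (false, 2, [3, 4, 10]), (false, 12, [0, 1, 4]), (false, 1, [2, 3, 8]), (false, 4, [0, 2, 3]),
   (false, 1, [2, 4, 8]), (false, 11, [1, 4, 5]), (false, 12, [0, 3, 4]), (false, 12, [1, 2, 4]),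
   (false, 12, [3, 4, 7]), (false, 11, [0, 2, 5]), (false, 3, [0, 1, 8]), (false, 11, [1, 3, 8]),
   (false, 12, [2, 3, 10]), (false, 5, [11, 12]), (false, 12, [8, 9]), (true, 1, [8, 10]),
   (true, 3, [1, 2, 6]), (true, 12, [0, 3, 4]), (true, 11, [2, 4, 8]), (true, 12, [1, 3, 8]),
   (true, 12, [2, 4, 9]), (true, 12, [0, 1, 2]), (true, 0, [6, 8]), (true, 2, [1, 3, 5]),
   (true, 2, [4, 6, 11]), (true, 11, [5, 9]), (true, 11, [2, 4, 5]), (true, 11, [1, 3, 4]),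
   (true, 11, [0, 3, 5]), (true, 6, [0, 2, 3]), (true, 3, [0, 2, 5]), (true, 3, [0, 2, 7]),
   (true, 6, [0, 2, 3, 11]), (true, 1, [8, 10, 11]), (true, 1, [3, 4, 7]), (true, 2, [0, 1, 10]),
   (true, 0, [1, 6, 11]), (true, 11, [2, 5, 9]), (true, 12, [0, 4, 7]), (true, 3, [0, 1, 4]),
   (true, 0, [2, 6, 8]), (false, 3, [0, 2, 6, 11]), (false, 12, [1, 3, 8]),
   (false, 2, [0, 6, 8]), (false, 2, [1, 3, 5]), (false, 2, [0, 1, 10]), (false, 11, [2, 4, 5]),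
   (false, 3, [0, 2, 7]), (false, 1, [3, 4, 7]), (false, 3, [0, 1, 4]), (false, 11, [2, 4, 8]),
   (false, 0, [1, 6, 11]), (false, 12, [2, 4, 9]), (false, 2, [5, 9, 11]), (false, 3, [0, 2, 5]),
   (false, 3, [1, 2, 6]), (false, 11, [0, 3, 5]), (false, 11, [1, 8, 10]),
   (false, 11, [1, 3, 4]), (false, 12, [0, 3, 4]), (false, 2, [4, 6, 11]),
   (false, 12, [0, 1, 2]), (false, 12, [0, 4, 7]), (false, 3, [2, 6, 11]), (false, 11, [8, 10]),
   (false, 0, [3, 6, 11]), (false, 2, [5, 9]), (false, 0, [6, 11]), (false, 2, [6, 8]),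
   (true, 12, [1, 3, 4]), (true, 3, [6, 7]), (true, 1, [3, 4, 9]), (true, 12, [0, 2, 5]),
   (true, 2, [0, 3, 9]), (true, 11, [0, 3, 4]), (true, 12, [0, 1, 8]), (true, 11, [2, 4, 5]),
   (true, 12, [0, 1, 9]), (true, 3, [0, 6, 7]), (true, 12, [9, 10]), (true, 3, [1, 2, 4]),
   (true, 11, [2, 4, 8]), (true, 3, [0, 1, 2]), (true, 12, [1, 2, 6]), (true, 2, [0, 4, 8]),
   (true, 4, [0, 3, 5]), (true, 11, [3, 4, 10]), (true, 9, [0, 1, 4]), (false, 0, [3, 6, 7]),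
   (false, 12, [0, 2, 5]), (false, 12, [1, 2, 6]), (false, 3, [0, 1, 2]), (false, 11, [2, 4, 5]),
   (false, 1, [3, 4, 9]), (false, 4, [0, 3, 5]), (false, 3, [1, 2, 4]), (false, 11, [0, 3, 4]),
   (false, 12, [0, 1, 8]), (false, 2, [0, 4, 8]), (false, 11, [2, 4, 8]), (false, 2, [0, 3, 9]),
   (false, 11, [3, 4, 10]), (false, 0, [6, 7]), (false, 9, [0, 1, 4]), (false, 12, [1, 3, 4]),
   (false, 12, [0, 1, 9]), (false, 12, [9, 10]), (true, 11, [1, 3, 4]), (true, 11, [1, 2, 4]),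
   (true, 12, [0, 1, 4]), (true, 11, [1, 4, 10]), (true, 7, [11, 12]), (true, 3, [0, 2, 7]),
   (true, 1, [4, 10, 12]), (true, 3, [0, 1, 2]), (true, 11, [1, 2, 4, 10]),
   (true, 2, [0, 1, 10]), (true, 12, [1, 4, 5]), (true, 11, [1, 2, 7]), (true, 1, [0, 7, 11]),
   (true, 1, [2, 4, 5]), (true, 2, [0, 3, 9]), (true, 4, [0, 1, 9]), (true, 2, [0, 3, 9, 11]),
   (true, 11, [0, 3, 4]), (true, 4, [1, 3, 8]), (false, 1, [2, 4, 10, 11]),
   (false, 4, [0, 1, 9]), (false, 2, [0, 3, 9, 11]), (false, 11, [0, 3, 4]),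
   (false, 12, [0, 1, 4]), (false, 1, [2, 10, 11]), (false, 3, [0, 2, 7]), (false, 1, [2, 4, 5]),
   (false, 12, [1, 4, 5]), (false, 2, [0, 1, 10]), (false, 2, [0, 3, 9]), (false, 3, [0, 1, 2]),
   (false, 1, [0, 7, 11]), (false, 11, [1, 2, 7]), (false, 1, [4, 10, 12]),
   (false, 4, [1, 3, 8]), (false, 7, [11, 12]), (false, 11, [1, 3, 4]), (true, 12, [0, 1, 8]),
   (true, 12, [2, 4, 5]), (true, 12, [0, 4, 8]), (true, 0, [4, 10, 12]), (true, 3, [0, 1, 2]),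
   (true, 11, [2, 3, 8]), (true, 12, [1, 3, 8]), (true, 1, [5, 9]), (true, 8, [0, 1, 4]),
   (true, 4, [5, 10]), (true, 1, [2, 10, 11]), (true, 2, [0, 1, 10]), (true, 11, [1, 2, 7]),
   (true, 12, [0, 3, 5]), (true, 12, [1, 4, 6]), (true, 0, [6, 8]), (false, 11, [1, 2, 7]),
   (false, 0, [4, 10, 12]), (false, 8, [0, 1, 4]), (false, 12, [2, 4, 5]),
   (false, 11, [2, 3, 8]), (false, 12, [1, 4, 6]), (false, 12, [0, 1, 8]),
   (false, 1, [2, 10, 11]), (false, 12, [0, 4, 8]), (false, 2, [0, 1, 10]),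
   (false, 12, [1, 3, 8]), (false, 0, [6, 8]), (false, 3, [0, 1, 2]), (false, 12, [0, 3, 5]),
   (false, 1, [5, 9]), (false, 4, [5, 10]), (true, 2, [0, 3, 9]), (true, 12, [0, 2, 7]),
   (true, 11, [0, 1, 9]), (false, 12, [0, 2, 7]), (false, 2, [0, 3, 9]), (false, 11, [0, 1, 9]),
   (true, 12, [0, 1, 2]), (true, 11, [2, 4, 9]), (true, 2, [3, 9, 12]), (true, 2, [4, 10, 12]),
   (true, 11, [2, 4, 5]), (true, 12, [0, 4, 7]), (true, 11, [0, 3, 4]), (true, 4, [0, 2, 7]),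
   (true, 1, [2, 10, 11]), (true, 11, [2, 3, 4, 5]), (true, 11, [2, 4, 8]), (true, 2, [0, 1, 8]),
   (true, 0, [3, 4, 10]), (false, 4, [2, 3, 5, 11]), (false, 11, [2, 4, 8]),
   (false, 2, [0, 1, 8]), (false, 0, [3, 4, 10]), (false, 2, [4, 10, 12]),
   (false, 11, [2, 4, 9]), (false, 2, [3, 9, 12]), (false, 11, [0, 3, 4]),
   (false, 12, [0, 1, 2]), (false, 4, [0, 2, 7]), (false, 1, [2, 10, 11]),
   (false, 4, [3, 5, 11]), (false, 12, [0, 4, 7]), (true, 2, [0, 4, 6]), (true, 12, [2, 3, 10]),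
   (false, 2, [0, 4, 6]), (false, 12, [2, 3, 10]), (true, 12, [0, 4, 8]), (true, 11, [1, 3, 4]),
   (true, 11, [0, 2, 5]), (true, 2, [4, 10, 12]), (false, 11, [0, 2, 5]), (false, 11, [1, 3, 4]),
   (false, 2, [4, 10, 12]), (false, 12, [0, 4, 8]), (true, 1, [6, 7]), (true, 12, [1, 2, 7]),
   (true, 3, [6, 10]), (true, 11, [0, 2, 5]), (true, 12, [0, 4, 6]), (true, 12, [0, 1, 8]),
   (true, 2, [3, 4, 7]), (true, 3, [0, 1, 10]), (true, 11, [0, 3, 4]), (true, 2, [3, 5, 11]),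
   (true, 11, [0, 1, 9]), (true, 3, [0, 2, 7]), (true, 11, [0, 1, 2]), (true, 11, [1, 3, 5]),
   (true, 0, [1, 3, 8]), (true, 11, [0, 1, 2, 5]), (true, 12, [8, 10]), (true, 0, [2, 3, 10]),
   (true, 0, [2, 3, 8]), (true, 0, [2, 4, 9]), (true, 1, [0, 6, 7]), (true, 2, [3, 4, 7, 11]),
   (true, 2, [4, 10, 12]), (true, 1, [3, 9, 12]), (true, 11, [3, 4, 10]), (true, 0, [1, 2, 6]),
   (true, 2, [3, 4, 5, 11]), (false, 2, [3, 4, 5, 11]), (false, 7, [2, 3, 4, 11]),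
   (false, 2, [0, 1, 5, 11]), (false, 11, [1, 3, 5]), (false, 11, [0, 3, 4]),
   (false, 0, [2, 4, 9]), (false, 0, [2, 3, 10]), (false, 0, [1, 2, 6]), (false, 2, [4, 10, 12]),
   (false, 11, [3, 4, 10]), (false, 3, [0, 1, 10]), (false, 12, [0, 4, 6]),
   (false, 0, [1, 6, 7]), (false, 2, [3, 5, 11]), (false, 3, [0, 2, 7]), (false, 12, [1, 2, 7]),
   (false, 11, [0, 1, 9]), (false, 2, [1, 5, 11]), (false, 0, [2, 3, 8]), (false, 1, [3, 9, 12]),
   (false, 12, [8, 10]), (false, 3, [6, 10]), (false, 0, [1, 3, 8]), (false, 12, [0, 1, 8]),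
   (false, 0, [6, 7]), (true, 12, [0, 4, 8]), (true, 0, [2, 4, 8]), (true, 2, [1, 4, 5]),
   (true, 3, [0, 7, 11]), (true, 1, [7, 10]), (true, 12, [1, 3, 5]), (true, 12, [1, 2, 6]),
   (true, 4, [6, 8]), (true, 11, [2, 3, 8]), (true, 0, [9, 10]), (true, 12, [0, 1, 8]),
   (true, 2, [0, 4, 6]), (false, 2, [1, 4, 5]), (false, 2, [0, 4, 6]), (false, 3, [0, 7, 11]),
   (false, 0, [9, 10]), (false, 12, [0, 1, 8]), (false, 12, [1, 2, 6]), (false, 0, [2, 4, 8]),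
   (false, 12, [1, 3, 5]), (false, 11, [2, 3, 8]), (false, 12, [0, 4, 8]), (false, 1, [7, 10]),
   (false, 4, [6, 8]), (true, 3, [7, 10]), (true, 12, [1, 3, 5]), (true, 3, [5, 10]),
   (true, 1, [5, 6]), (true, 11, [0, 3, 9]), (true, 12, [2, 4, 9]), (true, 12, [6, 7]),
   (true, 11, [0, 1, 4]), (true, 12, [1, 4, 5]), (true, 0, [7, 9]), (true, 4, [1, 5, 11]),
   (false, 4, [1, 5, 11]), (false, 12, [1, 4, 5]), (false, 12, [1, 3, 5]),
   (false, 11, [0, 1, 4]), (false, 12, [2, 4, 9]), (false, 1, [5, 6]), (false, 11, [0, 3, 9]),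
   (false, 3, [5, 10]), (false, 3, [7, 10]), (false, 12, [6, 7]), (false, 0, [7, 9]),
   (true, 11, [1, 3, 8]), (true, 1, [0, 7, 11]), (true, 11, [0, 3, 4]), (true, 11, [0, 4, 7]),
   (true, 12, [2, 3, 8]), (true, 3, [6, 9]), (true, 11, [0, 1, 4]), (true, 11, [0, 1, 8]),
   (true, 2, [1, 4, 5]), (true, 0, [1, 5, 11]), (true, 12, [0, 3, 5]), (true, 11, [0, 3, 9]),
   (true, 11, [3, 4, 9]), (true, 1, [2, 4, 8]), (true, 2, [0, 1, 9]), (true, 1, [8, 10]),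
   (true, 1, [2, 10, 11]), (true, 0, [7, 10]), (true, 11, [1, 2, 7]), (true, 1, [0, 3, 7, 11]),
   (true, 11, [0, 3, 4, 9]), (true, 0, [1, 2, 5, 11]), (true, 3, [0, 6, 9]),
   (true, 1, [2, 3, 10]), (true, 9, [1, 3, 4]), (false, 1, [0, 3, 7, 11]),
   (false, 1, [0, 2, 5, 11]), (false, 11, [0, 3, 4, 9]), (false, 2, [0, 1, 9]),
   (false, 11, [0, 3, 4]), (false, 11, [1, 3, 8]), (false, 2, [1, 4, 5]), (false, 3, [0, 6, 9]),
   (false, 11, [0, 3, 9]), (false, 1, [2, 10, 11]), (false, 11, [0, 1, 8]),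
   (false, 1, [2, 3, 10]), (false, 11, [1, 2, 7]), (false, 1, [0, 2, 5]), (false, 11, [0, 1, 2]),
   (false, 12, [2, 3, 8]), (false, 11, [0, 1, 4]), (false, 9, [1, 3, 4]), (false, 11, [0, 4, 7]),
   (false, 1, [0, 7, 11]), (false, 11, [3, 4, 9]), (false, 12, [0, 3, 5]), (false, 1, [8, 10]),
   (false, 1, [2, 4, 8]), (false, 3, [6, 9]), (false, 0, [7, 10]), (true, 3, [5, 10]),
   (true, 12, [6, 10]), (true, 2, [1, 3, 4]), (true, 1, [8, 9]), (true, 3, [0, 7, 11]),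
   (true, 4, [3, 5, 11]), (true, 1, [8, 9, 11]), (true, 12, [1, 4, 6]), (true, 12, [2, 3, 10]),
   (true, 4, [6, 11]), (true, 12, [1, 2, 3, 10]), (false, 2, [1, 3, 10, 12]),
   (false, 2, [1, 10, 12]), (false, 3, [0, 7, 11]), (false, 12, [1, 4, 6]),
   (false, 11, [1, 8, 9]), (false, 4, [3, 5, 11]), (false, 4, [6, 11]), (false, 2, [1, 3, 4]),
   (false, 3, [5, 10]), (false, 11, [8, 9]), (false, 12, [6, 10]), (true, 12, [5, 7]),
   (true, 4, [2, 10, 11]), (true, 12, [2, 4, 9]), (true, 2, [3, 5, 11]), (true, 11, [0, 2, 5]),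
   (true, 11, [2, 3, 8]), (true, 12, [5, 6]), (true, 1, [3, 9, 12]), (true, 12, [1, 2, 7]),
   (true, 3, [8, 10]), (true, 11, [0, 1, 8]), (true, 12, [0, 4, 7]), (true, 3, [2, 8, 10]),
   (true, 4, [0, 2, 7]), (true, 11, [0, 3, 5]), (true, 12, [2, 5, 6]), (true, 2, [1, 4, 5]),
   (true, 4, [1, 2, 10, 11]), (true, 5, [0, 1, 2]), (true, 12, [2, 5, 7]), (true, 12, [0, 1, 4]),
   (true, 11, [0, 2, 3, 5]), (true, 5, [0, 1, 2, 11]), (true, 0, [1, 3, 8]),
   (true, 5, [0, 3, 4]), (true, 12, [0, 4, 6]), (true, 12, [3, 5, 6]), (true, 12, [1, 2, 6]),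
   (true, 3, [0, 7, 11]), (false, 11, [0, 1, 2, 5]), (false, 1, [2, 4, 10, 11]),
   (false, 2, [0, 3, 5, 11]), (false, 5, [0, 3, 4]), (false, 1, [3, 9, 12]),
   (false, 2, [0, 3, 5]), (false, 12, [0, 4, 6]), (false, 12, [1, 2, 7]), (false, 12, [2, 5, 6])]

theorem run3 : run ops3 st3 st2 = true := by
  decide +kernel

end Pool.Agent.H71.ZW
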