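import Pool.Agent.H71.ZW.CertE

set_option autoImplicit false

/-!
# The certificate, part 6
-/

namespace Pool.Agent.H71.ZW

/-- A state of the reduction. -/
def st6 : ℕ := 0x5

/-- Elementary expansions and collapses. -/
def ops6 : List (Bool × ℕ × List ℕ) :=
  [(true, 0, [9, 10]), (true, 3, [0, 4, 10, 12]), (true, 12, [1, 4, 6]), (true, 12, [1, 3, 8]),
   (true, 1, [3, 4, 11]), (true, 0, [4, 5, 12]), (true, 4, [0, 1, 8]), (true, 11, [0, 1, 2]),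
   (true, 12, [0, 4, 6]), (true, 2, [1, 10, 12]), (true, 3, [1, 2, 6]), (true, 0, [3, 4, 5, 12]),
   (true, 4, [5, 9]), (true, 0, [9, 10, 12]), (true, 9, [1, 2, 3, 11]), (true, 12, [0, 2, 10]),
   (true, 12, [4, 9, 10]), (true, 0, [5, 8]), (true, 11, [0, 3, 9]), (true, 2, [1, 3, 10, 12]),
   (true, 11, [0, 1, 9]), (true, 0, [1, 9, 10]), (true, 0, [5, 8, 12]), (true, 0, [2, 9, 10]),
   (true, 9, [5, 11]), (false, 3, [1, 2, 10, 12]), (false, 4, [0, 3, 10, 12]),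
   (false, 9, [1, 2, 3, 11]), (false, 0, [3, 4, 5, 12]), (false, 11, [0, 1, 2]),
   (false, 12, [4, 9, 10]), (false, 11, [0, 3, 9]), (false, 12, [0, 5, 8]),
   (false, 0, [2, 9, 10]), (false, 12, [1, 4, 6]), (false, 9, [1, 2, 11]),
   (false, 3, [1, 10, 12]), (false, 3, [1, 2, 6]), (false, 4, [0, 1, 8]), (false, 0, [4, 5, 12]),
   (false, 0, [9, 10, 12]), (false, 0, [1, 9, 10]), (false, 12, [0, 2, 10]),
   (false, 11, [0, 1, 9]), (false, 4, [0, 10, 12]), (false, 12, [0, 4, 6]),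
   (false, 12, [1, 3, 8]), (false, 1, [3, 4, 11]), (false, 0, [9, 10]), (false, 2, [3, 8, 12]),
   (false, 12, [5, 8]), (false, 9, [5, 11]), (false, 4, [5, 9]), (true, 2, [3, 9, 12]),
   (true, 4, [6, 10]), (true, 3, [0, 1, 2]), (true, 3, [0, 10, 12]), (true, 4, [3, 8, 12]),
   (true, 2, [1, 3, 9, 12]), (true, 0, [1, 2, 11]), (true, 4, [6, 10, 12]), (true, 4, [5, 6]),
   (true, 3, [0, 2, 4]), (true, 1, [4, 5, 12]), (true, 4, [5, 11]), (false, 1, [2, 3, 9, 12]),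
   (false, 4, [3, 8, 12]), (false, 4, [6, 10, 12]), (false, 3, [0, 2, 4]),
   (false, 0, [1, 2, 11]), (false, 3, [0, 1, 2]), (false, 1, [3, 9, 12]),
   (false, 3, [0, 10, 12]), (false, 1, [4, 5, 12]), (false, 4, [5, 6]), (false, 4, [5, 11]),
   (false, 4, [6, 10]), (true, 2, [1, 3, 8]), (true, 11, [0, 1, 9]), (true, 3, [8, 9]),
   (true, 4, [0, 10, 12]), (true, 2, [3, 8, 12]), (true, 3, [9, 10]), (true, 9, [8, 11]),
   (true, 1, [5, 6]), (true, 12, [0, 1, 2]), (true, 12, [1, 4, 6]), (true, 4, [1, 10, 12]),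
   (false, 12, [0, 1, 2]), (false, 11, [0, 1, 9]), (false, 2, [1, 3, 8]), (false, 2, [3, 8, 12]),
   (false, 4, [0, 10, 12]), (false, 4, [1, 10, 12]), (false, 12, [1, 4, 6]), (false, 9, [8, 11]),
   (false, 1, [5, 6]), (false, 3, [8, 9]), (false, 3, [9, 10]), (true, 9, [1, 2, 11]),
   (true, 2, [8, 11]), (true, 9, [1, 2, 3, 11]), (true, 3, [4, 5, 12]), (true, 3, [0, 10, 12]),
   (true, 3, [5, 11]), (true, 0, [1, 10, 12]), (true, 3, [0, 4, 6]), (true, 2, [6, 10]),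
   (true, 3, [1, 5, 11]), (true, 12, [8, 10]), (true, 2, [1, 8, 11]), (true, 0, [6, 8]),
   (true, 1, [3, 4, 9]), (true, 12, [0, 8, 10]), (true, 2, [3, 9, 12]), (true, 2, [1, 3, 9, 12]),
   (true, 12, [1, 4, 6]), (true, 1, [3, 4, 11]), (false, 9, [1, 2, 3, 12]),
   (false, 3, [1, 2, 9, 11]), (false, 3, [1, 5, 11]), (false, 3, [4, 5, 12]),
   (false, 1, [3, 4, 11]), (false, 3, [0, 4, 6]), (false, 12, [0, 8, 10]), (false, 1, [3, 4, 9]),
   (false, 12, [1, 4, 6]), (false, 12, [8, 10]), (false, 2, [1, 8, 11]), (false, 3, [5, 11]),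
   (false, 0, [1, 10, 12]), (false, 2, [8, 11]), (false, 3, [0, 10, 12]), (false, 3, [1, 2, 11]),
   (false, 2, [6, 10]), (false, 0, [6, 8]), (true, 12, [0, 2, 4]), (true, 0, [6, 9]),
   (true, 12, [5, 8]), (true, 1, [5, 10]), (true, 2, [1, 10, 12]), (true, 4, [3, 8, 12]),
   (true, 12, [8, 9]), (true, 3, [0, 2, 10]), (true, 12, [3, 4, 9]), (true, 12, [0, 5, 8]),
   (true, 12, [2, 4, 9]), (true, 12, [0, 1, 8]), (false, 2, [1, 10, 12]), (false, 12, [3, 4, 9]),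
   (false, 12, [2, 4, 9]), (false, 12, [0, 2, 4]), (false, 12, [0, 5, 8]), (false, 0, [6, 9]),
   (false, 12, [0, 1, 8]), (false, 4, [3, 8, 12]), (false, 1, [5, 10]), (false, 3, [0, 2, 10]),
   (false, 12, [8, 9]), (false, 12, [5, 8]), (true, 3, [2, 5]), (true, 8, [0, 2, 4]),
   (true, 4, [1, 3, 8]), (true, 4, [6, 9]), (true, 3, [6, 10]), (false, 4, [1, 3, 8]),
   (false, 8, [0, 2, 4]), (false, 4, [6, 9]), (false, 3, [2, 5]), (false, 3, [6, 10]),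
   (true, 11, [0, 3, 9]), (true, 1, [3, 4, 11]), (true, 4, [1, 3, 8]), (true, 3, [1, 2, 11]),
   (true, 1, [10, 11]), (true, 3, [2, 5]), (true, 3, [0, 4, 6]), (true, 0, [1, 4, 6]),
   (true, 12, [1, 2, 6]), (true, 0, [5, 10]), (true, 0, [3, 4, 9]), (true, 3, [5, 8]),
   (true, 3, [2, 4, 9]), (true, 12, [0, 1, 8]), (true, 2, [1, 10, 12]), (true, 3, [4, 5, 8]),
   (false, 3, [1, 2, 11]), (false, 4, [1, 3, 8]), (false, 0, [1, 4, 6]), (false, 3, [2, 4, 9]),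
   (false, 3, [0, 4, 6]), (false, 0, [3, 4, 9]), (false, 12, [1, 2, 6]), (false, 2, [1, 10, 12]),
   (false, 3, [4, 5, 8]), (false, 12, [0, 1, 8]), (false, 0, [5, 10]), (false, 1, [3, 4, 11]),
   (false, 11, [0, 3, 9]), (false, 3, [2, 5]), (false, 3, [5, 8]), (false, 1, [10, 11]),
   (true, 0, [9, 10]), (true, 0, [3, 4, 11]), (true, 3, [8, 10]), (true, 12, [0, 3, 9]),
   (true, 9, [1, 2, 3, 12]), (true, 3, [1, 2, 6]), (true, 3, [1, 4, 6]), (true, 0, [3, 9, 10]),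
   (true, 1, [6, 10]), (true, 0, [4, 9, 10]), (true, 9, [1, 2, 11]), (true, 8, [0, 2, 4]),
   (true, 3, [1, 9, 10]), (true, 1, [0, 4, 6]), (true, 1, [4, 6, 10]), (true, 12, [0, 1, 8]),
   (true, 4, [1, 3, 8]), (false, 9, [1, 2, 3, 12]), (false, 4, [1, 6, 10]),
   (false, 3, [1, 2, 6]), (false, 8, [0, 2, 4]), (false, 0, [3, 4, 11]), (false, 4, [1, 3, 8]),
   (false, 12, [0, 1, 8]), (false, 9, [1, 2, 11]), (false, 0, [4, 9, 10]),
   (false, 3, [1, 9, 10]), (false, 3, [0, 9, 10]), (false, 1, [0, 4, 6]), (false, 3, [1, 4, 6]),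
   (false, 3, [9, 10]), (false, 12, [0, 3, 9]), (false, 4, [6, 10]), (false, 3, [8, 10]),
   (true, 0, [4, 5, 12]), (true, 12, [0, 2, 4]), (true, 4, [1, 3, 8]), (true, 3, [0, 2, 10]),
   (false, 3, [0, 2, 10]), (false, 0, [4, 5, 12]), (false, 12, [0, 2, 4]), (false, 4, [1, 3, 8]),
   (true, 12, [0, 1, 2]), (true, 3, [5, 11]), (true, 4, [2, 5]), (true, 1, [4, 5, 12]),
   (true, 4, [2, 5, 12]), (true, 4, [6, 8]), (true, 3, [9, 10]), (true, 9, [1, 2, 3, 12]),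
   (true, 4, [2, 3, 5]), (true, 4, [1, 10, 12]), (true, 11, [0, 1, 9]), (true, 0, [1, 2, 11]),
   (true, 3, [0, 10, 12]), (true, 4, [1, 2, 5]), (true, 0, [1, 2, 6]), (true, 1, [2, 4, 9]),
   (true, 3, [0, 2, 4]), (true, 11, [0, 1, 4, 9]), (true, 4, [1, 3, 8]), (true, 2, [0, 4, 6]),
   (true, 4, [0, 6, 8]), (true, 3, [0, 4, 10, 12]), (true, 3, [1, 4, 6]), (true, 0, [11, 12]),
   (true, 0, [3, 4, 11]), (false, 9, [0, 1, 4, 11]), (false, 0, [1, 2, 11]),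
   (false, 4, [0, 3, 10, 12]), (false, 1, [2, 3, 9, 12]), (false, 9, [1, 4, 11]),
   (false, 4, [2, 3, 5]), (false, 1, [2, 4, 9]), (false, 4, [0, 6, 8]), (false, 4, [0, 10, 12]),
   (false, 0, [1, 2, 6]), (false, 4, [1, 2, 5]), (false, 2, [0, 4, 6]), (false, 1, [3, 9, 12]),
   (false, 4, [1, 3, 8]), (false, 3, [1, 4, 6]), (false, 0, [4, 9, 11]), (false, 12, [0, 1, 2]),
   (false, 4, [2, 5, 12]), (false, 3, [0, 4, 11]), (false, 4, [2, 5]), (false, 1, [4, 5, 12]),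
   (false, 3, [4, 11]), (false, 4, [1, 10, 12]), (false, 3, [0, 2, 4]), (false, 0, [11, 12]),
   (false, 3, [9, 10]), (false, 3, [5, 11]), (false, 4, [6, 8]), (true, 2, [6, 8]),
   (true, 1, [6, 9]), (true, 2, [1, 3, 8]), (true, 1, [0, 3, 9]), (false, 2, [1, 3, 8]),
   (false, 1, [0, 3, 9]), (false, 2, [6, 8]), (false, 1, [6, 9]), (true, 12, [0, 1, 2]),
   (true, 12, [1, 4, 6]), (true, 11, [0, 3, 9]), (true, 3, [0, 2, 4]), (true, 3, [1, 2, 6]),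
   (true, 9, [1, 2, 11]), (true, 11, [0, 2, 3, 9]), (true, 3, [6, 10]), (true, 0, [3, 8, 12]),
   (true, 2, [0, 1, 8]), (true, 0, [4, 5, 12]), (true, 0, [5, 8]), (true, 4, [0, 10, 12]),
   (true, 0, [3, 5, 8]), (true, 12, [0, 4, 6]), (true, 1, [2, 4, 9]), (true, 1, [5, 9]),
   (true, 1, [3, 5, 9]), (true, 0, [5, 10]), (true, 3, [4, 5, 8]), (true, 0, [1, 10, 12]),
   (true, 3, [4, 6, 10]), (true, 0, [3, 4, 5, 12]), (true, 1, [3, 4, 9]),
   (false, 3, [0, 2, 9, 11]), (false, 1, [3, 4, 9]), (false, 12, [1, 4, 6]),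
   (false, 5, [0, 3, 4, 12]), (false, 1, [2, 4, 9]), (false, 12, [0, 4, 6]),
   (false, 3, [4, 5, 8]), (false, 3, [4, 6, 10]), (false, 3, [1, 2, 6]), (false, 0, [3, 5, 8]),
   (false, 1, [3, 5, 9]), (false, 0, [1, 10, 12]), (false, 9, [1, 2, 11]),
   (false, 0, [3, 8, 12]), (false, 3, [0, 2, 11]), (false, 3, [0, 2, 4]), (false, 1, [5, 9]),
   (false, 9, [2, 3, 11]), (false, 2, [0, 1, 8]), (false, 9, [2, 11]), (false, 3, [6, 10]),
   (false, 4, [0, 10, 12]), (false, 12, [0, 1, 2]), (false, 5, [0, 3, 12]),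
   (false, 4, [0, 3, 5]), (false, 0, [5, 8]), (false, 0, [5, 10]), (true, 3, [0, 1, 2]),
   (true, 4, [1, 3, 8]), (true, 3, [0, 4, 6]), (true, 3, [2, 11]), (true, 2, [3, 9, 12]),
   (true, 4, [5, 8]), (true, 4, [0, 1, 8]), (true, 4, [0, 10, 12]), (true, 11, [0, 1, 3, 9]),
   (true, 3, [1, 2, 6]), (true, 12, [3, 4, 9]), (true, 2, [1, 3, 9, 12]),
   (true, 4, [1, 2, 3, 8]), (true, 9, [11, 12]), (true, 1, [0, 3, 12]), (true, 3, [0, 1, 2, 9]),
   (true, 12, [1, 4, 6]), (true, 3, [2, 9, 11]), (false, 4, [1, 2, 3, 8]),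
   (false, 1, [0, 3, 9, 11]), (false, 3, [1, 2, 9, 12]), (false, 1, [0, 9, 11]),
   (false, 12, [3, 4, 9]), (false, 3, [0, 4, 6]), (false, 3, [1, 2, 6]),
   (false, 1, [0, 2, 3, 9]), (false, 4, [0, 10, 12]), (false, 12, [1, 4, 6]),
   (false, 4, [0, 1, 8]), (false, 3, [2, 9, 11]), (false, 3, [0, 1, 11]), (false, 1, [3, 9, 11]),
   (false, 4, [1, 3, 8]), (false, 1, [0, 3, 12]), (false, 1, [0, 3, 9]), (false, 9, [11, 12]),
   (false, 1, [9, 11]), (false, 3, [0, 11]), (false, 3, [2, 11]), (false, 1, [3, 11]),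
   (false, 4, [5, 8]), (false, 1, [11]), (true, 4, [3, 8, 12]), (true, 12, [6, 9]),
   (true, 4, [0, 3, 12]), (true, 12, [0, 1, 8]), (true, 3, [1, 4, 6]), (true, 4, [0, 3, 8, 12]),
   (true, 12, [0, 6, 9]), (true, 0, [1, 6, 9]), (true, 12, [0, 3, 9]), (true, 3, [5, 9]),
   (true, 12, [0, 3, 5]), (true, 4, [1, 10, 12]), (true, 2, [1, 3, 8]), (true, 2, [8, 10]),
   (true, 3, [2, 5]), (true, 2, [4, 8, 10]), (true, 12, [3, 6, 9]), (true, 4, [1, 2, 6]),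
   (true, 1, [0, 2, 4]), (true, 1, [5, 8]), (true, 3, [0, 2, 10]), (true, 3, [0, 10, 12]),
   (true, 0, [3, 4, 9]), (true, 0, [6, 8]), (false, 4, [0, 3, 8, 12]), (false, 4, [2, 8, 10]),
   (false, 4, [3, 8, 12]), (false, 0, [3, 4, 9]), (false, 4, [1, 10, 12]), (false, 1, [0, 2, 4]),
   (false, 4, [1, 2, 6]), (false, 12, [0, 1, 8]), (false, 12, [0, 3, 5]), (false, 2, [1, 3, 8]),
   (false, 12, [3, 6, 9]), (false, 3, [0, 2, 10]), (false, 0, [6, 9, 12]), (false, 0, [1, 6, 9]),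
   (false, 3, [1, 4, 6]), (false, 3, [0, 10, 12]), (false, 12, [0, 3, 9]), (false, 4, [8, 10]),
   (false, 3, [2, 5]), (false, 1, [5, 8]), (false, 4, [0, 3, 12]), (false, 0, [6, 8]),
   (false, 3, [5, 9]), (false, 0, [6, 9]), (true, 3, [1, 2, 6]), (false, 3, [1, 2, 6]),
   (true, 4, [0, 10, 12]), (true, 1, [6, 10]), (true, 12, [0, 4, 6]), (true, 1, [3, 6, 10]),
   (true, 2, [8, 10]), (true, 3, [6, 10, 12]), (true, 6, [0, 2, 4]), (true, 12, [0, 1, 8]),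
   (true, 2, [3, 8, 12]), (true, 0, [1, 3, 8]), (true, 12, [3, 4, 9]), (true, 12, [5, 9]),
   (true, 1, [0, 3, 5]), (true, 12, [1, 4, 6]), (true, 2, [4, 8, 10]), (true, 3, [1, 10, 12]),
   (true, 2, [0, 3, 12]), (true, 1, [0, 2, 10]), (true, 4, [1, 8, 10]), (true, 3, [1, 2, 9, 12]),
   (true, 4, [9, 10]), (true, 4, [0, 8, 10]), (true, 12, [0, 6, 10]), (true, 12, [2, 4, 9]),
   (true, 1, [8, 10, 12]), (true, 4, [1, 9, 10]), (true, 0, [3, 8, 10]), (true, 12, [2, 5]),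
   (false, 1, [8, 10, 12]), (false, 12, [1, 2, 3, 9]), (false, 12, [1, 3, 9]),
   (false, 0, [1, 3, 8]), (false, 12, [2, 3, 9]), (false, 12, [0, 1, 8]),
   (false, 3, [1, 10, 12]), (false, 0, [3, 8, 10]), (false, 4, [1, 8, 10]),
   (false, 3, [1, 6, 10]), (false, 4, [3, 9, 12]), (false, 12, [3, 6, 10]),
   (false, 12, [0, 6, 10]), (false, 4, [1, 9, 10]), (false, 2, [3, 8, 12]),
   (false, 1, [0, 3, 5]), (false, 12, [2, 4, 9]), (false, 4, [2, 8, 10]), (false, 12, [1, 4, 6]),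
   (false, 0, [4, 8, 10]), (false, 4, [0, 10, 12]), (false, 12, [2, 5]), (false, 6, [0, 2, 4]),
   (false, 2, [0, 3, 12]), (false, 12, [0, 4, 6]), (false, 0, [8, 10]), (false, 1, [0, 2, 10]),
   (false, 4, [9, 10]), (false, 12, [6, 10]), (false, 12, [5, 9]), (false, 4, [3, 9]),
   (true, 3, [0, 2, 4]), (true, 1, [8, 9]), (true, 1, [9, 10]), (true, 3, [0, 2, 4, 8]),
   (true, 1, [0, 9, 10]), (true, 2, [6, 8]), (true, 2, [1, 3, 8]), (true, 2, [0, 6, 8]),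
   (true, 4, [0, 10, 12]), (true, 1, [0, 2, 10]), (true, 0, [5, 6]), (true, 4, [5, 8]),
   (false, 0, [2, 3, 4, 8]), (false, 0, [1, 9, 10]), (false, 0, [3, 4, 8]),
   (false, 2, [0, 3, 8]), (false, 0, [2, 6, 8]), (false, 4, [0, 10, 12]), (false, 1, [2, 3, 8]),
   (false, 1, [0, 2, 10]), (false, 0, [5, 6]), (false, 0, [9, 10]), (false, 4, [5, 8]),
   (false, 1, [8, 9]), (false, 0, [6, 8]), (false, 1, [3, 8]), (true, 6, [0, 3, 12]),
   (true, 3, [1, 4, 6]), (true, 4, [0, 3, 5]), (true, 4, [0, 2, 10]), (true, 0, [1, 2, 6]),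
   (true, 12, [2, 5]), (true, 2, [5, 10]), (true, 4, [1, 10, 12]), (true, 0, [2, 4, 9]),
   (true, 12, [6, 10]), (true, 12, [2, 6, 10]), (true, 12, [8, 9]), (true, 3, [0, 10, 12]),
   (true, 2, [0, 6, 10]), (true, 12, [4, 8, 9]), (true, 0, [3, 6, 10]), (true, 12, [4, 6, 10]),
   (true, 10, [0, 4, 6]), (true, 4, [0, 8, 9]), (true, 4, [3, 9]), (false, 4, [8, 9, 12]),
   (false, 10, [0, 4, 6]), (false, 3, [1, 4, 6]), (false, 3, [0, 10, 12]),
   (false, 4, [1, 10, 12]), (false, 0, [1, 2, 6]), (false, 4, [0, 3, 5]), (false, 6, [0, 3, 12]),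
   (false, 0, [4, 8, 9]), (false, 0, [3, 6, 10]), (false, 12, [4, 6, 10]),
   (false, 2, [0, 6, 10]), (false, 4, [3, 9]), (false, 4, [0, 2, 10]), (false, 12, [2, 6, 10]),
   (false, 0, [8, 9]), (false, 12, [6, 10]), (false, 2, [5, 10]), (false, 0, [2, 4, 9]),
   (false, 12, [2, 5]), (true, 3, [0, 4, 6]), (true, 2, [0, 1, 8]), (true, 3, [1, 4, 6]),
   (true, 1, [2, 4, 9]), (true, 3, [0, 2, 4, 6]), (true, 0, [1, 2, 6]), (true, 4, [0, 10, 12]),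
   (true, 12, [0, 2, 10]), (true, 12, [3, 9]), (true, 0, [6, 9]), (true, 10, [0, 3, 12]),
   (true, 12, [0, 3, 9]), (true, 12, [0, 3, 5]), (true, 4, [1, 10, 12]), (true, 3, [5, 9]),
   (true, 0, [1, 2, 3, 6]), (true, 0, [2, 3, 9]), (true, 10, [0, 3, 4, 12]), (true, 4, [5, 8]),
   (true, 1, [5, 10]), (true, 3, [5, 9, 12]), (true, 4, [5, 8, 12]), (true, 2, [8, 10]),
   (true, 12, [1, 5, 9]), (true, 12, [0, 5, 8]), (true, 2, [3, 4, 9]), (true, 2, [0, 8, 10]),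
   (true, 12, [0, 4, 5, 8]), (true, 0, [6, 9, 12]), (true, 2, [8, 10, 12]),
   (false, 4, [0, 3, 10, 12]), (false, 0, [4, 5, 8, 12]), (false, 12, [0, 6, 9]),
   (false, 0, [1, 2, 3, 6]), (false, 3, [1, 4, 6]), (false, 0, [2, 3, 4, 6]),
   (false, 0, [5, 8, 12]), (false, 2, [8, 10, 12]), (false, 12, [3, 5, 9]),
   (false, 2, [0, 8, 10]), (false, 2, [3, 4, 9]), (false, 0, [2, 3, 6]), (false, 12, [1, 5, 9]),
   (false, 0, [2, 3, 9]), (false, 0, [4, 5, 8]), (false, 0, [5, 8]), (false, 12, [0, 2, 10]),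
   (false, 12, [0, 3, 5]), (false, 4, [1, 10, 12]), (false, 0, [3, 9, 12]),
   (false, 1, [2, 4, 9]), (false, 0, [1, 2, 6]), (false, 0, [3, 9]), (false, 4, [0, 10, 12]),
   (false, 12, [6, 9]), (false, 4, [0, 3, 12]), (false, 2, [8, 10]), (false, 2, [0, 1, 8]),
   (false, 12, [5, 9]), (false, 1, [5, 10]), (true, 4, [2, 3, 6]), (true, 12, [2, 4, 9]),
   (true, 12, [9, 10]), (true, 4, [1, 10, 12]), (true, 6, [0, 3, 12]), (true, 4, [6, 10]),
   (true, 3, [0, 10, 12]), (true, 4, [6, 10, 12]), (true, 0, [1, 2, 6]), (true, 1, [3, 9]),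
   (true, 4, [5, 9]), (true, 1, [0, 3, 5]), (true, 4, [2, 6, 10]), (true, 4, [2, 6, 10, 12]),
   (false, 12, [2, 4, 6, 10]), (false, 1, [0, 3, 5]), (false, 12, [2, 6, 10]),
   (false, 12, [4, 6, 10]), (false, 12, [2, 4, 9]), (false, 0, [1, 2, 6]), (false, 12, [6, 10]),
   (false, 3, [0, 10, 12]), (false, 6, [0, 3, 12]), (false, 4, [2, 3, 6]), (false, 12, [9, 10]),
   (false, 4, [1, 10, 12]), (false, 4, [5, 9]), (false, 1, [3, 9]), (true, 1, [5, 9]),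
   (true, 1, [2, 4, 9]), (true, 4, [1, 10, 12]), (true, 2, [3, 8]), (true, 12, [6, 9]),
   (true, 12, [0, 1, 8]), (true, 0, [5, 6]), (true, 0, [2, 3, 6]), (true, 3, [0, 2, 10]),
   (true, 1, [8, 9]), (true, 12, [1, 2, 6]), (true, 12, [4, 6, 9]), (true, 2, [1, 4, 6]),
   (true, 1, [6, 10]), (true, 2, [3, 4, 8]), (true, 4, [0, 3, 5]), (true, 4, [0, 6, 9]),
   (true, 1, [0, 8, 9]), (true, 12, [2, 6, 9]), (false, 12, [2, 6, 9]), (false, 1, [0, 8, 9]),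
   (false, 4, [6, 9, 12]), (false, 4, [2, 3, 8]), (false, 4, [0, 3, 5]), (false, 0, [2, 3, 6]),
   (false, 2, [1, 4, 6]), (false, 12, [1, 2, 6]), (false, 4, [0, 6, 9]), (false, 1, [2, 4, 9]),
   (false, 12, [0, 1, 8]), (false, 1, [6, 10]), (false, 4, [3, 8]), (false, 3, [0, 2, 10]),
   (false, 4, [6, 9]), (false, 1, [5, 9]), (false, 4, [1, 10, 12]), (false, 0, [5, 6]),
   (false, 1, [8, 9]), (true, 6, [0, 3, 12]), (true, 0, [2, 3, 6]), (true, 1, [5, 8]),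
   (true, 8, [2, 5]), (true, 3, [1, 10, 12]), (false, 0, [2, 3, 6]), (false, 3, [1, 10, 12]),
   (false, 6, [0, 3, 12]), (false, 8, [2, 5]), (false, 1, [5, 8]), (true, 2, [8, 10]),
   (true, 4, [0, 10, 12]), (true, 3, [1, 4, 6]), (true, 1, [0, 3, 12]), (true, 12, [0, 2, 10]),
   (true, 4, [1, 2, 6]), (true, 1, [0, 3, 5]), (true, 1, [2, 3, 6]), (true, 2, [6, 8]),
   (true, 2, [0, 8, 10]), (true, 3, [1, 10, 12]), (true, 1, [2, 3, 4, 6]), (true, 2, [6, 8, 12]),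
   (true, 10, [3, 8]), (true, 12, [2, 5]), (true, 12, [0, 1, 8]), (true, 1, [0, 3, 6, 12]),
   (true, 0, [2, 4, 9]), (true, 12, [6, 9]), (true, 12, [0, 6, 8]), (true, 4, [6, 10]),
   (true, 10, [2, 3, 8]), (true, 0, [8, 10, 12]), (true, 2, [3, 4, 8]), (true, 12, [4, 6, 9]),
   (true, 12, [1, 6, 9]), (true, 12, [4, 8, 10]), (true, 4, [1, 8, 10]), (true, 2, [9, 10]),
   (false, 1, [2, 3, 4, 6]), (false, 12, [0, 1, 3, 6]), (false, 12, [0, 1, 6]),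
   (false, 3, [1, 10, 12]), (false, 4, [1, 8, 10]), (false, 1, [2, 3, 6]), (false, 1, [0, 3, 5]),
   (false, 12, [4, 6, 9]), (false, 2, [9, 10]), (false, 12, [2, 6, 8]), (false, 2, [3, 8, 10]),
   (false, 2, [3, 4, 8]), (false, 0, [2, 8, 10]), (false, 12, [0, 1, 8]), (false, 0, [6, 8, 12]),
   (false, 4, [1, 2, 6]), (false, 3, [1, 4, 6]), (false, 1, [6, 9, 12]), (false, 0, [2, 4, 9]),
   (false, 12, [4, 8, 10]), (false, 0, [6, 8]), (false, 2, [3, 8]), (false, 0, [8, 10, 12]),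
   (false, 12, [0, 2, 10]), (false, 4, [0, 10, 12]), (false, 4, [6, 10]), (false, 3, [1, 6, 12]),
   (false, 12, [2, 5]), (false, 0, [8, 10]), (false, 1, [6, 9]), (false, 3, [1, 6]),
   (true, 12, [6, 10]), (true, 0, [2, 4, 9]), (true, 4, [5, 10]), (true, 2, [1, 6]),
   (true, 2, [6, 9]), (true, 4, [2, 5]), (true, 4, [1, 2, 5]), (true, 1, [0, 2, 10]),
   (true, 4, [3, 5, 10]), (true, 4, [3, 9]), (true, 4, [2, 5, 10]), (true, 2, [0, 10, 12]),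
   (true, 12, [0, 6, 10]), (true, 12, [2, 3, 6]), (true, 4, [2, 3, 9]), (true, 4, [1, 3, 9]),
   (true, 2, [0, 6, 9]), (true, 2, [1, 3, 6]), (true, 1, [2, 5, 12]), (true, 1, [0, 2, 5]),
   (true, 3, [1, 10, 12]), (true, 3, [1, 4, 6]), (true, 0, [6, 8]), (true, 12, [2, 3, 5]),
   (true, 2, [0, 1, 6]), (false, 3, [1, 4, 6]), (false, 2, [0, 1, 6]), (false, 4, [3, 5, 10]),
   (false, 0, [2, 6, 9]), (false, 12, [2, 3, 5]), (false, 2, [4, 5, 10]),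
   (false, 3, [1, 10, 12]), (false, 3, [1, 2, 6]), (false, 4, [2, 3, 9]),
   (false, 12, [0, 6, 10]), (false, 1, [2, 4, 5]), (false, 2, [0, 10, 12]),
   (false, 4, [1, 3, 9]), (false, 0, [2, 4, 9]), (false, 1, [0, 2, 10]), (false, 1, [0, 2, 5]),
   (false, 12, [2, 3, 6]), (false, 1, [2, 5, 12]), (false, 12, [6, 10]), (false, 0, [6, 8]),
   (false, 3, [1, 6]), (false, 0, [6, 9]), (false, 2, [5, 10]), (false, 4, [3, 9]),
   (false, 1, [2, 5]), (true, 0, [3, 9]), (true, 1, [0, 3, 5]), (true, 1, [5, 9]),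
   (true, 1, [0, 3, 5, 12]), (true, 0, [5, 6]), (true, 0, [3, 9, 12]), (true, 4, [0, 10, 12]),
   (false, 12, [0, 3, 9]), (false, 0, [1, 3, 5, 12]), (false, 0, [1, 5, 12]),
   (false, 4, [0, 10, 12]), (false, 3, [0, 1, 12]), (false, 2, [1, 3, 12]), (false, 0, [5, 6]),
   (false, 10, [2, 3, 12]), (false, 1, [2, 3, 10]), (false, 4, [3, 10, 12]),
   (false, 0, [3, 4, 10]), (false, 0, [1, 3, 10]), (false, 4, [1, 2, 10]),
   (false, 2, [4, 10, 12]), (false, 6, [2, 4, 12]), (false, 4, [0, 1, 10]),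
   (false, 3, [4, 6, 12]), (false, 0, [3, 4, 6]), (false, 5, [3, 4, 12]), (false, 2, [0, 4, 6]),
   (false, 2, [0, 3, 4]), (false, 0, [2, 6, 12]), (false, 2, [4, 6]), (false, 3, [0, 6, 12]),
   (false, 1, [2, 3, 4]), (false, 0, [3, 5, 12]), (false, 5, [1, 3, 4]), (false, 5, [3, 4]),
   (false, 0, [1, 3, 5]), (false, 4, [0, 5, 12]), (false, 2, [0, 1, 3]), (false, 8, [0, 2, 4]),
   (false, 0, [1, 4, 5]), (false, 9, [0, 1, 2]), (false, 12, [0, 2, 9]), (false, 8, [1, 2, 4]),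
   (false, 4, [0, 1, 9]), (false, 12, [1, 4, 8]), (false, 0, [4, 8, 12]), (false, 12, [0, 4, 9]),
   (false, 1, [4, 9, 12]), (false, 0, [3, 5]), (false, 12, [1, 2, 8]), (false, 12, [1, 2, 9]),
   (false, 4, [5, 12]), (false, 8, [0, 2, 12]), (false, 0, [4, 5]), (false, 4, [1, 10]),
   (false, 2, [1, 3]), (false, 1, [0, 5]), (false, 12, [2, 9]), (false, 3, [6, 12]),
   (false, 12, [3, 9]), (false, 12, [1, 2]), (false, 0, [2, 3]), (false, 0, [2, 6]),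
   (false, 0, [3, 10]), (false, 12, [0, 9]), (false, 12, [1, 8]), (false, 3, [0, 6]),
   (false, 1, [9, 12]), (false, 12, [0, 3]), (false, 4, [0, 10]), (false, 2, [10, 12]),
   (false, 1, [5, 9]), (false, 4, [0, 1]), (false, 4, [1, 12]), (false, 4, [1, 9]),
   (false, 4, [2, 10]), (false, 8, [2, 4]), (false, 0, [4, 12]), (false, 8, [0, 4]),
   (false, 8, [0, 12]), (false, 4, [10]), (false, 8, [2, 12]), (false, 2, [0, 8]),
   (false, 2, [0]), (false, 8, [2]), (false, 3, [6]), (false, 12, [3]), (false, 8, [12]),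
   (false, 4, [9]), (false, 1, [5]), (false, 4, [8]), (false, 1, [4])]

theorem run6 : run ops6 st6 st5 = true := by
  decide +kernel

end Pool.Agent.H71.ZW
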