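import Pool.Agent.H71.ZW.Poly

set_option autoImplicit false

/-!
# The cone: elementary facts
-/

namespace Pool.Agent.H71.ZW

open Set Topology TopologicalSpace

private theorem coneE_eleven : ∀ t ∈ cells, (11 : Fin 12) ∈ t := by
  simp [cells]

private theorem coneE_cell : ({0, 1, 5, 11} : Finset (Fin 12)) ∈ cells := by
  unfold cells
  exact Finset.mem_insert_self _ _

private theorem coneE_up (s : ℝ) (κ : E) (v : Fin 12) :
    up s κ v = (1 - s) * κ v + s * apex v := by
  simp only [up, Pi.add_apply, Pi.smul_apply, smul_eq_mul]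

private theorem coneE_dn (s : ℝ) (κ : E) (v : Fin 12) :
    dn s κ v = (1 - s)⁻¹ * (κ v - s * apex v) := by
  simp only [dn, Pi.sub_apply, Pi.smul_apply, smul_eq_mul]

private theorem coneE_apex11 : apex 11 = 1 := by simp [apex]

private theorem coneE_apex {v : Fin 12} (h : v ≠ 11) : apex v = 0 := by
  simp [apex, h]

private theorem coneE_apex_nonneg (v : Fin 12) : 0 ≤ apex v := by
  by_cases h : v = 11
  · subst h; rw [coneE_apex11]; norm_num
  · rw [coneE_apex h]

private theorem coneE_sum_apex : ∑ v, apex v = 1 := by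
  simp [apex]

private theorem coneE_single {v : Fin 12} {t : Finset (Fin 12)} (h : v ∈ t) :
    (Pi.single v 1 : E) ∈ smp t := by
  refine ⟨fun u => ?_, ?_, fun u hu => ?_⟩
  · by_cases h1 : u = v
    · subst h1; simp
    · simp [h1]
  · simp
  · have h1 : u ≠ v := fun h2 => hu (h2 ▸ h)
    simp [h1]

private theorem coneE_le_one {κ : E} (h : κ ∈ cK) (v : Fin 12) : κ v ≤ 1 := by
  obtain ⟨t, -, h0, h1, -⟩ := h
  rw [← h1]
  exact Finset.single_le_sum (fun u _ => h0 u) (Finset.mem_univ v)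

theorem continuous_ht : Continuous ht := continuous_apply 11

theorem ht_add (κ κ' : E) : ht (κ + κ') = ht κ + ht κ' := rfl

theorem ht_smul (a : ℝ) (κ : E) : ht (a • κ) = a * ht κ := rfl

theorem ht_apex : ht apex = 1 := coneE_apex11

theorem ht_base : ht base = 0 := by
  simp [ht, base]

theorem ht_up (s : ℝ) (κ : E) : ht (up s κ) = (1 - s) * ht κ + s := by
  unfold ht
  rw [coneE_up, coneE_apex11, mul_one]

theorem up_apex (s : ℝ) : up s apex = apex := by
  funext v
  rw [coneE_up]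
  ring

theorem continuous_up : Continuous fun p : ℝ × E => up p.1 p.2 := by
  unfold up
  fun_prop

theorem dn_up {s : ℝ} (hs : s < 1) (κ : E) : dn s (up s κ) = κ := by
  funext v
  rw [coneE_dn, coneE_up]
  have h : 1 - s ≠ 0 := by linarith
  field_simp
  ring

theorem up_dn {s : ℝ} (hs : s < 1) (κ : E) : up s (dn s κ) = κ := by
  funext v
  rw [coneE_up, coneE_dn]
  have h : 1 - s ≠ 0 := by linarith
  field_simp
  ring

theorem ht_dn {s : ℝ} (hs : s < 1) (κ : E) : ht (dn s κ) = (ht κ - s) / (1 - s) := by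
  unfold ht
  rw [coneE_dn, coneE_apex11, mul_one, div_eq_inv_mul]

theorem continuousOn_dn : ContinuousOn (fun p : ℝ × E => dn p.1 p.2) {p | p.1 < 1} := by
  unfold dn
  have h1 : Continuous fun p : ℝ × E => 1 - p.1 := by fun_prop
  have h2 : Continuous fun p : ℝ × E => p.2 - p.1 • apex := by fun_prop
  refine ContinuousOn.smul (ContinuousOn.inv₀ h1.continuousOn ?_) h2.continuousOn
  intro p hp
  have hp1 : p.1 < 1 := hp
  have h3 : 0 < 1 - p.1 := by linarith
  exact ne_of_gt h3

theorem ht_nonneg {κ : E} (h : κ ∈ cK) : 0 ≤ ht κ := by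
  obtain ⟨t, -, h0, -, -⟩ := h
  exact h0 11

theorem ht_le_one {κ : E} (h : κ ∈ cK) : ht κ ≤ 1 := coneE_le_one h 11

theorem eq_apex {κ : E} (h : κ ∈ cK) (h1 : 1 ≤ ht κ) : κ = apex := by
  obtain ⟨t, -, h0, h2, -⟩ := h
  have h3 : κ 11 + ∑ v ∈ Finset.univ.erase (11 : Fin 12), κ v = 1 := by
    rw [← h2]
    exact Finset.add_sum_erase _ _ (Finset.mem_univ _)
  have h4 : 0 ≤ ∑ v ∈ Finset.univ.erase (11 : Fin 12), κ v := Finset.sum_nonneg fun v _ => h0 v
  have h1' : 1 ≤ κ 11 := h1
  have h5 : ∑ v ∈ Finset.univ.erase (11 : Fin 12), κ v = 0 := by linarith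
  have h6 := (Finset.sum_eq_zero_iff_of_nonneg fun v _ => h0 v).1 h5
  funext v
  by_cases hv : v = 11
  · subst hv
    rw [coneE_apex11]
    linarith
  · rw [coneE_apex hv]
    exact h6 v (Finset.mem_erase.2 ⟨hv, Finset.mem_univ _⟩)

theorem ht_lt_one {κ : E} (h : κ ∈ cK) (h1 : κ ≠ apex) : ht κ < 1 := by
  by_contra h2
  exact h1 (eq_apex h (not_lt.1 h2))

theorem apex_mem : apex ∈ cK := ⟨{0, 1, 5, 11}, coneE_cell, coneE_single (by decide)⟩

theorem base_mem : base ∈ K := ⟨⟨{0, 1, 5, 11}, coneE_cell, coneE_single (by decide)⟩, ht_base⟩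

theorem up_mem {s : ℝ} (h0 : 0 ≤ s) (h1 : s ≤ 1) {κ : E} (h : κ ∈ cK) : up s κ ∈ cK := by
  obtain ⟨t, ht', h2, h3, h4⟩ := h
  refine ⟨t, ht', fun v => ?_, ?_, fun v hv => ?_⟩
  · rw [coneE_up]
    have := h2 v
    have := coneE_apex_nonneg v
    have h5 : 0 ≤ 1 - s := by linarith
    positivity
  · simp only [coneE_up]
    rw [Finset.sum_add_distrib, ← Finset.mul_sum, ← Finset.mul_sum, h3, coneE_sum_apex]
    ring
  · rw [coneE_up, h4 v hv, coneE_apex (by rintro rfl; exact hv (coneE_eleven t ht'))]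
    ring

theorem dn_mem {s : ℝ} (h0 : 0 ≤ s) (h1 : s < 1) {κ : E} (h : κ ∈ cK) (hs : s ≤ ht κ) :
    dn s κ ∈ cK := by
  obtain ⟨t, ht', h2, h3, h4⟩ := h
  have h5 : 0 < 1 - s := by linarith
  refine ⟨t, ht', fun v => ?_, ?_, fun v hv => ?_⟩
  · rw [coneE_dn]
    refine mul_nonneg (inv_nonneg.2 h5.le) ?_
    by_cases hv : v = 11
    · subst hv
      rw [coneE_apex11]
      have hs' : s ≤ κ 11 := hs
      linarith
    · rw [coneE_apex hv]
      have := h2 v
      linarith
  · simp only [coneE_dn]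
    rw [← Finset.mul_sum, Finset.sum_sub_distrib, ← Finset.mul_sum, h3, coneE_sum_apex, mul_one]
    exact inv_mul_cancel₀ h5.ne'
  · rw [coneE_dn, h4 v hv, coneE_apex (by rintro rfl; exact hv (coneE_eleven t ht'))]
    ring

/-- The points of the cone have norm at most one. -/
theorem norm_le_one {κ : E} (h : κ ∈ cK) : ‖κ‖ ≤ 1 := by
  rw [pi_norm_le_iff_of_nonneg zero_le_one]
  intro v
  have h1 := coneE_le_one h v
  obtain ⟨t, -, h0, -, -⟩ := h
  rw [Real.norm_eq_abs, abs_of_nonneg (h0 v)]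
  exact h1

/-- There are two points of `K` with distance one. -/
theorem exists_far : ∃ κ ∈ K, ∃ κ' ∈ K, ‖κ - κ'‖ = 1 := by
  refine ⟨base, base_mem, Pi.single 1 1, ⟨⟨{0, 1, 5, 11}, coneE_cell, coneE_single (by decide)⟩, ?_⟩, ?_⟩
  · simp [ht]
  · apply le_antisymm
    · rw [pi_norm_le_iff_of_nonneg zero_le_one]
      intro v
      simp only [base, Pi.sub_apply]
      by_cases h0 : v = 0
      · subst h0
        simp
      · by_cases h1 : v = 1
        · subst h1
          simp
        · simp [h0, h1]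
    · have h := norm_le_pi_norm (base - Pi.single 1 1 : E) 0
      have h2 : (base - Pi.single 1 1 : E) 0 = 1 := by simp [base]
      rw [h2, norm_one] at h
      exact h

theorem isPoly_cK : IsPoly cK := by
  refine ⟨smp '' (cells : Set (Finset (Fin 12))), (Finset.finite_toSet cells).image _, ?_, ?_⟩
  · rintro C ⟨t, -, rfl⟩
    constructor
    · have h : smp t = stdSimplex ℝ (Fin 12) ∩ ⋂ v ∈ {v | v ∉ t}, {κ : Fin 12 → ℝ | κ v = 0} := by
        ext κ
        simp only [smp, stdSimplex, mem_ofPred_eq, mem_inter_iff, mem_iInter]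
        tauto
      rw [h]
      refine (isCompact_stdSimplex ℝ (Fin 12)).inter_right ?_
      exact isClosed_biInter fun v _ => isClosed_eq (continuous_apply v) continuous_const
    · intro x hx y hy a b ha hb hab
      refine ⟨fun v => ?_, ?_, fun v hv => ?_⟩
      · have := hx.1 v
        have := hy.1 v
        simp only [Pi.add_apply, Pi.smul_apply, smul_eq_mul]
        positivity
      · simp only [Pi.add_apply, Pi.smul_apply, smul_eq_mul]
        rw [Finset.sum_add_distrib, ← Finset.mul_sum, ← Finset.mul_sum, hx.2.1, hy.2.1, mul_one, mul_one]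
        exact hab
      · simp only [Pi.add_apply, Pi.smul_apply, smul_eq_mul]
        rw [hx.2.2 v hv, hy.2.2 v hv]
        ring
  · ext κ
    simp only [cK, mem_ofPred_eq, mem_sUnion, mem_image, Finset.mem_coe]
    constructor
    · rintro ⟨t, h1, h2⟩
      exact ⟨_, ⟨t, h1, rfl⟩, h2⟩
    · rintro ⟨_, ⟨t, h1, rfl⟩, h2⟩
      exact ⟨t, h1, h2⟩

theorem isPoly_K : IsPoly K := by
  have h : K = cK ∩ {κ : E | κ 11 = 0} := rfl
  rw [h]
  refine isPoly_cK.inter_convex (isClosed_eq (continuous_apply 11) continuous_const) ?_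
  intro x hx y hy a b _ _ _
  have hx' : x 11 = 0 := hx
  have hy' : y 11 = 0 := hy
  change a * x 11 + b * y 11 = 0
  rw [hx', hy']
  ring

end Pool.Agent.H71.ZW
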