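import Pool.Agent.H71.ZW.PolyANE
import Pool.Agent.H71.ZW.ConeE
import Pool.Agent.H71.ZW.Glue

set_option autoImplicit false

/-!
# The cone: connectedness, equiconnecting map and radial retraction

`exists_equi`: extend the map given on the closed subset `{t = 0} ∪ {t = 1} ∪ {κ = κ'}` of
`(cK × cK) × [0, 1]` (`ae_cK`, `AE.extend`). `exists_rad`: for `a = (ht κ - s) / (1 - s)` take
`κ' = apex + min (1 + t) (1 / (1 - a)) • (κ - apex)` (for `a = 1`, `κ' = apex`) and
`t' = max 0 (t - a / (1 - a))` (`t' = 0` for `a` close to `1`; write it without division by zero). Levels: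
`{κ ∈ cK | ht κ = s}` is the image of `K` under `up s`; `K` is the union of connected sets (triangles),
the graph on the vertices `0, …, 4` is complete.
-/

namespace Pool.Agent.H71.ZW

open Set Topology TopologicalSpace

theorem ae_cK : AE cK :=
  isPoly_cK.ae_of_star apex_mem fun _ hx _ ht' => up_mem ht'.1 ht'.2 hx

private theorem conef_convex_smp (t : Finset (Fin 12)) : Convex ℝ (smp t) := by
  intro x hx y hy a b ha hb hab
  refine ⟨fun v => ?_, ?_, fun v hv => ?_⟩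
  · simp only [Pi.add_apply, Pi.smul_apply, smul_eq_mul]
    exact add_nonneg (mul_nonneg ha (hx.1 v)) (mul_nonneg hb (hy.1 v))
  · simp only [Pi.add_apply, Pi.smul_apply, smul_eq_mul]
    rw [Finset.sum_add_distrib, ← Finset.mul_sum, ← Finset.mul_sum, hx.2.1, hy.2.1, mul_one,
      mul_one, hab]
  · simp only [Pi.add_apply, Pi.smul_apply, smul_eq_mul, hx.2.2 v hv, hy.2.2 v hv, mul_zero,
      add_zero]

private theorem conef_single_mem {t : Finset (Fin 12)} {a : Fin 12} (ha : a ∈ t) :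
    (Pi.single a 1 : E) ∈ smp t := by
  refine ⟨fun v => ?_, ?_, fun v hv => ?_⟩
  · by_cases h : v = a
    · subst h; simp
    · simp [Pi.single_eq_of_ne h]
  · simp
  · have h : v ≠ a := fun h => hv (by rw [h]; exact ha)
    exact Pi.single_eq_of_ne h _

private theorem conef_sub {t : Finset (Fin 12)} (ht' : t ∈ cells) : smp (t.erase 11) ⊆ K := by
  intro κ hκ
  refine ⟨⟨t, ht', hκ.1, hκ.2.1, fun v hv => hκ.2.2 v fun h => hv (Finset.mem_of_mem_erase h)⟩, ?_⟩
  exact hκ.2.2 11 (Finset.notMem_erase 11 t)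

private theorem conef_first {t : Finset (Fin 12)} (h : t ∈ cells) :
    ∃ a : Fin 12, a.val < 5 ∧ a ∈ t.erase 11 := by
  simp only [cells, Finset.mem_insert, Finset.mem_singleton] at h
  rcases h with h | h | h | h | h | h | h | h | h | h | h | h | h | h | h | h | h | h | h | h |
    h | h | h | h | h | h | h | h | h | h <;> subst h <;> decide

private theorem conef_edge (a : Fin 12) (h : a.val < 5) :
    ∃ u ∈ cells, 0 ∈ u.erase 11 ∧ a ∈ u.erase 11 := by
  have h' : a = 0 ∨ a = 1 ∨ a = 2 ∨ a = 3 ∨ a = 4 := by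
    revert h
    revert a
    decide
  rcases h' with rfl | rfl | rfl | rfl | rfl
  · exact ⟨{0, 1, 5, 11}, by simp [cells], by decide, by decide⟩
  · exact ⟨{0, 1, 5, 11}, by simp [cells], by decide, by decide⟩
  · exact ⟨{0, 2, 6, 11}, by simp [cells], by decide, by decide⟩
  · exact ⟨{0, 3, 7, 11}, by simp [cells], by decide, by decide⟩
  · exact ⟨{0, 4, 5, 11}, by simp [cells], by decide, by decide⟩

private theorem conef_cells (t : Finset (Fin 12)) (h : t ∈ cells) : ∃ a ∈ t.erase 11, ∃ u ∈ cells,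
    0 ∈ u.erase 11 ∧ a ∈ u.erase 11 := by
  obtain ⟨a, h1, h2⟩ := conef_first h
  obtain ⟨u, hu, h3⟩ := conef_edge a h1
  exact ⟨a, h2, u, hu, h3⟩

private theorem conef_isConnected_K : IsConnected K := by
  refine ⟨⟨base, base_mem⟩, isPreconnected_of_forall base fun κ hκ => ?_⟩
  obtain ⟨⟨t, ht', hκ1⟩, hκ2⟩ := hκ
  obtain ⟨a, ha, u, hu, h0, ha'⟩ := conef_cells t ht'
  refine ⟨smp (t.erase 11) ∪ smp (u.erase 11), union_subset (conef_sub ht') (conef_sub hu),
    Or.inr (conef_single_mem h0), Or.inl ⟨hκ1.1, hκ1.2.1, fun v hv => ?_⟩, ?_⟩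
  · by_cases h : v = 11
    · subst h; exact hκ2
    · exact hκ1.2.2 v fun h' => hv (Finset.mem_erase.2 ⟨h, h'⟩)
  · exact (conef_convex_smp _).isPreconnected.union (Pi.single a 1) (conef_single_mem ha)
      (conef_single_mem ha') (conef_convex_smp _).isPreconnected

theorem isConnected_level {s : ℝ} (h0 : 0 ≤ s) (h1 : s < 1) :
    IsConnected {κ | κ ∈ cK ∧ ht κ = s} := by
  have h : {κ | κ ∈ cK ∧ ht κ = s} = up s '' K := by
    ext κ
    constructor
    · rintro ⟨h2, h3⟩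
      refine ⟨dn s κ, ⟨dn_mem h0 h1 h2 h3.ge, ?_⟩, up_dn h1 κ⟩
      rw [ht_dn h1, h3, sub_self, zero_div]
    · rintro ⟨κ', ⟨h2, h3⟩, rfl⟩
      refine ⟨up_mem h0 h1.le h2, ?_⟩
      rw [ht_up, h3, mul_zero, zero_add]
  rw [h]
  exact conef_isConnected_K.image _
    (continuous_up.comp (Continuous.prodMk_right s)).continuousOn

theorem isConnected_above {s : ℝ} (h1 : s ≤ 1) : IsConnected {κ | κ ∈ cK ∧ s ≤ ht κ} := by
  have ha : apex ∈ {κ | κ ∈ cK ∧ s ≤ ht κ} := ⟨apex_mem, by rw [ht_apex]; exact h1⟩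
  refine ⟨⟨apex, ha⟩, isPreconnected_of_forall apex fun κ hκ => ?_⟩
  refine ⟨(fun t : ℝ => up t κ) '' Icc (0 : ℝ) 1, ?_, ⟨1, ⟨zero_le_one, le_rfl⟩, ?_⟩,
    ⟨0, ⟨le_rfl, zero_le_one⟩, ?_⟩, ?_⟩
  · rintro _ ⟨t, ht', rfl⟩
    refine ⟨up_mem ht'.1 ht'.2 hκ.1, ?_⟩
    show s ≤ ht (up t κ)
    rw [ht_up]
    have h2 := ht_le_one hκ.1
    have h3 : s ≤ ht κ := hκ.2
    nlinarith [ht'.1, ht'.2]
  · simp [up]
  · simp [up]
  · exact isPreconnected_Icc.image _
      (continuous_up.comp (Continuous.prodMk_left κ)).continuousOn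

/-- An equiconnecting map of the cone. -/
theorem exists_equi : ∃ c : (E × E) × ℝ → E,
    ContinuousOn c ((cK ×ˢ cK) ×ˢ Icc (0 : ℝ) 1) ∧ MapsTo c ((cK ×ˢ cK) ×ˢ Icc (0 : ℝ) 1) cK ∧
    (∀ κ ∈ cK, ∀ κ' ∈ cK, c ((κ, κ'), 0) = κ ∧ c ((κ, κ'), 1) = κ') ∧
    ∀ κ ∈ cK, ∀ t ∈ Icc (0 : ℝ) 1, c ((κ, κ), t) = κ := by
  have hQ : IsCompact ((cK ×ˢ cK) ×ˢ Icc (0 : ℝ) 1) :=
    (isPoly_cK.isCompact.prod isPoly_cK.isCompact).prod isCompact_Icc
  have hQc := hQ.isClosed
  let A : Set ((E × E) × ℝ) :=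
    ((cK ×ˢ cK) ×ˢ Icc (0 : ℝ) 1) ∩ {p | p.2 = 0 ∨ p.1.1 = p.1.2}
  let B : Set ((E × E) × ℝ) := ((cK ×ˢ cK) ×ˢ Icc (0 : ℝ) 1) ∩ {p | p.2 = 1}
  have hA : IsClosed A := by
    refine hQc.inter ?_
    exact (isClosed_eq continuous_snd continuous_const).union
      (isClosed_eq (continuous_fst.comp continuous_fst) (continuous_snd.comp continuous_fst))
  have hB : IsClosed B := hQc.inter (isClosed_eq continuous_snd continuous_const)
  obtain ⟨F, hF, hFA, hFB⟩ := exists_glue₂ hA hB (f := fun p => p.1.1) (g := fun p => p.1.2)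
    (continuous_fst.comp continuous_fst).continuousOn
    (continuous_snd.comp continuous_fst).continuousOn (by
      rintro p hp hp'
      have h1 : p.2 = 1 := hp'.2
      rcases hp.2 with h2 | h2
      · rw [h2] at h1
        exact absurd h1 zero_ne_one
      · exact h2)
  have hm : MapsTo F (A ∪ B) cK := by
    rintro p (hp | hp)
    · rw [hFA hp]
      exact hp.1.1.1
    · rw [hFB hp]
      exact hp.1.1.2
  obtain ⟨c, hc, hcm, hcF⟩ := ae_cK.extend hQ (hA.union hB)
    (union_subset inter_subset_left inter_subset_left) hF hm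
  refine ⟨c, hc, hcm, fun κ hκ κ' hκ' => ?_, fun κ hκ t ht' => ?_⟩
  · have h0 : ((κ, κ'), (0 : ℝ)) ∈ A := ⟨⟨⟨hκ, hκ'⟩, ⟨le_rfl, zero_le_one⟩⟩, Or.inl rfl⟩
    have h1 : ((κ, κ'), (1 : ℝ)) ∈ B := ⟨⟨⟨hκ, hκ'⟩, ⟨zero_le_one, le_rfl⟩⟩, rfl⟩
    exact ⟨(hcF (Or.inl h0)).trans (hFA h0), (hcF (Or.inr h1)).trans (hFB h1)⟩
  · have h0 : ((κ, κ), t) ∈ A := ⟨⟨⟨hκ, hκ⟩, ht'⟩, Or.inr rfl⟩
    exact (hcF (Or.inl h0)).trans (hFA h0)

/-- Points of the cone moved along the rays from the apex. -/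
private theorem conef_ray {s : ℝ} (h0 : 0 ≤ s) {κ : E} (hκ : κ ∈ cK) {m : ℝ} (hm : 0 ≤ m)
    (h : s ≤ 1 - m * (1 - ht κ)) : apex + m • (κ - apex) ∈ cK ∧ s ≤ ht (apex + m • (κ - apex)) := by
  have hht : ht (apex + m • (κ - apex)) = 1 - m * (1 - ht κ) := by
    have e : apex + m • (κ - apex) = m • κ + (1 - m) • apex := by
      rw [smul_sub, sub_smul, one_smul]; abel
    rw [e, ht_add, ht_smul, ht_smul, ht_apex]; ring
  refine ⟨?_, by rw [hht]; exact h⟩
  by_cases h1 : κ = apex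
  · rw [h1, sub_self, smul_zero, add_zero]
    exact apex_mem
  · have h2 : ht κ < 1 := ht_lt_one hκ h1
    have h3 : 0 ≤ ht κ := ht_nonneg hκ
    have e : apex + m • (κ - apex) = up (1 - m * (1 - ht κ)) (dn (ht κ) κ) := by
      unfold up dn
      have h4 : (1 - ht κ) ≠ 0 := (sub_pos.2 h2).ne'
      rw [smul_smul, show (1 - (1 - m * (1 - ht κ))) * (1 - ht κ)⁻¹ = m by field_simp; ring]
      rw [smul_sub, smul_sub, sub_smul, one_smul, smul_smul]
      rw [show m * (1 - ht κ) = m - m * ht κ by ring, sub_smul]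
      abel
    rw [e]
    refine up_mem (h0.trans h) ?_ (dn_mem h3 h2 hκ le_rfl)
    nlinarith [mul_nonneg hm (sub_nonneg.2 h2.le)]

/-- The homotopy extension property of the part of the cone above the height `s`. -/
theorem exists_rad {s : ℝ} (h0 : 0 ≤ s) (h1 : s < 1) : ∃ r : E × ℝ → E × ℝ,
    ContinuousOn r {p | p.1 ∈ cK ∧ s ≤ ht p.1 ∧ p.2 ∈ Icc (0 : ℝ) 1} ∧
    (∀ κ ∈ cK, s ≤ ht κ → ∀ t ∈ Icc (0 : ℝ) 1, (r (κ, t)).1 ∈ cK ∧ s ≤ ht (r (κ, t)).1 ∧
      (r (κ, t)).2 ∈ Icc (0 : ℝ) 1 ∧ ((r (κ, t)).2 = 0 ∨ ht (r (κ, t)).1 = s)) ∧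
    ∀ κ ∈ cK, s ≤ ht κ → ∀ t ∈ Icc (0 : ℝ) 1, (t = 0 ∨ ht κ = s) → r (κ, t) = (κ, t) := by
  have hs : 0 < 1 - s := sub_pos.2 h1
  let ρ : E → ℝ := fun κ => (1 - ht κ) / (1 - s)
  let d : E → ℝ := fun κ => max (ρ κ) (1 / 2)
  let m : E × ℝ → ℝ := fun p => min (1 + p.2) (1 / d p.1)
  let τ : E × ℝ → ℝ := fun p => max 0 ((1 + p.2) * ρ p.1 - 1) / d p.1
  have hρc : Continuous ρ := (continuous_const.sub continuous_ht).div_const _
  have hdc : Continuous d := hρc.max continuous_const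
  have hd : ∀ κ, 0 < d κ := fun κ => lt_of_lt_of_le (by norm_num) (le_max_right _ _)
  have hdc' : Continuous fun p : E × ℝ => d p.1 := hdc.comp continuous_fst
  have hmc : Continuous m :=
    (continuous_const.add continuous_snd).min (continuous_const.div hdc' fun p => (hd p.1).ne')
  have hτc : Continuous τ :=
    (continuous_const.max (((continuous_const.add continuous_snd).mul
      (hρc.comp continuous_fst)).sub continuous_const)).div hdc' fun p => (hd p.1).ne'
  refine ⟨fun p => (apex + m p • (p.1 - apex), τ p), ?_, ?_, ?_⟩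
  · exact ((continuous_const.add (hmc.smul (continuous_fst.sub continuous_const))).prodMk
      hτc).continuousOn
  · intro κ hκ hsκ t ht'
    have hρ0 : 0 ≤ ρ κ := div_nonneg (sub_nonneg.2 (ht_le_one hκ)) hs.le
    have hρ1 : ρ κ ≤ 1 := (div_le_one hs).2 (by linarith)
    have hρe : 1 - ht κ = ρ κ * (1 - s) := (div_mul_cancel₀ _ hs.ne').symm
    have hm0 : 0 ≤ m (κ, t) := le_min (by linarith [ht'.1]) (one_div_nonneg.2 (hd κ).le)
    have hmd : m (κ, t) * d κ ≤ 1 := by
      have : m (κ, t) ≤ 1 / d κ := min_le_right _ _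
      rwa [le_div_iff₀ (hd κ)] at this
    have hmρ : m (κ, t) * ρ κ ≤ 1 := le_trans (mul_le_mul_of_nonneg_left (le_max_left _ _) hm0) hmd
    have hle : s ≤ 1 - m (κ, t) * (1 - ht κ) := by
      rw [hρe, ← mul_assoc]
      nlinarith
    obtain ⟨h2, h3⟩ := conef_ray h0 hκ hm0 hle
    refine ⟨h2, h3, ⟨div_nonneg (le_max_left _ _) (hd κ).le, ?_⟩, ?_⟩
    · rw [div_le_one (hd κ)]
      refine max_le (hd κ).le (le_trans ?_ (le_max_left _ _))
      show (1 + t) * ρ κ - 1 ≤ ρ κ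
      nlinarith [ht'.1, ht'.2]
    · by_cases h4 : (1 + t) * ρ κ ≤ 1
      · left
        show max 0 ((1 + t) * ρ κ - 1) / d κ = 0
        rw [max_eq_left (by linarith), zero_div]
      · right
        push Not at h4
        have h5 : 1 / 2 < ρ κ := by nlinarith [ht'.2]
        have h6 : d κ = ρ κ := max_eq_left h5.le
        have h7 : m (κ, t) = 1 / ρ κ := by
          show min (1 + t) (1 / d κ) = _
          rw [h6]
          refine min_eq_right ?_
          rw [div_le_iff₀ (by linarith)]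
          exact h4.le
        show ht (apex + m (κ, t) • (κ - apex)) = s
        have e : apex + m (κ, t) • (κ - apex) = m (κ, t) • κ + (1 - m (κ, t)) • apex := by
          rw [smul_sub, sub_smul, one_smul]; abel
        rw [e, ht_add, ht_smul, ht_smul, ht_apex, h7]
        have h8 : ht κ = 1 - ρ κ * (1 - s) := by linarith
        rw [h8]
        have h9 : ρ κ ≠ 0 := by linarith
        field_simp
        ring
  · intro κ hκ hsκ t ht' h2
    have hρ1 : ρ κ ≤ 1 := (div_le_one hs).2 (by linarith)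
    have hd1 : d κ ≤ 1 := max_le hρ1 (by norm_num)
    rcases h2 with h2 | h2
    · subst h2
      have h3 : m (κ, 0) = 1 := by
        show min (1 + 0) (1 / d κ) = 1
        rw [add_zero]
        refine min_eq_left ?_
        rw [le_div_iff₀ (hd κ), one_mul]
        exact hd1
      have h4 : τ (κ, 0) = 0 := by
        show max 0 ((1 + 0) * ρ κ - 1) / d κ = 0
        rw [max_eq_left (by linarith), zero_div]
      show (apex + m (κ, 0) • (κ - apex), τ (κ, 0)) = (κ, 0)
      rw [h3, h4, one_smul, add_sub_cancel]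
    · have h5 : ρ κ = 1 := by
        show (1 - ht κ) / (1 - s) = 1
        rw [h2, div_self hs.ne']
      have h6 : d κ = 1 := by
        show max (ρ κ) (1 / 2) = 1
        rw [h5]
        norm_num
      have h3 : m (κ, t) = 1 := by
        show min (1 + t) (1 / d κ) = 1
        rw [h6, div_one]
        exact min_eq_right (by linarith [ht'.1])
      have h4 : τ (κ, t) = t := by
        show max 0 ((1 + t) * ρ κ - 1) / d κ = t
        rw [h5, h6, div_one, mul_one, add_sub_cancel_left, max_eq_right ht'.1]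
      show (apex + m (κ, t) • (κ - apex), τ (κ, t)) = (κ, t)
      rw [h3, h4, one_smul, add_sub_cancel]

end Pool.Agent.H71.ZW
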