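import Pool.Agent.H71.ZW.ConeE
import Pool.Agent.H71.ZW.ConeF

/-!
# The cone: basic facts
-/
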