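import Pool.Agent.H71.ZW.Defs

set_option autoImplicit false

/-!
# Two lemmas about connected sets
-/

namespace Pool.Agent.H71.ZW

open Set Topology TopologicalSpace

/-- Preimages of closed connected sets under maps with connected fibres are connected. (If the
preimage is the union of disjoint closed sets `A`, `B`, then every fibre is in one of them, so the
images of `A` and `B` are disjoint compact sets.) -/
theorem isConnected_preim {X Y : Type} [TopologicalSpace X] [TopologicalSpace Y] [T2Space X]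
    [T2Space Y] {P : Set X} {f : X → Y} (hP : IsCompact P) (hf : ContinuousOn f P) {Z : Set Y}
    (hZ : IsClosed Z) (hc : IsConnected Z) (hfib : ∀ y ∈ Z, IsConnected {x | x ∈ P ∧ f x = y}) :
    IsConnected {x | x ∈ P ∧ f x ∈ Z} := by
  have hScl : IsClosed {x | x ∈ P ∧ f x ∈ Z} := by
    have h := hf.preimage_isClosed_of_isClosed hP.isClosed hZ
    exact h
  have hScp : IsCompact {x | x ∈ P ∧ f x ∈ Z} := hP.of_isClosed_subset hScl (fun x hx => hx.1)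
  refine ⟨?_, ?_⟩
  · obtain ⟨y, hy⟩ := hc.nonempty
    obtain ⟨x, hx⟩ := (hfib y hy).nonempty
    refine ⟨x, hx.1, ?_⟩
    rw [hx.2]
    exact hy
  · rw [isPreconnected_closed_iff]
    intro t t' ht ht' hsub hn hn'
    have hfS : ContinuousOn f {x | x ∈ P ∧ f x ∈ Z} := hf.mono (fun x hx => hx.1)
    have hA : IsClosed (f '' ({x | x ∈ P ∧ f x ∈ Z} ∩ t)) :=
      ((hScp.inter_right ht).image_of_continuousOn (hfS.mono inter_subset_left)).isClosed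
    have hB : IsClosed (f '' ({x | x ∈ P ∧ f x ∈ Z} ∩ t')) :=
      ((hScp.inter_right ht').image_of_continuousOn (hfS.mono inter_subset_left)).isClosed
    have hcov : Z ⊆ f '' ({x | x ∈ P ∧ f x ∈ Z} ∩ t) ∪ f '' ({x | x ∈ P ∧ f x ∈ Z} ∩ t') := by
      intro y hy
      obtain ⟨x, hx⟩ := (hfib y hy).nonempty
      have hxS : x ∈ {x | x ∈ P ∧ f x ∈ Z} := ⟨hx.1, by rw [hx.2]; exact hy⟩
      rcases hsub hxS with h | h
      · exact Or.inl ⟨x, ⟨hxS, h⟩, hx.2⟩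
      · exact Or.inr ⟨x, ⟨hxS, h⟩, hx.2⟩
    have hZA : (Z ∩ f '' ({x | x ∈ P ∧ f x ∈ Z} ∩ t)).Nonempty := by
      obtain ⟨x, hx⟩ := hn
      exact ⟨f x, hx.1.2, x, hx, rfl⟩
    have hZB : (Z ∩ f '' ({x | x ∈ P ∧ f x ∈ Z} ∩ t')).Nonempty := by
      obtain ⟨x, hx⟩ := hn'
      exact ⟨f x, hx.1.2, x, hx, rfl⟩
    obtain ⟨y, hyZ, ⟨a, ha, hay⟩, ⟨b, hb, hby⟩⟩ :=
      isPreconnected_closed_iff.1 hc.isPreconnected _ _ hA hB hcov hZA hZB
    have hfsub : {x | x ∈ P ∧ f x = y} ⊆ {x | x ∈ P ∧ f x ∈ Z} := by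
      intro x hx
      exact ⟨hx.1, by rw [hx.2]; exact hyZ⟩
    obtain ⟨x, hx, hx'⟩ := isPreconnected_closed_iff.1 (hfib y hyZ).isPreconnected t t' ht ht'
      (hfsub.trans hsub) ⟨a, ⟨ha.1.1, hay⟩, ha.2⟩ ⟨b, ⟨hb.1.1, hby⟩, hb.2⟩
    exact ⟨x, hfsub hx, hx'⟩

/-- Removal of disjoint pieces `C i` which meet the rest `Y` in connected sets. (If `Y` is the union
of disjoint closed sets `A`, `B`, add `C i` to the one which contains `Y ∩ C i`.) -/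
theorem isPreconnected_remove {X : Type} [TopologicalSpace X] {ι : Type} {I : Set ι}
    (hI : I.Finite) {Y : Set X} {C : ι → Set X} (hY : IsClosed Y) (hC : ∀ i ∈ I, IsClosed (C i))
    (hS : ∀ i ∈ I, IsPreconnected (Y ∩ C i))
    (hd : ∀ i ∈ I, ∀ j ∈ I, i ≠ j → Disjoint (C i) (C j))
    (hU : IsPreconnected (Y ∪ ⋃ i ∈ I, C i)) : IsPreconnected Y := by
  rw [isPreconnected_closed_iff]
  intro t t' ht ht' hsub hn hn'
  by_contra hne
  have hcase : ∀ i ∈ I, (Y ∩ C i ∩ t').Nonempty → ¬ (Y ∩ C i ∩ t).Nonempty := by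
    intro i hi h' h
    apply hne
    obtain ⟨x, hx, hx'⟩ := isPreconnected_closed_iff.1 (hS i hi) t t' ht ht'
      (inter_subset_left.trans hsub) h h'
    exact ⟨x, hx.1, hx'⟩
  have hA : IsClosed ((Y ∩ t) ∪ ⋃ i ∈ {i ∈ I | ¬ (Y ∩ C i ∩ t').Nonempty}, C i) :=
    (hY.inter ht).union ((hI.subset (fun i hi => hi.1)).isClosed_biUnion
      (fun i hi => hC i hi.1))
  have hB : IsClosed ((Y ∩ t') ∪ ⋃ i ∈ {i ∈ I | (Y ∩ C i ∩ t').Nonempty}, C i) :=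
    (hY.inter ht').union ((hI.subset (fun i hi => hi.1)).isClosed_biUnion
      (fun i hi => hC i hi.1))
  have hcov : (Y ∪ ⋃ i ∈ I, C i) ⊆ ((Y ∩ t) ∪ ⋃ i ∈ {i ∈ I | ¬ (Y ∩ C i ∩ t').Nonempty}, C i) ∪
      ((Y ∩ t') ∪ ⋃ i ∈ {i ∈ I | (Y ∩ C i ∩ t').Nonempty}, C i) := by
    intro x hx
    rcases hx with hx | hx
    · rcases hsub hx with h | h
      · exact Or.inl (Or.inl ⟨hx, h⟩)
      · exact Or.inr (Or.inl ⟨hx, h⟩)
    · obtain ⟨i, hi, hxi⟩ := mem_iUnion₂.1 hx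
      by_cases h : (Y ∩ C i ∩ t').Nonempty
      · exact Or.inr (Or.inr (mem_iUnion₂.2 ⟨i, ⟨hi, h⟩, hxi⟩))
      · exact Or.inl (Or.inr (mem_iUnion₂.2 ⟨i, ⟨hi, h⟩, hxi⟩))
  have hnA : ((Y ∪ ⋃ i ∈ I, C i) ∩
      ((Y ∩ t) ∪ ⋃ i ∈ {i ∈ I | ¬ (Y ∩ C i ∩ t').Nonempty}, C i)).Nonempty := by
    obtain ⟨x, hx⟩ := hn
    exact ⟨x, Or.inl hx.1, Or.inl hx⟩
  have hnB : ((Y ∪ ⋃ i ∈ I, C i) ∩
      ((Y ∩ t') ∪ ⋃ i ∈ {i ∈ I | (Y ∩ C i ∩ t').Nonempty}, C i)).Nonempty := by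
    obtain ⟨x, hx⟩ := hn'
    exact ⟨x, Or.inl hx.1, Or.inl hx⟩
  obtain ⟨x, -, hxA, hxB⟩ := isPreconnected_closed_iff.1 hU _ _ hA hB hcov hnA hnB
  rcases hxA with hxA | hxA
  · rcases hxB with hxB | hxB
    · exact hne ⟨x, hxA.1, hxA.2, hxB.2⟩
    · obtain ⟨i, hi, hxi⟩ := mem_iUnion₂.1 hxB
      exact hcase i hi.1 hi.2 ⟨x, ⟨hxA.1, hxi⟩, hxA.2⟩
  · obtain ⟨i, hi, hxi⟩ := mem_iUnion₂.1 hxA
    rcases hxB with hxB | hxB
    · exact hi.2 ⟨x, ⟨hxB.1, hxi⟩, hxB.2⟩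
    · obtain ⟨j, hj, hxj⟩ := mem_iUnion₂.1 hxB
      have hij : i ≠ j := by
        intro h
        rw [h] at hi
        exact hi.2 hj.2
      exact Set.disjoint_left.1 (hd i hi.1 j hj.1 hij) hxi hxj

end Pool.Agent.H71.ZW
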