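import Pool.Agent.H71.ZW.StageA

set_option autoImplicit false

/-!
# Existence of the data of a splitting

Proof of `exists_cut`. Let `C i t = {x ∈ P | t ≤ ht (x i)}` and `B = {i ∈ I | w i ∈ Z}`. By
`IsStage.exists_height` (with `δ ≤ ε' - ε`) and `IsStage.near`, for all `s` close to `1`: the cones
`C i s` and the spheres are connected, transports exist, the cones are disjoint, `ht (w i j) < s`,
`ht (y i) < s` (as `y` is not wild), `dm m x (w i) ≤ ε' - ε` on `C i s`, and for `i ∈ B`, `i' ∈ A`,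
`w i' ∉ Z` we have `ht (x i') < s₀` on `C i s` (as `ht (w i i') < s₀`). Put
`S = {x | (x ∈ Z ∨ ∃ i ∈ B, x ∈ C i s) ∧ ∀ i ∈ B, ht (x i) ≤ s}`. It is connected by
`isPreconnected_remove` (with the pieces `C i s`, `i ∈ B`; the union with the pieces is
`Z ∪ ⋃ i ∈ B, C i s`, a union of connected sets which meet `Z`; the intersections with the pieces are
the spheres).
-/

namespace Pool.Agent.H71.ZW

open Set Topology TopologicalSpace

private theorem cut_ht_w {n : ℕ} {P : Set W} {I : Set ℕ} {w : ℕ → W} (h : IsStage n P I w) {i : ℕ}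
    (hi : i ∈ I) : ht (w i i) = 1 := by
  rw [(h.vtx i hi (w i) (h.mem i hi)).2 rfl]
  simp [ht, apex]

private theorem cut_bound {J : Set ℕ} (hJ : J.Finite) {f : ℕ → ℝ} (hf : ∀ i ∈ J, f i < 1) {s₀ : ℝ}
    (hs₀ : s₀ < 1) : ∃ s < 1, s₀ ≤ s ∧ ∀ i ∈ J, f i ≤ s := by
  induction J, hJ using Set.Finite.induction_on with
  | empty => exact ⟨s₀, hs₀, le_rfl, fun i hi => hi.elim⟩
  | @insert a J _ _ ih =>
    obtain ⟨s, h1, h2, h3⟩ := ih fun i hi => hf i (mem_insert_of_mem _ hi)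
    refine ⟨max s (f a), max_lt h1 (hf a (mem_insert _ _)), h2.trans (le_max_left _ _), ?_⟩
    intro i hi
    rcases hi with rfl | hi
    · exact le_max_right _ _
    · exact (h3 i hi).trans (le_max_left _ _)

theorem exists_cut {n : ℕ} {P : Set W} {I : Set ℕ} {w : ℕ → W} {j : ℕ} {y : W} {Z : Set W}
    {m : ℕ} {ε ε' s₀ : ℝ} {A : Set ℕ} (h : IsStage n P I w) (hf : I.Finite) (hj : j ∈ I)
    (hA : A ⊆ I) (hZ : IsPoly Z) (hc : IsConnected Z) (hsub : Z ⊆ P) (hwj : w j ∈ Z) (hy : y ∈ Z)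
    (hyw : ∀ i ∈ I, y ≠ w i) (hs₀ : s₀ < 1) (hε : ε < ε') (hd : ∀ x ∈ Z, dm m x (w j) ≤ ε)
    (hsep : ∀ i ∈ A, w i ∈ Z ∨ ∀ x ∈ Z, ht (x i) < s₀) :
    ∃ (s : ℝ) (S : Set W), s₀ ≤ s ∧ IsCut n P I w j s S y ∧ (∀ x ∈ S, dm m x (w j) ≤ ε') ∧
      ∀ x ∈ S, ∀ i ∈ A, ht (x i) ≤ s := by
  obtain ⟨s₁, hs₁, hs01, hy1⟩ := cut_bound hf (f := fun i => ht (y i))
    (fun i hi => h.ht_lt_one hi (hsub hy) (hyw i hi)) hs₀
  obtain ⟨s, hss, hhalf, hlt, hH⟩ := h.exists_height hf m (sub_pos.2 hε) hs₁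
  have hH' := hH s le_rfl hlt
  have hdis : ∀ i ∈ I, ∀ i' ∈ I, i ≠ i' → ∀ x ∈ P, s ≤ ht (x i) → ht (x i') < s :=
    fun i hi => (hH' i hi).2.2.2.1
  obtain ⟨B, hB⟩ : ∃ B : Set ℕ, B = {i | i ∈ I ∧ w i ∈ Z} := ⟨_, rfl⟩
  have hBI : B ⊆ I := by
    rw [hB]
    exact fun i hi => hi.1
  have hBZ : ∀ i ∈ B, w i ∈ Z := by
    rw [hB]
    exact fun i hi => hi.2
  have hjB : j ∈ B := by
    rw [hB]
    exact ⟨hj, hwj⟩
  have hBf : B.Finite := hf.subset hBI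
  obtain ⟨C, hC⟩ : ∃ C : ℕ → Set W, C = fun i => {x | x ∈ P ∧ s ≤ ht (x i)} := ⟨_, rfl⟩
  have hCi : ∀ i x, x ∈ C i ↔ x ∈ P ∧ s ≤ ht (x i) := by
    intro i x
    rw [hC]
    exact Iff.rfl
  have hCpoly : ∀ i, IsPoly (C i) := by
    intro i
    rw [hC]
    exact h.poly.ht_ge i s
  have hwC : ∀ i ∈ I, w i ∈ C i := by
    intro i hi
    rw [hCi, cut_ht_w h hi]
    exact ⟨h.mem i hi, hlt.le⟩
  have hUpoly : IsPoly (Z ∪ ⋃ i ∈ B, C i) := hZ.union (isPoly_biUnion hBf fun i _ => hCpoly i)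
  obtain ⟨S, hS⟩ : ∃ S : Set W, S = {x | x ∈ Z ∪ ⋃ i ∈ B, C i ∧ ∀ i ∈ B, ht (x i) ≤ s} := ⟨_, rfl⟩
  have hSi : ∀ x, x ∈ S ↔ (x ∈ Z ∨ ∃ i ∈ B, x ∈ C i) ∧ ∀ i ∈ B, ht (x i) ≤ s := by
    intro x
    rw [hS]
    simp only [mem_ofPred_eq, mem_union, mem_iUnion, exists_prop]
  have hSpoly : IsPoly S := by
    rw [hS]
    exact hUpoly.forall_ht_le hBf s
  have hSP : S ⊆ P := by
    intro x hx
    rw [hSi] at hx
    rcases hx.1 with hx | ⟨i, hi, hx⟩
    · exact hsub hx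
    · exact ((hCi i x).1 hx).1
  have hsph : ∀ i ∈ B, ∀ x ∈ P, ht (x i) = s → x ∈ S := by
    intro i hi x hx hxs
    rw [hSi]
    refine ⟨Or.inr ⟨i, hi, (hCi i x).2 ⟨hx, hxs.ge⟩⟩, fun i' hi' => ?_⟩
    by_cases hii : i = i'
    · rw [← hii]
      exact hxs.le
    · exact (hdis i (hBI hi) i' (hBI hi') hii x hx hxs.ge).le
  have hyS : y ∈ S := by
    rw [hSi]
    exact ⟨Or.inl hy, fun i hi => (hy1 i (hBI hi)).trans hss⟩
  have hSC : ∀ i ∈ B, S ∩ C i = {x | x ∈ P ∧ ht (x i) = s} := by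
    intro i hi
    ext x
    constructor
    · rintro ⟨h1, h2⟩
      rw [hCi] at h2
      rw [hSi] at h1
      exact ⟨h2.1, le_antisymm (h1.2 i hi) h2.2⟩
    · rintro ⟨h1, h2⟩
      exact ⟨hsph i hi x h1 h2, (hCi i x).2 ⟨h1, h2.ge⟩⟩
  have hunion : S ∪ ⋃ i ∈ B, C i = ⋃₀ {D | ∃ i ∈ B, D = Z ∪ C i} := by
    ext x
    simp only [mem_union, mem_iUnion, exists_prop, mem_sUnion, mem_ofPred_eq]
    constructor
    · rintro (hx | ⟨i, hi, hx⟩)
      · rw [hSi] at hx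
        rcases hx.1 with hx | ⟨i, hi, hx⟩
        · exact ⟨_, ⟨j, hjB, rfl⟩, Or.inl hx⟩
        · exact ⟨_, ⟨i, hi, rfl⟩, Or.inr hx⟩
      · exact ⟨_, ⟨i, hi, rfl⟩, Or.inr hx⟩
    · rintro ⟨_, ⟨i, hi, rfl⟩, hx | hx⟩
      · by_cases hall : ∀ i ∈ B, ht (x i) ≤ s
        · exact Or.inl ((hSi x).2 ⟨Or.inl hx, hall⟩)
        · push Not at hall
          obtain ⟨i', hi', hlt'⟩ := hall
          exact Or.inr ⟨i', hi', (hCi i' x).2 ⟨hsub hx, hlt'.le⟩⟩
      · exact Or.inr ⟨i, hi, hx⟩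
  have hpre : IsPreconnected S := by
    refine isPreconnected_remove (C := C) hBf hSpoly.isCompact.isClosed
      (fun i _ => (hCpoly i).isCompact.isClosed) (fun i hi => ?_) (fun i hi i' hi' hii => ?_) ?_
    · rw [hSC i hi]
      exact (hH' i (hBI hi)).2.1.isPreconnected
    · rw [Set.disjoint_left]
      intro x hx hx'
      rw [hCi] at hx hx'
      exact absurd hx'.2 (not_le.2 (hdis i (hBI hi) i' (hBI hi') hii x hx.1 hx.2))
    · rw [hunion]
      refine isPreconnected_sUnion (w j) _ ?_ ?_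
      · rintro _ ⟨i, hi, rfl⟩
        exact Or.inl hwj
      · rintro _ ⟨i, hi, rfl⟩
        refine IsPreconnected.union (w i) (hBZ i hi) (hwC i (hBI hi)) hc.isPreconnected ?_
        rw [hC]
        exact (hH' i (hBI hi)).1.isPreconnected
  have hle : ∀ x ∈ S, ∀ i ∈ B, ht (x i) ≤ s := fun x hx => ((hSi x).1 hx).2
  refine ⟨s, S, hs01.trans hss, ⟨h, hj, hhalf, hlt, hSpoly, ⟨⟨y, hyS⟩, hpre⟩, hSP,
    fun x hx => hle x hx j hjB, fun x hx hxs => hsph j hjB x hx hxs, ?_, ?_, hyS,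
    (hH' j hj).2.2.1⟩, ?_, ?_⟩
  · intro i hi hw
    by_cases hiB : i ∈ B
    · have := hle _ hw i hiB
      rw [cut_ht_w h hi] at this
      linarith
    · rcases ((hSi _).1 hw).1 with hw | ⟨i', hi', hw⟩
      · apply hiB
        rw [hB]
        exact ⟨hi, hw⟩
      · rw [hCi] at hw
        have hii : i ≠ i' := by
          rintro rfl
          exact hiB hi'
        have := hdis i hi i' (hBI hi') hii (w i) (h.mem i hi)
          (by rw [cut_ht_w h hi]; exact hlt.le)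
        exact absurd hw.2 (not_le.2 this)
  · intro i hi hij
    exact hdis i hi j hj hij (w i) (h.mem i hi) (by rw [cut_ht_w h hi]; exact hlt.le)
  · intro x hx
    rcases ((hSi x).1 hx).1 with hx | ⟨i, hi, hx⟩
    · exact (hd x hx).trans hε.le
    · rw [hCi] at hx
      have h1 := (hH' i (hBI hi)).2.2.2.2 x hx.1 hx.2
      have h2 := hd (w i) (hBZ i hi)
      have h3 := dm_triangle m x (w i) (w j)
      linarith
  · intro x hx i hi
    by_cases hiB : i ∈ B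
    · exact hle x hx i hiB
    · have hwi : w i ∉ Z := by
        intro hw
        apply hiB
        rw [hB]
        exact ⟨hA hi, hw⟩
      rcases ((hSi x).1 hx).1 with hx | ⟨i', hi', hx⟩
      · have := (hsep i hi).resolve_left hwi x hx
        linarith
      · rw [hCi] at hx
        have hii : i' ≠ i := by
          rintro rfl
          exact hiB hi'
        exact (hdis i' (hBI hi') i (hA hi) hii x hx.1 hx.2).le

end Pool.Agent.H71.ZW
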