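import Mathlib

set_option autoImplicit false

/-!
# A compact AR without `Z_2`-points: definitions
-/

namespace Pool.Agent.H71.ZW

open Set Topology TopologicalSpace

/-! ### Absolute extensors -/

/-- The set `P` is an absolute extensor for compact metrizable spaces. -/
def AE {V : Type} [TopologicalSpace V] (P : Set V) : Prop :=
  ∀ (Y : Type) [TopologicalSpace Y] [CompactSpace Y] [MetrizableSpace Y] (B : Set Y) (f : Y → V),
    IsClosed B → ContinuousOn f B → MapsTo f B P →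
      ∃ F : Y → V, Continuous F ∧ (∀ y, F y ∈ P) ∧ EqOn F f B

/-- The set `P` is an absolute neighbourhood extensor for compact metrizable spaces. -/
def ANE {V : Type} [TopologicalSpace V] (P : Set V) : Prop :=
  ∀ (Y : Type) [TopologicalSpace Y] [CompactSpace Y] [MetrizableSpace Y] (B : Set Y) (f : Y → V),
    IsClosed B → ContinuousOn f B → MapsTo f B P →
      ∃ (U : Set Y) (F : Y → V), IsOpen U ∧ B ⊆ U ∧ ContinuousOn F U ∧ MapsTo F U P ∧ EqOn F f B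

/-- The set `P` is contractible. -/
def Contr {V : Type} [TopologicalSpace V] (P : Set V) : Prop :=
  ∃ (c : V × ℝ → V) (p : V), p ∈ P ∧ ContinuousOn c (P ×ˢ Icc (0 : ℝ) 1) ∧
    MapsTo c (P ×ˢ Icc (0 : ℝ) 1) P ∧ (∀ x ∈ P, c (x, 0) = x) ∧ ∀ x ∈ P, c (x, 1) = p

/-- Finite unions of compact convex sets. -/
def IsPoly {V : Type} [AddCommGroup V] [Module ℝ V] [TopologicalSpace V] (P : Set V) : Prop :=
  ∃ 𝒞 : Set (Set V), 𝒞.Finite ∧ (∀ C ∈ 𝒞, IsCompact C ∧ Convex ℝ C) ∧ P = ⋃₀ 𝒞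

/-! ### The cone over the acyclic complex `K` -/

/-- The space of the cone. -/
abbrev E := Fin 12 → ℝ

/-- The maximal simplices of the cone; the last vertex is the apex. -/
def cells : Finset (Finset (Fin 12)) :=
  {{0, 1, 5, 11}, {1, 2, 5, 11}, {2, 3, 5, 11}, {3, 4, 5, 11}, {0, 4, 5, 11},
   {0, 1, 6, 11}, {1, 3, 6, 11}, {3, 4, 6, 11}, {2, 4, 6, 11}, {0, 2, 6, 11},
   {0, 1, 7, 11}, {1, 4, 7, 11}, {2, 4, 7, 11}, {2, 3, 7, 11}, {0, 3, 7, 11},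
   {0, 2, 8, 11}, {1, 2, 8, 11}, {1, 4, 8, 11}, {3, 4, 8, 11}, {0, 3, 8, 11},
   {0, 2, 9, 11}, {2, 3, 9, 11}, {1, 3, 9, 11}, {1, 4, 9, 11}, {0, 4, 9, 11},
   {0, 3, 10, 11}, {1, 3, 10, 11}, {1, 2, 10, 11}, {2, 4, 10, 11}, {0, 4, 10, 11}}

/-- The points of the standard simplex with support in `t`. -/
def smp {ι : Type} [Fintype ι] (t : Finset ι) : Set (ι → ℝ) :=
  {κ | (∀ v, 0 ≤ κ v) ∧ ∑ v, κ v = 1 ∧ ∀ v, v ∉ t → κ v = 0}

/-- The cone over `K`. -/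
def cK : Set E := {κ | ∃ t ∈ cells, κ ∈ smp t}

/-- The height in the cone. -/
def ht (κ : E) : ℝ := κ 11

/-- The acyclic complex. -/
def K : Set E := {κ | κ ∈ cK ∧ ht κ = 0}

/-- The apex of the cone. -/
def apex : E := Pi.single 11 1

/-- The base point of `K`. -/
def base : E := Pi.single 0 1

/-- The map of the cone onto its part above the height `s`. -/
def up (s : ℝ) (κ : E) : E := (1 - s) • κ + s • apex

/-- The inverse of `up s`. -/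
noncomputable def dn (s : ℝ) (κ : E) : E := (1 - s)⁻¹ • (κ - s • apex)

/-! ### Stages -/

/-- The ambient space of all stages. -/
abbrev W := ℕ → E

/-- Change of one coordinate. -/
def upd (x : W) (n : ℕ) (κ : E) : W := Function.update x n κ

/-- The first `n` coordinates. -/
def tr (n : ℕ) (x : W) : W := fun i => if i < n then x i else 0

/-- The distance of the first `m` coordinates. -/
noncomputable def dm (m : ℕ) (x y : W) : ℝ := ∑ i ∈ Finset.range m, ‖x i - y i‖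

open Classical in
/-- The diagonal points. -/
noncomputable def cur (I : Set ℕ) (κ : E) : W := fun k => if k ∈ I then κ else 0

/-- `L` transports the points of `P` near the wild point `w i` to other values of the coordinate
`i`. -/
def IsTrans (P : Set W) (i : ℕ) (s : ℝ) (L : W × E → W) : Prop :=
  ContinuousOn L {p | p.1 ∈ P ∧ s ≤ ht (p.1 i) ∧ p.2 ∈ cK ∧ s ≤ ht p.2} ∧
    ∀ x ∈ P, s ≤ ht (x i) → (∀ κ ∈ cK, s ≤ ht κ → L (x, κ) ∈ P ∧ L (x, κ) i = κ) ∧ L (x, x i) = x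

/-- The set `P` is a stage of the construction: the coordinates with indices in `I` are maps of `P`
into the cone, and `w i` is the point with coordinate `i` at the apex. -/
structure IsStage (n : ℕ) (P : Set W) (I : Set ℕ) (w : ℕ → W) : Prop where
  poly : IsPoly P
  zero : ∀ x ∈ P, ∀ k, n ≤ k → x k = 0
  lt : ∀ i ∈ I, i < n
  mem : ∀ i ∈ I, w i ∈ P
  cone : ∀ i ∈ I, ∀ x ∈ P, x i ∈ cK
  vtx : ∀ i ∈ I, ∀ x ∈ P, x i = apex ↔ x = w i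
  inj : ∀ i ∈ I, ∀ j ∈ I, w i = w j → i = j
  contr : Contr P
  trans : ∀ i ∈ I, ∃ s < 1, ∃ L : W × E → W, IsTrans P i s L
  sph : ∀ i ∈ I, ∃ s < 1, ∀ t, s ≤ t → t < 1 → IsConnected {x | x ∈ P ∧ ht (x i) = t}
  diag : ∀ κ ∈ cK, ht κ ≤ 1 / 2 → cur I κ ∈ P

/-- The set `P'` with more coordinates is an extension of `P`, with a section `σ` and a homotopy `H`
from the identity to `σ ∘ tr n`. -/
structure IsExt (n : ℕ) (P : Set W) (n' : ℕ) (P' : Set W) (σ : W → W) (H : W × ℝ → W) :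
    Prop where
  le : n ≤ n'
  map : ∀ z ∈ P', tr n z ∈ P
  fib : ∀ x ∈ P, IsConnected {z | z ∈ P' ∧ tr n z = x}
  contS : ContinuousOn σ P
  mapS : MapsTo σ P P'
  contH : ContinuousOn H (P' ×ˢ Icc (0 : ℝ) 1)
  mapH : MapsTo H (P' ×ˢ Icc (0 : ℝ) 1) P'
  H0 : ∀ z ∈ P', H (z, 0) = z
  H1 : ∀ z ∈ P', H (z, 1) = σ (tr n z)

/-! ### Splitting -/

/-- The data of a splitting. -/
structure IsCut (n : ℕ) (P : Set W) (I : Set ℕ) (w : ℕ → W) (j : ℕ) (s : ℝ) (S : Set W) (y : W) :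
    Prop where
  stage : IsStage n P I w
  hj : j ∈ I
  half : 1 / 2 ≤ s
  lt : s < 1
  polyS : IsPoly S
  conn : IsConnected S
  sub : S ⊆ P
  le : ∀ x ∈ S, ht (x j) ≤ s
  sphere : ∀ x ∈ P, ht (x j) = s → x ∈ S
  off : ∀ i ∈ I, w i ∉ S
  far : ∀ i ∈ I, i ≠ j → ht (w i j) < s
  yS : y ∈ S
  trans : ∃ L : W × E → W, IsTrans P j s L

/-- The splitting. -/
def spl (n j : ℕ) (s : ℝ) (P S : Set W) (y : W) : Set W :=
  {z | ∃ x ∈ P, ∃ κ ∈ cK, z = upd x n κ ∧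
    ((ht (x j) ≤ s ∧ κ = x j) ∨ (x ∈ S ∧ ht κ = ht (x j)) ∨
      (s ≤ ht (x j) ∧ κ = up s base) ∨ (x = y ∧ ht (x j) ≤ ht κ))}

/-- The wild points of the splitting. -/
noncomputable def wspl (n j : ℕ) (s : ℝ) (w : ℕ → W) (y : W) : ℕ → W := fun i =>
  if i = n then upd y n apex else if i = j then upd (w j) n (up s base)
    else upd (w i) n (w i j)

/-! ### Thickening -/

/-- The thickening. -/
def thk (n : ℕ) (c : ℝ) (P : Set W) (I : Set ℕ) : Set W :=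
  {z | ∃ x ∈ P, ∃ t : ℝ, 0 ≤ t ∧ (∀ i ∈ I, t ≤ c * (1 - ht (x i))) ∧ z = upd x n (t • apex)}

/-! ### Levels -/

/-- A level: a stage with a cover by small connected polyhedra which contain wild points; small means
small in the first `m` coordinates. -/
structure IsLevel (m n : ℕ) (P : Set W) (I : Set ℕ) (w : ℕ → W) (ε : ℝ) (𝒵 : Set (Set W)) :
    Prop where
  stage : IsStage n P I w
  fin : I.Finite
  le : m ≤ n
  zero_mem : (0 : ℕ) ∈ I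
  pos : 0 < ε
  finZ : 𝒵.Finite
  poly : ∀ Z ∈ 𝒵, IsPoly Z
  conn : ∀ Z ∈ 𝒵, IsConnected Z
  sub : ∀ Z ∈ 𝒵, Z ⊆ P
  wild : ∀ Z ∈ 𝒵, ∃ i ∈ I, w i ∈ Z ∧ ∀ x ∈ Z, dm m x (w i) ≤ ε
  cover : P ⊆ ⋃₀ 𝒵

/-- The height `s` is good for the stage `T`: the cones above the height `s` are small. -/
structure IsGood (m : ℕ) (T : Set W) (I : Set ℕ) (w : ℕ → W) (𝒵 : Set (Set W)) (s ε : ℝ) :
    Prop where
  half : 1 / 2 ≤ s
  lt : s < 1
  cone : ∀ i ∈ I, IsConnected {x | x ∈ T ∧ s ≤ ht (x i)}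
  sph : ∀ i ∈ I, IsConnected {x | x ∈ T ∧ ht (x i) = s}
  disj : ∀ i ∈ I, ∀ i' ∈ I, i ≠ i' → ∀ x ∈ T, s ≤ ht (x i) → ht (x i') < s
  small : ∀ i ∈ I, ∀ x ∈ T, s ≤ ht (x i) → dm m x (w i) ≤ ε
  sep : ∀ Z ∈ 𝒵, ∀ i ∈ I, w i ∈ Z ∨ ∀ x ∈ Z, ht (x i) < s
  trans : ∀ i ∈ I, ∃ L : W × E → W, IsTrans T i s L

/-- The section `σ` moves only points in the cones above the height `s`, and keeps them near. -/
def IsCtl (m n : ℕ) (T : Set W) (I : Set ℕ) (w : ℕ → W) (s ε : ℝ) (σ : W → W) : Prop :=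
  (∀ x ∈ T, (∀ i ∈ I, ht (x i) ≤ s) → tr n (σ x) = x) ∧
    ∀ x ∈ T, ∀ i ∈ I, s ≤ ht (x i) → dm m (σ x) (w i) ≤ ε

/-! ### Towers -/

/-- A tower of stages. -/
structure IsTower (m n : ℕ → ℕ) (P : ℕ → Set W) (I : ℕ → Set ℕ) (w : ℕ → ℕ → W) (ε η : ℕ → ℝ)
    (σ : ℕ → W → W) (H : ℕ → W × ℝ → W) (F G : ℕ → W × W → W) : Prop where
  stage : ∀ k, IsStage (n k) (P k) (I k) (w k)
  m_le : ∀ k, m k ≤ n k
  m_succ : ∀ k, m (k + 1) = n k + 1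
  le_succ : ∀ k, m (k + 1) ≤ n (k + 1)
  zero_mem : ∀ k, (0 : ℕ) ∈ I k
  I_sub : ∀ k, I k ⊆ I (k + 1)
  I_new : ∀ k, ∀ i ∈ I (k + 1), i < n k → i ∈ I k
  w_succ : ∀ k, ∀ i ∈ I k, tr (n k) (w (k + 1) i) = w k i
  dense : ∀ k, ∀ x ∈ P k, ∃ i ∈ I k, dm (m k) x (w k i) ≤ ε k
  pos : ∀ k, 0 < ε k
  half : ∀ k, ε (k + 1) ≤ ε k / 2
  ext : ∀ k, IsExt (n k) (P k) (n (k + 1)) (P (k + 1)) (σ k) (H k)
  ctlS : ∀ k, ∀ x ∈ P k, dm (m k) (σ k x) x ≤ 10 * ε k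
  ctlH : ∀ k, ∀ z ∈ P (k + 1), ∀ t ∈ Icc (0 : ℝ) 1, dm (m k) (H k (z, t)) z ≤ 10 * ε k
  contF : ∀ k, ContinuousOn (F k) {p | p.1 ∈ tr (n k + 1) '' P (k + 1) ∧
    p.2 ∈ tr (n k + 1) '' P (k + 1)}
  contG : ∀ k, ContinuousOn (G k) {p | p.1 ∈ tr (n k + 1) '' P (k + 1) ∧
    p.2 ∈ tr (n k + 1) '' P (k + 1)}
  mapF : ∀ k, ∀ x ∈ tr (n k + 1) '' P (k + 1), ∀ y ∈ tr (n k + 1) '' P (k + 1),
    F k (x, y) ∈ P (k + 1) ∧ G k (x, y) ∈ P (k + 1)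
  ctlF : ∀ k, 1 ≤ k → ∀ x ∈ tr (n k + 1) '' P (k + 1), ∀ y ∈ tr (n k + 1) '' P (k + 1),
    dm (m k) (F k (x, y)) x ≤ 100 * ε k ∧ dm (m k) (G k (x, y)) y ≤ 100 * ε k
  posη : ∀ k, 0 < η k
  sep : ∀ k, 1 ≤ k → ∀ x ∈ tr (n k + 1) '' P (k + 1), ∀ y ∈ tr (n k + 1) '' P (k + 1),
    η k ≤ dm (n k + 1) (F k (x, y)) (G k (x, y))
  eta : ∀ k, 100 * ε (k + 1) ≤ η k

end Pool.Agent.H71.ZW
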