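import Pool.Agent.H71.ZW.Defs

set_option autoImplicit false

/-!
# Convex sets are absolute extensors (Dugundji)

Proof. Fix a metric on `Y`; if `B = ∅` take a constant map. For `y ∉ B` let `t y` be the convex hull of
the values of `f` at the points of `B` with distance less than `3 infDist y B` from `y`. A value `f b`
with `dist y b < 2 infDist y B` lies in `t y'` for all `y'` near `y`, so there is a continuous map `g` on
`Y \ B` with `g y ∈ t y` (partition of unity, `exists_continuous_forall_mem_convex_of_local_const`).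
Put `F = g` on `Y \ B` and `F = f` on `B`. Near `b₀ ∈ B` only values of `f` near `b₀` matter, and the
convex neighbourhoods of `f b₀` give the continuity.
-/

namespace Pool.Agent.H71.ZW

open Set Topology TopologicalSpace

variable {V : Type} [AddCommGroup V] [Module ℝ V] [TopologicalSpace V] [IsTopologicalAddGroup V]
  [ContinuousSMul ℝ V] [LocallyConvexSpace ℝ V]

/-- A nonempty convex set is an absolute extensor. -/
theorem ae_convex {C : Set V} (hC : Convex ℝ C) (hne : C.Nonempty) : AE C := by
  classical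
  intro Y _ _ _ B f hB hf hm
  rcases B.eq_empty_or_nonempty with rfl | hBne
  · obtain ⟨c, hc⟩ := hne
    exact ⟨fun _ => c, continuous_const, fun _ => hc, fun y hy => absurd hy (notMem_empty y)⟩
  let _ : MetricSpace Y := metrizableSpaceMetric Y
  -- the convex sets
  obtain ⟨t, ht⟩ : ∃ t : Y → Set V,
      t = fun y => convexHull ℝ (f '' {b | b ∈ B ∧ dist y b < 3 * Metric.infDist y B}) := ⟨_, rfl⟩
  have htc : ∀ y, Convex ℝ (t y) := fun y => by
    rw [ht]
    exact convex_convexHull ℝ _
  have htC : ∀ y, t y ⊆ C := fun y => by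
    rw [ht]
    refine convexHull_min ?_ hC
    rintro _ ⟨b, hb, rfl⟩
    exact hm hb.1
  have hpos : ∀ y : Y, y ∉ B → 0 < Metric.infDist y B := fun y hy => by
    rwa [← hB.notMem_iff_infDist_pos hBne]
  have hloc : ∀ x : (Bᶜ : Set Y), ∃ c : V, ∀ᶠ y : (Bᶜ : Set Y) in 𝓝 x, c ∈ t (y : Y) := by
    intro x
    have h1 := hpos x x.2
    obtain ⟨b, hb, h2⟩ := (Metric.infDist_lt_iff hBne).mp
      (show Metric.infDist (x : Y) B < 2 * Metric.infDist (x : Y) B by linarith)
    refine ⟨f b, ?_⟩
    have h3 : ∀ᶠ y : (Bᶜ : Set Y) in 𝓝 x, dist (y : Y) b < 3 * Metric.infDist (y : Y) B := by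
      have h4 : Continuous fun y : (Bᶜ : Set Y) => dist (y : Y) b :=
        continuous_subtype_val.dist continuous_const
      have h5 : Continuous fun y : (Bᶜ : Set Y) => 3 * Metric.infDist (y : Y) B :=
        continuous_const.mul ((Metric.continuous_infDist_pt B).comp continuous_subtype_val)
      exact h4.continuousAt.eventually_lt h5.continuousAt (by linarith)
    filter_upwards [h3] with y hy
    rw [ht]
    exact subset_convexHull ℝ _ ⟨b, ⟨hb, hy⟩, rfl⟩
  obtain ⟨g, hg⟩ := exists_continuous_forall_mem_convex_of_local_const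
    (fun y : (Bᶜ : Set Y) => htc y) hloc
  obtain ⟨F, hF⟩ : ∃ F : Y → V, F = fun y => if h : y ∈ B then f y else g ⟨y, h⟩ := ⟨_, rfl⟩
  have hFB : ∀ y ∈ B, F y = f y := fun y hy => by
    rw [hF]
    exact dif_pos hy
  have hFc : ∀ y : (Bᶜ : Set Y), F y = g y := fun y => by
    rw [hF]
    exact dif_neg y.2
  have hFt : ∀ y, y ∉ B → F y ∈ t y := fun y hy => by
    have := hFc ⟨y, hy⟩
    rw [this]
    exact hg ⟨y, hy⟩
  refine ⟨F, ?_, fun y => ?_, hFB⟩
  · rw [continuous_iff_continuousAt]
    intro y
    by_cases hy : y ∈ B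
    · -- at a point of `B`
      rw [ContinuousAt, (LocallyConvexSpace.convex_basis (𝕜 := ℝ) (F y)).tendsto_right_iff]
      rintro U ⟨hU, hUc⟩
      rw [hFB y hy] at hU
      have h1 := (hf y hy) hU
      rw [Filter.mem_map, Metric.mem_nhdsWithin_iff] at h1
      obtain ⟨δ, hδ, h2⟩ := h1
      filter_upwards [Metric.ball_mem_nhds y (show 0 < δ / 4 by linarith)] with z hz
      rw [Metric.mem_ball] at hz
      by_cases hzB : z ∈ B
      · change F z ∈ U
        rw [hFB z hzB]
        exact h2 ⟨Metric.mem_ball.mpr (by linarith), hzB⟩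
      · have h3 := hFt z hzB
        rw [ht] at h3
        refine (convexHull_min ?_ hUc) h3
        rintro _ ⟨b, ⟨hb1, hb2⟩, rfl⟩
        refine h2 ⟨Metric.mem_ball.mpr ?_, hb1⟩
        have h4 : Metric.infDist z B ≤ dist z y := Metric.infDist_le_dist_of_mem hy
        have h5 := dist_triangle b z y
        rw [dist_comm b z] at h5
        linarith
    · have h1 : ContinuousAt (fun y : (Bᶜ : Set Y) => F y) ⟨y, hy⟩ := by
        have h2 : (fun y : (Bᶜ : Set Y) => F y) = g := funext hFc
        rw [h2]
        exact g.continuous.continuousAt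
      exact (hB.isOpen_compl.isOpenEmbedding_subtypeVal.continuousAt_iff (x := ⟨y, hy⟩)).mp h1
  · by_cases hy : y ∈ B
    · rw [hFB y hy]
      exact hm hy
    · exact htC y (hFt y hy)

end Pool.Agent.H71.ZW
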