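import Pool.Agent.H71.ZW.ConeA

set_option autoImplicit false

/-!
# An essential loop in `K`

The loop is `0 → 1 → 2 → 0` along the edges of the vertices `0`, `1`, `2`. It is essential since the
fundamental group of `K` maps onto `A₅`. Cocycle: to every edge `(u, v)` of `K` a permutation
`g u v` of `Fin 5` with `g v u = (g u v)⁻¹` and `g u v * g v x = g u x` in every triangle of `K`; for
the edges between the vertices `0, …, 4` one can take (with `(p * q) i = p (q i)`, a permutation is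
written as the list of its values; the same convention for words: the product along every pentagon
`(v₀, …, v₄)` is `g v₀ v₁ * g v₁ v₂ * g v₂ v₃ * g v₃ v₄ * g v₄ v₀ = 1`)
`g 0 i = 1`, `g 1 2 = [1, 2, 3, 4, 0]`, `g 1 3 = [2, 0, 4, 1, 3]`, `g 1 4 = [4, 3, 0, 2, 1]`,
`g 2 3 = [3, 2, 0, 4, 1]`, `g 2 4 = [1, 4, 3, 0, 2]`, `g 3 4 = [3, 2, 4, 1, 0]`,
pentagons `5 : (0,1,2,3,4)`, `6 : (0,1,3,4,2)`, `7 : (0,1,4,2,3)`, `8 : (0,2,1,4,3)`,
`9 : (0,2,3,1,4)`, `10 : (0,3,1,2,4)` and `g c v₀ = 1`, `g c vᵢ = g v₀ v₁ * … * g vᵢ₋₁ vᵢ` for the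
center `c` of a pentagon.

If `F` exists: every point `κ` of `K` has a coordinate `≥ 1 / 3`; choose such a label. For a fine grid
(`N = 3 M` points per side) the labels of the corners of a small square are vertices of a common
simplex, so the product of `g` along the boundary of the small square is `1`; so the product along
the boundary of the grid is `1`. On three sides all labels are `0`, and the product along the
fourth side is `g 0 1 * g 1 2 * g 2 0 = g 1 2 ≠ 1`.
-/

namespace Pool.Agent.H71.ZW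

open Set Topology TopologicalSpace

/-- the values of the cocycle, in base five -/
private def essT : ℕ :=
  170043375343880130841672867699770008865790929888165127301622626072250864119062038362203288892716180081535109559013161557645034950262415428927716841326422068009330944444490515706328742241535180880383577636818146556098060114403027382715493490877208984876908289576123871169183333129381955497821993457083851540901830515931181399923024711996561410523032333033657917437536569643097435843871058260942278654663801863539756708718580781138636227757001177183352212770041448611484907784696933050582092374601376346680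

/-- the cocycle, with values in the self-maps of a set with five elements -/
private def essg (a b : Fin 12) (i : Fin 5) : Fin 5 :=
  ⟨essT / 5 ^ (60 * a.1 + 5 * b.1 + i.1) % 5, Nat.mod_lt _ (by norm_num)⟩

/-- the triangles -/
private def essL : List (Fin 12 × Fin 12 × Fin 12) :=
  [(0, 1, 5), (1, 2, 5), (2, 3, 5), (3, 4, 5), (0, 4, 5), (0, 1, 6), (1, 3, 6), (3, 4, 6), (2, 4, 6), (0, 2, 6), (0, 1, 7), (1, 4, 7), (2, 4, 7), (2, 3, 7), (0, 3, 7), (0, 2, 8), (1, 2, 8), (1, 4, 8), (3, 4, 8), (0, 3, 8), (0, 2, 9), (2, 3, 9), (1, 3, 9), (1, 4, 9), (0, 4, 9), (0, 3, 10), (1, 3, 10), (1, 2, 10), (2, 4, 10), (0, 4, 10)]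

private theorem essL_coc : ∀ p ∈ essL, ∀ a ∈ [p.1, p.2.1, p.2.2], ∀ b ∈ [p.1, p.2.1, p.2.2], ∀ c ∈ [p.1, p.2.1, p.2.2],
    ∀ i : Fin 5, essg a b (essg b c i) = essg a c i := by
  decide +kernel

private theorem essL_cells : ∀ t ∈ cells, ∃ p ∈ essL, t = {p.1, p.2.1, p.2.2, 11} := by
  intro t ht
  simp only [cells, Finset.mem_insert, Finset.mem_singleton] at ht
  rcases ht with rfl | rfl | rfl | rfl | rfl | rfl | rfl | rfl | rfl | rfl | rfl | rfl | rfl | rfl | rfl | rfl | rfl | rfl | rfl | rfl | rfl | rfl | rfl | rfl | rfl | rfl | rfl | rfl | rfl | rfl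
  · exact ⟨(0, 1, 5), by decide, rfl⟩
  · exact ⟨(1, 2, 5), by decide, rfl⟩
  · exact ⟨(2, 3, 5), by decide, rfl⟩
  · exact ⟨(3, 4, 5), by decide, rfl⟩
  · exact ⟨(0, 4, 5), by decide, rfl⟩
  · exact ⟨(0, 1, 6), by decide, rfl⟩
  · exact ⟨(1, 3, 6), by decide, rfl⟩
  · exact ⟨(3, 4, 6), by decide, rfl⟩
  · exact ⟨(2, 4, 6), by decide, rfl⟩
  · exact ⟨(0, 2, 6), by decide, rfl⟩
  · exact ⟨(0, 1, 7), by decide, rfl⟩
  · exact ⟨(1, 4, 7), by decide, rfl⟩
  · exact ⟨(2, 4, 7), by decide, rfl⟩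
  · exact ⟨(2, 3, 7), by decide, rfl⟩
  · exact ⟨(0, 3, 7), by decide, rfl⟩
  · exact ⟨(0, 2, 8), by decide, rfl⟩
  · exact ⟨(1, 2, 8), by decide, rfl⟩
  · exact ⟨(1, 4, 8), by decide, rfl⟩
  · exact ⟨(3, 4, 8), by decide, rfl⟩
  · exact ⟨(0, 3, 8), by decide, rfl⟩
  · exact ⟨(0, 2, 9), by decide, rfl⟩
  · exact ⟨(2, 3, 9), by decide, rfl⟩
  · exact ⟨(1, 3, 9), by decide, rfl⟩
  · exact ⟨(1, 4, 9), by decide, rfl⟩
  · exact ⟨(0, 4, 9), by decide, rfl⟩
  · exact ⟨(0, 3, 10), by decide, rfl⟩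
  · exact ⟨(1, 3, 10), by decide, rfl⟩
  · exact ⟨(1, 2, 10), by decide, rfl⟩
  · exact ⟨(2, 4, 10), by decide, rfl⟩
  · exact ⟨(0, 4, 10), by decide, rfl⟩

private theorem essg_coc : ∀ t ∈ cells, ∀ a ∈ t, ∀ b ∈ t, ∀ c ∈ t, a ≠ 11 → b ≠ 11 → c ≠ 11 →
    ∀ i : Fin 5, essg a b (essg b c i) = essg a c i := by
  intro t ht a ha b hb c hc ha' hb' hc'
  obtain ⟨p, hp, rfl⟩ := essL_cells t ht
  have h : ∀ x : Fin 12, x ∈ ({p.1, p.2.1, p.2.2, 11} : Finset (Fin 12)) → x ≠ 11 → x ∈ [p.1, p.2.1, p.2.2] := by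
    intro x hx hx'
    simp only [Finset.mem_insert, Finset.mem_singleton] at hx
    simp only [List.mem_cons, List.not_mem_nil, or_false]
    tauto
  exact essL_coc p hp a (h a ha ha') b (h b hb hb') c (h c hc hc')

private theorem essg_zero : ∀ i : Fin 5, essg 0 0 i = i := by
  decide +kernel

private theorem essg_ne : ¬ ∀ i : Fin 5, essg 0 1 (essg 1 2 (essg 2 0 i)) = i := by
  decide +kernel

/-- the vertices are pairwise in a common simplex -/
private def essS (s : Finset (Fin 12)) : Prop := ∃ t ∈ cells, s ⊆ t ∧ (11 : Fin 12) ∉ s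

private theorem essS_coc {s : Finset (Fin 12)} (hs : essS s) {a b c : Fin 12} (ha : a ∈ s) (hb : b ∈ s) (hc : c ∈ s) :
    essg a b ∘ essg b c = essg a c := by
  obtain ⟨t, ht, hst, h11⟩ := hs
  funext i
  exact essg_coc t ht a (hst ha) b (hst hb) c (hst hc) (fun h => h11 (h ▸ ha)) (fun h => h11 (h ▸ hb)) (fun h => h11 (h ▸ hc)) i

/-- the product along a row -/
private def essp (f : ℕ → Fin 12) : ℕ → Fin 5 → Fin 5
  | 0 => id
  | n + 1 => essp f n ∘ essg (f n) (f (n + 1))

private theorem essp_move {f f' : ℕ → Fin 12} {N : ℕ}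
    (h : ∀ n < N, ∃ s, essS s ∧ f n ∈ s ∧ f (n + 1) ∈ s ∧ f' n ∈ s ∧ f' (n + 1) ∈ s) :
    ∀ n ≤ N, essp f n ∘ essg (f n) (f' n) = essg (f 0) (f' 0) ∘ essp f' n := by
  intro n
  induction n with
  | zero => intro _; rfl
  | succ n ih =>
    intro hn
    obtain ⟨s, hs, h1, h2, h3, h4⟩ := h n (by omega)
    have ih' := ih (by omega)
    calc essp f (n + 1) ∘ essg (f (n + 1)) (f' (n + 1))
        = essp f n ∘ (essg (f n) (f (n + 1)) ∘ essg (f (n + 1)) (f' (n + 1))) := rfl
      _ = essp f n ∘ (essg (f n) (f' n) ∘ essg (f' n) (f' (n + 1))) := by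
          rw [essS_coc hs h1 h2 h4, essS_coc hs h1 h3 h4]
      _ = (essp f n ∘ essg (f n) (f' n)) ∘ essg (f' n) (f' (n + 1)) := rfl
      _ = essg (f 0) (f' 0) ∘ essp f' (n + 1) := by rw [ih']; rfl

private theorem essp_seg {f : ℕ → Fin 12} {a b : ℕ} {s : Finset (Fin 12)} (hs : essS s)
    (hf : ∀ n, a ≤ n → n ≤ b → f n ∈ s) :
    ∀ n, a + n ≤ b → essp f (a + n) ∘ essg (f (a + n)) (f (a + n)) = essp f a ∘ essg (f a) (f (a + n)) := by
  intro n
  induction n with
  | zero => intro _; rfl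
  | succ n ih =>
    intro hn
    have ih' := ih (by omega)
    have h0 := hf a le_rfl (by omega)
    have h1 := hf (a + n) (by omega) (by omega)
    have h2 := hf (a + (n + 1)) (by omega) hn
    calc essp f (a + (n + 1)) ∘ essg (f (a + (n + 1))) (f (a + (n + 1)))
        = essp f (a + n) ∘ (essg (f (a + n)) (f (a + (n + 1))) ∘ essg (f (a + (n + 1))) (f (a + (n + 1)))) := rfl
      _ = essp f (a + n) ∘ (essg (f (a + n)) (f (a + n)) ∘ essg (f (a + n)) (f (a + (n + 1)))) := by
          rw [essS_coc hs h1 h2 h2, essS_coc hs h1 h1 h2]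
      _ = (essp f (a + n) ∘ essg (f (a + n)) (f (a + n))) ∘ essg (f (a + n)) (f (a + (n + 1))) := rfl
      _ = essp f a ∘ (essg (f a) (f (a + n)) ∘ essg (f (a + n)) (f (a + (n + 1)))) := by rw [ih']; rfl
      _ = essp f a ∘ essg (f a) (f (a + (n + 1))) := by rw [essS_coc hs h0 h1 h2]

private theorem essg_id : ∀ a : Fin 12, ∀ i : Fin 5, essg a a i = i := by
  decide +kernel

private theorem essp_seg' {f : ℕ → Fin 12} {a b : ℕ} {s : Finset (Fin 12)} (hs : essS s)
    (hf : ∀ n, a ≤ n → n ≤ b → f n ∈ s) (hab : a ≤ b) : essp f b = essp f a ∘ essg (f a) (f b) := by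
  have h := essp_seg hs hf (b - a) (by omega)
  rw [show a + (b - a) = b by omega] at h
  rw [← h]
  funext i
  simp only [Function.comp_apply, essg_id]

/-- the label of a point -/
private noncomputable def essl (κ : E) : Fin 12 := by
  classical
  exact if h : ∃ v, 1 / 3 ≤ κ v then h.choose else 0

private theorem K_exists {κ : E} (h : κ ∈ K) : ∃ t ∈ cells, κ ∈ smp t ∧ κ 11 = 0 := by
  obtain ⟨⟨t, ht, h1⟩, h2⟩ := h
  exact ⟨t, ht, h1, h2⟩

private theorem essl_spec {κ : E} (h : κ ∈ K) : 1 / 3 ≤ κ (essl κ) := by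
  classical
  have hex : ∃ v, 1 / 3 ≤ κ v := by
    obtain ⟨t, ht, ⟨h0, h1, h2⟩, h3⟩ := K_exists h
    by_contra hcon
    push Not at hcon
    obtain ⟨p, -, rfl⟩ := essL_cells t ht
    have hsum : ∑ v, κ v = ∑ v ∈ {p.1, p.2.1, p.2.2}, κ v := by
      symm
      refine Finset.sum_subset (Finset.subset_univ _) fun v _ hv => ?_
      by_cases h11 : v = 11
      · rw [h11]; exact h3
      · refine h2 v ?_
        simp only [Finset.mem_insert, Finset.mem_singleton, not_or] at hv ⊢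
        exact ⟨hv.1, hv.2.1, hv.2.2, h11⟩
    have hc3 : (({p.1, p.2.1, p.2.2} : Finset (Fin 12)).card : ℝ) ≤ 3 := by
      exact_mod_cast Finset.card_le_three
    have hlt : ∑ v ∈ {p.1, p.2.1, p.2.2}, κ v < ∑ _v ∈ ({p.1, p.2.1, p.2.2} : Finset (Fin 12)), (1 / 3 : ℝ) :=
      Finset.sum_lt_sum_of_nonempty ⟨p.1, Finset.mem_insert_self _ _⟩ fun v _ => hcon v
    rw [Finset.sum_const, nsmul_eq_mul] at hlt
    rw [hsum] at h1
    linarith
  unfold essl
  rw [dif_pos hex]
  exact hex.choose_spec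

/-- the labels of nearby points are in a common simplex -/
private theorem essl_near {κ : E} (h : κ ∈ K) : ∃ s, essS s ∧ ∀ κ' ∈ K, dist κ κ' < 1 / 3 → essl κ' ∈ s := by
  classical
  obtain ⟨t, ht, ⟨h0, h1, h2⟩, h3⟩ := K_exists h
  refine ⟨t.erase 11, ⟨t, ht, Finset.erase_subset _ _, Finset.notMem_erase _ _⟩, fun κ' hκ' hd => ?_⟩
  have h4 := essl_spec hκ'
  have h5 : dist (κ (essl κ')) (κ' (essl κ')) < 1 / 3 := lt_of_le_of_lt (dist_le_pi_dist κ κ' _) hd
  rw [Real.dist_eq, abs_lt] at h5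
  have h6 : 0 < κ (essl κ') := by linarith
  rw [Finset.mem_erase]
  constructor
  · intro h7
    rw [h7, h3] at h6
    exact lt_irrefl _ h6
  · by_contra h7
    rw [h2 _ h7] at h6
    exact lt_irrefl _ h6

private theorem essl_single {v : Fin 12} {κ : E} (h : κ ∈ K) (h0 : ∀ w, w ≠ v → κ w = 0) : essl κ = v := by
  by_contra hne
  have := essl_spec h
  rw [h0 _ hne] at this
  norm_num at this

/-- the loop -/
private noncomputable def essc (t : ℝ) : E := fun v =>
  if v = 0 then 1 - max 0 (1 - |3 * t - 1|) - max 0 (1 - |3 * t - 2|)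
  else if v = 1 then max 0 (1 - |3 * t - 1|)
  else if v = 2 then max 0 (1 - |3 * t - 2|) else 0

private theorem essc_zero (t : ℝ) : essc t 0 = 1 - max 0 (1 - |3 * t - 1|) - max 0 (1 - |3 * t - 2|) := by
  simp [essc]

private theorem essc_one (t : ℝ) : essc t 1 = max 0 (1 - |3 * t - 1|) := by
  simp [essc]

private theorem essc_two (t : ℝ) : essc t 2 = max 0 (1 - |3 * t - 2|) := by
  simp [essc]

private theorem essc_other (t : ℝ) {v : Fin 12} (h0 : v ≠ 0) (h1 : v ≠ 1) (h2 : v ≠ 2) : essc t v = 0 := by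
  simp [essc, h0, h1, h2]

private theorem essc_cont : Continuous essc := by
  refine continuous_pi fun v => ?_
  by_cases h0 : v = 0
  · subst h0
    simp only [essc_zero]
    fun_prop
  · by_cases h1 : v = 1
    · subst h1
      simp only [essc_one]
      fun_prop
    · by_cases h2 : v = 2
      · subst h2
        simp only [essc_two]
        fun_prop
      · simp only [essc_other _ h0 h1 h2]
        fun_prop

/-- the values of the two bumps -/
private theorem essc_cases (t : ℝ) :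
    (t ≤ 1 / 3 ∧ max 0 (1 - |3 * t - 2|) = 0 ∧ max 0 (1 - |3 * t - 1|) = max 0 (3 * t)) ∨
    (1 / 3 ≤ t ∧ t ≤ 2 / 3 ∧ max 0 (1 - |3 * t - 1|) = 2 - 3 * t ∧ max 0 (1 - |3 * t - 2|) = 3 * t - 1) ∨
    (2 / 3 ≤ t ∧ max 0 (1 - |3 * t - 1|) = 0 ∧ max 0 (1 - |3 * t - 2|) = max 0 (3 - 3 * t)) := by
  rcases le_total t (1 / 3) with h | h
  · left
    refine ⟨h, ?_, ?_⟩
    · rw [abs_of_nonpos (by linarith)]
      exact max_eq_left (by linarith)
    · rw [abs_of_nonpos (by linarith)]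
      congr 1
      ring
  · rcases le_total t (2 / 3) with h' | h'
    · right; left
      refine ⟨h, h', ?_, ?_⟩
      · rw [abs_of_nonneg (by linarith), max_eq_right (by linarith)]
        ring
      · rw [abs_of_nonpos (by linarith), max_eq_right (by linarith)]
        ring
    · right; right
      refine ⟨h', ?_, ?_⟩
      · rw [abs_of_nonneg (by linarith)]
        exact max_eq_left (by linarith)
      · rw [abs_of_nonneg (by linarith)]
        congr 1
        ring

private theorem ess_sum (κ : E) (h : ∀ v, v ≠ 0 → v ≠ 1 → v ≠ 2 → κ v = 0) : ∑ v, κ v = κ 0 + κ 1 + κ 2 := by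
  rw [← Finset.sum_subset (Finset.subset_univ {0, 1, 2}) (by
    intro v _ hv
    simp only [Finset.mem_insert, Finset.mem_singleton, not_or] at hv
    exact h v hv.1 hv.2.1 hv.2.2)]
  rw [Finset.sum_insert (by decide), Finset.sum_insert (by decide), Finset.sum_singleton]
  ring

private theorem essc_smp (t : ℝ) : ∃ a b : Fin 12, essc t ∈ smp ({a, b} : Finset (Fin 12)) ∧
    ((a = 0 ∧ b = 1 ∧ t ≤ 1 / 3) ∨ (a = 1 ∧ b = 2 ∧ 1 / 3 ≤ t ∧ t ≤ 2 / 3) ∨ (a = 2 ∧ b = 0 ∧ 2 / 3 ≤ t)) := by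
  have hsum : ∑ v, essc t v = 1 := by
    rw [ess_sum _ fun v h0 h1 h2 => essc_other t h0 h1 h2, essc_zero, essc_one, essc_two]
    ring
  rcases essc_cases t with ⟨h, h1, h2⟩ | ⟨h, h', h1, h2⟩ | ⟨h, h1, h2⟩
  · refine ⟨0, 1, ⟨?_, hsum, ?_⟩, Or.inl ⟨rfl, rfl, h⟩⟩
    · intro v
      by_cases v0 : v = 0
      · rw [v0, essc_zero, h1, h2]
        have : max 0 (3 * t) ≤ 1 := max_le (by norm_num) (by linarith)
        linarith
      · by_cases v1 : v = 1
        · rw [v1, essc_one]; exact le_max_left _ _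
        · by_cases v2 : v = 2
          · rw [v2, essc_two]; exact le_max_left _ _
          · rw [essc_other t v0 v1 v2]
    · intro v hv
      simp only [Finset.mem_insert, Finset.mem_singleton, not_or] at hv
      by_cases v2 : v = 2
      · rw [v2, essc_two, h1]
      · exact essc_other t hv.1 hv.2 v2
  · refine ⟨1, 2, ⟨?_, hsum, ?_⟩, Or.inr (Or.inl ⟨rfl, rfl, h, h'⟩)⟩
    · intro v
      by_cases v0 : v = 0
      · rw [v0, essc_zero, h1, h2]
        linarith
      · by_cases v1 : v = 1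
        · rw [v1, essc_one]; exact le_max_left _ _
        · by_cases v2 : v = 2
          · rw [v2, essc_two]; exact le_max_left _ _
          · rw [essc_other t v0 v1 v2]
    · intro v hv
      simp only [Finset.mem_insert, Finset.mem_singleton, not_or] at hv
      by_cases v0 : v = 0
      · rw [v0, essc_zero, h1, h2]
        ring
      · exact essc_other t v0 hv.1 hv.2
  · refine ⟨2, 0, ⟨?_, hsum, ?_⟩, Or.inr (Or.inr ⟨rfl, rfl, h⟩)⟩
    · intro v
      by_cases v0 : v = 0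
      · rw [v0, essc_zero, h1, h2]
        have : max 0 (3 - 3 * t) ≤ 1 := max_le (by norm_num) (by linarith)
        linarith
      · by_cases v1 : v = 1
        · rw [v1, essc_one]; exact le_max_left _ _
        · by_cases v2 : v = 2
          · rw [v2, essc_two]; exact le_max_left _ _
          · rw [essc_other t v0 v1 v2]
    · intro v hv
      simp only [Finset.mem_insert, Finset.mem_singleton, not_or] at hv
      by_cases v1 : v = 1
      · rw [v1, essc_one, h1]
      · exact essc_other t hv.2 v1 hv.1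

private theorem ess_smp_mono {s t : Finset (Fin 12)} (h : s ⊆ t) {κ : E} (hκ : κ ∈ smp s) : κ ∈ smp t :=
  ⟨hκ.1, hκ.2.1, fun v hv => hκ.2.2 v fun hv' => hv (h hv')⟩

private theorem essS01 : essS {0, 1} := ⟨{0, 1, 5, 11}, by decide, by decide, by decide⟩

private theorem essS12 : essS {1, 2} := ⟨{1, 2, 5, 11}, by decide, by decide, by decide⟩

private theorem essS20 : essS {2, 0} := ⟨{0, 2, 6, 11}, by decide, by decide, by decide⟩

private theorem essc_mem (t : ℝ) : essc t ∈ K := by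
  refine ⟨?_, essc_other t (by decide) (by decide) (by decide)⟩
  obtain ⟨a, b, h, hab⟩ := essc_smp t
  rcases hab with ⟨rfl, rfl, _⟩ | ⟨rfl, rfl, _⟩ | ⟨rfl, rfl, _⟩
  · exact ⟨_, (by decide : ({0, 1, 5, 11} : Finset (Fin 12)) ∈ cells), ess_smp_mono (by decide) h⟩
  · exact ⟨_, (by decide : ({1, 2, 5, 11} : Finset (Fin 12)) ∈ cells), ess_smp_mono (by decide) h⟩
  · exact ⟨_, (by decide : ({0, 2, 6, 11} : Finset (Fin 12)) ∈ cells), ess_smp_mono (by decide) h⟩

private theorem essl_mem {κ : E} (h : κ ∈ K) {s : Finset (Fin 12)} (hs : κ ∈ smp s) : essl κ ∈ s := by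
  by_contra hne
  have h1 := essl_spec h
  rw [hs.2.2 _ hne] at h1
  norm_num at h1

private theorem ess_c0 : essc 0 = base := by
  funext v
  by_cases v0 : v = 0
  · rw [v0, essc_zero]; norm_num [base]
  · rw [base, Pi.single_eq_of_ne v0]
    by_cases v1 : v = 1
    · rw [v1, essc_one]; norm_num
    · by_cases v2 : v = 2
      · rw [v2, essc_two]; norm_num
      · exact essc_other 0 v0 v1 v2

private theorem ess_c1 : essc 1 = base := by
  funext v
  by_cases v0 : v = 0
  · rw [v0, essc_zero]; norm_num [base]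
  · rw [base, Pi.single_eq_of_ne v0]
    by_cases v1 : v = 1
    · rw [v1, essc_one]; norm_num
    · by_cases v2 : v = 2
      · rw [v2, essc_two]; norm_num
      · exact essc_other 1 v0 v1 v2

private theorem ess_base_mem : base ∈ K := ess_c0 ▸ essc_mem 0

private theorem essl_base : essl base = 0 :=
  essl_single ess_base_mem fun w hw => Pi.single_eq_of_ne hw _

private theorem essl_third : essl (essc (1 / 3)) = 1 := by
  refine essl_single (essc_mem _) fun w hw => ?_
  by_cases v0 : w = 0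
  · rw [v0, essc_zero]; norm_num
  · by_cases v2 : w = 2
    · rw [v2, essc_two]; norm_num
    · exact essc_other _ v0 hw v2

private theorem essl_third2 : essl (essc (2 / 3)) = 2 := by
  refine essl_single (essc_mem _) fun w hw => ?_
  by_cases v0 : w = 0
  · rw [v0, essc_zero]; norm_num
  · by_cases v1 : w = 1
    · rw [v1, essc_one]; norm_num
    · exact essc_other _ v0 v1 hw

private theorem essc_smp' (t : ℝ) : (essc t ∈ smp ({0, 1} : Finset (Fin 12)) ∧ t ≤ 1 / 3) ∨
    (essc t ∈ smp ({1, 2} : Finset (Fin 12)) ∧ 1 / 3 ≤ t ∧ t ≤ 2 / 3) ∨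
    (essc t ∈ smp ({2, 0} : Finset (Fin 12)) ∧ 2 / 3 ≤ t) := by
  obtain ⟨a, b, h, hab⟩ := essc_smp t
  rcases hab with ⟨rfl, rfl, h1⟩ | ⟨rfl, rfl, h1, h2⟩ | ⟨rfl, rfl, h1⟩
  · exact Or.inl ⟨h, h1⟩
  · exact Or.inr (Or.inl ⟨h, h1, h2⟩)
  · exact Or.inr (Or.inr ⟨h, h1⟩)

private theorem ess_smp_of_le {t : ℝ} (h : t ≤ 1 / 3) : essc t ∈ smp ({0, 1} : Finset (Fin 12)) := by
  rcases essc_smp' t with h1 | h1 | h1
  · exact h1.1
  · have ht : t = 1 / 3 := le_antisymm h h1.2.1
    refine ⟨h1.1.1, h1.1.2.1, fun v hv => ?_⟩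
    simp only [Finset.mem_insert, Finset.mem_singleton, not_or] at hv
    by_cases v2 : v = 2
    · rw [v2, essc_two, ht]; norm_num
    · exact essc_other t hv.1 hv.2 v2
  · linarith [h1.2]

private theorem ess_smp_of_mid {t : ℝ} (h : 1 / 3 ≤ t) (h' : t ≤ 2 / 3) : essc t ∈ smp ({1, 2} : Finset (Fin 12)) := by
  rcases essc_smp' t with h1 | h1 | h1
  · have ht : t = 1 / 3 := le_antisymm h1.2 h
    refine ⟨h1.1.1, h1.1.2.1, fun v hv => ?_⟩
    simp only [Finset.mem_insert, Finset.mem_singleton, not_or] at hv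
    by_cases v0 : v = 0
    · rw [v0, essc_zero, ht]; norm_num
    · exact essc_other t v0 hv.1 hv.2
  · exact h1.1
  · have ht : t = 2 / 3 := le_antisymm h' h1.2
    refine ⟨h1.1.1, h1.1.2.1, fun v hv => ?_⟩
    simp only [Finset.mem_insert, Finset.mem_singleton, not_or] at hv
    by_cases v0 : v = 0
    · rw [v0, essc_zero, ht]; norm_num
    · exact essc_other t v0 hv.1 hv.2

private theorem ess_smp_of_ge {t : ℝ} (h : 2 / 3 ≤ t) : essc t ∈ smp ({2, 0} : Finset (Fin 12)) := by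
  rcases essc_smp' t with h1 | h1 | h1
  · linarith [h1.2]
  · have ht : t = 2 / 3 := le_antisymm h1.2.2 h
    refine ⟨h1.1.1, h1.1.2.1, fun v hv => ?_⟩
    simp only [Finset.mem_insert, Finset.mem_singleton, not_or] at hv
    by_cases v1 : v = 1
    · rw [v1, essc_one, ht]; norm_num
    · exact essc_other t hv.2 v1 hv.1
  · exact h1.1

theorem exists_loop : ∃ c : ℝ → E, Continuous c ∧ (∀ t, c t ∈ K) ∧ c 0 = base ∧ c 1 = base ∧
    ¬ ∃ F : ℝ × ℝ → E, ContinuousOn F (Icc 0 1 ×ˢ Icc 0 1) ∧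
      MapsTo F (Icc 0 1 ×ˢ Icc 0 1) K ∧ (∀ t ∈ Icc (0 : ℝ) 1, F (t, 0) = c t) ∧
      (∀ t ∈ Icc (0 : ℝ) 1, F (t, 1) = base) ∧ (∀ t ∈ Icc (0 : ℝ) 1, F (0, t) = base) ∧
      ∀ t ∈ Icc (0 : ℝ) 1, F (1, t) = base := by
  classical
  refine ⟨essc, essc_cont, essc_mem, ess_c0, ess_c1, ?_⟩
  rintro ⟨F, hF, hK, h0, h1, h2, h3⟩
  have huc : UniformContinuousOn F (Icc 0 1 ×ˢ Icc 0 1) :=
    (isCompact_Icc.prod isCompact_Icc).uniformContinuousOn_of_continuous hF
  rw [Metric.uniformContinuousOn_iff] at huc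
  obtain ⟨δ, hδ, huc⟩ := huc (1 / 3) (by norm_num)
  obtain ⟨M, hM⟩ := exists_nat_gt (1 / δ)
  have hMpos : (0 : ℝ) < M := lt_trans (by positivity) hM
  have hM0 : M ≠ 0 := by
    rintro rfl
    simp at hMpos
  set N : ℕ := 3 * M with hN
  have hNpos : (0 : ℝ) < N := by rw [hN]; push_cast; linarith
  have hNδ : (1 : ℝ) / N < δ := by
    rw [div_lt_iff₀ hNpos]
    rw [div_lt_iff₀ hδ] at hM
    have : (N : ℝ) = 3 * M := by rw [hN]; push_cast; ring
    rw [this]
    nlinarith
  -- the grid points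
  have hmem : ∀ n : ℕ, n ≤ N → (n : ℝ) / N ∈ Icc (0 : ℝ) 1 := by
    intro n hn
    constructor
    · positivity
    · rw [div_le_one hNpos]
      exact_mod_cast hn
  have hstep : ∀ n : ℕ, dist ((n : ℝ) / N) (((n + 1 : ℕ) : ℝ) / N) < δ := by
    intro n
    rw [Real.dist_eq, ← sub_div, abs_div, abs_of_pos hNpos]
    push_cast
    rw [show (n : ℝ) - (n + 1) = -1 by ring]
    simpa using hNδ
  let lam : ℕ → ℕ → Fin 12 := fun j i => essl (F ((i : ℝ) / N, (j : ℝ) / N))
  have hsq : ∀ j, j < N → ∀ n < N, ∃ s, essS s ∧ lam j n ∈ s ∧ lam j (n + 1) ∈ s ∧ lam (j + 1) n ∈ s ∧ lam (j + 1) (n + 1) ∈ s := by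
    intro j hj n hn
    have p0 : ((n : ℝ) / N, (j : ℝ) / N) ∈ Icc (0 : ℝ) 1 ×ˢ Icc (0 : ℝ) 1 := ⟨hmem n hn.le, hmem j hj.le⟩
    obtain ⟨s, hs, hs'⟩ := essl_near (hK p0)
    have key : ∀ (n' j' : ℕ), n' ≤ N → j' ≤ N → dist ((n : ℝ) / N) ((n' : ℝ) / N) < δ → dist ((j : ℝ) / N) ((j' : ℝ) / N) < δ →
        lam j' n' ∈ s := by
      intro n' j' hn' hj' hd hd'
      have p1 : ((n' : ℝ) / N, (j' : ℝ) / N) ∈ Icc (0 : ℝ) 1 ×ˢ Icc (0 : ℝ) 1 := ⟨hmem n' hn', hmem j' hj'⟩
      refine hs' _ (hK p1) (huc _ p0 _ p1 ?_)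
      rw [Prod.dist_eq]
      exact max_lt hd hd'
    have hself : ∀ x : ℝ, dist x x < δ := fun x => by rw [dist_self]; exact hδ
    exact ⟨s, hs, key n j hn.le hj.le (hself _) (hself _), key (n + 1) j hn hj.le (hstep n) (hself _),
      key n (j + 1) hn.le hj (hself _) (hstep j), key (n + 1) (j + 1) hn hj (hstep n) (hstep j)⟩
  have hleft : ∀ j ≤ N, lam j 0 = 0 := by
    intro j hj
    show essl (F (((0 : ℕ) : ℝ) / N, (j : ℝ) / N)) = 0
    rw [Nat.cast_zero, zero_div, h2 _ (hmem j hj), essl_base]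
  have hright : ∀ j ≤ N, lam j N = 0 := by
    intro j hj
    show essl (F ((N : ℝ) / N, (j : ℝ) / N)) = 0
    rw [div_self hNpos.ne', h3 _ (hmem j hj), essl_base]
  have htop : ∀ n ≤ N, lam N n = 0 := by
    intro n hn
    show essl (F ((n : ℝ) / N, (N : ℝ) / N)) = 0
    rw [div_self hNpos.ne', h1 _ (hmem n hn), essl_base]
  have hg0 : essg 0 0 = id := by
    funext i
    exact essg_zero i
  -- all rows have the same product
  have hrow : ∀ j ≤ N, essp (lam 0) N = essp (lam j) N := by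
    intro j
    induction j with
    | zero => intro _; rfl
    | succ j ih =>
      intro hj
      rw [ih (by omega)]
      have h := essp_move (hsq j (by omega)) N le_rfl
      rw [hleft j (by omega), hleft (j + 1) hj, hright j (by omega), hright (j + 1) hj, hg0] at h
      exact h
  have htopp : ∀ n ≤ N, essp (lam N) n = id := by
    intro n
    induction n with
    | zero => intro _; rfl
    | succ n ih =>
      intro hn
      show essp (lam N) n ∘ essg (lam N n) (lam N (n + 1)) = id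
      rw [ih (by omega), htop n (by omega), htop (n + 1) hn, hg0]
      rfl
  -- the product along the loop
  have hbot : ∀ n ≤ N, lam 0 n = essl (essc ((n : ℝ) / N)) := by
    intro n hn
    show essl (F ((n : ℝ) / N, ((0 : ℕ) : ℝ) / N)) = _
    rw [Nat.cast_zero, zero_div, h0 _ (hmem n hn)]
  have hN3 : (N : ℝ) = 3 * M := by rw [hN]; push_cast; ring
  have e1 : ((M : ℕ) : ℝ) / N = 1 / 3 := by
    rw [hN3]; field_simp
  have e2 : ((2 * M : ℕ) : ℝ) / N = 2 / 3 := by
    rw [hN3]; push_cast; field_simp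
  have hle1 : ∀ n : ℕ, n ≤ M → (n : ℝ) / N ≤ 1 / 3 := by
    intro n hn
    rw [← e1]
    exact div_le_div_of_nonneg_right (by exact_mod_cast hn) hNpos.le
  have hge1 : ∀ n : ℕ, M ≤ n → 1 / 3 ≤ (n : ℝ) / N := by
    intro n hn
    rw [← e1]
    exact div_le_div_of_nonneg_right (by exact_mod_cast hn) hNpos.le
  have hle2 : ∀ n : ℕ, n ≤ 2 * M → (n : ℝ) / N ≤ 2 / 3 := by
    intro n hn
    rw [← e2]
    exact div_le_div_of_nonneg_right (by exact_mod_cast hn) hNpos.le
  have hge2 : ∀ n : ℕ, 2 * M ≤ n → 2 / 3 ≤ (n : ℝ) / N := by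
    intro n hn
    rw [← e2]
    exact div_le_div_of_nonneg_right (by exact_mod_cast hn) hNpos.le
  have k0 : lam 0 0 = 0 := hleft 0 (Nat.zero_le _)
  have k1 : lam 0 M = 1 := by rw [hbot M (by omega), e1, essl_third]
  have k2 : lam 0 (2 * M) = 2 := by rw [hbot (2 * M) (by omega), e2, essl_third2]
  have k3 : lam 0 N = 0 := hright 0 (Nat.zero_le _)
  have s1 : essp (lam 0) M = essp (lam 0) 0 ∘ essg (lam 0 0) (lam 0 M) := by
    refine essp_seg' essS01 (fun n _ hn => ?_) (Nat.zero_le _)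
    rw [hbot n (by omega)]
    exact essl_mem (essc_mem _) (ess_smp_of_le (hle1 n hn))
  have s2 : essp (lam 0) (2 * M) = essp (lam 0) M ∘ essg (lam 0 M) (lam 0 (2 * M)) := by
    refine essp_seg' essS12 (fun n hn hn' => ?_) (by omega)
    rw [hbot n (by omega)]
    exact essl_mem (essc_mem _) (ess_smp_of_mid (hge1 n hn) (hle2 n hn'))
  have s3 : essp (lam 0) N = essp (lam 0) (2 * M) ∘ essg (lam 0 (2 * M)) (lam 0 N) := by
    refine essp_seg' essS20 (fun n hn hn' => ?_) (by omega)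
    rw [hbot n hn']
    exact essl_mem (essc_mem _) (ess_smp_of_ge (hge2 n hn))
  apply essg_ne
  intro i
  have hfin : essp (lam 0) N = id := by rw [hrow N le_rfl, htopp N le_rfl]
  rw [s3, s2, s1, k0, k1, k2, k3] at hfin
  exact congrFun hfin i

end Pool.Agent.H71.ZW
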