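import Pool.Agent.H71.ZW.ExtA
import Pool.Agent.H71.ZW.Glue

set_option autoImplicit false

/-!
# Absolute extensors: unions of closed sets

Proof. Let `B i = B ∩ f ⁻¹' P i`, `Y₁ = {y | infDist y (B 1) ≤ infDist y (B 2)}`, `Y₂` the other one, and
`Y₀ = Y₁ ∩ Y₂`, so `Y₀ ∩ B = B 1 ∩ B 2`. Extend `f` on `B 1 ∩ B 2` to `Y₀ → P₁ ∩ P₂`, then the union of
this map and `f` on `B i` to `Y i → P i`, and glue. For `ANE` take neighbourhoods (closed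
neighbourhoods in `Y₀` resp. `Y i`). Treat the case that some `B i` is empty separately.
-/

namespace Pool.Agent.H71.ZW

open Set Topology TopologicalSpace

variable {V V' : Type} [TopologicalSpace V] [TopologicalSpace V']

/-- Two closed sets are separated by closed sets as well as possible. -/
private theorem extB_split {Y : Type} [TopologicalSpace Y] [MetrizableSpace Y] {B₁ B₂ : Set Y}
    (h₁ : IsClosed B₁) (h₂ : IsClosed B₂) :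
    ∃ Y₁ Y₂ : Set Y, IsClosed Y₁ ∧ IsClosed Y₂ ∧ (∀ y, y ∈ Y₁ ∨ y ∈ Y₂) ∧ B₁ ⊆ Y₁ ∧ B₂ ⊆ Y₂ ∧
      (∀ y ∈ Y₁, y ∈ B₂ → y ∈ B₁) ∧ (∀ y ∈ Y₂, y ∈ B₁ → y ∈ B₂) := by
  let _ : MetricSpace Y := metrizableSpaceMetric Y
  rcases B₁.eq_empty_or_nonempty with e₁ | n₁
  · exact ⟨∅, univ, isClosed_empty, isClosed_univ, fun y => Or.inr (mem_univ y), e₁.subset,
      subset_univ _, fun y hy => absurd hy (notMem_empty y), fun y _ hy => by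
        rw [e₁] at hy
        exact absurd hy (notMem_empty y)⟩
  rcases B₂.eq_empty_or_nonempty with e₂ | n₂
  · exact ⟨univ, ∅, isClosed_univ, isClosed_empty, fun y => Or.inl (mem_univ y), subset_univ _,
      e₂.subset, fun y _ hy => by
        rw [e₂] at hy
        exact absurd hy (notMem_empty y), fun y hy => absurd hy (notMem_empty y)⟩
  refine ⟨{y | Metric.infDist y B₁ ≤ Metric.infDist y B₂},
    {y | Metric.infDist y B₂ ≤ Metric.infDist y B₁},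
    isClosed_le (Metric.continuous_infDist_pt B₁) (Metric.continuous_infDist_pt B₂),
    isClosed_le (Metric.continuous_infDist_pt B₂) (Metric.continuous_infDist_pt B₁),
    fun y => le_total (Metric.infDist y B₁) (Metric.infDist y B₂), ?_, ?_, ?_, ?_⟩
  · intro y hy
    rw [mem_ofPred_eq, Metric.infDist_zero_of_mem hy]
    exact Metric.infDist_nonneg
  · intro y hy
    rw [mem_ofPred_eq, Metric.infDist_zero_of_mem hy]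
    exact Metric.infDist_nonneg
  · intro y hy hy'
    rw [mem_ofPred_eq, Metric.infDist_zero_of_mem hy'] at hy
    exact (h₁.mem_iff_infDist_zero n₁).2 (le_antisymm hy Metric.infDist_nonneg)
  · intro y hy hy'
    rw [mem_ofPred_eq, Metric.infDist_zero_of_mem hy'] at hy
    exact (h₂.mem_iff_infDist_zero n₂).2 (le_antisymm hy Metric.infDist_nonneg)

/-- Unions of two closed sets. -/
theorem AE.union {P₁ P₂ : Set V} (h₁ : IsClosed P₁) (h₂ : IsClosed P₂) (a₁ : AE P₁) (a₂ : AE P₂)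
    (a₀ : AE (P₁ ∩ P₂)) : AE (P₁ ∪ P₂) := by
  intro Y _ _ _ B f hB hf hm
  rcases isEmpty_or_nonempty Y with hY | ⟨⟨y₀⟩⟩
  · exact ⟨f, continuous_of_discreteTopology, fun y => (hY.false y).elim, fun y _ => rfl⟩
  have : Nonempty V := ⟨f y₀⟩
  have c₁ : IsClosed (B ∩ f ⁻¹' P₁) := hf.preimage_isClosed_of_isClosed hB h₁
  have c₂ : IsClosed (B ∩ f ⁻¹' P₂) := hf.preimage_isClosed_of_isClosed hB h₂
  obtain ⟨Y₁, Y₂, k₁, k₂, hu, s₁, s₂, t₁, t₂⟩ := extB_split c₁ c₂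
  obtain ⟨F₀, hF₀, hM₀, hE₀⟩ := a₀.extend (Q := Y₁ ∩ Y₂) (B := (B ∩ f ⁻¹' P₁) ∩ (B ∩ f ⁻¹' P₂))
    (k₁.inter k₂).isCompact (c₁.inter c₂) (inter_subset_inter s₁ s₂) (f := f)
    (hf.mono fun y hy => hy.1.1) (fun y hy => ⟨hy.1.2, hy.2.2⟩)
  obtain ⟨g₁, hg₁, e₁, e₁'⟩ := exists_glue₂ (k₁.inter k₂) c₁ hF₀ (hf.mono fun y hy => hy.1)
    (fun y hy hy' => hE₀ ⟨hy', t₂ y hy.2 hy'⟩)
  obtain ⟨g₂, hg₂, e₂, e₂'⟩ := exists_glue₂ (k₁.inter k₂) c₂ hF₀ (hf.mono fun y hy => hy.1)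
    (fun y hy hy' => hE₀ ⟨t₁ y hy.1 hy', hy'⟩)
  obtain ⟨F₁, hF₁, hM₁, hE₁⟩ := a₁.extend (Q := Y₁) (B := (Y₁ ∩ Y₂) ∪ (B ∩ f ⁻¹' P₁))
    k₁.isCompact ((k₁.inter k₂).union c₁) (union_subset inter_subset_left s₁) hg₁ (by
      rintro y (hy | hy)
      · rw [e₁ hy]
        exact (hM₀ hy).1
      · rw [e₁' hy]
        exact hy.2)
  obtain ⟨F₂, hF₂, hM₂, hE₂⟩ := a₂.extend (Q := Y₂) (B := (Y₁ ∩ Y₂) ∪ (B ∩ f ⁻¹' P₂))
    k₂.isCompact ((k₁.inter k₂).union c₂) (union_subset inter_subset_right s₂) hg₂ (by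
      rintro y (hy | hy)
      · rw [e₂ hy]
        exact (hM₀ hy).2
      · rw [e₂' hy]
        exact hy.2)
  obtain ⟨F, hF, q₁, q₂⟩ := exists_glue₂ k₁ k₂ hF₁ hF₂ (fun y hy hy' => by
    rw [hE₁ (Or.inl ⟨hy, hy'⟩), hE₂ (Or.inl ⟨hy, hy'⟩), e₁ ⟨hy, hy'⟩, e₂ ⟨hy, hy'⟩])
  have hU : Y₁ ∪ Y₂ = univ := eq_univ_of_forall hu
  rw [hU, continuousOn_univ] at hF
  refine ⟨F, hF, fun y => ?_, fun y hy => ?_⟩
  · rcases hu y with h | h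
    · rw [q₁ h]
      exact Or.inl (hM₁ h)
    · rw [q₂ h]
      exact Or.inr (hM₂ h)
  · rcases hm hy with h | h
    · rw [q₁ (s₁ ⟨hy, h⟩), hE₁ (Or.inr ⟨hy, h⟩), e₁' ⟨hy, h⟩]
    · rw [q₂ (s₂ ⟨hy, h⟩), hE₂ (Or.inr ⟨hy, h⟩), e₂' ⟨hy, h⟩]

/-- Unions of two closed sets. -/
theorem ANE.union {P₁ P₂ : Set V} (h₁ : IsClosed P₁) (h₂ : IsClosed P₂) (a₁ : ANE P₁)
    (a₂ : ANE P₂) (a₀ : ANE (P₁ ∩ P₂)) : ANE (P₁ ∪ P₂) := by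
  intro Y _ _ _ B f hB hf hm
  rcases isEmpty_or_nonempty Y with hY | ⟨⟨y₀⟩⟩
  · exact ⟨univ, f, isOpen_univ, subset_univ _,
      continuous_of_discreteTopology.continuousOn, fun y => (hY.false y).elim, fun y _ => rfl⟩
  have : Nonempty V := ⟨f y₀⟩
  have c₁ : IsClosed (B ∩ f ⁻¹' P₁) := hf.preimage_isClosed_of_isClosed hB h₁
  have c₂ : IsClosed (B ∩ f ⁻¹' P₂) := hf.preimage_isClosed_of_isClosed hB h₂
  obtain ⟨Y₁, Y₂, k₁, k₂, hu, s₁, s₂, t₁, t₂⟩ := extB_split c₁ c₂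
  obtain ⟨U₀, F₀, hU₀, hBU₀, hF₀, hM₀, hE₀⟩ := a₀ Y ((B ∩ f ⁻¹' P₁) ∩ (B ∩ f ⁻¹' P₂)) f
    (c₁.inter c₂) (hf.mono fun y hy => hy.1.1) (fun y hy => ⟨hy.1.2, hy.2.2⟩)
  obtain ⟨O, hO, hBO, hOU⟩ := normal_exists_closure_subset (c₁.inter c₂) hU₀ hBU₀
  have kZ : IsClosed (closure O ∩ (Y₁ ∩ Y₂)) := isClosed_closure.inter (k₁.inter k₂)
  have hFZ : ContinuousOn F₀ (closure O ∩ (Y₁ ∩ Y₂)) := hF₀.mono fun y hy => hOU hy.1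
  obtain ⟨g₁, hg₁, e₁, e₁'⟩ := exists_glue₂ kZ c₁ hFZ (hf.mono fun y hy => hy.1)
    (fun y hy hy' => hE₀ ⟨hy', t₂ y hy.2.2 hy'⟩)
  obtain ⟨g₂, hg₂, e₂, e₂'⟩ := exists_glue₂ kZ c₂ hFZ (hf.mono fun y hy => hy.1)
    (fun y hy hy' => hE₀ ⟨t₁ y hy.2.1 hy', hy'⟩)
  obtain ⟨U₁, F₁, hU₁, hBU₁, hF₁, hM₁, hE₁⟩ := a₁ Y ((closure O ∩ (Y₁ ∩ Y₂)) ∪ (B ∩ f ⁻¹' P₁)) g₁
    (kZ.union c₁) hg₁ (by
      rintro y (hy | hy)
      · rw [e₁ hy]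
        exact (hM₀ (hOU hy.1)).1
      · rw [e₁' hy]
        exact hy.2)
  obtain ⟨U₂, F₂, hU₂, hBU₂, hF₂, hM₂, hE₂⟩ := a₂ Y ((closure O ∩ (Y₁ ∩ Y₂)) ∪ (B ∩ f ⁻¹' P₂)) g₂
    (kZ.union c₂) hg₂ (by
      rintro y (hy | hy)
      · rw [e₂ hy]
        exact (hM₀ (hOU hy.1)).2
      · rw [e₂' hy]
        exact hy.2)
  have hW : IsOpen ((U₁ ∪ Y₁ᶜ) ∩ (U₂ ∪ Y₂ᶜ) ∩ (O ∪ (Y₁ ∩ Y₂)ᶜ)) :=
    ((hU₁.union k₁.isOpen_compl).inter (hU₂.union k₂.isOpen_compl)).inter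
      (hO.union (k₁.inter k₂).isOpen_compl)
  have b₁ : ∀ y ∈ B, y ∈ Y₁ → y ∈ B ∩ f ⁻¹' P₁ := fun y hy hy' => by
    rcases hm hy with h | h
    · exact ⟨hy, h⟩
    · exact t₁ y hy' ⟨hy, h⟩
  have b₂ : ∀ y ∈ B, y ∈ Y₂ → y ∈ B ∩ f ⁻¹' P₂ := fun y hy hy' => by
    rcases hm hy with h | h
    · exact t₂ y hy' ⟨hy, h⟩
    · exact ⟨hy, h⟩
  have hBW : B ⊆ (U₁ ∪ Y₁ᶜ) ∩ (U₂ ∪ Y₂ᶜ) ∩ (O ∪ (Y₁ ∩ Y₂)ᶜ) := by
    intro y hy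
    refine ⟨⟨?_, ?_⟩, ?_⟩
    · by_cases h : y ∈ Y₁
      · exact Or.inl (hBU₁ (Or.inr (b₁ y hy h)))
      · exact Or.inr h
    · by_cases h : y ∈ Y₂
      · exact Or.inl (hBU₂ (Or.inr (b₂ y hy h)))
      · exact Or.inr h
    · by_cases h : y ∈ Y₁ ∩ Y₂
      · exact Or.inl (hBO ⟨b₁ y hy h.1, b₂ y hy h.2⟩)
      · exact Or.inr h
  obtain ⟨N, hN, hBN, hNW⟩ := normal_exists_closure_subset hB hW hBW
  have n₁ : ∀ y ∈ closure N, y ∈ Y₁ → y ∈ U₁ := fun y hy hy' => by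
    rcases (hNW hy).1.1 with h | h
    · exact h
    · exact absurd hy' h
  have n₂ : ∀ y ∈ closure N, y ∈ Y₂ → y ∈ U₂ := fun y hy hy' => by
    rcases (hNW hy).1.2 with h | h
    · exact h
    · exact absurd hy' h
  have n₀ : ∀ y ∈ closure N, y ∈ Y₁ → y ∈ Y₂ → y ∈ closure O ∩ (Y₁ ∩ Y₂) :=
    fun y hy hy' hy'' => by
      rcases (hNW hy).2 with h | h
      · exact ⟨subset_closure h, hy', hy''⟩
      · exact absurd ⟨hy', hy''⟩ h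
  obtain ⟨F, hF, q₁, q₂⟩ := exists_glue₂ (isClosed_closure.inter k₁) (isClosed_closure.inter k₂)
    (hF₁.mono fun y (hy : y ∈ closure N ∩ Y₁) => n₁ y hy.1 hy.2)
    (hF₂.mono fun y (hy : y ∈ closure N ∩ Y₂) => n₂ y hy.1 hy.2) (fun y hy hy' => by
      have hy₀ := n₀ y hy.1 hy.2 hy'.2
      rw [hE₁ (Or.inl hy₀), hE₂ (Or.inl hy₀), e₁ hy₀, e₂ hy₀])
  refine ⟨N, F, hN, hBN, hF.mono fun y hy => ?_, fun y hy => ?_, fun y hy => ?_⟩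
  · rcases hu y with h | h
    · exact Or.inl ⟨subset_closure hy, h⟩
    · exact Or.inr ⟨subset_closure hy, h⟩
  · have hy' := subset_closure hy
    rcases hu y with h | h
    · rw [q₁ ⟨hy', h⟩]
      exact Or.inl (hM₁ (n₁ y hy' h))
    · rw [q₂ ⟨hy', h⟩]
      exact Or.inr (hM₂ (n₂ y hy' h))
  · have hy' := subset_closure (hBN hy)
    rcases hm hy with h | h
    · rw [q₁ ⟨hy', s₁ ⟨hy, h⟩⟩, hE₁ (Or.inr ⟨hy, h⟩), e₁' ⟨hy, h⟩]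
    · rw [q₂ ⟨hy', s₂ ⟨hy, h⟩⟩, hE₂ (Or.inr ⟨hy, h⟩), e₂' ⟨hy, h⟩]

end Pool.Agent.H71.ZW
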