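import Pool.Agent.H71.ZW.ExtA

set_option autoImplicit false

/-!
# Absolute extensors: contractibility and homotopies
-/

namespace Pool.Agent.H71.ZW

open Set Topology TopologicalSpace

variable {V V' : Type} [TopologicalSpace V] [TopologicalSpace V']

/-- A contractible absolute neighbourhood extensor is an absolute extensor. -/
theorem ANE.ae {P : Set V} (hP : ANE P) (hc : Contr P) : AE P := by
  classical
  intro Y _ _ _ B f hB hf hm
  obtain ⟨U, F, hU, hBU, hF, hFm, hFf⟩ := hP Y B f hB hf hm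
  obtain ⟨c, p, hp, hcc, hcm, hc0, hc1⟩ := hc
  let _ : MetricSpace Y := TopologicalSpace.metrizableSpaceMetric Y
  obtain ⟨O, hO, hBO, hOU⟩ := normal_exists_closure_subset hB hU hBU
  obtain ⟨φ, hφ0, hφ1, hφ⟩ := exists_continuous_zero_one_of_isClosed hB
    hO.isClosed_compl (disjoint_left.2 fun y hy hy' => hy' (hBO hy))
  have hG1 : ∀ y ∈ U, y ∉ O → c (F y, φ y) = p := by
    intro y hy hyO
    have e : φ y = 1 := hφ1 hyO
    rw [e]
    exact hc1 _ (hFm hy)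
  have hcU : ContinuousOn (fun y => c (F y, φ y)) U := by
    refine hcc.comp (hF.prodMk φ.continuous.continuousOn) ?_
    intro y hy
    exact ⟨hFm hy, hφ y⟩
  refine ⟨fun y => if y ∈ U then c (F y, φ y) else p, ?_, ?_, ?_⟩
  · rw [continuous_iff_continuousAt]
    intro y
    by_cases hy : y ∈ U
    · have h1 : ContinuousAt (fun y => c (F y, φ y)) y := hcU.continuousAt (hU.mem_nhds hy)
      refine h1.congr ?_
      filter_upwards [hU.mem_nhds hy] with z hz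
      rw [if_pos hz]
    · have hy' : y ∈ (closure O)ᶜ := fun h => hy (hOU h)
      have h1 : ContinuousAt (fun _ : Y => p) y := continuousAt_const
      refine h1.congr ?_
      filter_upwards [isClosed_closure.isOpen_compl.mem_nhds hy'] with z hz
      split_ifs with hzU
      · exact (hG1 z hzU fun h => hz (subset_closure h)).symm
      · rfl
  · intro y
    show (if y ∈ U then c (F y, φ y) else p) ∈ P
    split_ifs with hy
    · exact hcm ⟨hFm hy, hφ y⟩
    · exact hp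
  · intro y hy
    show (if y ∈ U then c (F y, φ y) else p) = f y
    have e : φ y = 0 := hφ0 hy
    rw [if_pos (hBU hy), e, hc0 _ (hFm (hBU hy)), hFf hy]

/-- A compact absolute extensor is contractible. -/
theorem AE.contr [MetrizableSpace V] {P : Set V} (hP : AE P) (hK : IsCompact P)
    (hne : P.Nonempty) : Contr P := by
  classical
  obtain ⟨p, hp⟩ := hne
  have hcl : IsClosed P := hK.isClosed
  have h0 : IsClosed (P ×ˢ ({0} : Set ℝ)) := hcl.prod isClosed_singleton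
  have h1 : IsClosed (P ×ˢ ({1} : Set ℝ)) := hcl.prod isClosed_singleton
  have hf0 : ContinuousOn (fun z : V × ℝ => if z.2 < 1 / 2 then z.1 else p)
      (P ×ˢ ({0} : Set ℝ)) := by
    refine (continuous_fst.continuousOn).congr ?_
    rintro ⟨x, t⟩ ⟨_, ht⟩
    have ht' : t = 0 := ht
    subst ht'
    exact if_pos (by norm_num)
  have hf1 : ContinuousOn (fun z : V × ℝ => if z.2 < 1 / 2 then z.1 else p)
      (P ×ˢ ({1} : Set ℝ)) := by
    refine (continuousOn_const (c := p)).congr ?_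
    rintro ⟨x, t⟩ ⟨_, ht⟩
    have ht' : t = 1 := ht
    subst ht'
    exact if_neg (by norm_num)
  obtain ⟨c, hc, hcm, hcf⟩ := hP.extend (Q := P ×ˢ Icc (0 : ℝ) 1)
    (B := P ×ˢ ({0} : Set ℝ) ∪ P ×ˢ ({1} : Set ℝ)) (hK.prod isCompact_Icc) (h0.union h1)
    (by
      rintro ⟨x, t⟩ (⟨hx, ht⟩ | ⟨hx, ht⟩)
      · have ht' : t = 0 := ht
        subst ht'
        exact ⟨hx, by norm_num⟩
      · have ht' : t = 1 := ht
        subst ht'
        exact ⟨hx, by norm_num⟩)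
    (hf0.union_of_isClosed hf1 h0 h1)
    (by
      rintro ⟨x, t⟩ hz
      show (if t < 1 / 2 then x else p) ∈ P
      split_ifs
      · rcases hz with hz | hz
        · exact hz.1
        · exact hz.1
      · exact hp)
  refine ⟨c, p, hp, hc, hcm, ?_, ?_⟩
  · intro x hx
    have hz : (x, (0 : ℝ)) ∈ P ×ˢ ({0} : Set ℝ) := ⟨hx, rfl⟩
    rw [hcf (Or.inl hz)]
    exact if_pos (by norm_num)
  · intro x hx
    have hz : (x, (1 : ℝ)) ∈ P ×ˢ ({1} : Set ℝ) := ⟨hx, rfl⟩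
    rw [hcf (Or.inr hz)]
    exact if_neg (by norm_num)

/-- A set which is dominated by a contractible set is contractible. -/
theorem Contr.dominated {P : Set V} {Q : Set V'} (hQ : Contr Q) (g : V → V') (h : V' → V)
    (hg : ContinuousOn g P) (hh : ContinuousOn h Q) (hgm : MapsTo g P Q) (hhm : MapsTo h Q P)
    (H : V × ℝ → V) (hH : ContinuousOn H (P ×ˢ Icc (0 : ℝ) 1))
    (hHm : MapsTo H (P ×ˢ Icc (0 : ℝ) 1) P) (hH0 : ∀ x ∈ P, H (x, 0) = x)
    (hH1 : ∀ x ∈ P, H (x, 1) = h (g x)) : Contr P := by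
  classical
  obtain ⟨c, q, hq, hc, hcm, hc0, hc1⟩ := hQ
  have hfr : frontier {z : V × ℝ | z.2 ≤ 1 / 2} ⊆ {z : V × ℝ | z.2 = 1 / 2} :=
    frontier_le_subset_eq continuous_snd continuous_const
  have hcl1 : closure {z : V × ℝ | z.2 ≤ 1 / 2} ⊆ {z : V × ℝ | z.2 ≤ 1 / 2} :=
    (isClosed_le continuous_snd continuous_const).closure_subset
  have hcl2 : closure {z : V × ℝ | ¬ z.2 ≤ 1 / 2} ⊆ {z : V × ℝ | 1 / 2 ≤ z.2} :=
    closure_minimal (fun z hz => (not_le.1 hz).le)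
      (isClosed_le continuous_const continuous_snd)
  refine ⟨fun z => if z.2 ≤ 1 / 2 then H (z.1, 2 * z.2) else h (c (g z.1, 2 * z.2 - 1)), h q,
    hhm hq, ?_, ?_, ?_, ?_⟩
  · refine ContinuousOn.if ?_ ?_ ?_
    · rintro ⟨x, t⟩ ⟨hz, hz'⟩
      have ht : t = 1 / 2 := hfr hz'
      subst ht
      have hx : x ∈ P := hz.1
      show H (x, 2 * (1 / 2)) = h (c (g x, 2 * (1 / 2) - 1))
      rw [show (2 : ℝ) * (1 / 2) = 1 by norm_num, sub_self, hH1 x hx, hc0 _ (hgm hx)]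
    · refine hH.comp (by fun_prop) ?_
      rintro ⟨x, t⟩ ⟨⟨hx, ht⟩, hz'⟩
      have ht' : t ≤ 1 / 2 := hcl1 hz'
      refine ⟨hx, ?_, ?_⟩
      · show 0 ≤ 2 * t
        linarith [ht.1]
      · show 2 * t ≤ 1
        linarith
    · have hin : MapsTo (fun z : V × ℝ => (g z.1, 2 * z.2 - 1))
          (P ×ˢ Icc (0 : ℝ) 1 ∩ closure {z : V × ℝ | ¬ z.2 ≤ 1 / 2}) (Q ×ˢ Icc (0 : ℝ) 1) := by
        rintro ⟨x, t⟩ ⟨⟨hx, ht⟩, hz'⟩
        have ht' : 1 / 2 ≤ t := hcl2 hz'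
        refine ⟨hgm hx, ?_, ?_⟩
        · show 0 ≤ 2 * t - 1
          linarith
        · show 2 * t - 1 ≤ 1
          linarith [ht.2]
      have hgc : ContinuousOn (fun z : V × ℝ => (g z.1, 2 * z.2 - 1))
          (P ×ˢ Icc (0 : ℝ) 1 ∩ closure {z : V × ℝ | ¬ z.2 ≤ 1 / 2}) := by
        refine ContinuousOn.prodMk ?_ (by fun_prop)
        exact hg.comp continuous_fst.continuousOn fun z hz => hz.1.1
      exact hh.comp (hc.comp hgc hin) fun z hz => hcm (hin hz)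
  · rintro ⟨x, t⟩ ⟨hx, ht⟩
    show (if t ≤ 1 / 2 then H (x, 2 * t) else h (c (g x, 2 * t - 1))) ∈ P
    split_ifs with h1
    · exact hHm ⟨hx, by show 0 ≤ 2 * t; linarith [ht.1], by show 2 * t ≤ 1; linarith⟩
    · exact hhm (hcm ⟨hgm hx, by show 0 ≤ 2 * t - 1; linarith,
        by show 2 * t - 1 ≤ 1; linarith [ht.2]⟩)
  · intro x hx
    show (if (0 : ℝ) ≤ 1 / 2 then H (x, 2 * 0) else h (c (g x, 2 * 0 - 1))) = x
    rw [if_pos (by norm_num), mul_zero, hH0 x hx]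
  · intro x hx
    show (if (1 : ℝ) ≤ 1 / 2 then H (x, 2 * 1) else h (c (g x, 2 * 1 - 1))) = h q
    rw [if_neg (by norm_num), show (2 : ℝ) * 1 - 1 = 1 by norm_num, hc1 _ (hgm hx)]

/-- Homotopies between maps into an absolute extensor, relative to a closed set. -/
theorem AE.homotopy [MetrizableSpace V'] {P : Set V} (hP : AE P) {Q B : Set V'} (hQ : IsCompact Q)
    (hB : IsClosed B) (hBQ : B ⊆ Q) {f g : V' → V} (hf : ContinuousOn f Q)
    (hg : ContinuousOn g Q) (hfm : MapsTo f Q P) (hgm : MapsTo g Q P) (hfg : EqOn f g B) :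
    ∃ H : V' × ℝ → V, ContinuousOn H (Q ×ˢ Icc (0 : ℝ) 1) ∧ MapsTo H (Q ×ˢ Icc (0 : ℝ) 1) P ∧
      (∀ x ∈ Q, H (x, 0) = f x) ∧ (∀ x ∈ Q, H (x, 1) = g x) ∧
      ∀ x ∈ B, ∀ t ∈ Icc (0 : ℝ) 1, H (x, t) = f x := by
  classical
  have hcl : IsClosed Q := hQ.isClosed
  have h0 : IsClosed (Q ×ˢ ({0} : Set ℝ)) := hcl.prod isClosed_singleton
  have h1 : IsClosed (Q ×ˢ ({1} : Set ℝ)) := hcl.prod isClosed_singleton
  have h2 : IsClosed (B ×ˢ Icc (0 : ℝ) 1) := hB.prod isClosed_Icc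
  have hf0 : ContinuousOn (fun z : V' × ℝ => if z.2 < 1 / 2 then f z.1 else g z.1)
      (Q ×ˢ ({0} : Set ℝ)) := by
    refine (hf.comp continuous_fst.continuousOn fun z hz => hz.1).congr ?_
    rintro ⟨x, t⟩ ⟨_, ht⟩
    have ht' : t = 0 := ht
    subst ht'
    exact if_pos (by norm_num)
  have hf1 : ContinuousOn (fun z : V' × ℝ => if z.2 < 1 / 2 then f z.1 else g z.1)
      (Q ×ˢ ({1} : Set ℝ)) := by
    refine (hg.comp continuous_fst.continuousOn fun z hz => hz.1).congr ?_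
    rintro ⟨x, t⟩ ⟨_, ht⟩
    have ht' : t = 1 := ht
    subst ht'
    exact if_neg (by norm_num)
  have e2 : ∀ x ∈ B, ∀ t : ℝ, (if t < 1 / 2 then f x else g x) = f x := by
    intro x hx t
    split_ifs
    · rfl
    · exact (hfg hx).symm
  have hf2 : ContinuousOn (fun z : V' × ℝ => if z.2 < 1 / 2 then f z.1 else g z.1)
      (B ×ˢ Icc (0 : ℝ) 1) := by
    refine (hf.comp continuous_fst.continuousOn fun z hz => hBQ hz.1).congr ?_
    rintro ⟨x, t⟩ ⟨hx, _⟩
    exact e2 x hx t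
  obtain ⟨H, hH, hHm, hHf⟩ := hP.extend (Q := Q ×ˢ Icc (0 : ℝ) 1)
    (B := Q ×ˢ ({0} : Set ℝ) ∪ Q ×ˢ ({1} : Set ℝ) ∪ B ×ˢ Icc (0 : ℝ) 1)
    (hQ.prod isCompact_Icc) ((h0.union h1).union h2)
    (by
      rintro ⟨x, t⟩ ((⟨hx, ht⟩ | ⟨hx, ht⟩) | ⟨hx, ht⟩)
      · have ht' : t = 0 := ht
        subst ht'
        exact ⟨hx, by norm_num⟩
      · have ht' : t = 1 := ht
        subst ht'
        exact ⟨hx, by norm_num⟩
      · exact ⟨hBQ hx, ht⟩)
    ((hf0.union_of_isClosed hf1 h0 h1).union_of_isClosed hf2 (h0.union h1) h2)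
    (by
      rintro ⟨x, t⟩ hz
      have hx : x ∈ Q := by
        rcases hz with (hz | hz) | hz
        · exact hz.1
        · exact hz.1
        · exact hBQ hz.1
      show (if t < 1 / 2 then f x else g x) ∈ P
      split_ifs
      · exact hfm hx
      · exact hgm hx)
  refine ⟨H, hH, hHm, ?_, ?_, ?_⟩
  · intro x hx
    have hz : (x, (0 : ℝ)) ∈ Q ×ˢ ({0} : Set ℝ) := ⟨hx, rfl⟩
    rw [hHf (Or.inl (Or.inl hz))]
    exact if_pos (by norm_num)
  · intro x hx
    have hz : (x, (1 : ℝ)) ∈ Q ×ˢ ({1} : Set ℝ) := ⟨hx, rfl⟩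
    rw [hHf (Or.inl (Or.inr hz))]
    exact if_neg (by norm_num)
  · intro x hx t ht
    rw [hHf (Or.inr ⟨hx, ht⟩)]
    exact e2 x hx t

end Pool.Agent.H71.ZW
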