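import Pool.Agent.H71.ZW.ExtA
import Pool.Agent.H71.ZW.ExtB
import Pool.Agent.H71.ZW.ExtC

/-!
# Absolute extensors: basic facts
-/
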