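import Pool.Agent.H71.ZW.Defs

set_option autoImplicit false

/-!
# Absolute extensors: first facts
-/

namespace Pool.Agent.H71.ZW

open Set Topology TopologicalSpace

variable {V V' : Type} [TopologicalSpace V] [TopologicalSpace V']

/-- An absolute extensor is nonempty. -/
theorem AE.nonempty {P : Set V} [Nonempty V] (hP : AE P) : P.Nonempty := by
  obtain ⟨F, -, hF, -⟩ := hP Unit ∅ (fun _ => Classical.arbitrary V) isClosed_empty (continuousOn_empty _) (mapsTo_empty _ _)
  exact ⟨F (), hF ()⟩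

/-- Extension of maps defined on closed subsets of compact sets. -/
theorem AE.extend [MetrizableSpace V'] {P : Set V} (hP : AE P) {Q B : Set V'} (hQ : IsCompact Q)
    (hB : IsClosed B) (hBQ : B ⊆ Q) {f : V' → V} (hf : ContinuousOn f B) (hm : MapsTo f B P) :
    ∃ F : V' → V, ContinuousOn F Q ∧ MapsTo F Q P ∧ EqOn F f B := by
  classical
  have : CompactSpace ↥Q := isCompact_iff_compactSpace.mp hQ
  obtain ⟨G, hG, hGP, hGf⟩ := hP ↥Q (Subtype.val ⁻¹' B) (fun x => f x.1) (hB.preimage continuous_subtype_val)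
    (hf.comp continuous_subtype_val.continuousOn fun x hx => hx) (fun x hx => hm hx)
  refine ⟨fun x => if h : x ∈ Q then G ⟨x, h⟩ else f x, ?_, ?_, ?_⟩
  · rw [continuousOn_iff_continuous_domRestrict]
    have : Q.domRestrict (fun x => if h : x ∈ Q then G ⟨x, h⟩ else f x) = G := by
      funext x
      simp only [Set.domRestrict_apply, x.2, dif_pos, Subtype.coe_eta]
    rw [this]
    exact hG
  · intro x hx
    simp only [hx, dif_pos]
    exact hGP _
  · intro x hx
    have hxQ := hBQ hx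
    simp only [hxQ, dif_pos]
    exact hGf (show (⟨x, hxQ⟩ : ↥Q) ∈ Subtype.val ⁻¹' B from hx)

/-- Retracts. -/
theorem AE.retract {P : Set V} {Q : Set V'} (hP : AE P) (i : V' → V) (r : V → V')
    (hi : ContinuousOn i Q) (hr : ContinuousOn r P) (him : MapsTo i Q P) (hrm : MapsTo r P Q)
    (h : ∀ x ∈ Q, r (i x) = x) : AE Q := by
  intro Y _ _ _ B f hB hf hm
  obtain ⟨F, hF, hFP, hFf⟩ := hP Y B (fun y => i (f y)) hB (hi.comp hf hm) (fun y hy => him (hm hy))
  refine ⟨fun y => r (F y), hr.comp_continuous hF hFP, fun y => hrm (hFP y), fun y hy => ?_⟩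
  show r (F y) = f y
  rw [hFf hy]
  exact h _ (hm hy)

/-- Products. -/
theorem AE.prod {P : Set V} {Q : Set V'} (hP : AE P) (hQ : AE Q) : AE (P ×ˢ Q) := by
  intro Y _ _ _ B f hB hf hm
  obtain ⟨F, hF, hFP, hFf⟩ := hP Y B (fun y => (f y).1) hB (continuous_fst.comp_continuousOn hf) (fun y hy => (hm hy).1)
  obtain ⟨G, hG, hGQ, hGf⟩ := hQ Y B (fun y => (f y).2) hB (continuous_snd.comp_continuousOn hf) (fun y hy => (hm hy).2)
  exact ⟨fun y => (F y, G y), hF.prodMk hG, fun y => ⟨hFP y, hGQ y⟩, fun y hy => Prod.ext (hFf hy) (hGf hy)⟩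

theorem AE.ane {P : Set V} (hP : AE P) : ANE P := by
  intro Y _ _ _ B f hB hf hm
  obtain ⟨F, hF, hFP, hFf⟩ := hP Y B f hB hf hm
  exact ⟨univ, F, isOpen_univ, subset_univ _, hF.continuousOn, fun y _ => hFP y, hFf⟩

end Pool.Agent.H71.ZW
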