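import Pool.Agent.H71.ZW.ConnA
import Pool.Agent.H71.ZW.Glue
import Pool.Agent.H71.ZW.Basic

set_option autoImplicit false

/-!
# Composition of extensions

`H'' (z, t) = H' (z, 2 * t)` for `t ≤ 1 / 2` and `σ' (H (tr n' z, 2 * t - 1))` for `1 / 2 ≤ t`.
Fibres: `isConnected_preim`.
-/

namespace Pool.Agent.H71.ZW

open Set Topology TopologicalSpace

theorem IsExt.comp {n n' n'' : ℕ} {P P' P'' : Set W} {σ σ' : W → W} {H H' : W × ℝ → W}
    (h : IsExt n P n' P' σ H) (h' : IsExt n' P' n'' P'' σ' H') (hP' : IsCompact P')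
    (hP'' : IsCompact P'') :
    ∃ H'' : W × ℝ → W, IsExt n P n'' P'' (σ' ∘ σ) H'' ∧ ∀ z ∈ P'', ∀ t ∈ Icc (0 : ℝ) 1,
      (∃ u ∈ Icc (0 : ℝ) 1, H'' (z, t) = H' (z, u)) ∨
        ∃ u ∈ Icc (0 : ℝ) 1, H'' (z, t) = σ' (H (tr n' z, u)) := by
  have htr : ∀ z : W, tr n (tr n' z) = tr n z := fun z => tr_tr h.le z
  have hcA : IsClosed (P'' ×ˢ Icc (0 : ℝ) (1 / 2)) := hP''.isClosed.prod isClosed_Icc
  have hcB : IsClosed (P'' ×ˢ Icc (1 / 2 : ℝ) 1) := hP''.isClosed.prod isClosed_Icc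
  have hfA : ContinuousOn (fun p : W × ℝ => H' (p.1, 2 * p.2)) (P'' ×ˢ Icc (0 : ℝ) (1 / 2)) := by
    refine h'.contH.comp (f := fun p : W × ℝ => (p.1, 2 * p.2)) (by fun_prop) ?_
    rintro ⟨z, t⟩ ⟨hz, ht⟩
    simp only [mem_Icc] at ht
    exact ⟨hz, by simp only [mem_Icc]; constructor <;> linarith [ht.1, ht.2]⟩
  have hg0 : MapsTo (fun p : W × ℝ => (tr n' p.1, 2 * p.2 - 1)) (P'' ×ˢ Icc (1 / 2 : ℝ) 1)
      (P' ×ˢ Icc (0 : ℝ) 1) := by
    rintro ⟨z, t⟩ ⟨hz, ht⟩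
    simp only [mem_Icc] at ht
    exact ⟨h'.map z hz, by simp only [mem_Icc]; constructor <;> linarith [ht.1, ht.2]⟩
  have hcont : Continuous (fun p : W × ℝ => (tr n' p.1, 2 * p.2 - 1)) :=
    ((continuous_tr n').comp continuous_fst).prodMk (by fun_prop)
  have hgB : ContinuousOn (fun p : W × ℝ => σ' (H (tr n' p.1, 2 * p.2 - 1)))
      (P'' ×ˢ Icc (1 / 2 : ℝ) 1) := by
    have h1 : ContinuousOn (fun p : W × ℝ => H (tr n' p.1, 2 * p.2 - 1))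
        (P'' ×ˢ Icc (1 / 2 : ℝ) 1) := h.contH.comp hcont.continuousOn hg0
    refine h'.contS.comp h1 ?_
    intro p hp
    exact h.mapH (hg0 hp)
  obtain ⟨F, hF, hE1, hE2⟩ := exists_glue₂ hcA hcB hfA hgB (by
    rintro ⟨z, t⟩ ⟨hz, ht⟩ ⟨_, ht'⟩
    simp only [mem_Icc] at ht ht' hz
    have e : t = 1 / 2 := le_antisymm ht.2 ht'.1
    have hz' : z ∈ P'' := hz
    simp only [e]
    have e1 : (2 : ℝ) * (1 / 2) = 1 := by norm_num
    rw [e1, sub_self, h'.H1 z hz', h.H0 _ (h'.map z hz')])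
  have hunion : P'' ×ˢ Icc (0 : ℝ) 1 =
      P'' ×ˢ Icc (0 : ℝ) (1 / 2) ∪ P'' ×ˢ Icc (1 / 2 : ℝ) 1 := by
    rw [← prod_union, Icc_union_Icc_eq_Icc (by norm_num) (by norm_num)]
  have hcase : ∀ z ∈ P'', ∀ t ∈ Icc (0 : ℝ) 1,
      (∃ u ∈ Icc (0 : ℝ) 1, F (z, t) = H' (z, u)) ∨
        ∃ u ∈ Icc (0 : ℝ) 1, F (z, t) = σ' (H (tr n' z, u)) := by
    intro z hz t ht
    simp only [mem_Icc] at ht
    rcases le_total t (1 / 2) with h1 | h1
    · left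
      refine ⟨2 * t, ⟨by linarith [ht.1], by linarith⟩, ?_⟩
      exact hE1 (⟨hz, ⟨ht.1, h1⟩⟩ : (z, t) ∈ P'' ×ˢ Icc (0 : ℝ) (1 / 2))
    · right
      refine ⟨2 * t - 1, ⟨by linarith, by linarith [ht.2]⟩, ?_⟩
      exact hE2 (⟨hz, ⟨h1, ht.2⟩⟩ : (z, t) ∈ P'' ×ˢ Icc (1 / 2 : ℝ) 1)
  refine ⟨F, ?_, hcase⟩
  refine
    { le := h.le.trans h'.le
      map := fun z hz => by rw [← htr z]; exact h.map _ (h'.map z hz)
      fib := ?_
      contS := h'.contS.comp h.contS h.mapS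
      mapS := h'.mapS.comp h.mapS
      contH := by rw [hunion]; exact hF
      mapH := ?_
      H0 := ?_
      H1 := ?_ }
  · intro x hx
    have hZ : IsClosed {z : W | z ∈ P' ∧ tr n z = x} :=
      hP'.isClosed.inter (isClosed_singleton.preimage (continuous_tr n))
    have h1 := isConnected_preim (f := tr n') hP'' (continuous_tr n').continuousOn hZ (h.fib x hx)
      (fun y hy => h'.fib y hy.1)
    convert h1 using 1
    ext z
    simp only [mem_setOf_eq]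
    constructor
    · rintro ⟨hz, e⟩
      exact ⟨hz, h'.map z hz, by rw [htr]; exact e⟩
    · rintro ⟨hz, _, e⟩
      exact ⟨hz, by rw [← htr]; exact e⟩
  · rintro ⟨z, t⟩ ⟨hz, ht⟩
    rcases hcase z hz t ht with ⟨u, hu, e⟩ | ⟨u, hu, e⟩
    · rw [e]
      exact h'.mapH (⟨hz, hu⟩ : (z, u) ∈ P'' ×ˢ Icc (0 : ℝ) 1)
    · rw [e]
      exact h'.mapS (h.mapH (⟨h'.map z hz, hu⟩ : (tr n' z, u) ∈ P' ×ˢ Icc (0 : ℝ) 1))
  · intro z hz
    have h1 := hE1 (⟨hz, ⟨le_rfl, by norm_num⟩⟩ : (z, (0 : ℝ)) ∈ P'' ×ˢ Icc (0 : ℝ) (1 / 2))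
    rw [h1]
    simp only [mul_zero]
    exact h'.H0 z hz
  · intro z hz
    have h1 := hE2 (⟨hz, ⟨by norm_num, le_rfl⟩⟩ : (z, (1 : ℝ)) ∈ P'' ×ˢ Icc (1 / 2 : ℝ) 1)
    rw [h1]
    have e : (2 : ℝ) * 1 - 1 = 1 := by norm_num
    simp only [e, Function.comp]
    rw [h.H1 _ (h'.map z hz), htr]

/-- The trivial extension. -/
theorem IsExt.refl {n : ℕ} {P : Set W} (h0 : ∀ x ∈ P, ∀ k, n ≤ k → x k = 0) :
    IsExt n P n P id Prod.fst := by
  have htr : ∀ x ∈ P, tr n x = x := fun x hx => tr_eq (h0 x hx)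
  refine
    { le := le_rfl
      map := fun z hz => by rw [htr z hz]; exact hz
      fib := ?_
      contS := continuousOn_id
      mapS := fun x hx => hx
      contH := continuous_fst.continuousOn
      mapH := fun p hp => hp.1
      H0 := fun z _ => rfl
      H1 := fun z hz => (htr z hz).symm }
  intro x hx
  have e : {z | z ∈ P ∧ tr n z = x} = {x} := by
    ext z
    simp only [mem_setOf_eq, mem_singleton_iff]
    constructor
    · rintro ⟨hz, e⟩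
      rw [← e, htr z hz]
    · rintro rfl
      exact ⟨hx, htr _ hx⟩
  rw [e]
  exact isConnected_singleton

end Pool.Agent.H71.ZW
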