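import Pool.Agent.H71.ZW.Join
import Pool.Agent.H71.ZW.Glue

set_option autoImplicit false

/-!
# Retractions of `S × cK`

Proof of `exists_retr`. Let `S` be the union of the finite set `𝒞` of nonempty compact convex sets.
Claim: for every polyhedron `S'` with `S₀ ⊆ S' ⊆ S` which is the union of `S₀` and some members of
`𝒞` there is a retraction of `S × K ∪ S' × cK` onto `S × K ∪ S₀ × cK`; start with `S' = S₀`. If some
member of `𝒞` is not contained in `S'`, then one of them meets `S'`: otherwise apply `hc` to `S'` and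
the union of the members of `𝒞` which are not contained in `S'`. For this member `D` the set
`{(x, κ) | (x ∈ D ∧ κ ∈ K) ∨ (x ∈ S' ∩ D ∧ κ ∈ cK)}` is an absolute extensor by `ae_join`, so
`D × cK` retracts onto it, so `S × K ∪ (S' ∪ D) × cK` retracts onto `S × K ∪ S' × cK`; compose.
Induct on the number of the members of `𝒞` which are not contained in `S'`.
-/

namespace Pool.Agent.H71.ZW

open Set Topology TopologicalSpace

/-- The set `S × K ∪ S' × cK`. -/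
def retrSet {V : Type} (S S' : Set V) : Set (V × E) :=
  {p | p.1 ∈ S ∧ p.2 ∈ cK ∧ (p.2 ∈ K ∨ p.1 ∈ S')}

theorem retr_K_sub : K ⊆ cK := fun _ h => h.1

theorem retr_closed {V : Type} [TopologicalSpace V] [MetrizableSpace V] {S S' : Set V}
    (hS : IsCompact S) (hS' : IsCompact S') (h : S' ⊆ S) : IsClosed (retrSet S S') := by
  have e : retrSet S S' = (S ×ˢ K) ∪ (S' ×ˢ cK) := by
    ext p
    constructor
    · rintro ⟨h1, h2, h3 | h3⟩
      · exact Or.inl ⟨h1, h3⟩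
      · exact Or.inr ⟨h3, h2⟩
    · rintro (⟨h1, h2⟩ | ⟨h1, h2⟩)
      · exact ⟨h1, retr_K_sub h2, Or.inl h2⟩
      · exact ⟨h h1, h2, Or.inr h1⟩
  rw [e]
  exact (hS.isClosed.prod isPoly_K.isCompact.isClosed).union
    (hS'.isClosed.prod isPoly_cK.isCompact.isClosed)

/-- The map `ϖ` is a retraction of `S × K ∪ S' × cK` onto `S × K ∪ S₀ × cK`. -/
def RetrMap {V : Type} [TopologicalSpace V] (S S₀ S' : Set V) (ϖ : V × E → V × E) : Prop :=
  ContinuousOn ϖ (retrSet S S') ∧ MapsTo ϖ (retrSet S S') (retrSet S S₀) ∧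
    ∀ p ∈ retrSet S S₀, ϖ p = p

theorem retr_step {V : Type} [AddCommGroup V] [Module ℝ V] [TopologicalSpace V]
    [IsTopologicalAddGroup V] [ContinuousSMul ℝ V] [LocallyConvexSpace ℝ V] [MetrizableSpace V]
    {S S₀ S' D : Set V} (hS : IsPoly S) (hS' : IsPoly S') (h0 : S₀ ⊆ S') (h1 : S' ⊆ S)
    (hD : IsCompact D) (hDc : Convex ℝ D) (hDS : D ⊆ S) (hne : (S' ∩ D).Nonempty)
    {ϖ : V × E → V × E} (hϖ : RetrMap S S₀ S' ϖ) : ∃ ϖ', RetrMap S S₀ (S' ∪ D) ϖ' := by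
  obtain ⟨c1, c2, c3⟩ := hϖ
  set J : Set (V × E) := {p | (p.1 ∈ D ∧ p.2 ∈ K) ∨ (p.1 ∈ S' ∩ D ∧ p.2 ∈ cK)} with hJ
  have hp : IsPoly (S' ∩ D) := hS'.inter_convex hD.isClosed hDc
  have hAE : AE J := ae_join hD hDc hp hne inter_subset_right
  have hJc : IsClosed J := by
    have e : J = (D ×ˢ K) ∪ ((S' ∩ D) ×ˢ cK) := by
      ext p
      constructor
      · rintro (⟨h1, h2⟩ | ⟨h1, h2⟩)
        · exact Or.inl ⟨h1, h2⟩
        · exact Or.inr ⟨h1, h2⟩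
      · rintro (⟨h1, h2⟩ | ⟨h1, h2⟩)
        · exact Or.inl ⟨h1, h2⟩
        · exact Or.inr ⟨h1, h2⟩
    rw [e]
    exact (hD.isClosed.prod isPoly_K.isCompact.isClosed).union
      (hp.isCompact.isClosed.prod isPoly_cK.isCompact.isClosed)
  have hJQ : J ⊆ D ×ˢ cK := by
    rintro p (⟨h1, h2⟩ | ⟨h1, h2⟩)
    · exact ⟨h1, retr_K_sub h2⟩
    · exact ⟨h1.2, h2⟩
  obtain ⟨F, hF, hFm, hFe⟩ := hAE.extend (V' := V × E) (Q := D ×ˢ cK) (B := J)
    (hD.prod isPoly_cK.isCompact) hJc hJQ (f := id) continuousOn_id (fun p hp => hp)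
  have hcl : IsClosed (retrSet S S') := retr_closed hS.isCompact hS'.isCompact h1
  have hQc : IsClosed (D ×ˢ cK) := hD.isClosed.prod isPoly_cK.isCompact.isClosed
  have hJR : J ⊆ retrSet S S' := by
    rintro p (⟨h1, h2⟩ | ⟨h1, h2⟩)
    · exact ⟨hDS h1, retr_K_sub h2, Or.inl h2⟩
    · exact ⟨hDS h1.2, h2, Or.inr h1.1⟩
  obtain ⟨ρ, hρ, hρ1, hρ2⟩ := exists_glue₂ (X := V × E) (Y := V × E) hcl hQc
    (f := id) continuousOn_id hF (by
      rintro p ⟨_, q2, q3⟩ hq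
      refine (hFe ?_).symm
      rcases q3 with q3 | q3
      · exact Or.inl ⟨hq.1, q3⟩
      · exact Or.inr ⟨⟨q3, hq.1⟩, q2⟩)
  have hsub : retrSet S (S' ∪ D) ⊆ retrSet S S' ∪ D ×ˢ cK := by
    rintro p ⟨q1, q2, q3 | q3 | q3⟩
    · exact Or.inl ⟨q1, q2, Or.inl q3⟩
    · exact Or.inl ⟨q1, q2, Or.inr q3⟩
    · exact Or.inr ⟨q3, q2⟩
  have hρm : MapsTo ρ (retrSet S (S' ∪ D)) (retrSet S S') := by
    intro p hp
    rcases hsub hp with h | h
    · rw [hρ1 h]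
      exact h
    · rw [hρ2 h]
      exact hJR (hFm h)
  have h00 : retrSet S S₀ ⊆ retrSet S S' := by
    rintro p ⟨q1, q2, q3 | q3⟩
    · exact ⟨q1, q2, Or.inl q3⟩
    · exact ⟨q1, q2, Or.inr (h0 q3)⟩
  refine ⟨ϖ ∘ ρ, c1.comp (hρ.mono hsub) hρm, c2.comp hρm, ?_⟩
  intro p hp
  have e : ρ p = p := hρ1 (h00 hp)
  rw [Function.comp_apply, e]
  exact c3 p hp

theorem exists_retr {V : Type} [AddCommGroup V] [Module ℝ V] [TopologicalSpace V]
    [IsTopologicalAddGroup V] [ContinuousSMul ℝ V] [LocallyConvexSpace ℝ V] [MetrizableSpace V]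
    {S S₀ : Set V} (hS : IsPoly S) (hS₀ : IsPoly S₀) (h : S₀ ⊆ S)
    (hc : ∀ A B : Set V, IsClosed A → IsClosed B → Disjoint A B → A ∪ B = S → S₀ ⊆ A → B = ∅) :
    ∃ ϖ : V × E → V × E, ContinuousOn ϖ (S ×ˢ cK) ∧
      (∀ x ∈ S, ∀ κ ∈ cK, (ϖ (x, κ)).1 ∈ S ∧ (ϖ (x, κ)).2 ∈ cK ∧
        ((ϖ (x, κ)).2 ∈ K ∨ (ϖ (x, κ)).1 ∈ S₀)) ∧
      ∀ x ∈ S, ∀ κ ∈ cK, (κ ∈ K ∨ x ∈ S₀) → ϖ (x, κ) = (x, κ) := by
  obtain ⟨𝒞, hfin, hC, hU⟩ := id hS
  have key : ∀ n : ℕ, ∀ S' : Set V, IsPoly S' → S₀ ⊆ S' → S' ⊆ S →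
      (∃ ϖ, RetrMap S S₀ S' ϖ) → {C | C ∈ 𝒞 ∧ ¬ C ⊆ S'}.ncard ≤ n → ∃ ϖ, RetrMap S S₀ S ϖ := by
    intro n
    induction n with
    | zero =>
      intro S' hS' h0 h1 hϖ hn
      have hf : {C | C ∈ 𝒞 ∧ ¬ C ⊆ S'}.Finite := hfin.subset fun C hC => hC.1
      have he : {C | C ∈ 𝒞 ∧ ¬ C ⊆ S'} = ∅ := (Set.ncard_eq_zero hf).1 (Nat.le_zero.1 hn)
      have hSS : S' = S := by
        refine h1.antisymm ?_
        rw [hU]
        refine sUnion_subset fun C hC' => ?_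
        by_contra hcon
        have : C ∈ {C | C ∈ 𝒞 ∧ ¬ C ⊆ S'} := ⟨hC', hcon⟩
        rw [he] at this
        exact this
      rwa [hSS] at hϖ
    | succ n ih =>
      intro S' hS' h0 h1 hϖ hn
      have hf : {C | C ∈ 𝒞 ∧ ¬ C ⊆ S'}.Finite := hfin.subset fun C hC => hC.1
      by_cases hSS : S ⊆ S'
      · have e : S' = S := h1.antisymm hSS
        rwa [e] at hϖ
      -- a member which meets `S'` and is not contained in it
      have hex : ∃ D ∈ 𝒞, ¬ D ⊆ S' ∧ (S' ∩ D).Nonempty := by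
        by_contra hcon
        push Not at hcon
        set B : Set V := ⋃₀ {C | C ∈ 𝒞 ∧ ¬ C ⊆ S'} with hB
        have hBp : IsPoly B := ⟨_, hf, fun C hC' => hC C hC'.1, rfl⟩
        have hd : Disjoint S' B := by
          rw [Set.disjoint_left]
          rintro x hx ⟨C, hC', hxC⟩
          have := hcon C hC'.1 hC'.2
          have hx' : x ∈ S' ∩ C := ⟨hx, hxC⟩
          rw [this] at hx'
          exact hx'
        have hun : S' ∪ B = S := by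
          apply Set.Subset.antisymm
          · refine union_subset h1 ?_
            rw [hU]
            exact sUnion_subset_sUnion fun C hC' => hC'.1
          · intro x hx
            rw [hU] at hx
            obtain ⟨C, hC', hxC⟩ := hx
            by_cases hCS : C ⊆ S'
            · exact Or.inl (hCS hxC)
            · exact Or.inr ⟨C, ⟨hC', hCS⟩, hxC⟩
        have hBe := hc S' B hS'.isCompact.isClosed hBp.isCompact.isClosed hd hun h0
        rw [hBe, union_empty] at hun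
        exact hSS hun.ge
      obtain ⟨D, hD, hDS, hDn⟩ := hex
      have hDsub : D ⊆ S := by
        rw [hU]
        exact subset_sUnion_of_mem hD
      obtain ⟨ϖ, hϖ'⟩ := hϖ
      have hstep := retr_step hS hS' h0 h1 (hC D hD).1 (hC D hD).2 hDsub hDn hϖ'
      refine ih (S' ∪ D) (hS'.union (isPoly_of_convex (hC D hD).1 (hC D hD).2))
        (h0.trans subset_union_left) (union_subset h1 hDsub) hstep ?_
      have hlt : {C | C ∈ 𝒞 ∧ ¬ C ⊆ S' ∪ D} ⊂ {C | C ∈ 𝒞 ∧ ¬ C ⊆ S'} := by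
        refine ⟨fun C hC' => ⟨hC'.1, fun h' => hC'.2 (h'.trans subset_union_left)⟩, ?_⟩
        intro hcon
        exact (hcon (⟨hD, hDS⟩ : D ∈ {C | C ∈ 𝒞 ∧ ¬ C ⊆ S'})).2 subset_union_right
      have := Set.ncard_lt_ncard hlt hf
      omega
  obtain ⟨ϖ, w1, w2, w3⟩ := key _ S₀ hS₀ Subset.rfl h
    ⟨id, continuousOn_id, fun p hp => hp, fun p _ => rfl⟩ le_rfl
  have e : retrSet S S = S ×ˢ cK := by
    ext p
    constructor
    · rintro ⟨h1, h2, _⟩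
      exact ⟨h1, h2⟩
    · rintro ⟨h1, h2⟩
      exact ⟨h1, h2, Or.inr h1⟩
  refine ⟨ϖ, by rwa [e] at w1, fun x hx κ hκ => ?_, fun x hx κ hκ hor => w3 (x, κ) ⟨hx, hκ, hor⟩⟩
  exact w2 (⟨hx, hκ, Or.inr hx⟩ : (x, κ) ∈ retrSet S S)

/-- The retraction of `cK × cK` onto its boundary. -/
theorem exists_retr_cK : ∃ ϖ : E × E → E × E, ContinuousOn ϖ (cK ×ˢ cK) ∧
    (∀ κ ∈ cK, ∀ κ' ∈ cK, (ϖ (κ, κ')).1 ∈ cK ∧ (ϖ (κ, κ')).2 ∈ cK ∧
      ((ϖ (κ, κ')).1 ∈ K ∨ (ϖ (κ, κ')).2 ∈ K)) ∧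
    ∀ κ ∈ cK, ∀ κ' ∈ cK, (κ ∈ K ∨ κ' ∈ K) → ϖ (κ, κ') = (κ, κ') := by
  have hconn : IsPreconnected cK := by
    have h1 := (isConnected_above (s := 0) zero_le_one).isPreconnected
    have e : {κ | κ ∈ cK ∧ 0 ≤ ht κ} = cK := by
      ext κ
      exact ⟨fun h => h.1, fun h => ⟨h, ht_nonneg h⟩⟩
    rwa [e] at h1
  obtain ⟨ϖ, h1, h2, h3⟩ := exists_retr (V := E) isPoly_cK isPoly_K retr_K_sub (by
    intro A B hA hB hd hun hKA
    by_contra hne
    obtain ⟨b, hb⟩ := Set.nonempty_iff_ne_empty.2 hne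
    have hmem := isPreconnected_closed_iff.1 hconn A B hA hB hun.ge
      ⟨base, retr_K_sub base_mem, hKA base_mem⟩ ⟨b, hun.le (Or.inr hb), hb⟩
    obtain ⟨x, _, hxA, hxB⟩ := hmem
    exact Set.disjoint_left.1 hd hxA hxB)
  refine ⟨ϖ, h1, fun κ hκ κ' hκ' => ?_, fun κ hκ κ' hκ' hor => h3 κ hκ κ' hκ' hor.symm⟩
  obtain ⟨q1, q2, q3⟩ := h2 κ hκ κ' hκ'
  exact ⟨q1, q2, q3.symm⟩

end Pool.Agent.H71.ZW
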