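import Pool.Agent.H71.ZW.FGB
import Pool.Agent.H71.ZW.Retr
import Pool.Agent.H71.ZW.Glue

set_option autoImplicit false

/-!
# Pushing pairs of points off the products of the cones and the balls

Let `C i = {x ∈ T | s ≤ ht (x i)}` and let `ϖ i` be the retraction of `exists_retr` for `S = MM i`,
`S₀ = MM₀ i` (`conn_MM`), `L i` the transport. On `C i × MM i` put
`(y', κ) = ϖ i (y, dn s (x i))` and `ρ (x, y) = (L i (x, up s κ), y')`; it is the identity if
`ht (x i) = s` or `y ∈ MM₀ i`. On `MM i × C i` the same with the factors exchanged. On the closed set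
`N⁰` of all pairs of the domain with, for all `i ∈ I`, `ht (x i) ≤ s ∨ 4 * ε ≤ dm m y (w i)` and
`ht (y i) ≤ s ∨ 4 * ε ≤ dm m x (w i)`, let `ρ` be the identity. These sets cover the domain (if
`s < ht (x i)` and `dm m y (w i) < 4 * ε` then `ht (y i') ≤ s` for all `i' ∈ I` by the definition of
the domain, so `y ∈ MM i`), and the definitions agree on the intersections (they are the identity there,
or the sets are disjoint or equal). Use `exists_glue`.
-/

namespace Pool.Agent.H71.ZW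

open Set Topology TopologicalSpace

/-- The pairs of points which are not both in open cones. -/
def DD (T : Set W) (I : Set ℕ) (s : ℝ) : Set (W × W) :=
  {p | p.1 ∈ T ∧ p.2 ∈ T ∧ ∀ i ∈ I, ∀ i' ∈ I, ht (p.1 i) ≤ s ∨ ht (p.2 i') ≤ s}

/-- The product of a cone and the part outside the cones of the ball. -/
private def FGC_CM (m : ℕ) (T : Set W) (I : Set ℕ) (w : ℕ → W) (s ε : ℝ) (i : ℕ) : Set (W × W) :=
  {p | p.1 ∈ T ∧ s ≤ ht (p.1 i) ∧ p.2 ∈ MM m T I w s ε i}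

/-- The map on `FGC_CM`. -/
private noncomputable def FGC_f (s : ℝ) (L : W × E → W) (ϖ : W × E → W × E) (i : ℕ) (p : W × W) :
    W × W :=
  (L (p.1, up s (ϖ (p.2, dn s (p.1 i))).2), (ϖ (p.2, dn s (p.1 i))).1)

private theorem FGC_isClosed_MM {m n : ℕ} {T : Set W} {I : Set ℕ} {w : ℕ → W} {s ε : ℝ}
    (h : IsStage n T I w) (hf : I.Finite) (i : ℕ) : IsClosed (MM m T I w s ε i) :=
  (isPoly_MM h hf i).isCompact.isClosed

private theorem FGC_cht (i : ℕ) : Continuous fun x : W => ht (x i) :=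
  continuous_ht.comp (continuous_apply i)

private theorem FGC_isClosed_CM {m n : ℕ} {T : Set W} {I : Set ℕ} {w : ℕ → W} {s ε : ℝ}
    (h : IsStage n T I w) (hf : I.Finite) (i : ℕ) : IsClosed (FGC_CM m T I w s ε i) := by
  have h1 : IsClosed {p : W × W | p.1 ∈ T} := h.isCompact.isClosed.preimage continuous_fst
  have h2 : IsClosed {p : W × W | s ≤ ht (p.1 i)} :=
    isClosed_le continuous_const ((FGC_cht i).comp continuous_fst)
  have h3 : IsClosed {p : W × W | p.2 ∈ MM m T I w s ε i} :=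
    (FGC_isClosed_MM h hf i).preimage continuous_snd
  exact h1.inter (h2.inter h3)

private theorem FGC_main {m n : ℕ} {T : Set W} {I : Set ℕ} {w : ℕ → W} {s ε : ℝ}
    (h : IsStage n T I w) (hg : IsGood m T I w ∅ s (2 * ε))
    {i : ℕ} (hi : i ∈ I) {L : W × E → W} (hL : IsTrans T i s L) {ϖ : W × E → W × E}
    (hϖc : ContinuousOn ϖ (MM m T I w s ε i ×ˢ cK))
    (hϖm : ∀ x ∈ MM m T I w s ε i, ∀ κ ∈ cK, (ϖ (x, κ)).1 ∈ MM m T I w s ε i ∧
      (ϖ (x, κ)).2 ∈ cK ∧ ((ϖ (x, κ)).2 ∈ K ∨ (ϖ (x, κ)).1 ∈ MM₀ m T I w s ε i))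
    (hϖi : ∀ x ∈ MM m T I w s ε i, ∀ κ ∈ cK, (κ ∈ K ∨ x ∈ MM₀ m T I w s ε i) →
      ϖ (x, κ) = (x, κ)) :
    ContinuousOn (FGC_f s L ϖ i) (FGC_CM m T I w s ε i) ∧
    (∀ p ∈ FGC_CM m T I w s ε i, (ht (p.1 i) ≤ s ∨ 4 * ε ≤ dm m p.2 (w i)) →
      FGC_f s L ϖ i p = p) ∧
    ∀ p ∈ FGC_CM m T I w s ε i, (FGC_f s L ϖ i p).1 ∈ T ∧ (FGC_f s L ϖ i p).2 ∈ T ∧
      dm m (FGC_f s L ϖ i p).1 p.1 ≤ 4 * ε ∧ dm m (FGC_f s L ϖ i p).2 p.2 ≤ 20 * ε ∧
      ((∀ i' ∈ I, ht ((FGC_f s L ϖ i p).1 i') ≤ s ∧ ht ((FGC_f s L ϖ i p).2 i') ≤ s) ∨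
        (s ≤ ht ((FGC_f s L ϖ i p).1 i) ∧ 4 * ε ≤ dm m (FGC_f s L ϖ i p).2 (w i) ∧
          ∀ i' ∈ I, ht ((FGC_f s L ϖ i p).2 i') ≤ s)) := by
  have hs1 : s < 1 := hg.lt
  have hs0 : 0 ≤ s := by linarith [hg.half]
  have hdn : ∀ p ∈ FGC_CM m T I w s ε i, dn s (p.1 i) ∈ cK := fun p hp =>
    dn_mem hs0 hs1 (h.cone i hi _ hp.1) hp.2.1
  have hup : ∀ κ ∈ cK, up s κ ∈ cK ∧ s ≤ ht (up s κ) := fun κ hκ =>
    ⟨up_mem hs0 hs1.le hκ, by
      rw [ht_up]
      have h1 := mul_nonneg (by linarith : 0 ≤ 1 - s) (ht_nonneg hκ)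
      linarith⟩
  have cdn : Continuous (dn s) := by
    unfold dn
    fun_prop
  have cup : Continuous (up s) := by
    unfold up
    fun_prop
  refine ⟨?_, ?_, ?_⟩
  · have c1 : Continuous fun p : W × W => (p.2, dn s (p.1 i)) :=
      continuous_snd.prodMk (cdn.comp ((continuous_apply i).comp continuous_fst))
    have c2 : ContinuousOn (fun p : W × W => ϖ (p.2, dn s (p.1 i))) (FGC_CM m T I w s ε i) :=
      hϖc.comp c1.continuousOn fun p hp => ⟨hp.2.2, hdn p hp⟩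
    have c3 : ContinuousOn (fun p : W × W => (p.1, up s (ϖ (p.2, dn s (p.1 i))).2))
        (FGC_CM m T I w s ε i) :=
      continuous_fst.continuousOn.prodMk (cup.comp_continuousOn (continuous_snd.comp_continuousOn c2))
    have c4 : ContinuousOn (fun p : W × W => L (p.1, up s (ϖ (p.2, dn s (p.1 i))).2))
        (FGC_CM m T I w s ε i) :=
      hL.1.comp c3 fun p hp => by
        have hκ := (hϖm p.2 hp.2.2 _ (hdn p hp)).2.1
        exact ⟨hp.1, hp.2.1, (hup _ hκ).1, (hup _ hκ).2⟩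
    exact c4.prodMk (continuous_fst.comp_continuousOn c2)
  · rintro p hp hor
    have h1 : ϖ (p.2, dn s (p.1 i)) = (p.2, dn s (p.1 i)) := by
      refine hϖi p.2 hp.2.2 _ (hdn p hp) ?_
      rcases hor with h2 | h2
      · refine Or.inl ⟨hdn p hp, ?_⟩
        rw [ht_dn hs1, le_antisymm h2 hp.2.1, sub_self, zero_div]
      · exact Or.inr ⟨hp.2.2, h2⟩
    unfold FGC_f
    rw [h1]
    simp only
    rw [up_dn hs1, (hL.2 p.1 hp.1 hp.2.1).2]
  · rintro p hp
    obtain ⟨b1, b2, b3⟩ := hϖm p.2 hp.2.2 _ (hdn p hp)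
    obtain ⟨b4, b5⟩ := hup _ b2
    obtain ⟨b6, b7⟩ := (hL.2 p.1 hp.1 hp.2.1).1 _ b4 b5
    have e1 : (FGC_f s L ϖ i p).1 = L (p.1, up s (ϖ (p.2, dn s (p.1 i))).2) := rfl
    have e2 : (FGC_f s L ϖ i p).2 = (ϖ (p.2, dn s (p.1 i))).1 := rfl
    rw [e1, e2]
    have d1 : dm m (L (p.1, up s (ϖ (p.2, dn s (p.1 i))).2)) (w i) ≤ 2 * ε :=
      hg.small i hi _ b6 (by rw [b7]; exact b5)
    have d2 : dm m p.1 (w i) ≤ 2 * ε := hg.small i hi _ hp.1 hp.2.1
    refine ⟨b6, b1.1, ?_, ?_, ?_⟩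
    · refine (dm_triangle m _ (w i) _).trans ?_
      rw [dm_comm m (w i)]
      linarith
    · refine (dm_triangle m _ (w i) _).trans ?_
      rw [dm_comm m (w i)]
      linarith [b1.2.1, hp.2.2.2.1]
    · rcases b3 with b3 | b3
      · left
        intro i' hi'
        refine ⟨?_, b1.2.2 i' hi'⟩
        by_cases hii : i = i'
        · subst hii
          rw [b7, ht_up, b3.2]
          simp
        · exact (hg.disj i hi i' hi' hii _ b6 (by rw [b7]; exact b5)).le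
      · right
        exact ⟨by rw [b7]; exact b5, b3.2, b1.2.2⟩

theorem exists_rho₂ {m n : ℕ} {T : Set W} {I : Set ℕ} {w : ℕ → W} {s ε : ℝ}
    (h : IsStage n T I w) (hf : I.Finite) (h0 : (0 : ℕ) ∈ I) (hm : 1 ≤ m)
    (hg : IsGood m T I w ∅ s (2 * ε)) (hε : 0 < ε) (hε' : ε ≤ 1 / 100) :
    ∃ ρ : W × W → W × W, ContinuousOn ρ (DD T I s) ∧ ∀ x y, (x, y) ∈ DD T I s →
      (ρ (x, y)).1 ∈ T ∧ (ρ (x, y)).2 ∈ T ∧
      dm m (ρ (x, y)).1 x ≤ 20 * ε ∧ dm m (ρ (x, y)).2 y ≤ 20 * ε ∧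
      ((∀ i ∈ I, ht ((ρ (x, y)).1 i) ≤ s ∧ ht ((ρ (x, y)).2 i) ≤ s) ∨
        (∃ i ∈ I, s ≤ ht ((ρ (x, y)).1 i) ∧ 4 * ε ≤ dm m (ρ (x, y)).2 (w i) ∧
          ∀ i' ∈ I, ht ((ρ (x, y)).2 i') ≤ s) ∨
        ∃ i ∈ I, s ≤ ht ((ρ (x, y)).2 i) ∧ 4 * ε ≤ dm m (ρ (x, y)).1 (w i) ∧
          ∀ i' ∈ I, ht ((ρ (x, y)).1 i') ≤ s) := by
  classical
  have : Finite I := hf.to_subtype
  have hret : ∀ i : I, ∃ ϖ : W × E → W × E, ContinuousOn ϖ (MM m T I w s ε i ×ˢ cK) ∧
      (∀ x ∈ MM m T I w s ε i, ∀ κ ∈ cK, (ϖ (x, κ)).1 ∈ MM m T I w s ε i ∧ (ϖ (x, κ)).2 ∈ cK ∧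
        ((ϖ (x, κ)).2 ∈ K ∨ (ϖ (x, κ)).1 ∈ MM₀ m T I w s ε i)) ∧
      ∀ x ∈ MM m T I w s ε i, ∀ κ ∈ cK, (κ ∈ K ∨ x ∈ MM₀ m T I w s ε i) →
        ϖ (x, κ) = (x, κ) := fun i =>
    exists_retr (isPoly_MM h hf i) (isPoly_MM₀ h hf i) (fun _ hx => hx.1)
      (fun A B hA hB hd hU hA' => conn_MM h hf h0 hm hg hε hε' i.2 A B hA hB hd hU hA')
  choose ϖ hϖc hϖm hϖi using hret
  have htr : ∀ i : I, ∃ L : W × E → W, IsTrans T i s L := fun i => hg.trans i i.2
  choose L hL using htr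
  have hmain := fun i : I => FGC_main h hg i.2 (hL i) (hϖc i) (hϖm i) (hϖi i)
  let f : I → W × W → W × W := fun i => FGC_f s (L i) (ϖ i) i
  have hfc : ∀ i : I, ContinuousOn (f i) (FGC_CM m T I w s ε i) := fun i => (hmain i).1
  have hfi : ∀ i : I, ∀ p ∈ FGC_CM m T I w s ε i,
      (ht (p.1 i) ≤ s ∨ 4 * ε ≤ dm m p.2 (w i)) → f i p = p := fun i => (hmain i).2.1
  have hfv := fun i : I => (hmain i).2.2
  let C : Option (I ⊕ I) → Set (W × W) := fun o => match o with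
    | none => {p | p ∈ DD T I s ∧ ∀ i ∈ I, (ht (p.1 i) ≤ s ∨ 4 * ε ≤ dm m p.2 (w i)) ∧
        (ht (p.2 i) ≤ s ∨ 4 * ε ≤ dm m p.1 (w i))}
    | some (Sum.inl i) => FGC_CM m T I w s ε i
    | some (Sum.inr i) => Prod.swap ⁻¹' FGC_CM m T I w s ε i
  let F : Option (I ⊕ I) → W × W → W × W := fun o => match o with
    | none => id
    | some (Sum.inl i) => f i
    | some (Sum.inr i) => fun p => (f i p.swap).swap
  have hcl_DD : IsClosed (DD T I s) := by
    have h1 : IsClosed {p : W × W | p.1 ∈ T} := h.isCompact.isClosed.preimage continuous_fst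
    have h2 : IsClosed {p : W × W | p.2 ∈ T} := h.isCompact.isClosed.preimage continuous_snd
    have h3 : IsClosed {p : W × W | ∀ i ∈ I, ∀ i' ∈ I, ht (p.1 i) ≤ s ∨ ht (p.2 i') ≤ s} := by
      simp only [Set.ofPred_forall]
      refine isClosed_iInter fun i => isClosed_iInter fun _ => isClosed_iInter fun i' =>
        isClosed_iInter fun _ => ?_
      exact (isClosed_le ((FGC_cht i).comp continuous_fst) continuous_const).union
        (isClosed_le ((FGC_cht i').comp continuous_snd) continuous_const)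
    exact h1.inter (h2.inter h3)
  have hC : ∀ o, IsClosed (C o) := by
    rintro (_ | i | i)
    · have h3 : IsClosed {p : W × W | ∀ i ∈ I, (ht (p.1 i) ≤ s ∨ 4 * ε ≤ dm m p.2 (w i)) ∧
          (ht (p.2 i) ≤ s ∨ 4 * ε ≤ dm m p.1 (w i))} := by
        simp only [Set.ofPred_forall]
        refine isClosed_iInter fun i => isClosed_iInter fun _ => ?_
        have e1 : IsClosed {p : W × W | ht (p.1 i) ≤ s} :=
          isClosed_le ((FGC_cht i).comp continuous_fst) continuous_const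
        have e2 : IsClosed {p : W × W | 4 * ε ≤ dm m p.2 (w i)} :=
          (isClosed_le_dm m (w i) (4 * ε)).preimage continuous_snd
        have e3 : IsClosed {p : W × W | ht (p.2 i) ≤ s} :=
          isClosed_le ((FGC_cht i).comp continuous_snd) continuous_const
        have e4 : IsClosed {p : W × W | 4 * ε ≤ dm m p.1 (w i)} :=
          (isClosed_le_dm m (w i) (4 * ε)).preimage continuous_fst
        exact (e1.union e2).inter (e3.union e4)
      exact hcl_DD.inter h3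
    · exact FGC_isClosed_CM h hf i
    · exact (FGC_isClosed_CM h hf i).preimage continuous_swap
  have hF : ∀ o, ContinuousOn (F o) (C o) := by
    rintro (_ | i | i)
    · exact continuousOn_id
    · exact hfc i
    · exact continuous_swap.comp_continuousOn
        ((hfc i).comp continuous_swap.continuousOn fun p hp => hp)
  -- the identity on the intersections
  have hin : ∀ i : I, ∀ p ∈ C (some (Sum.inl i)), p ∈ C none → F (some (Sum.inl i)) p = p := by
    intro i p hp hp'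
    exact hfi i p hp (hp'.2 i i.2).1
  have hir : ∀ i : I, ∀ p ∈ C (some (Sum.inr i)), p ∈ C none → F (some (Sum.inr i)) p = p := by
    intro i p hp hp'
    have e1 : f i p.swap = p.swap := hfi i p.swap hp (hp'.2 i i.2).2
    change (f i p.swap).swap = p
    rw [e1, Prod.swap_swap]
  have hlr : ∀ i j : I, ∀ p ∈ C (some (Sum.inl i)), p ∈ C (some (Sum.inr j)) →
      F (some (Sum.inl i)) p = p ∧ F (some (Sum.inr j)) p = p := by
    intro i j p hp hp'
    have hp1 : p.1 ∈ T ∧ s ≤ ht (p.1 i) ∧ p.2 ∈ MM m T I w s ε i := hp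
    have hp2 : p.2 ∈ T ∧ s ≤ ht (p.2 j) ∧ p.1 ∈ MM m T I w s ε j := hp'
    refine ⟨hfi i p hp (Or.inl (hp2.2.2.2.2 i i.2)), ?_⟩
    have e1 : f j p.swap = p.swap := hfi j p.swap hp' (Or.inl (hp1.2.2.2.2 j j.2))
    change (f j p.swap).swap = p
    rw [e1, Prod.swap_swap]
  have hll : ∀ i j : I, ∀ p ∈ FGC_CM m T I w s ε i, p ∈ FGC_CM m T I w s ε j → i = j := by
    intro i j p hp hp'
    by_contra hne
    have hne' : (i : ℕ) ≠ j := fun e => hne (Subtype.ext e)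
    have := hg.disj i i.2 j j.2 hne' p.1 hp.1 hp.2.1
    linarith [hp'.2.1]
  have hagree : ∀ o o' p, p ∈ C o → p ∈ C o' → F o p = F o' p := by
    rintro (_ | i | i) (_ | j | j) p hp hp'
    · rfl
    · exact (hin j p hp' hp).symm
    · exact (hir j p hp' hp).symm
    · exact hin i p hp hp'
    · rw [hll i j p hp hp']
    · rw [(hlr i j p hp hp').1, (hlr i j p hp hp').2]
    · exact hir i p hp hp'
    · rw [(hlr j i p hp' hp).1, (hlr j i p hp' hp).2]
    · rw [hll i j p.swap hp hp']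
  obtain ⟨ρ, hρc, hρe⟩ := exists_glue hC hF hagree
  have hcov : DD T I s ⊆ ⋃ o, C o := by
    intro p hp
    rw [mem_iUnion]
    by_cases hN : p ∈ C none
    · exact ⟨none, hN⟩
    · have h1 : ¬ ∀ i ∈ I, (ht (p.1 i) ≤ s ∨ 4 * ε ≤ dm m p.2 (w i)) ∧
          (ht (p.2 i) ≤ s ∨ 4 * ε ≤ dm m p.1 (w i)) := fun h2 => hN ⟨hp, h2⟩
      push Not at h1
      obtain ⟨i, hi, h2⟩ := h1
      by_cases h3 : ht (p.1 i) ≤ s ∨ 4 * ε ≤ dm m p.2 (w i)
      · obtain ⟨h4, h5⟩ := h2 h3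
        refine ⟨some (Sum.inr ⟨i, hi⟩), hp.2.1, h4.le, hp.1, by
          change dm m p.1 (w i) ≤ 10 * ε
          linarith, fun i' hi' => ?_⟩
        rcases hp.2.2 i' hi' i hi with h6 | h6
        · exact h6
        · exact absurd h6 (not_le.2 h4)
      · push Not at h3
        obtain ⟨h4, h5⟩ := h3
        refine ⟨some (Sum.inl ⟨i, hi⟩), hp.1, h4.le, hp.2.1, by
          change dm m p.2 (w i) ≤ 10 * ε
          linarith, fun i' hi' => ?_⟩
        rcases hp.2.2 i hi i' hi' with h6 | h6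
        · exact absurd h6 (not_le.2 h4)
        · exact h6
  refine ⟨ρ, hρc.mono hcov, fun x y hxy => ?_⟩
  obtain ⟨o, ho⟩ := mem_iUnion.1 (hcov hxy)
  have he := hρe o ho
  rcases o with _ | i | i
  · have he' : ρ (x, y) = (x, y) := he
    rw [he']
    refine ⟨hxy.1, hxy.2.1, ?_, ?_, ?_⟩
    · rw [dm_self]; linarith
    · rw [dm_self]; linarith
    · by_cases h1 : ∀ i ∈ I, ht (x i) ≤ s ∧ ht (y i) ≤ s
      · exact Or.inl h1
      · right
        push Not at h1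
        obtain ⟨i, hi, h2⟩ := h1
        by_cases h3 : ht (x i) ≤ s
        · right
          have h4 := h2 h3
          refine ⟨i, hi, h4.le, ?_, fun i' hi' => ?_⟩
          · rcases (ho.2 i hi).2 with h5 | h5
            · exact absurd h5 (not_le.2 h4)
            · exact h5
          · rcases hxy.2.2 i' hi' i hi with h5 | h5
            · exact h5
            · exact absurd h5 (not_le.2 h4)
        · left
          rw [not_le] at h3
          refine ⟨i, hi, h3.le, ?_, fun i' hi' => ?_⟩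
          · rcases (ho.2 i hi).1 with h5 | h5
            · exact absurd h5 (not_le.2 h3)
            · exact h5
          · rcases hxy.2.2 i hi i' hi' with h5 | h5
            · exact absurd h5 (not_le.2 h3)
            · exact h5
  · obtain ⟨c1, c2, c3, c4, c5⟩ := hfv i (x, y) ho
    have he' : ρ (x, y) = FGC_f s (L i) (ϖ i) i (x, y) := he
    rw [he']
    refine ⟨c1, c2, by linarith, c4, ?_⟩
    rcases c5 with c5 | ⟨c5, c6, c7⟩
    · exact Or.inl c5
    · exact Or.inr (Or.inl ⟨i, i.2, c5, c6, c7⟩)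
  · obtain ⟨c1, c2, c3, c4, c5⟩ := hfv i (y, x) ho
    have he' : ρ (x, y) = (FGC_f s (L i) (ϖ i) i (y, x)).swap := he
    rw [he']
    refine ⟨c2, c1, c4, by
      change dm m (FGC_f s (L i) (ϖ i) i (y, x)).1 y ≤ 20 * ε
      linarith, ?_⟩
    rcases c5 with c5 | ⟨c5, c6, c7⟩
    · exact Or.inl fun i' hi' => ⟨(c5 i' hi').2, (c5 i' hi').1⟩
    · exact Or.inr (Or.inr ⟨i, i.2, c5, c6, c7⟩)

end Pool.Agent.H71.ZW
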