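import Pool.Agent.H71.ZW.StageA

set_option autoImplicit false

/-!
# The thickening

Remember `x n = 0` for `x ∈ P`. Transport at `i`: near `w i` only the condition with index `i`
matters; `L' (z, κ) = upd (L (tr n z, κ)) n (t' • apex)` with `t' = min (ht (z n)) (c * (1 - ht κ))`
(`ht (t • apex) = t`). Choose `s` so close to `1` that `IsTrans P i s L` and `ht (x i') < s` if
`x ∈ P`, `s ≤ ht (x i)`, `i' ∈ I`, `i' ≠ i` (`IsStage.exists_height`). Spheres: for `t₀` close to `1`
the set `{z | ht (z i) = t₀}` is `{x ∈ P | ht (x i) = t₀} × [0, c * (1 - t₀)]`. Contractibility: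
`Contr.dominated` with the homotopy of `isExt_thk`.
-/

namespace Pool.Agent.H71.ZW

open Set Topology TopologicalSpace

variable {n : ℕ} {P : Set W} {I : Set ℕ} {w : ℕ → W} {c : ℝ}

theorem thk_ht (t : ℝ) : ht (t • apex) = t := by
  rw [ht_smul, ht_apex, mul_one]

theorem thk_upd_zero (h : IsStage n P I w) {x : W} (hx : x ∈ P) : upd x n 0 = x := by
  have := upd_self n x
  rwa [h.zero x hx n le_rfl] at this

theorem thk_tr (h : IsStage n P I w) {x : W} (hx : x ∈ P) (κ : E) : tr n (upd x n κ) = x := by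
  rw [tr_upd, tr_eq (h.zero x hx)]

theorem thk_ht_le (h : IsStage n P I w) {x : W} (hx : x ∈ P) {i : ℕ} (hi : i ∈ I) :
    ht (x i) ≤ 1 :=
  ht_le_one (h.cone i hi x hx)

theorem thk_sub (h : IsStage n P I w) (hc : 0 < c) {x : W} (hx : x ∈ P) : x ∈ thk n c P I := by
  refine ⟨x, hx, 0, le_rfl, fun i hi => ?_, ?_⟩
  · exact mul_nonneg hc.le (by linarith [thk_ht_le h hx hi])
  · rw [zero_smul, thk_upd_zero h hx]

theorem thk_cont : Continuous fun p : W × ℝ => upd p.1 n (p.2 • apex) :=
  (continuous_upd n).comp (continuous_fst.prodMk (continuous_snd.smul continuous_const))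

theorem isPoly_thk (h : IsStage n P I w) (hf : I.Finite) (hI : I.Nonempty) (hc : 0 < c) :
    IsPoly (thk n c P I) := by
  obtain ⟨i₀, hi₀⟩ := hI
  let A : (W × ℝ) →L[ℝ] W := (updL n).comp
    ((ContinuousLinearMap.fst ℝ W ℝ).prod
      ((ContinuousLinearMap.snd ℝ W ℝ).smulRight apex))
  have hA : ∀ p : W × ℝ, A p = upd p.1 n (p.2 • apex) := fun p => rfl
  let D : Set (W × ℝ) := {p | ∀ i ∈ I, p.2 ≤ c * (1 - ht (p.1 i))}
  have hDc : IsClosed D := by
    have : D = ⋂ i ∈ I, {p : W × ℝ | p.2 ≤ c * (1 - ht (p.1 i))} := by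
      ext p; simp [D]
    rw [this]
    refine isClosed_biInter fun i _ => isClosed_le continuous_snd ?_
    exact continuous_const.mul (continuous_const.sub
      (continuous_ht.comp ((continuous_apply i).comp continuous_fst)))
  have hDv : Convex ℝ D := by
    intro p hp q hq a b ha hb hab i hi
    have h1 := hp i hi
    have h2 := hq i hi
    have e1 : (a • p + b • q).2 = a * p.2 + b * q.2 := by simp
    have e2 : ht ((a • p + b • q).1 i) = a * ht (p.1 i) + b * ht (q.1 i) := by
      rw [Prod.fst_add, Prod.smul_fst, Prod.smul_fst, Pi.add_apply, Pi.smul_apply, Pi.smul_apply,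
        ht_add, ht_smul, ht_smul]
    rw [e1, e2]
    have h3 := mul_le_mul_of_nonneg_left h1 ha
    have h4 := mul_le_mul_of_nonneg_left h2 hb
    have : b = 1 - a := by linarith
    subst this
    nlinarith
  have hQ : IsPoly ((P ×ˢ Icc (0 : ℝ) c) ∩ D) :=
    (h.poly.prod (isPoly_of_convex isCompact_Icc (convex_Icc 0 c))).inter_convex hDc hDv
  have key := hQ.image A 0
  convert key using 1
  ext z
  constructor
  · rintro ⟨x, hx, t, ht0, hti, rfl⟩
    refine ⟨(x, t), ⟨⟨hx, ht0, ?_⟩, hti⟩, by simp only [hA, add_zero]⟩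
    have h1 := hti i₀ hi₀
    have h2 := ht_nonneg (h.cone i₀ hi₀ x hx)
    nlinarith
  · rintro ⟨⟨x, t⟩, ⟨⟨hx, ht0, -⟩, hti⟩, rfl⟩
    exact ⟨x, hx, t, ht0, hti, by simp only [hA, add_zero]⟩

theorem isExt_thk (h : IsStage n P I w) (hf : I.Finite) (hI : I.Nonempty) (hc : 0 < c) :
    IsExt n P (n + 1) (thk n c P I) id fun p => upd p.1 n ((1 - p.2) • p.1 n) where
  le := Nat.le_succ n
  map := by
    rintro z ⟨x, hx, t, -, -, rfl⟩
    rwa [thk_tr h hx]
  fib := by
    intro x hx
    have h1 : IsConnected {t : ℝ | 0 ≤ t ∧ ∀ i ∈ I, t ≤ c * (1 - ht (x i))} := by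
      refine ⟨⟨0, le_rfl, fun i hi => ?_⟩, ?_⟩
      · exact mul_nonneg hc.le (by linarith [thk_ht_le h hx hi])
      · apply Convex.isPreconnected
        rintro a ⟨ha0, ha⟩ b ⟨hb0, hb⟩ p q hp hq hpq
        refine ⟨?_, fun i hi => ?_⟩
        · simp only [smul_eq_mul]; positivity
        · have h3 := mul_le_mul_of_nonneg_left (ha i hi) hp
          have h4 := mul_le_mul_of_nonneg_left (hb i hi) hq
          have h5 : q = 1 - p := by linarith
          subst h5
          simp only [smul_eq_mul]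
          nlinarith
    have h2 := h1.image (fun t : ℝ => upd x n (t • apex))
      ((thk_cont.comp (continuous_const.prodMk continuous_id)).continuousOn)
    convert h2 using 1
    ext z
    constructor
    · rintro ⟨⟨x', hx', t, ht0, hti, rfl⟩, hz⟩
      rw [thk_tr h hx'] at hz
      subst hz
      exact ⟨t, ⟨ht0, hti⟩, rfl⟩
    · rintro ⟨t, ⟨ht0, hti⟩, rfl⟩
      exact ⟨⟨x, hx, t, ht0, hti, rfl⟩, thk_tr h hx _⟩
  contS := continuousOn_id
  mapS := fun x hx => thk_sub h hc hx
  contH := by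
    apply Continuous.continuousOn
    exact (continuous_upd n).comp (continuous_fst.prodMk
      ((continuous_const.sub continuous_snd).smul ((continuous_apply n).comp continuous_fst)))
  mapH := by
    rintro ⟨z, u⟩ ⟨⟨x, hx, t, ht0, hti, rfl⟩, hu0, hu1⟩
    refine ⟨x, hx, (1 - u) * t, mul_nonneg (by linarith) ht0, fun i hi => ?_, ?_⟩
    · have := hti i hi
      simp only at hu0 hu1
      nlinarith
    · simp only [upd_same, upd_upd, smul_smul]
  H0 := by
    intro z _
    simp only [sub_zero, one_smul, upd_self]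
  H1 := by
    rintro z ⟨x, hx, t, ht0, hti, rfl⟩
    simp only [sub_self, zero_smul, upd_upd, id, thk_tr h hx, thk_upd_zero h hx]

theorem isStage_thk (h : IsStage n P I w) (hf : I.Finite) (hI : I.Nonempty) (hc : 0 < c) :
    IsStage (n + 1) (thk n c P I) I w := by
  have hE := isExt_thk h hf hI hc
  have hne : ∀ i ∈ I, i ≠ n := fun i hi => (h.lt i hi).ne
  obtain ⟨s, -, hs2, hs1, hs⟩ := h.exists_height hf 0 (δ := 1) (s₀ := 0) one_pos one_pos
  refine ⟨isPoly_thk h hf hI hc, ?_, fun i hi => (h.lt i hi).trans (Nat.lt_succ_self n),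
    fun i hi => thk_sub h hc (h.mem i hi), ?_, ?_, h.inj, ?_, ?_, ?_,
    fun κ hκ hk => thk_sub h hc (h.diag κ hκ hk)⟩
  · rintro z ⟨x, hx, t, ht0, hti, rfl⟩ k hk
    rw [upd_ne (by omega)]
    exact h.zero x hx k (by omega)
  · rintro i hi z ⟨x, hx, t, ht0, hti, rfl⟩
    rw [upd_ne (hne i hi)]
    exact h.cone i hi x hx
  · rintro i hi z ⟨x, hx, t, ht0, hti, rfl⟩
    have hw : w i i = apex := (h.vtx i hi (w i) (h.mem i hi)).2 rfl
    constructor
    · intro hz
      rw [upd_ne (hne i hi)] at hz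
      have h1 : x = w i := (h.vtx i hi x hx).1 hz
      have h2 : t = 0 := by
        have := hti i hi
        rw [hz, ht_apex] at this
        linarith
      rw [h2, zero_smul, thk_upd_zero h hx, h1]
    · intro hz
      rw [hz]
      exact hw
  · exact h.contr.dominated (tr n) id (continuous_tr n).continuousOn continuousOn_id
      (fun z hz => hE.map z hz) hE.mapS _ hE.contH hE.mapH hE.H0 hE.H1
  · intro i hi
    obtain ⟨-, -, ⟨L, hLc, hL⟩, hd, -⟩ := hs s le_rfl hs1 i hi
    refine ⟨s, hs1, fun p => upd (L (tr n p.1, p.2)) n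
      (min (ht (p.1 n)) (c * (1 - ht p.2)) • apex), ?_, ?_⟩
    · have h1 : ContinuousOn (fun p : W × E => L (tr n p.1, p.2))
          {p | p.1 ∈ thk n c P I ∧ s ≤ ht (p.1 i) ∧ p.2 ∈ cK ∧ s ≤ ht p.2} := by
        refine hLc.comp (((continuous_tr n).comp continuous_fst).prodMk
          continuous_snd).continuousOn ?_
        rintro ⟨z, κ⟩ ⟨hz, hzi, hκ, hκs⟩
        refine ⟨hE.map z hz, ?_, hκ, hκs⟩
        simp only
        rw [tr_lt (h.lt i hi)]
        exact hzi
      have h2 : Continuous (fun p : W × E => min (ht (p.1 n)) (c * (1 - ht p.2)) • apex) := by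
        have k1 : Continuous (fun p : W × E => ht (p.1 n)) :=
          continuous_ht.comp ((continuous_apply n).comp continuous_fst)
        have k2 : Continuous (fun p : W × E => c * (1 - ht p.2)) :=
          continuous_const.mul (continuous_const.sub (continuous_ht.comp continuous_snd))
        exact (k1.min k2).smul continuous_const
      have h3 := (continuous_upd n).comp_continuousOn (h1.prodMk h2.continuousOn)
      exact h3
    · rintro z ⟨x, hx, t, ht0, hti, rfl⟩ hzi
      rw [upd_ne (hne i hi)] at hzi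
      obtain ⟨hL1, hL2⟩ := hL x hx hzi
      have hti' := hti i hi
      refine ⟨fun κ hκ hκs => ?_, ?_⟩
      · obtain ⟨hp, hpi⟩ := hL1 κ hκ hκs
        simp only [thk_tr h hx, upd_same, thk_ht]
        refine ⟨⟨L (x, κ), hp, _, le_min ht0 (mul_nonneg hc.le (by linarith [ht_le_one hκ])),
          fun i' hi' => ?_, rfl⟩, ?_⟩
        · by_cases hii : i = i'
          · subst hii
            rw [hpi]
            exact min_le_right _ _
          · have h3 := hd i' hi' hii (L (x, κ)) hp (by rw [hpi]; exact hκs)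
            refine (min_le_left _ _).trans (hti'.trans ?_)
            exact mul_le_mul_of_nonneg_left (by linarith) hc.le
        · rw [upd_ne (hne i hi), hpi]
      · simp only [thk_tr h hx, upd_same, thk_ht, upd_ne (hne i hi)]
        rw [hL2, min_eq_left hti']
  · intro i hi
    refine ⟨s, hs1, fun t₀ ht₀ ht₁ => ?_⟩
    obtain ⟨-, hconn, -, hd, -⟩ := hs t₀ ht₀ ht₁ i hi
    have h0 : (0 : ℝ) ≤ c * (1 - t₀) := mul_nonneg hc.le (by linarith)
    have h1 : IsConnected ({x | x ∈ P ∧ ht (x i) = t₀} ×ˢ Icc (0 : ℝ) (c * (1 - t₀))) :=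
      hconn.prod (isConnected_Icc h0)
    have h2 := h1.image (fun p : W × ℝ => upd p.1 n (p.2 • apex)) thk_cont.continuousOn
    convert h2 using 1
    ext z
    constructor
    · rintro ⟨⟨x, hx, t, ht0, hti, rfl⟩, hz⟩
      rw [upd_ne (hne i hi)] at hz
      refine ⟨(x, t), ⟨⟨hx, hz⟩, ht0, ?_⟩, rfl⟩
      have := hti i hi
      rwa [hz] at this
    · rintro ⟨⟨x, t⟩, ⟨⟨hx, hxi⟩, ht0, htc⟩, rfl⟩
      simp only at hx hxi ht0 htc
      refine ⟨⟨x, hx, t, ht0, fun i' hi' => ?_, rfl⟩, ?_⟩
      · by_cases hii : i = i'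
        · subst hii
          rw [hxi]
          exact htc
        · have h3 := hd i' hi' hii x hx hxi.ge
          exact htc.trans (mul_le_mul_of_nonneg_left (by linarith) hc.le)
      · simp only
        rw [upd_ne (hne i hi), hxi]

end Pool.Agent.H71.ZW
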