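import Pool.Agent.H71.ZW.FGA
import Pool.Agent.H71.ZW.FGC
import Pool.Agent.H71.ZW.Thk

set_option autoImplicit false

/-!
# The two maps

Let `T = thk n c P I` (a stage with `n + 1` coordinates), `ρ = ρ₂ ∘ ρ₁` with the maps of `exists_rho₁`
(for `2 * ε`), `exists_rho₂`. Let `F (x, y) = upd (ρ (x, y)).1 n 0` and
`G (x, y) = upd y' n (t • apex)` with `y' = (ρ (x, y)).2` and
`t = inf' over i ∈ I of c * (1 - ht (y' i))`. The distance `dm m` (`m ≤ n`) and the coordinates in `I` do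
not see the coordinate `n`. Take `η = min (c * (1 - s)) (2 * ε)`. If all heights are `≤ s` then `σ`
fixes the first `n + 1` coordinates of `F (x, y)` and `G (x, y)` and their coordinates `n` have distance
`≥ c * (1 - s)`. In the second case `σ (F (x, y))` is in distance `≤ 2 * ε` from `w i`, and `σ` fixes
`G (x, y)` (`IsCtl`), which has distance `≥ 4 * ε` from `w i`. The third case is similar.
-/

namespace Pool.Agent.H71.ZW

open Set Topology TopologicalSpace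

private theorem fg_dm_upd {m n : ℕ} (hmn : m ≤ n) (z y : W) (κ : E) :
    dm m (upd z n κ) y = dm m z y :=
  dm_congr (fun i hi => upd_ne (by omega) z κ) (fun _ _ => rfl)

private theorem fg_mem {n : ℕ} {P : Set W} {I : Set ℕ} {c : ℝ} (hI : ∀ i ∈ I, i < n) {z : W}
    (hz : z ∈ thk n c P I) {t : ℝ} (ht0 : 0 ≤ t) (ht1 : ∀ i ∈ I, t ≤ c * (1 - ht (z i))) :
    upd z n (t • apex) ∈ thk n c P I := by
  obtain ⟨x, hx, t', _, _, rfl⟩ := hz
  refine ⟨x, hx, t, ht0, fun i hi => ?_, upd_upd _ _ _ _⟩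
  have h1 := ht1 i hi
  rwa [upd_ne (hI i hi).ne] at h1

private theorem fg_norm {t : ℝ} : t ≤ ‖t • apex‖ := by
  have h1 : ‖(t • apex) 11‖ ≤ ‖t • apex‖ := norm_le_pi_norm (t • apex) 11
  have h2 : (t • apex) 11 = t := by
    have := ht_smul t apex
    rw [ht_apex, mul_one] at this
    exact this
  rw [h2] at h1
  exact (le_abs_self t).trans h1

theorem exists_FG {m n : ℕ} {P : Set W} {I : Set ℕ} {w : ℕ → W} {c s ε : ℝ}
    (h : IsStage n P I w) (hf : I.Finite) (h0 : (0 : ℕ) ∈ I) (hm : 1 ≤ m) (hmn : m ≤ n)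
    (hc : 0 < c) (hg : IsGood m (thk n c P I) I w ∅ s (2 * ε)) (hε : 0 < ε)
    (hε' : ε ≤ 1 / 100) :
    ∃ F G : W × W → W, ContinuousOn F (thk n c P I ×ˢ thk n c P I) ∧
      ContinuousOn G (thk n c P I ×ˢ thk n c P I) ∧
      (∀ x ∈ thk n c P I, ∀ y ∈ thk n c P I, F (x, y) ∈ thk n c P I ∧ G (x, y) ∈ thk n c P I ∧
        dm m (F (x, y)) x ≤ 30 * ε ∧ dm m (G (x, y)) y ≤ 30 * ε) ∧
      ∃ η > 0, ∀ σ : W → W, IsCtl m (n + 1) (thk n c P I) I w s (2 * ε) σ →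
        ∀ x ∈ thk n c P I, ∀ y ∈ thk n c P I, η ≤ dm (n + 1) (σ (F (x, y))) (σ (G (x, y))) := by
  have hT : IsStage (n + 1) (thk n c P I) I w := isStage_thk h hf ⟨0, h0⟩ hc
  obtain ⟨ρ₁, hρ₁, hρ₁'⟩ := exists_rho₁ hT hf hg (by positivity)
  obtain ⟨ρ₂, hρ₂, hρ₂'⟩ := exists_rho₂ hT hf h0 hm hg hε hε'
  have hD : ∀ x ∈ thk n c P I, ∀ y ∈ thk n c P I, ρ₁ (x, y) ∈ DD (thk n c P I) I s :=
    fun x hx y hy => ⟨(hρ₁' x hx y hy).1, (hρ₁' x hx y hy).2.1, (hρ₁' x hx y hy).2.2.1⟩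
  have hρ : ContinuousOn (fun p => ρ₂ (ρ₁ p)) (thk n c P I ×ˢ thk n c P I) :=
    hρ₂.comp hρ₁ fun p hp => hD p.1 hp.1 p.2 hp.2
  set ρ : W × W → W × W := fun p => ρ₂ (ρ₁ p) with hρdef
  have hρ' : ∀ x ∈ thk n c P I, ∀ y ∈ thk n c P I,
      (ρ (x, y)).1 ∈ thk n c P I ∧ (ρ (x, y)).2 ∈ thk n c P I ∧
      dm m (ρ (x, y)).1 x ≤ 30 * ε ∧ dm m (ρ (x, y)).2 y ≤ 30 * ε ∧
      ((∀ i ∈ I, ht ((ρ (x, y)).1 i) ≤ s ∧ ht ((ρ (x, y)).2 i) ≤ s) ∨
        (∃ i ∈ I, s ≤ ht ((ρ (x, y)).1 i) ∧ 4 * ε ≤ dm m (ρ (x, y)).2 (w i) ∧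
          ∀ i' ∈ I, ht ((ρ (x, y)).2 i') ≤ s) ∨
        ∃ i ∈ I, s ≤ ht ((ρ (x, y)).2 i) ∧ 4 * ε ≤ dm m (ρ (x, y)).1 (w i) ∧
          ∀ i' ∈ I, ht ((ρ (x, y)).1 i') ≤ s) := by
    intro x hx y hy
    obtain ⟨_, _, _, a1, a2⟩ := hρ₁' x hx y hy
    obtain ⟨b1, b2, b3, b4, b5⟩ := hρ₂' (ρ₁ (x, y)).1 (ρ₁ (x, y)).2 (hD x hx y hy)
    refine ⟨b1, b2, ?_, ?_, b5⟩
    · have := dm_triangle m (ρ₂ (ρ₁ (x, y))).1 (ρ₁ (x, y)).1 x
      have b3' : dm m (ρ₂ (ρ₁ (x, y))).1 (ρ₁ (x, y)).1 ≤ 20 * ε := b3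
      show dm m (ρ₂ (ρ₁ (x, y))).1 x ≤ 30 * ε
      linarith
    · have := dm_triangle m (ρ₂ (ρ₁ (x, y))).2 (ρ₁ (x, y)).2 y
      have b4' : dm m (ρ₂ (ρ₁ (x, y))).2 (ρ₁ (x, y)).2 ≤ 20 * ε := b4
      show dm m (ρ₂ (ρ₁ (x, y))).2 y ≤ 30 * ε
      linarith
  have hne : hf.toFinset.Nonempty := ⟨0, hf.mem_toFinset.2 h0⟩
  let τ : W → ℝ := fun z => hf.toFinset.inf' hne fun i => c * (1 - ht (z i))
  have hτc : Continuous τ := by
    refine Continuous.finset_inf'_apply hne fun i _ => ?_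
    exact continuous_const.mul (continuous_const.sub (continuous_ht.comp (continuous_apply i)))
  have hτle : ∀ z, ∀ i ∈ I, τ z ≤ c * (1 - ht (z i)) := fun z i hi =>
    Finset.inf'_le _ (hf.mem_toFinset.2 hi)
  have hτ0 : ∀ z ∈ thk n c P I, 0 ≤ τ z := fun z hz =>
    Finset.le_inf' _ _ fun i hi => mul_nonneg hc.le
      (sub_nonneg.2 (ht_le_one (hT.cone i (hf.mem_toFinset.1 hi) z hz)))
  have hτs : ∀ z, (∀ i ∈ I, ht (z i) ≤ s) → c * (1 - s) ≤ τ z := fun z hz =>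
    Finset.le_inf' _ _ fun i hi => mul_le_mul_of_nonneg_left
      (sub_le_sub_left (hz i (hf.mem_toFinset.1 hi)) 1) hc.le
  have hF : ∀ z ∈ thk n c P I, upd z n 0 ∈ thk n c P I := by
    intro z hz
    have h1 := fg_mem (t := 0) h.lt hz le_rfl fun i hi => mul_nonneg hc.le
      (sub_nonneg.2 (ht_le_one (hT.cone i hi z hz)))
    rwa [zero_smul] at h1
  have hG : ∀ z ∈ thk n c P I, upd z n (τ z • apex) ∈ thk n c P I := fun z hz =>
    fg_mem h.lt hz (hτ0 z hz) (hτle z)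
  refine ⟨fun p => upd (ρ p).1 n 0, fun p => upd (ρ p).2 n (τ (ρ p).2 • apex), ?_, ?_, ?_,
    min (c * (1 - s)) (2 * ε), ?_, ?_⟩
  · exact ((continuous_upd n).comp (continuous_fst.prodMk continuous_const)).comp_continuousOn hρ
  · exact ((continuous_upd n).comp (continuous_snd.prodMk
      ((hτc.comp continuous_snd).smul continuous_const))).comp_continuousOn hρ
  · intro x hx y hy
    obtain ⟨a1, a2, a3, a4, _⟩ := hρ' x hx y hy
    refine ⟨hF _ a1, hG _ a2, ?_, ?_⟩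
    · show dm m (upd (ρ (x, y)).1 n 0) x ≤ 30 * ε
      rwa [fg_dm_upd hmn]
    · show dm m (upd (ρ (x, y)).2 n _) y ≤ 30 * ε
      rwa [fg_dm_upd hmn]
  · exact lt_min (mul_pos hc (sub_pos.2 hg.lt)) (by linarith)
  · intro σ hσ x hx y hy
    obtain ⟨a1, a2, _, _, a5⟩ := hρ' x hx y hy
    set u : W := (ρ (x, y)).1 with hu
    set v : W := (ρ (x, y)).2 with hv
    show min (c * (1 - s)) (2 * ε) ≤ dm (n + 1) (σ (upd u n 0)) (σ (upd v n (τ v • apex)))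
    have hu' := hF u a1
    have hv' := hG v a2
    have key : ∀ z z' : W, (∀ i ∈ I, ht (z i) ≤ s) → ∀ κ, upd z n κ ∈ thk n c P I →
        tr (n + 1) (σ (upd z n κ)) = upd z n κ := by
      intro z _ hz κ hκ
      refine hσ.1 _ hκ fun i hi => ?_
      rw [upd_ne (h.lt i hi).ne]
      exact hz i hi
    have key2 : ∀ z : W, ∀ i ∈ I, s ≤ ht (z i) → ∀ κ, upd z n κ ∈ thk n c P I →
        dm m (σ (upd z n κ)) (w i) ≤ 2 * ε := by
      intro z i hi hz κ hκ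
      refine hσ.2 _ hκ i hi ?_
      rwa [upd_ne (h.lt i hi).ne]
    have key3 : ∀ z : W, (∀ i ∈ I, ht (z i) ≤ s) → ∀ κ, upd z n κ ∈ thk n c P I → ∀ i,
        dm m (σ (upd z n κ)) (w i) = dm m z (w i) := by
      intro z hz κ hκ i
      rw [← fg_dm_upd hmn z (w i) κ]
      refine dm_congr (fun j hj => ?_) (fun _ _ => rfl)
      rw [← tr_lt (n := n + 1) (by omega) (σ (upd z n κ)), key z z hz κ hκ]
    rcases a5 with a5 | ⟨i, hi, b1, b2, b3⟩ | ⟨i, hi, b1, b2, b3⟩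
    · have e1 := key u u (fun i hi => (a5 i hi).1) 0 hu'
      have e2 := key v v (fun i hi => (a5 i hi).2) _ hv'
      have e3 := norm_sub_le_dm (m := n + 1) (i := n) (by omega) (σ (upd u n 0))
        (σ (upd v n (τ v • apex)))
      rw [← tr_lt (n := n + 1) (i := n) (by omega) (σ (upd u n 0)),
        ← tr_lt (n := n + 1) (i := n) (by omega) (σ (upd v n (τ v • apex))), e1, e2, upd_same,
        upd_same, zero_sub, norm_neg] at e3
      exact (min_le_left _ _).trans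
        ((hτs v fun i hi => (a5 i hi).2).trans (fg_norm.trans e3))
    · have e1 := key2 u i hi b1 0 hu'
      have e2 := key3 v b3 _ hv' i
      have e3 := dm_triangle m (σ (upd v n (τ v • apex))) (σ (upd u n 0)) (w i)
      have e4 := dm_mono (m := m) (m' := n + 1) (by omega) (σ (upd u n 0))
        (σ (upd v n (τ v • apex)))
      rw [dm_comm m (σ (upd v n (τ v • apex))) (σ (upd u n 0)), e2] at e3
      exact (min_le_right _ _).trans (by linarith)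
    · have e1 := key2 v i hi b1 _ hv'
      have e2 := key3 u b3 0 hu' i
      have e3 := dm_triangle m (σ (upd u n 0)) (σ (upd v n (τ v • apex))) (w i)
      have e4 := dm_mono (m := m) (m' := n + 1) (by omega) (σ (upd u n 0))
        (σ (upd v n (τ v • apex)))
      rw [e2] at e3
      exact (min_le_right _ _).trans (by linarith)

end Pool.Agent.H71.ZW
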