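import Pool.Agent.H71.ZW.StageA
import Pool.Agent.H71.ZW.Retr
import Pool.Agent.H71.ZW.Glue

set_option autoImplicit false

/-!
# Pushing pairs of points off the products of the cones

Let `C i = {x ∈ T | s ≤ ht (x i)}`. On `C i × C i'` put `(κ, κ') = ϖ (dn s (x i), dn s (y i'))` with the
map `ϖ` of `exists_retr_cK` and `ρ (x, y) = (L i (x, up s κ), L i' (y, up s κ'))` with the transports
`L i`, `L i'`. On the closed set of the pairs with `∀ i i' ∈ I, ht (x i) ≤ s ∨ ht (y i') ≤ s` let `ρ`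
be the identity. These finitely many definitions agree on the intersections (the cones are
disjoint); use `exists_glue`.
-/

namespace Pool.Agent.H71.ZW

open Set Topology TopologicalSpace

theorem exists_rho₁ {m n : ℕ} {T : Set W} {I : Set ℕ} {w : ℕ → W} {s ε : ℝ}
    (h : IsStage n T I w) (hf : I.Finite) (hg : IsGood m T I w ∅ s ε) (hε : 0 ≤ ε) :
    ∃ ρ : W × W → W × W, ContinuousOn ρ (T ×ˢ T) ∧ ∀ x ∈ T, ∀ y ∈ T,
      (ρ (x, y)).1 ∈ T ∧ (ρ (x, y)).2 ∈ T ∧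
      (∀ i ∈ I, ∀ i' ∈ I, ht ((ρ (x, y)).1 i) ≤ s ∨ ht ((ρ (x, y)).2 i') ≤ s) ∧
      dm m (ρ (x, y)).1 x ≤ 2 * ε ∧ dm m (ρ (x, y)).2 y ≤ 2 * ε := by
  classical
  have hs1 : s < 1 := hg.lt
  have hs0 : 0 ≤ s := by linarith [hg.half]
  have hTc : IsClosed T := h.isCompact.isClosed
  -- the transports
  have hL : ∀ i : I, ∃ L : W × E → W, IsTrans T i s L := fun i => hg.trans i i.2
  choose L hL using hL
  obtain ⟨ϖ, hϖc, hϖm, hϖi⟩ := exists_retr_cK
  have hIf : Finite I := hf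
  -- heights
  have hcont_ht : ∀ i : ℕ, Continuous fun x : W => ht (x i) := fun i =>
    continuous_ht.comp (continuous_apply i)
  have huniq : ∀ i ∈ I, ∀ j ∈ I, ∀ x ∈ T, s ≤ ht (x i) → s ≤ ht (x j) → i = j := by
    intro i hi j hj x hx h1 h2
    by_contra hne
    exact absurd h2 (not_le.2 (hg.disj i hi j hj hne x hx h1))
  -- the sets
  let C : Option (I × I) → Set (W × W) := fun o =>
    match o with
    | none => {p | (p.1 ∈ T ∧ p.2 ∈ T) ∧ ∀ q : I × I, ht (p.1 q.1) ≤ s ∨ ht (p.2 q.2) ≤ s}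
    | some q => {p | (p.1 ∈ T ∧ s ≤ ht (p.1 q.1)) ∧ (p.2 ∈ T ∧ s ≤ ht (p.2 q.2))}
  let f : Option (I × I) → W × W → W × W := fun o =>
    match o with
    | none => id
    | some q => fun p =>
        (L q.1 (p.1, up s (ϖ (dn s (p.1 q.1), dn s (p.2 q.2))).1),
          L q.2 (p.2, up s (ϖ (dn s (p.1 q.1), dn s (p.2 q.2))).2))
  have hTT : IsClosed {p : W × W | p.1 ∈ T ∧ p.2 ∈ T} :=
    (hTc.preimage continuous_fst).inter (hTc.preimage continuous_snd)
  have hC : ∀ o, IsClosed (C o) := by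
    rintro (_ | q)
    · refine hTT.inter ?_
      have e : {p : W × W | ∀ q : I × I, ht (p.1 q.1) ≤ s ∨ ht (p.2 q.2) ≤ s} =
          ⋂ q : I × I, ({p | ht (p.1 q.1) ≤ s} ∪ {p | ht (p.2 q.2) ≤ s}) := by
        ext p
        simp
      change IsClosed {p : W × W | ∀ q : I × I, ht (p.1 q.1) ≤ s ∨ ht (p.2 q.2) ≤ s}
      rw [e]
      exact isClosed_iInter fun q =>
        (isClosed_le ((hcont_ht q.1).comp continuous_fst) continuous_const).union
          (isClosed_le ((hcont_ht q.2).comp continuous_snd) continuous_const)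
    · refine IsClosed.inter ?_ ?_
      · exact (hTc.preimage continuous_fst).inter
          (isClosed_le continuous_const ((hcont_ht q.1).comp continuous_fst))
      · exact (hTc.preimage continuous_snd).inter
          (isClosed_le continuous_const ((hcont_ht q.2).comp continuous_snd))
  -- the values of `dn`
  have hdnm : ∀ i ∈ I, ∀ x ∈ T, s ≤ ht (x i) → dn s (x i) ∈ cK := fun i hi x hx hh =>
    dn_mem hs0 hs1 (h.cone i hi x hx) hh
  have hupm : ∀ κ ∈ cK, up s κ ∈ cK ∧ s ≤ ht (up s κ) := fun κ hκ => by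
    refine ⟨up_mem hs0 hs1.le hκ, ?_⟩
    rw [ht_up]
    nlinarith [ht_nonneg hκ]
  have hf' : ∀ o, ContinuousOn (f o) (C o) := by
    rintro (_ | q)
    · exact continuousOn_id
    · have hd : Continuous fun κ : E => dn s κ := by
        have h1 := continuousOn_dn.comp (f := fun κ : E => (s, κ)) (s := univ)
          (by fun_prop) (fun κ _ => hs1)
        exact continuousOn_univ.1 h1
      have hu : Continuous fun κ : E => up s κ :=
        continuous_up.comp (continuous_const.prodMk continuous_id)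
      have h1 : ContinuousOn (fun p : W × W => (dn s (p.1 q.1), dn s (p.2 q.2)))
          (C (some q)) := by
        refine Continuous.continuousOn ?_
        exact (hd.comp ((continuous_apply (q.1 : ℕ)).comp continuous_fst)).prodMk
          (hd.comp ((continuous_apply (q.2 : ℕ)).comp continuous_snd))
      have h2 : MapsTo (fun p : W × W => (dn s (p.1 q.1), dn s (p.2 q.2))) (C (some q))
          (cK ×ˢ cK) := fun p hp =>
        ⟨hdnm _ q.1.2 _ hp.1.1 hp.1.2, hdnm _ q.2.2 _ hp.2.1 hp.2.2⟩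
      have h3 : ContinuousOn (fun p : W × W => ϖ (dn s (p.1 q.1), dn s (p.2 q.2)))
          (C (some q)) := hϖc.comp h1 h2
      have h4 : ∀ p ∈ C (some q), (ϖ (dn s (p.1 q.1), dn s (p.2 q.2))).1 ∈ cK ∧
          (ϖ (dn s (p.1 q.1), dn s (p.2 q.2))).2 ∈ cK := fun p hp =>
        ⟨(hϖm _ (h2 hp).1 _ (h2 hp).2).1, (hϖm _ (h2 hp).1 _ (h2 hp).2).2.1⟩
      refine ContinuousOn.prodMk ?_ ?_
      · refine (hL q.1).1.comp (f := fun p : W × W =>
          (p.1, up s (ϖ (dn s (p.1 q.1), dn s (p.2 q.2))).1)) ?_ ?_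
        · exact continuous_fst.continuousOn.prodMk
            (hu.comp_continuousOn (continuous_fst.comp_continuousOn h3))
        · intro p hp
          exact ⟨hp.1.1, hp.1.2, hupm _ (h4 p hp).1⟩
      · refine (hL q.2).1.comp (f := fun p : W × W =>
          (p.2, up s (ϖ (dn s (p.1 q.1), dn s (p.2 q.2))).2)) ?_ ?_
        · exact continuous_snd.continuousOn.prodMk
            (hu.comp_continuousOn (continuous_snd.comp_continuousOn h3))
        · intro p hp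
          exact ⟨hp.2.1, hp.2.2, hupm _ (h4 p hp).2⟩
  -- the values on the intersections
  have hK : ∀ i ∈ I, ∀ x ∈ T, s ≤ ht (x i) → ht (x i) ≤ s → dn s (x i) ∈ K := by
    intro i hi x hx h1 h2
    refine ⟨hdnm i hi x hx h1, ?_⟩
    rw [ht_dn hs1, le_antisymm h2 h1, sub_self, zero_div]
  have hid : ∀ q : I × I, ∀ p ∈ C (some q), (ht (p.1 q.1) ≤ s ∨ ht (p.2 q.2) ≤ s) →
      f (some q) p = p := by
    intro q p hp hle
    have h1 : ϖ (dn s (p.1 q.1), dn s (p.2 q.2)) = (dn s (p.1 q.1), dn s (p.2 q.2)) := by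
      refine hϖi _ (hdnm _ q.1.2 _ hp.1.1 hp.1.2) _ (hdnm _ q.2.2 _ hp.2.1 hp.2.2) ?_
      rcases hle with hle | hle
      · exact Or.inl (hK _ q.1.2 _ hp.1.1 hp.1.2 hle)
      · exact Or.inr (hK _ q.2.2 _ hp.2.1 hp.2.2 hle)
    change (L q.1 (p.1, up s (ϖ (dn s (p.1 q.1), dn s (p.2 q.2))).1),
          L q.2 (p.2, up s (ϖ (dn s (p.1 q.1), dn s (p.2 q.2))).2)) = p
    rw [h1]
    simp only [up_dn hs1]
    rw [((hL q.1).2 p.1 hp.1.1 hp.1.2).2, ((hL q.2).2 p.2 hp.2.1 hp.2.2).2]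
  have hag : ∀ i j x, x ∈ C i → x ∈ C j → f i x = f j x := by
    rintro (_ | q) (_ | q') p hp hp'
    · rfl
    · exact (hid q' p hp' (hp.2 q')).symm
    · exact hid q p hp (hp'.2 q)
    · have e1 : q.1 = q'.1 := Subtype.ext (huniq _ q.1.2 _ q'.1.2 _ hp.1.1 hp.1.2 hp'.1.2)
      have e2 : q.2 = q'.2 := Subtype.ext (huniq _ q.2.2 _ q'.2.2 _ hp.2.1 hp.2.2 hp'.2.2)
      rw [Prod.ext e1 e2]
  obtain ⟨ρ, hρc, hρ⟩ := exists_glue hC hf' hag
  have hcov : T ×ˢ T ⊆ ⋃ o, C o := by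
    intro p hp
    by_cases hq : ∀ q : I × I, ht (p.1 q.1) ≤ s ∨ ht (p.2 q.2) ≤ s
    · exact mem_iUnion.2 ⟨none, hp, hq⟩
    · push Not at hq
      obtain ⟨q, h1, h2⟩ := hq
      exact mem_iUnion.2 ⟨some q, ⟨hp.1, h1.le⟩, ⟨hp.2, h2.le⟩⟩
  refine ⟨ρ, hρc.mono hcov, fun x hx y hy => ?_⟩
  obtain ⟨o, ho⟩ := mem_iUnion.1 (hcov (show (x, y) ∈ T ×ˢ T from ⟨hx, hy⟩))
  rw [hρ o ho]
  rcases o with _ | q
  · refine ⟨hx, hy, fun i hi i' hi' => ho.2 (⟨i, hi⟩, ⟨i', hi'⟩), ?_, ?_⟩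
    · change dm m x x ≤ 2 * ε
      rw [dm_self]
      linarith
    · change dm m y y ≤ 2 * ε
      rw [dm_self]
      linarith
  · have hx1 : s ≤ ht (x q.1) := ho.1.2
    have hy1 : s ≤ ht (y q.2) := ho.2.2
    obtain ⟨m1, m2, m3⟩ := hϖm _ (hdnm _ q.1.2 _ hx hx1) _ (hdnm _ q.2.2 _ hy hy1)
    change (L q.1 (x, up s (ϖ (dn s (x q.1), dn s (y q.2))).1)) ∈ T ∧
      (L q.2 (y, up s (ϖ (dn s (x q.1), dn s (y q.2))).2)) ∈ T ∧
      (∀ i ∈ I, ∀ i' ∈ I, ht ((L q.1 (x, up s (ϖ (dn s (x q.1), dn s (y q.2))).1)) i) ≤ s ∨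
        ht ((L q.2 (y, up s (ϖ (dn s (x q.1), dn s (y q.2))).2)) i') ≤ s) ∧
      dm m (L q.1 (x, up s (ϖ (dn s (x q.1), dn s (y q.2))).1)) x ≤ 2 * ε ∧
      dm m (L q.2 (y, up s (ϖ (dn s (x q.1), dn s (y q.2))).2)) y ≤ 2 * ε
    generalize hκ : (ϖ (dn s (x q.1), dn s (y q.2))).1 = κ at m1 m2 m3 ⊢
    generalize hκ' : (ϖ (dn s (x q.1), dn s (y q.2))).2 = κ' at m1 m2 m3 ⊢
    obtain ⟨a1, a2⟩ := ((hL q.1).2 x hx hx1).1 (up s κ) (hupm κ m1).1 (hupm κ m1).2
    obtain ⟨b1, b2⟩ := ((hL q.2).2 y hy hy1).1 (up s κ') (hupm κ' m2).1 (hupm κ' m2).2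
    have a3 : s ≤ ht (L q.1 (x, up s κ) q.1) := by rw [a2]; exact (hupm κ m1).2
    have b3 : s ≤ ht (L q.2 (y, up s κ') q.2) := by rw [b2]; exact (hupm κ' m2).2
    refine ⟨a1, b1, ?_, ?_, ?_⟩
    · intro i hi i' hi'
      rcases m3 with m3 | m3
      · left
        by_cases e : (q.1 : ℕ) = i
        · rw [← e, a2, ht_up, m3.2]
          linarith
        · exact (hg.disj _ q.1.2 i hi e _ a1 a3).le
      · right
        by_cases e : (q.2 : ℕ) = i'
        · rw [← e, b2, ht_up, m3.2]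
          linarith
        · exact (hg.disj _ q.2.2 i' hi' e _ b1 b3).le
    · have c1 := hg.small _ q.1.2 _ a1 a3
      have c2 := hg.small _ q.1.2 _ hx hx1
      have c3 := dm_triangle m (L q.1 (x, up s κ)) (w q.1) x
      rw [dm_comm m (w q.1) x] at c3
      linarith
    · have c1 := hg.small _ q.2.2 _ b1 b3
      have c2 := hg.small _ q.2.2 _ hy hy1
      have c3 := dm_triangle m (L q.2 (y, up s κ')) (w q.2) y
      rw [dm_comm m (w q.2) y] at c3
      linarith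

end Pool.Agent.H71.ZW
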