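import Pool.Agent.H71.ZW.StageA

set_option autoImplicit false

/-!
# The part of a ball outside the cones

Proof of `conn_MM`. Let `C i' = {x ∈ T | s ≤ ht (x i')}`, `Σ i' = {x ∈ T | ht (x i') = s}`. Let `A`, `B`
be disjoint and closed, `A ∪ B = MM`, `MM₀ ⊆ A`. Let `b = {i' ∈ I | Σ i' ∩ B ≠ ∅}`. On `B`,
`dm m x (w i) < 4 * ε`, and the cones have size `dm m x (w i') ≤ 2 * ε`, so for `i' ∈ b` the cone
`C i'` is in `{dm m x (w i) < 9 * ε}`, so `Σ i' ⊆ MM` (`disj`), so `Σ i' ⊆ B` (`sph`). Then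
`B' = B ∪ ⋃ i' ∈ b, C i'` and
`A' = A ∪ {x ∈ T | 10 * ε ≤ dm m x (w i), ∀ i' ∈ I, ht (x i') ≤ s} ∪ ⋃ i' ∈ I \ b, C i'` are closed and
disjoint with union `T`. `T` is connected (`IsStage.isConnected`), and `A'` is nonempty, because `T`
contains points `x`, `x'` with `1 ≤ dm m x x'` (`exists_far`, `IsStage.diag`, `0 ∈ I`, `1 ≤ m`), not both
in `{dm m x (w i) < 9 * ε}`. So `B' = ∅`.
-/

namespace Pool.Agent.H71.ZW

open Set Topology TopologicalSpace

/-- The part outside the cones of the ball with radius `10 * ε`. -/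
def MM (m : ℕ) (T : Set W) (I : Set ℕ) (w : ℕ → W) (s ε : ℝ) (i : ℕ) : Set W :=
  {x | x ∈ T ∧ dm m x (w i) ≤ 10 * ε ∧ ∀ i' ∈ I, ht (x i') ≤ s}

/-- The part outside the ball with radius `4 * ε`. -/
def MM₀ (m : ℕ) (T : Set W) (I : Set ℕ) (w : ℕ → W) (s ε : ℝ) (i : ℕ) : Set W :=
  {x | x ∈ MM m T I w s ε i ∧ 4 * ε ≤ dm m x (w i)}

variable {m n : ℕ} {T : Set W} {I : Set ℕ} {w : ℕ → W} {s ε : ℝ}

theorem isPoly_MM (h : IsStage n T I w) (hf : I.Finite) (i : ℕ) : IsPoly (MM m T I w s ε i) := by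
  have h1 := (h.poly.dm_le m (w i) (10 * ε)).forall_ht_le hf s
  convert h1 using 1
  ext x
  simp only [MM, mem_ofPred_eq, and_assoc]

theorem isPoly_MM₀ (h : IsStage n T I w) (hf : I.Finite) (i : ℕ) : IsPoly (MM₀ m T I w s ε i) :=
  (isPoly_MM h hf i).dm_ge m (w i) (4 * ε)

theorem conn_MM (h : IsStage n T I w) (hf : I.Finite) (h0 : (0 : ℕ) ∈ I) (hm : 1 ≤ m)
    (hg : IsGood m T I w ∅ s (2 * ε)) (hε : 0 < ε) (hε' : ε ≤ 1 / 100) {i : ℕ} (hi : i ∈ I)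
    (A B : Set W) (hA : IsClosed A) (hB : IsClosed B) (hd : Disjoint A B)
    (hU : A ∪ B = MM m T I w s ε i) (hA' : MM₀ m T I w s ε i ⊆ A) : B = ∅ := by
  classical
  have hTc : IsClosed T := h.isCompact.isClosed
  -- the points of `B`
  have hB1 : ∀ x ∈ B, x ∈ T ∧ (∀ i' ∈ I, ht (x i') ≤ s) ∧ dm m x (w i) < 4 * ε := by
    intro x hx
    have hx1 : x ∈ MM m T I w s ε i := hU ▸ Or.inr hx
    refine ⟨hx1.1, hx1.2.2, ?_⟩
    by_contra hc
    exact disjoint_left.1 hd (hA' ⟨hx1, not_lt.1 hc⟩) hx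
  have hA1 : ∀ x ∈ A, x ∈ T ∧ ∀ i' ∈ I, ht (x i') ≤ s := by
    intro x hx
    have hx1 : x ∈ MM m T I w s ε i := hU ▸ Or.inl hx
    exact ⟨hx1.1, hx1.2.2⟩
  -- the cones and the spheres
  set C : ℕ → Set W := fun i' => {x | x ∈ T ∧ s ≤ ht (x i')} with hC
  have hCc : ∀ i', IsClosed (C i') := by
    intro i'
    have e : C i' = T ∩ (fun x : W => ht (x i')) ⁻¹' Ici s := rfl
    rw [e]
    exact hTc.inter (isClosed_Ici.preimage (continuous_ht.comp (continuous_apply i')))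
  set b : Set ℕ := {i' | i' ∈ I ∧ ({x | x ∈ T ∧ ht (x i') = s} ∩ B).Nonempty} with hb
  have hbf : b.Finite := hf.subset fun _ hi' => hi'.1
  have hb1 : ∀ i' ∈ b, ∀ z ∈ C i', dm m z (w i) < 9 * ε := by
    rintro i' ⟨hi', x, ⟨hxT, hxs⟩, hxB⟩ z hz
    have h1 := hg.small i' hi' z hz.1 hz.2
    have h2 := hg.small i' hi' x hxT hxs.ge
    have h3 := (hB1 x hxB).2.2
    have h4 := dm_triangle m z (w i') (w i)
    have h5 := dm_triangle m (w i') x (w i)
    rw [dm_comm m (w i') x] at h5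
    linarith
  have hb2 : ∀ i' ∈ b, {x | x ∈ T ∧ ht (x i') = s} ⊆ B := by
    intro i' hi'
    have hsub : {x | x ∈ T ∧ ht (x i') = s} ⊆ A ∪ B := by
      rintro z ⟨hzT, hzs⟩
      rw [hU]
      refine ⟨hzT, ?_, ?_⟩
      · have := hb1 i' hi' z ⟨hzT, hzs.ge⟩
        linarith
      · intro i'' hi''
        by_cases e : i'' = i'
        · rw [e, hzs]
        · exact (hg.disj i' hi'.1 i'' hi'' (fun e' => e e'.symm) z hzT hzs.ge).le
    have hcon := (hg.sph i' hi'.1).isPreconnected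
    rcases isPreconnected_iff_subset_of_disjoint_closed.1 hcon A B hA hB hsub
      (by rw [disjoint_iff_inter_eq_empty.1 hd, inter_empty]) with h1 | h1
    · obtain ⟨x, hx1, hx2⟩ := hi'.2
      exact absurd hx2 (disjoint_left.1 hd (h1 hx1))
    · exact h1
  -- the two closed sets
  set B' : Set W := B ∪ ⋃ i' ∈ b, C i' with hB'
  set A₁ : Set W := (A ∪ {x | x ∈ T ∧ 10 * ε ≤ dm m x (w i) ∧ ∀ i' ∈ I, ht (x i') ≤ s}) ∪
    ⋃ i' ∈ I \ b, C i' with hA₁
  have hB'c : IsClosed B' := hB.union (hbf.isClosed_biUnion fun i' _ => hCc i')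
  have hmid : IsClosed {x | x ∈ T ∧ 10 * ε ≤ dm m x (w i) ∧ ∀ i' ∈ I, ht (x i') ≤ s} := by
    have e : {x | x ∈ T ∧ 10 * ε ≤ dm m x (w i) ∧ ∀ i' ∈ I, ht (x i') ≤ s} =
        T ∩ ({x | 10 * ε ≤ dm m x (w i)} ∩ ⋂ i' ∈ I, (fun x : W => ht (x i')) ⁻¹' Iic s) := by
      ext x
      simp only [mem_ofPred_eq, mem_inter_iff, mem_iInter, mem_preimage, mem_Iic]
    rw [e]
    refine hTc.inter ((isClosed_le_dm m (w i) (10 * ε)).inter ?_)
    exact isClosed_biInter fun i' _ =>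
      isClosed_Iic.preimage (continuous_ht.comp (continuous_apply i'))
  have hA₁c : IsClosed A₁ :=
    (hA.union hmid).union ((hf.subset sdiff_subset).isClosed_biUnion fun i' _ => hCc i')
  have hcov : T ⊆ A₁ ∪ B' := by
    intro x hx
    by_cases h1 : ∃ i' ∈ I, s ≤ ht (x i')
    · obtain ⟨i', hi', h2⟩ := h1
      by_cases h3 : i' ∈ b
      · exact Or.inr (Or.inr (mem_iUnion₂.2 ⟨i', h3, hx, h2⟩))
      · exact Or.inl (Or.inr (mem_iUnion₂.2 ⟨i', ⟨hi', h3⟩, hx, h2⟩))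
    · push Not at h1
      rcases le_total (dm m x (w i)) (10 * ε) with h2 | h2
      · have h3 : x ∈ A ∪ B := by
          rw [hU]
          exact ⟨hx, h2, fun i' hi' => (h1 i' hi').le⟩
        rcases h3 with h3 | h3
        · exact Or.inl (Or.inl (Or.inl h3))
        · exact Or.inr (Or.inl h3)
      · exact Or.inl (Or.inl (Or.inr ⟨hx, h2, fun i' hi' => (h1 i' hi').le⟩))
  have hB'9 : ∀ x ∈ B', x ∈ T ∧ dm m x (w i) < 9 * ε := by
    rintro x (hx | hx)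
    · have := hB1 x hx
      exact ⟨this.1, by linarith [this.2.2]⟩
    · obtain ⟨i', hi', hx'⟩ := mem_iUnion₂.1 hx
      exact ⟨hx'.1, hb1 i' hi' x hx'⟩
  have hdis : Disjoint A₁ B' := by
    rw [disjoint_left]
    rintro x ((hx | hx) | hx) (hy | hy)
    · exact disjoint_left.1 hd hx hy
    · obtain ⟨i', hi', hx'⟩ := mem_iUnion₂.1 hy
      have h1 := (hA1 x hx).2 i' hi'.1
      exact disjoint_left.1 hd hx (hb2 i' hi' ⟨hx'.1, le_antisymm h1 hx'.2⟩)
    · have := (hB1 x hy).2.2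
      linarith [hx.2.1]
    · obtain ⟨i', hi', hx'⟩ := mem_iUnion₂.1 hy
      have := hb1 i' hi' x hx'
      linarith [hx.2.1]
    · obtain ⟨i', hi', hx'⟩ := mem_iUnion₂.1 hx
      have h1 := (hB1 x hy).2.1 i' hi'.1
      exact hi'.2 ⟨hi'.1, x, ⟨hx'.1, le_antisymm h1 hx'.2⟩, hy⟩
    · obtain ⟨i', hi', hx'⟩ := mem_iUnion₂.1 hx
      obtain ⟨i'', hi'', hx''⟩ := mem_iUnion₂.1 hy
      have hne : i'' ≠ i' := by
        rintro rfl
        exact hi'.2 hi''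
      have := hg.disj i'' hi''.1 i' hi'.1 hne x hx''.1 hx''.2
      exact absurd hx'.2 (not_le.2 this)
  rcases isPreconnected_iff_subset_of_disjoint_closed.1 h.isConnected.isPreconnected A₁ B'
    hA₁c hB'c hcov (by rw [disjoint_iff_inter_eq_empty.1 hdis, inter_empty]) with h1 | h1
  · rw [eq_empty_iff_forall_notMem]
    intro x hx
    exact disjoint_left.1 hdis (h1 (hB1 x hx).1) (Or.inl hx)
  · exfalso
    obtain ⟨κ, hκ, κ', hκ', hn⟩ := exists_far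
    have hx1 : cur I κ ∈ T := h.diag κ hκ.1 (by rw [hκ.2]; norm_num)
    have hx2 : cur I κ' ∈ T := h.diag κ' hκ'.1 (by rw [hκ'.2]; norm_num)
    have h2 := (hB'9 _ (h1 hx1)).2
    have h3 := (hB'9 _ (h1 hx2)).2
    have h4 := norm_sub_le_dm (Nat.lt_of_lt_of_le Nat.zero_lt_one hm) (cur I κ) (cur I κ')
    rw [cur_apply h0, cur_apply h0, hn] at h4
    have h5 := dm_triangle m (cur I κ) (w i) (cur I κ')
    rw [dm_comm m (w i) (cur I κ')] at h5
    linarith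

end Pool.Agent.H71.ZW
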