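import Pool.Agent.H71.ZW.StageA

set_option autoImplicit false

/-!
# Existence of good heights

From `IsStage.exists_height`, and for `Z ∈ 𝒵`, `i ∈ I`, `w i ∉ Z` the compact set `Z ⊆ T` satisfies
`ht (x i) < 1` on `Z`, so `ht (x i) < s` on `Z` for `s` close to `1`.
-/

namespace Pool.Agent.H71.ZW

open Set Topology TopologicalSpace

theorem exists_good {m n : ℕ} {T : Set W} {I : Set ℕ} {w : ℕ → W} {𝒵 : Set (Set W)} {ε : ℝ}
    (h : IsStage n T I w) (hf : I.Finite) (hZ : 𝒵.Finite) (hc : ∀ Z ∈ 𝒵, IsCompact Z)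
    (hsub : ∀ Z ∈ 𝒵, Z ⊆ T) (hε : 0 < ε) : ∃ s, IsGood m T I w 𝒵 s ε := by
  have key : ∀ Z ∈ 𝒵, ∀ i ∈ I, ∃ s : ℝ, s < 1 ∧ (w i ∈ Z ∨ ∀ x ∈ Z, ht (x i) < s) := by
    intro Z hZ i hi
    by_cases hw : w i ∈ Z
    · exact ⟨0, by norm_num, Or.inl hw⟩
    · rcases Z.eq_empty_or_nonempty with rfl | hne
      · exact ⟨0, by norm_num, Or.inr (by simp)⟩
      · have hcont : Continuous fun x : W => ht (x i) := continuous_ht.comp (continuous_apply i)
        obtain ⟨x0, hx0, hmax⟩ := (hc Z hZ).exists_isMaxOn hne hcont.continuousOn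
        have h1 : ht (x0 i) < 1 :=
          h.ht_lt_one hi (hsub Z hZ hx0) (fun e => hw (e ▸ hx0))
        exact ⟨(ht (x0 i) + 1) / 2, by linarith,
          Or.inr fun x hx => lt_of_le_of_lt (hmax hx) (by simp only; linarith)⟩
  choose! f hf1 hf2 using key
  have hfin : (insert (0 : ℝ) ((fun p : Set W × ℕ => f p.1 p.2) '' (𝒵 ×ˢ I))).Finite :=
    ((hZ.prod hf).image _).insert 0
  obtain ⟨s₀, hs₀, hmax⟩ := Set.exists_max_image _ id hfin ⟨0, mem_insert _ _⟩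
  have hs1 : s₀ < 1 := by
    rcases hs₀ with rfl | ⟨p, hp, rfl⟩
    · norm_num
    · exact hf1 p.1 hp.1 p.2 hp.2
  obtain ⟨s, hs, hhalf, hlt, hall⟩ := h.exists_height hf m hε hs1
  refine ⟨s, hhalf, hlt, fun i hi => (hall s le_rfl hlt i hi).1,
    fun i hi => (hall s le_rfl hlt i hi).2.1,
    fun i hi i' hi' hne x hx hsx => (hall s le_rfl hlt i hi).2.2.2.1 i' hi' hne x hx hsx,
    fun i hi x hx hsx => (hall s le_rfl hlt i hi).2.2.2.2 x hx hsx, fun Z hZ' i hi => ?_,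
    fun i hi => (hall s le_rfl hlt i hi).2.2.1⟩
  rcases hf2 Z hZ' i hi with h1 | h1
  · exact Or.inl h1
  · refine Or.inr fun x hx => lt_of_lt_of_le (h1 x hx) (le_trans ?_ hs)
    exact hmax _ (mem_insert_of_mem _ ⟨(Z, i), ⟨hZ', hi⟩, rfl⟩)

end Pool.Agent.H71.ZW
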