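import Pool.Agent.H71.ZW.Basic
import Pool.Agent.H71.ZW.Ext
import Pool.Agent.H72.Zp.Defs

set_option autoImplicit false

/-!
# Compact absolute extensors in `W` are compact absolute retracts

* `compactAR_of_ae`: let `i : X → Y` be a closed embedding, `Y` metrizable. `X` is bounded, so it
  is contained in a compact box `Q` of `W` (closed balls in the coordinates). Extend the map
  `i '' X → X → Q` to `Y → Q` coordinatewise (Tietze), and compose with a retraction `Q → X`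
  (`AE` for the compact metrizable space `Q`).
* `exists_small`: let `Q` be a compact convex box which contains `X`, `r : Q → X` the retraction. Every
  member of the cover is open; by compactness (Lebesgue number) there are `M`, `δ` such that for
  `x ∈ X` and `y ∈ Q`, if `dm M y x ≤ δ` then `r y` is in the same member `u` of the cover, where `u`
  depends only on `x`. Use the homotopy `r ((1 - t) • f z + t • g z)`.
-/

namespace Pool.Agent.H71.ZW

open Set Topology TopologicalSpace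
open Pool.Agent.H72.Zp (CompactAR HDD00 IsZPoint OpenCover UNear UHomotopic Cube)

private lemma limD2_dm {A : Type} [TopologicalSpace A] (n : ℕ) {f g : A → W} (hf : Continuous f)
    (hg : Continuous g) : Continuous fun a => dm n (f a) (g a) := by
  have h : Continuous fun a => (f a, g a) := hf.prodMk hg
  have h2 := (continuous_dm n).comp h
  exact h2

private lemma limD2_sep {X : Set W} (hc : IsCompact X) (N : Set (X × X)) (hN : IsOpen N)
    (hd : ∀ x : X, (x, x) ∈ N) :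
    ∃ (M : ℕ) (δ : ℝ), 0 < δ ∧ ∀ x y : X, dm M (x : W) (y : W) ≤ δ → (x, y) ∈ N := by
  have : CompactSpace X := isCompact_iff_compactSpace.1 hc
  have hK : IsCompact Nᶜ := hN.isClosed_compl.isCompact
  have hdm : ∀ n : ℕ, Continuous fun p : X × X => dm n (p.1 : W) (p.2 : W) := fun n =>
    limD2_dm n (continuous_subtype_val.comp continuous_fst)
      (continuous_subtype_val.comp continuous_snd)
  have h1 : ∀ n : ℕ, IsOpen {p : X × X | 1 / ((n : ℝ) + 1) < dm n (p.1 : W) (p.2 : W)} := fun n =>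
    isOpen_lt continuous_const (hdm n)
  have h2 : Nᶜ ⊆ ⋃ n : ℕ, {p : X × X | 1 / ((n : ℝ) + 1) < dm n (p.1 : W) (p.2 : W)} := by
    rintro ⟨x, y⟩ hp
    have hne : (x : W) ≠ (y : W) := by
      intro h
      have h' : x = y := Subtype.ext h
      subst h'
      exact hp (hd x)
    obtain ⟨i, hi⟩ := Function.ne_iff.1 hne
    have hr : 0 < ‖(x : W) i - (y : W) i‖ := norm_pos_iff.2 (sub_ne_zero.2 hi)
    obtain ⟨k, hk⟩ := exists_nat_one_div_lt hr
    refine mem_iUnion.2 ⟨max k (i + 1), ?_⟩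
    show 1 / (((max k (i + 1) : ℕ) : ℝ) + 1) < dm (max k (i + 1)) (x : W) (y : W)
    have h3 : ‖(x : W) i - (y : W) i‖ ≤ dm (max k (i + 1)) (x : W) (y : W) :=
      norm_sub_le_dm (by omega) _ _
    have h4 : 1 / (((max k (i + 1) : ℕ) : ℝ) + 1) ≤ 1 / ((k : ℝ) + 1) := by
      apply one_div_le_one_div_of_le (by positivity)
      have h5 : (k : ℝ) ≤ ((max k (i + 1) : ℕ) : ℝ) := by exact_mod_cast le_max_left _ _
      linarith
    linarith
  have h3 : Directed (· ⊆ ·)
      fun n : ℕ => {p : X × X | 1 / ((n : ℝ) + 1) < dm n (p.1 : W) (p.2 : W)} := by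
    apply directed_of_isDirected_le
    intro a b hab p hp
    have hp' : 1 / ((a : ℝ) + 1) < dm a (p.1 : W) (p.2 : W) := hp
    show 1 / ((b : ℝ) + 1) < dm b (p.1 : W) (p.2 : W)
    have h4 := dm_mono hab (p.1 : W) (p.2 : W)
    have h5 : 1 / ((b : ℝ) + 1) ≤ 1 / ((a : ℝ) + 1) := by
      apply one_div_le_one_div_of_le (by positivity)
      have : (a : ℝ) ≤ b := by exact_mod_cast hab
      linarith
    linarith
  obtain ⟨n, hn⟩ := hK.elim_directed_cover _ h1 h2 h3
  refine ⟨n, 1 / ((n : ℝ) + 1), by positivity, fun x y hxy => ?_⟩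
  by_contra hc'
  have h3' := hn (show (x, y) ∈ Nᶜ from hc')
  have h4 : 1 / ((n : ℝ) + 1) < dm n (x : W) (y : W) := h3'
  linarith

private lemma limD2_hom {X : Set W} (hc : IsCompact X) (ha : AE X) :
    ∃ c : (W × W) × ℝ → W, ContinuousOn c ((X ×ˢ X) ×ˢ Icc (0 : ℝ) 1) ∧
      MapsTo c ((X ×ˢ X) ×ˢ Icc (0 : ℝ) 1) X ∧
      (∀ x ∈ X, ∀ y ∈ X, c ((x, y), 0) = x ∧ c ((x, y), 1) = y) ∧
      ∀ x ∈ X, ∀ t ∈ Icc (0 : ℝ) 1, c ((x, x), t) = x := by
  have hQ : IsCompact (X ×ˢ X) := hc.prod hc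
  have hB : IsClosed ((X ×ˢ X) ∩ {p : W × W | p.1 = p.2}) :=
    hQ.isClosed.inter (isClosed_eq continuous_fst continuous_snd)
  obtain ⟨H, h1, h2, h3, h4, h5⟩ := ha.homotopy hQ hB inter_subset_left
    (f := Prod.fst) (g := Prod.snd) continuous_fst.continuousOn continuous_snd.continuousOn
    (fun p hp => hp.1) (fun p hp => hp.2) (fun p hp => hp.2)
  exact ⟨H, h1, h2, fun x hx y hy => ⟨h3 (x, y) ⟨hx, hy⟩, h4 (x, y) ⟨hx, hy⟩⟩,
    fun x hx t ht => h5 (x, x) ⟨⟨hx, hx⟩, rfl⟩ t ht⟩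

private lemma limD2_cont {X : Set W} {c : (W × W) × ℝ → W}
    (h1 : ContinuousOn c ((X ×ˢ X) ×ˢ Icc (0 : ℝ) 1)) :
    Continuous fun q : (X × X) × unitInterval =>
      c (((q.1.1 : W), (q.1.2 : W)), (q.2 : ℝ)) := by
  apply h1.comp_continuous
  · exact ((continuous_subtype_val.comp (continuous_fst.comp continuous_fst)).prodMk
      (continuous_subtype_val.comp (continuous_snd.comp continuous_fst))).prodMk
      (continuous_subtype_val.comp continuous_snd)
  · intro q
    exact ⟨⟨q.1.1.2, q.1.2.2⟩, q.2.2⟩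

private lemma limD2_open {A : Type} [TopologicalSpace A] {S : Set (A × unitInterval)}
    (hS : IsOpen S) : IsOpen {p : A | ∀ t : unitInterval, (p, t) ∈ S} := by
  have h : {p : A | ∀ t : unitInterval, (p, t) ∈ S}ᶜ = Prod.fst '' Sᶜ := by
    ext p
    constructor
    · intro hp
      have hp' : ¬ ∀ t : unitInterval, (p, t) ∈ S := hp
      rw [not_forall] at hp'
      obtain ⟨t, ht⟩ := hp'
      exact ⟨(p, t), ht, rfl⟩
    · rintro ⟨q, hq, rfl⟩ hp
      exact hq (hp q.2)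
  rw [← isClosed_compl_iff, h]
  exact isClosedMap_fst_of_compactSpace _ hS.isClosed_compl

/-- Close maps into a compact absolute extensor are homotopic by a small homotopy. -/
theorem exists_small {X : Set W} (hc : IsCompact X) (ha : AE X) {U : Set (Set X)}
    (hU : OpenCover U) : ∃ (M : ℕ) (δ : ℝ), 0 < δ ∧ ∀ (Z : Type) [TopologicalSpace Z]
      (f g : C(Z, X)), (∀ z, dm M (f z : W) (g z : W) ≤ δ) → UHomotopic U f g := by
  obtain ⟨c, h1, h2, h3, h4⟩ := limD2_hom hc ha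
  have hcont := limD2_cont h1
  let H : (X × X) × unitInterval → X := fun q =>
    ⟨c (((q.1.1 : W), (q.1.2 : W)), (q.2 : ℝ)), h2 ⟨⟨q.1.1.2, q.1.2.2⟩, q.2.2⟩⟩
  have hH : Continuous H := hcont.subtype_mk _
  obtain ⟨M, δ, hδ, hM⟩ := limD2_sep hc
    (⋃ u ∈ U, {p : X × X | ∀ t : unitInterval, (p, t) ∈ H ⁻¹' u})
    (isOpen_biUnion fun u hu => limD2_open ((hU.1 u hu).preimage hH))
    (fun x => by
      have hx : x ∈ ⋃₀ U := by rw [hU.2]; exact mem_univ _
      obtain ⟨u, hu, hxu⟩ := hx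
      refine mem_iUnion₂.2 ⟨u, hu, fun t => ?_⟩
      have e : H ((x, x), t) = x := Subtype.ext (h4 x x.2 t t.2)
      show H ((x, x), t) ∈ u
      rw [e]
      exact hxu)
  refine ⟨M, δ, hδ, fun Z _ f g hfg => ?_⟩
  refine ⟨⟨fun p => H ((f p.1, g p.1), p.2), hH.comp
    (((f.continuous.comp continuous_fst).prodMk (g.continuous.comp continuous_fst)).prodMk
      continuous_snd)⟩, fun z => ?_, fun z => ?_, fun z => ?_⟩
  · exact Subtype.ext (h3 _ (f z).2 _ (g z).2).1
  · exact Subtype.ext (h3 _ (f z).2 _ (g z).2).2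
  · obtain ⟨u, hu, h5⟩ := mem_iUnion₂.1 (hM (f z) (g z) (hfg z))
    exact ⟨u, hu, h5⟩

/-- A version in which the homotopy starts with the given map `f` and all its values are close. -/
theorem exists_close {X : Set W} (hc : IsCompact X) (ha : AE X) (M : ℕ) {δ : ℝ} (hδ : 0 < δ) :
    ∃ (c : (W × W) × ℝ → W) (M' : ℕ) (δ' : ℝ), 0 < δ' ∧
      ContinuousOn c ((X ×ˢ X) ×ˢ Icc (0 : ℝ) 1) ∧
      MapsTo c ((X ×ˢ X) ×ˢ Icc (0 : ℝ) 1) X ∧
      (∀ x ∈ X, ∀ y ∈ X, c ((x, y), 0) = x ∧ c ((x, y), 1) = y) ∧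
      ∀ x ∈ X, ∀ y ∈ X, dm M' x y ≤ δ' → ∀ t ∈ Icc (0 : ℝ) 1, dm M (c ((x, y), t)) x ≤ δ := by
  obtain ⟨c, h1, h2, h3, h4⟩ := limD2_hom hc ha
  have hcont := limD2_cont h1
  have hd : Continuous fun q : (X × X) × unitInterval =>
      dm M (c (((q.1.1 : W), (q.1.2 : W)), (q.2 : ℝ))) (q.1.1 : W) :=
    limD2_dm M hcont (continuous_subtype_val.comp (continuous_fst.comp continuous_fst))
  obtain ⟨M', δ', hδ', hM⟩ := limD2_sep hc
    {p : X × X | ∀ t : unitInterval, (p, t) ∈ {q : (X × X) × unitInterval |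
      dm M (c (((q.1.1 : W), (q.1.2 : W)), (q.2 : ℝ))) (q.1.1 : W) < δ}}
    (limD2_open (isOpen_lt hd continuous_const))
    (fun x t => by
      show dm M (c (((x : W), (x : W)), (t : ℝ))) (x : W) < δ
      rw [h4 x x.2 t t.2, dm_self]
      exact hδ)
  refine ⟨c, M', δ', hδ', h1, h2, h3, fun x hx y hy hxy t ht => ?_⟩
  have h5 : dm M (c ((x, y), t)) x < δ := hM ⟨x, hx⟩ ⟨y, hy⟩ hxy ⟨t, ht⟩
  exact h5.le

/-- Open covers from the distance of the first coordinates. -/
theorem exists_cover {X : Set W} (M : ℕ) {δ : ℝ} (hδ : 0 < δ) : ∃ U : Set (Set X),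
    OpenCover U ∧ ∀ u ∈ U, ∀ x ∈ u, ∀ y ∈ u, dm M (x : W) (y : W) ≤ δ := by
  refine ⟨range fun a : X => {x : X | dm M (x : W) (a : W) < δ / 2}, ⟨?_, ?_⟩, ?_⟩
  · rintro u ⟨a, rfl⟩
    exact isOpen_lt (limD2_dm M continuous_subtype_val continuous_const) continuous_const
  · refine eq_univ_of_forall fun x => ⟨_, ⟨x, rfl⟩, ?_⟩
    show dm M (x : W) (x : W) < δ / 2
    rw [dm_self]
    linarith
  · rintro u ⟨a, rfl⟩ x hx y hy
    have hx' : dm M (x : W) (a : W) < δ / 2 := hx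
    have hy' : dm M (y : W) (a : W) < δ / 2 := hy
    have h := dm_triangle M (x : W) (a : W) (y : W)
    rw [dm_comm M (a : W) (y : W)] at h
    linarith

end Pool.Agent.H71.ZW
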