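import Pool.Agent.H71.ZW.LimD1
import Pool.Agent.H71.ZW.LimD2

/-!
# Compact absolute extensors in `W` are compact absolute retracts
-/
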