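import Pool.Agent.H71.ZW.LimA
import Pool.Agent.H71.ZW.LimD

set_option autoImplicit false

/-!
# The limit has the property `HDD`

Let `U`, `f`, `g : I^d → X = lim n P` be given, `M`, `δ` from `exists_small`. Choose `k ≥ 1` with `M ≤ m k`
and `20 * ε (k + 1) + 100 * ε k ≤ δ`. With the sections `S` of `IsTower.exists_sec` put
`p = tr (n k + 1) (f z)`, `q = tr (n k + 1) (g z)`, points of `tr (n k + 1) '' P (k + 1)` (as
`n k + 1 = m (k + 1) ≤ n (k + 1)`), `f' z = S (k + 1) (F k (p, q))`, `g' z = S (k + 1) (G k (p, q))`.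
Then `dm (m k) (f' z) (f z) ≤ 20 * ε (k + 1) + 100 * ε k ≤ δ` (`dm_tr`, `m k ≤ n k`), and
`dm (n k + 1) (f' z) (g' z) ≥ η k - 40 * ε (k + 1) > 0` (`IsTower.sep`, `IsTower.eta`,
`m (k + 1) = n k + 1`), so `f' z ≠ g' z`.
-/

namespace Pool.Agent.H71.ZW

open Set Topology TopologicalSpace
open Pool.Agent.H72.Zp (CompactAR HDD00 IsZPoint OpenCover UNear UHomotopic Cube)

variable {m n : ℕ → ℕ} {P : ℕ → Set W} {I : ℕ → Set ℕ} {w : ℕ → ℕ → W} {ε η : ℕ → ℝ}
  {σ : ℕ → W → W} {H : ℕ → W × ℝ → W} {F G : ℕ → W × W → W}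

theorem hdd_mem (h : IsTower m n P I w ε η σ H F G) (k : ℕ) {x : W} (hx : x ∈ lim n P) :
    tr (n k + 1) x ∈ tr (n k + 1) '' P (k + 1) := by
  refine ⟨tr (n (k + 1)) x, hx (k + 1), tr_tr ?_ x⟩
  have h1 := h.m_succ k
  have h2 := h.le_succ k
  omega

theorem IsTower.hdd (h : IsTower m n P I w ε η σ H F G) (ha : AE (lim n P)) :
    HDD00 (lim n P) := by
  intro d U hU f g
  obtain ⟨M, δ, hδ, hsm⟩ := exists_small h.isCompact_lim ha hU
  obtain ⟨S, hSc, hSm, hSd, -⟩ := h.exists_sec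
  have hev : ∀ᶠ k in Filter.atTop, ε k < δ / 200 :=
    h.tendsto.eventually (gt_mem_nhds (by positivity))
  obtain ⟨k, hk⟩ := (hev.and (Filter.eventually_ge_atTop (max M 1))).exists
  obtain ⟨hkε, hkM⟩ := hk
  have hk1 : 1 ≤ k := (le_max_right _ _).trans hkM
  have hMm : M ≤ m k := ((le_max_left _ _).trans hkM).trans (h.le_m k)
  have hεk := h.pos k
  have hεk1 := h.pos (k + 1)
  have hhalf := h.half k
  have hmn : m k ≤ n k + 1 := (h.m_le k).trans (Nat.le_succ _)
  have hmm : m k ≤ m (k + 1) := h.m_mono (Nat.le_succ k)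
  set p : Cube d → W := fun z => tr (n k + 1) (f z) with hp
  set q : Cube d → W := fun z => tr (n k + 1) (g z) with hq
  have hpc : Continuous p := (continuous_tr _).comp (continuous_subtype_val.comp f.continuous)
  have hqc : Continuous q := (continuous_tr _).comp (continuous_subtype_val.comp g.continuous)
  have hpm : ∀ z, p z ∈ tr (n k + 1) '' P (k + 1) := fun z => hdd_mem h k (f z).2
  have hqm : ∀ z, q z ∈ tr (n k + 1) '' P (k + 1) := fun z => hdd_mem h k (g z).2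
  have hFc : Continuous fun z => F k (p z, q z) :=
    (h.contF k).comp_continuous (hpc.prodMk hqc) fun z => ⟨hpm z, hqm z⟩
  have hGc : Continuous fun z => G k (p z, q z) :=
    (h.contG k).comp_continuous (hpc.prodMk hqc) fun z => ⟨hpm z, hqm z⟩
  have hFm : ∀ z, F k (p z, q z) ∈ P (k + 1) := fun z => (h.mapF k _ (hpm z) _ (hqm z)).1
  have hGm : ∀ z, G k (p z, q z) ∈ P (k + 1) := fun z => (h.mapF k _ (hpm z) _ (hqm z)).2
  have hf'c : Continuous fun z => S (k + 1) (F k (p z, q z)) := (hSc (k + 1)).comp_continuous hFc hFm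
  have hg'c : Continuous fun z => S (k + 1) (G k (p z, q z)) := (hSc (k + 1)).comp_continuous hGc hGm
  have hp0 : ∀ z, dm (m k) (p z) (f z) = 0 := fun z => dm_eq_zero fun i hi => tr_lt (by omega) _
  have hq0 : ∀ z, dm (m k) (q z) (g z) = 0 := fun z => dm_eq_zero fun i hi => tr_lt (by omega) _
  refine ⟨⟨fun z => ⟨S (k + 1) (F k (p z, q z)), hSm (k + 1) (hFm z)⟩, hf'c.subtype_mk _⟩,
    ⟨fun z => ⟨S (k + 1) (G k (p z, q z)), hSm (k + 1) (hGm z)⟩, hg'c.subtype_mk _⟩, ?_, ?_, ?_⟩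
  · apply hsm
    intro z
    have h1 := hSd (k + 1) _ (hFm z)
    have h2 := (h.ctlF k hk1 _ (hpm z) _ (hqm z)).1
    have h3 : dm (m k) (S (k + 1) (F k (p z, q z))) (f z) ≤
        dm (m (k + 1)) (S (k + 1) (F k (p z, q z))) (F k (p z, q z)) + dm (m k) (F k (p z, q z)) (p z) + dm (m k) (p z) (f z) :=
      (dm_triangle _ _ (p z) _).trans (add_le_add ((dm_triangle _ _ (F k (p z, q z)) _).trans
        (add_le_add (dm_mono hmm _ _) le_rfl)) le_rfl)
    rw [dm_comm]
    refine (dm_mono hMm _ _).trans (h3.trans ?_)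
    rw [hp0 z]
    linarith
  · apply hsm
    intro z
    have h1 := hSd (k + 1) _ (hGm z)
    have h2 := (h.ctlF k hk1 _ (hpm z) _ (hqm z)).2
    have h3 : dm (m k) (S (k + 1) (G k (p z, q z))) (g z) ≤
        dm (m (k + 1)) (S (k + 1) (G k (p z, q z))) (G k (p z, q z)) + dm (m k) (G k (p z, q z)) (q z) + dm (m k) (q z) (g z) :=
      (dm_triangle _ _ (q z) _).trans (add_le_add ((dm_triangle _ _ (G k (p z, q z)) _).trans
        (add_le_add (dm_mono hmm _ _) le_rfl)) le_rfl)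
    rw [dm_comm]
    refine (dm_mono hMm _ _).trans (h3.trans ?_)
    rw [hq0 z]
    linarith
  · intro z heq
    have heq' : S (k + 1) (F k (p z, q z)) = S (k + 1) (G k (p z, q z)) := congrArg Subtype.val heq
    have h1 := hSd (k + 1) _ (hFm z)
    have h2 := hSd (k + 1) _ (hGm z)
    have h3 := h.sep k hk1 _ (hpm z) _ (hqm z)
    have h4 := h.eta k
    rw [h.m_succ k] at h1 h2
    have h5 : dm (n k + 1) (F k (p z, q z)) (G k (p z, q z)) ≤
        dm (n k + 1) (F k (p z, q z)) (S (k + 1) (F k (p z, q z))) +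
          dm (n k + 1) (S (k + 1) (F k (p z, q z))) (G k (p z, q z)) := dm_triangle _ _ _ _
    rw [dm_comm] at h1
    have h6 : dm (n k + 1) (S (k + 1) (F k (p z, q z))) (G k (p z, q z)) ≤ 20 * ε (k + 1) := by
      rw [heq']; exact h2
    linarith

end Pool.Agent.H71.ZW
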