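import Pool.Agent.H71.ZW.StageA

set_option autoImplicit false

/-!
# The first level: the cone
-/

namespace Pool.Agent.H71.ZW

open Set Topology TopologicalSpace

/-- The points of the first stage. -/
private def init_P : Set W := {x | ∃ κ ∈ cK, x = upd 0 0 κ}

private theorem init_upd_apply (κ : E) : upd 0 0 κ 0 = κ := upd_same 0 0 κ

private theorem init_upd_succ (κ : E) {k : ℕ} (hk : 1 ≤ k) : upd 0 0 κ k = 0 := by
  rw [upd_ne (by omega)]
  rfl

private theorem init_cont : Continuous fun κ : E => upd 0 0 κ :=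
  (continuous_upd 0).comp (continuous_const.prodMk continuous_id)

private theorem init_image (A : Set E) (hA : A ⊆ cK) :
    {x | x ∈ init_P ∧ x 0 ∈ A} = (fun κ : E => upd 0 0 κ) '' A := by
  ext x
  constructor
  · rintro ⟨⟨κ, _, rfl⟩, h⟩
    rw [init_upd_apply] at h
    exact ⟨κ, h, rfl⟩
  · rintro ⟨κ, hκ, rfl⟩
    exact ⟨⟨κ, hA hκ, rfl⟩, (init_upd_apply κ).symm ▸ hκ⟩

private theorem init_P_eq : init_P = (fun κ : E => upd 0 0 κ) '' cK := by
  ext x
  constructor
  · rintro ⟨κ, h, rfl⟩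
    exact ⟨κ, h, rfl⟩
  · rintro ⟨κ, h, rfl⟩
    exact ⟨κ, h, rfl⟩

private theorem init_poly : IsPoly init_P := by
  have h := isPoly_cK.image ((updL 0).comp (ContinuousLinearMap.inr ℝ W E)) 0
  have e : (fun x : E => ((updL 0).comp (ContinuousLinearMap.inr ℝ W E)) x + 0) =
      fun κ : E => upd 0 0 κ := by
    funext κ
    rw [add_zero, ContinuousLinearMap.comp_apply, ContinuousLinearMap.inr_apply, updL_apply]
  rw [init_P_eq, ← e]
  exact h

private theorem init_cone_mem {κ : E} (h : κ ∈ cK) {t : ℝ} (ht : t ∈ Icc (0 : ℝ) 1) :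
    (1 - t) • κ + t • apex ∈ cK := up_mem ht.1 ht.2 h

private theorem init_contr : Contr init_P := by
  refine ⟨fun p => upd 0 0 (up p.2 (p.1 0)), upd 0 0 apex, ⟨apex, apex_mem, rfl⟩, ?_, ?_, ?_, ?_⟩
  · refine Continuous.continuousOn (init_cont.comp ?_)
    exact continuous_up.comp (continuous_snd.prodMk
      ((continuous_apply 0).comp continuous_fst))
  · rintro ⟨x, t⟩ ⟨⟨κ, hκ, rfl⟩, ht⟩
    simp only
    rw [init_upd_apply]
    exact ⟨_, up_mem ht.1 ht.2 hκ, rfl⟩
  · rintro x ⟨κ, hκ, rfl⟩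
    simp only
    rw [init_upd_apply]
    simp [up]
  · rintro x ⟨κ, hκ, rfl⟩
    simp only
    simp [up]

theorem level_zero {ε : ℝ} (hε : 0 < ε) : ∃ (P : Set W) (w : ℕ → W) (𝒵 : Set (Set W)),
    IsLevel 0 1 P {0} w ε 𝒵 := by
  classical
  have hcK : IsConnected cK := by
    have h := isConnected_above (s := 0) (by norm_num)
    have e : {κ | κ ∈ cK ∧ 0 ≤ ht κ} = cK := by
      ext κ
      exact ⟨fun h => h.1, fun h => ⟨h, ht_nonneg h⟩⟩
    rwa [e] at h
  have hconn : IsConnected init_P := by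
    rw [init_P_eq]
    exact hcK.image _ init_cont.continuousOn
  refine ⟨init_P, fun _ => upd 0 0 apex, {init_P}, ?_, ?_, ?_, ?_, ?_, ?_, ?_, ?_, ?_, ?_, ?_⟩
  · refine ⟨init_poly, ?_, ?_, ?_, ?_, ?_, ?_, init_contr, ?_, ?_, ?_⟩
    · rintro x ⟨κ, _, rfl⟩ k hk
      exact init_upd_succ κ hk
    · rintro i rfl
      norm_num
    · intro i _
      exact ⟨apex, apex_mem, rfl⟩
    · rintro i rfl x ⟨κ, hκ, rfl⟩
      rw [init_upd_apply]
      exact hκ
    · rintro i rfl x ⟨κ, hκ, rfl⟩
      rw [init_upd_apply]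
      constructor
      · rintro rfl
        rfl
      · intro h
        have := congrFun h 0
        rwa [init_upd_apply, init_upd_apply] at this
    · rintro i rfl j rfl _
      rfl
    · rintro i rfl
      refine ⟨0, by norm_num, fun p => upd 0 0 p.2, ?_, ?_⟩
      · exact (init_cont.comp continuous_snd).continuousOn
      · rintro x ⟨κ, hκ, rfl⟩ _
        refine ⟨fun κ' hκ' _ => ⟨⟨κ', hκ', rfl⟩, init_upd_apply κ'⟩, ?_⟩
        simp only
        rw [init_upd_apply]
    · rintro i rfl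
      refine ⟨0, by norm_num, fun t h0 h1 => ?_⟩
      have e : {x : W | x ∈ init_P ∧ ht (x 0) = t} =
          (fun κ : E => upd 0 0 κ) '' {κ | κ ∈ cK ∧ ht κ = t} := by
        rw [← init_image _ (fun κ hκ => hκ.1)]
        ext x
        constructor
        · rintro ⟨⟨κ, hκ, rfl⟩, h⟩
          refine ⟨⟨κ, hκ, rfl⟩, ?_⟩
          rw [init_upd_apply] at h ⊢
          exact ⟨hκ, h⟩
        · rintro ⟨h1, h2⟩
          exact ⟨h1, h2.2⟩
      rw [e]
      exact (isConnected_level h0 h1).image _ init_cont.continuousOn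
    · intro κ hκ _
      refine ⟨κ, hκ, ?_⟩
      funext k
      by_cases hk : k = 0
      · subst hk
        rw [init_upd_apply, cur_apply (mem_singleton 0)]
      · rw [cur_apply_not (by simpa using hk), init_upd_succ κ (by omega)]
  · exact finite_singleton 0
  · norm_num
  · exact mem_singleton 0
  · exact hε
  · exact finite_singleton _
  · rintro Z rfl
    exact init_poly
  · rintro Z rfl
    exact hconn
  · rintro Z rfl
    exact Subset.rfl
  · rintro Z rfl
    refine ⟨0, mem_singleton 0, ⟨apex, apex_mem, rfl⟩, fun x _ => ?_⟩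
    simp only [dm, Finset.range_zero, Finset.sum_empty]
    exact hε.le
  · rw [sUnion_singleton]

end Pool.Agent.H71.ZW
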