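import Pool.Agent.H71.ZW.CertF
import Pool.Agent.H71.ZW.ConeA

set_option autoImplicit false

/-!
# The suspension of `K` is an absolute extensor
-/

namespace Pool.Agent.H71.ZW

open Set Topology TopologicalSpace

/-- The northern cone. -/
def iN (κ : E) : Fin 13 → ℝ := fun i => if h : i.1 < 12 then κ ⟨i.1, h⟩ else 0

/-- The southern cone: the coordinates `11` and `12` are exchanged. -/
def iS (κ : E) : Fin 13 → ℝ := fun i => if h : i.1 < 11 then κ ⟨i.1, by omega⟩ else
  if i.1 = 12 then κ 11 else 0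

theorem continuous_iN : Continuous iN := by
  refine continuous_pi fun i => ?_
  simp only [iN]
  split_ifs with h
  · exact continuous_apply _
  · exact continuous_const

theorem continuous_iS : Continuous iS := by
  refine continuous_pi fun i => ?_
  simp only [iS]
  split_ifs with h h'
  · exact continuous_apply _
  · exact continuous_apply _
  · exact continuous_const

theorem iN_apply (κ : E) (i : Fin 12) : iN κ i.castSucc = κ i := by
  simp [iN]

theorem iN_last (κ : E) : iN κ 12 = 0 := by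
  simp [iN]

theorem iS_apply (κ : E) (i : Fin 11) : iS κ i.castSucc.castSucc = κ i.castSucc := by
  simp only [iS, Fin.val_castSucc, Fin.is_lt, dite_true]
  rfl

theorem iS_last (κ : E) : iS κ 12 = κ 11 := by
  simp [iS]

theorem iS_eleven (κ : E) : iS κ 11 = 0 := by
  simp [iS]

theorem iN_injective : Function.Injective iN := by
  intro κ κ' h
  funext i
  rw [← iN_apply κ i, ← iN_apply κ' i, h]

theorem iS_injective : Function.Injective iS := by
  intro κ κ' h
  funext i
  rcases Fin.eq_castSucc_or_eq_last i with ⟨i, rfl⟩ | rfl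
  · rw [← iS_apply κ i, ← iS_apply κ' i, h]
  · have h1 := congrFun h 12
    rw [iS_last, iS_last] at h1
    exact h1

theorem iS_eq_iN {κ : E} (h : κ ∈ K) : iS κ = iN κ := by
  have h11 : κ 11 = 0 := h.2
  funext i
  rcases Fin.eq_castSucc_or_eq_last i with ⟨i, rfl⟩ | rfl
  · rw [iN_apply]
    rcases Fin.eq_castSucc_or_eq_last i with ⟨i, rfl⟩ | rfl
    · exact iS_apply κ i
    · exact (iS_eleven κ).trans h11.symm
  · exact (iS_last κ).trans (h11.trans (iN_last κ).symm)

theorem inter_susp : iN '' cK ∩ iS '' cK = iN '' K := by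
  ext x
  constructor
  · rintro ⟨⟨κ, hκ, rfl⟩, κ', hκ', h⟩
    refine ⟨κ, ⟨hκ, ?_⟩, rfl⟩
    have h1 := congrFun h 11
    rw [iS_eleven] at h1
    have h2 : iN κ 11 = κ 11 := iN_apply κ 11
    rw [h2] at h1
    exact h1.symm
  · rintro ⟨κ, hκ, rfl⟩
    exact ⟨⟨κ, hκ.1, rfl⟩, κ, hκ.1, iS_eq_iN hκ⟩

/-! ### The faces of the suspension -/

/-- The faces. -/
def faces : List ℕ :=
  [0, 1, 2, 3, 4, 5, 6, 8, 9, 10, 12, 16, 17, 18, 20, 24, 32, 33, 34, 35, 36, 38, 40, 44, 48, 49,
   56, 64, 65, 66, 67, 68, 69, 72, 74, 80, 84, 88, 128, 129, 130, 131, 132, 136, 137, 140, 144,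
   146, 148, 256, 257, 258, 260, 261, 262, 264, 265, 272, 274, 280, 512, 513, 514, 516, 517, 520,
   522, 524, 528, 529, 530, 1024, 1025, 1026, 1028, 1030, 1032, 1033, 1034, 1040, 1041, 1044,
   2048, 2049, 2050, 2051, 2052, 2053, 2054, 2056, 2057, 2058, 2060, 2064, 2065, 2066, 2068,
   2072, 2080, 2081, 2082, 2083, 2084, 2086, 2088, 2092, 2096, 2097, 2104, 2112, 2113, 2114,
   2115, 2116, 2117, 2120, 2122, 2128, 2132, 2136, 2176, 2177, 2178, 2179, 2180, 2184, 2185,
   2188, 2192, 2194, 2196, 2304, 2305, 2306, 2308, 2309, 2310, 2312, 2313, 2320, 2322, 2328,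
   2560, 2561, 2562, 2564, 2565, 2568, 2570, 2572, 2576, 2577, 2578, 3072, 3073, 3074, 3076,
   3078, 3080, 3081, 3082, 3088, 3089, 3092, 4096, 4097, 4098, 4099, 4100, 4101, 4102, 4104,
   4105, 4106, 4108, 4112, 4113, 4114, 4116, 4120, 4128, 4129, 4130, 4131, 4132, 4134, 4136,
   4140, 4144, 4145, 4152, 4160, 4161, 4162, 4163, 4164, 4165, 4168, 4170, 4176, 4180, 4184,
   4224, 4225, 4226, 4227, 4228, 4232, 4233, 4236, 4240, 4242, 4244, 4352, 4353, 4354, 4356,
   4357, 4358, 4360, 4361, 4368, 4370, 4376, 4608, 4609, 4610, 4612, 4613, 4616, 4618, 4620,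
   4624, 4625, 4626, 5120, 5121, 5122, 5124, 5126, 5128, 5129, 5130, 5136, 5137, 5140]

/-- The maximal faces of the northern cone. -/
def maxN : List ℕ :=
  [2083, 2086, 2092, 2104, 2097, 2115, 2122, 2136, 2132, 2117, 2179, 2194, 2196, 2188, 2185,
   2309, 2310, 2322, 2328, 2313, 2565, 2572, 2570, 2578, 2577, 3081, 3082, 3078, 3092, 3089]

/-- The maximal faces of the southern cone. -/
def maxS : List ℕ :=
  [4131, 4134, 4140, 4152, 4145, 4163, 4170, 4184, 4180, 4165, 4227, 4242, 4244, 4236, 4233,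
   4357, 4358, 4370, 4376, 4361, 4613, 4620, 4618, 4626, 4625, 5129, 5130, 5126, 5140, 5137]

theorem st0_eq : fcl faces = st0 := by
  decide +kernel

theorem faces_sub : (faces.all fun σ => (maxN.any fun m => Nat.beq (σ &&& m) σ) ||
    maxS.any fun m => Nat.beq (σ &&& m) σ) = true := by
  decide +kernel

theorem max_mem : ((maxN.all fun m => faces.any fun σ => Nat.beq m σ) &&
    maxS.all fun m => faces.any fun σ => Nat.beq m σ) = true := by
  decide +kernel

theorem max_lt : ((maxN.all fun m => Nat.blt m 8192) &&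
    maxS.all fun m => Nat.blt m 8192) = true := by
  decide +kernel

/-- The simplex of a mask in the northern cone. -/
def cellN (m : ℕ) : Finset (Fin 12) := Finset.univ.filter fun i => m.testBit i.1 = true

/-- The simplex of a mask in the southern cone. -/
def cellS (m : ℕ) : Finset (Fin 12) :=
  Finset.univ.filter fun i => m.testBit (if i = 11 then 12 else i.1) = true

theorem cell_N : ∀ m ∈ maxN, m.testBit 12 = false ∧ cellN m ∈ cells := by
  decide +kernel

theorem cell_S : ∀ m ∈ maxS, m.testBit 11 = false ∧ cellS m ∈ cells := by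
  decide +kernel

theorem mask_N : ∀ t ∈ cells, ∃ m ∈ maxN, cellN m = t := by
  intro t ht
  simp only [cells, Finset.mem_insert, Finset.mem_singleton] at ht
  rcases ht with rfl | rfl | rfl | rfl | rfl | rfl | rfl | rfl | rfl | rfl | rfl | rfl | rfl | rfl | rfl | rfl | rfl | rfl | rfl | rfl | rfl | rfl | rfl | rfl | rfl | rfl | rfl | rfl | rfl | rfl
  · exact ⟨2083, by decide, by decide +kernel⟩
  · exact ⟨2086, by decide, by decide +kernel⟩
  · exact ⟨2092, by decide, by decide +kernel⟩
  · exact ⟨2104, by decide, by decide +kernel⟩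
  · exact ⟨2097, by decide, by decide +kernel⟩
  · exact ⟨2115, by decide, by decide +kernel⟩
  · exact ⟨2122, by decide, by decide +kernel⟩
  · exact ⟨2136, by decide, by decide +kernel⟩
  · exact ⟨2132, by decide, by decide +kernel⟩
  · exact ⟨2117, by decide, by decide +kernel⟩
  · exact ⟨2179, by decide, by decide +kernel⟩
  · exact ⟨2194, by decide, by decide +kernel⟩
  · exact ⟨2196, by decide, by decide +kernel⟩
  · exact ⟨2188, by decide, by decide +kernel⟩
  · exact ⟨2185, by decide, by decide +kernel⟩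
  · exact ⟨2309, by decide, by decide +kernel⟩
  · exact ⟨2310, by decide, by decide +kernel⟩
  · exact ⟨2322, by decide, by decide +kernel⟩
  · exact ⟨2328, by decide, by decide +kernel⟩
  · exact ⟨2313, by decide, by decide +kernel⟩
  · exact ⟨2565, by decide, by decide +kernel⟩
  · exact ⟨2572, by decide, by decide +kernel⟩
  · exact ⟨2570, by decide, by decide +kernel⟩
  · exact ⟨2578, by decide, by decide +kernel⟩
  · exact ⟨2577, by decide, by decide +kernel⟩
  · exact ⟨3081, by decide, by decide +kernel⟩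
  · exact ⟨3082, by decide, by decide +kernel⟩
  · exact ⟨3078, by decide, by decide +kernel⟩
  · exact ⟨3092, by decide, by decide +kernel⟩
  · exact ⟨3089, by decide, by decide +kernel⟩

theorem mask_S : ∀ t ∈ cells, ∃ m ∈ maxS, cellS m = t := by
  intro t ht
  simp only [cells, Finset.mem_insert, Finset.mem_singleton] at ht
  rcases ht with rfl | rfl | rfl | rfl | rfl | rfl | rfl | rfl | rfl | rfl | rfl | rfl | rfl | rfl | rfl | rfl | rfl | rfl | rfl | rfl | rfl | rfl | rfl | rfl | rfl | rfl | rfl | rfl | rfl | rfl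
  · exact ⟨4131, by decide, by decide +kernel⟩
  · exact ⟨4134, by decide, by decide +kernel⟩
  · exact ⟨4140, by decide, by decide +kernel⟩
  · exact ⟨4152, by decide, by decide +kernel⟩
  · exact ⟨4145, by decide, by decide +kernel⟩
  · exact ⟨4163, by decide, by decide +kernel⟩
  · exact ⟨4170, by decide, by decide +kernel⟩
  · exact ⟨4184, by decide, by decide +kernel⟩
  · exact ⟨4180, by decide, by decide +kernel⟩
  · exact ⟨4165, by decide, by decide +kernel⟩
  · exact ⟨4227, by decide, by decide +kernel⟩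
  · exact ⟨4242, by decide, by decide +kernel⟩
  · exact ⟨4244, by decide, by decide +kernel⟩
  · exact ⟨4236, by decide, by decide +kernel⟩
  · exact ⟨4233, by decide, by decide +kernel⟩
  · exact ⟨4357, by decide, by decide +kernel⟩
  · exact ⟨4358, by decide, by decide +kernel⟩
  · exact ⟨4370, by decide, by decide +kernel⟩
  · exact ⟨4376, by decide, by decide +kernel⟩
  · exact ⟨4361, by decide, by decide +kernel⟩
  · exact ⟨4613, by decide, by decide +kernel⟩
  · exact ⟨4620, by decide, by decide +kernel⟩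
  · exact ⟨4618, by decide, by decide +kernel⟩
  · exact ⟨4626, by decide, by decide +kernel⟩
  · exact ⟨4625, by decide, by decide +kernel⟩
  · exact ⟨5129, by decide, by decide +kernel⟩
  · exact ⟨5130, by decide, by decide +kernel⟩
  · exact ⟨5126, by decide, by decide +kernel⟩
  · exact ⟨5140, by decide, by decide +kernel⟩
  · exact ⟨5137, by decide, by decide +kernel⟩


theorem mem_cellN {m : ℕ} {i : Fin 12} : i ∉ cellN m ↔ m.testBit i.1 = false := by
  simp [cellN]

theorem mem_cellS {m : ℕ} {i : Fin 12} :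
    i ∉ cellS m ↔ m.testBit (if i = 11 then 12 else i.1) = false := by
  simp [cellS]

theorem fc_N {m : ℕ} (h : m.testBit 12 = false) : fc m = iN '' smp (cellN m) := by
  ext κ
  constructor
  · rintro ⟨h1, h2, h3⟩
    have h12 : κ (Fin.last 12) = 0 := h3 _ h
    refine ⟨fun i => κ i.castSucc, ⟨fun v => h1 _, ?_, fun v hv => ?_⟩, ?_⟩
    · rw [Fin.sum_univ_castSucc, h12, add_zero] at h2
      exact h2
    · exact h3 _ (mem_cellN.1 hv)
    · funext i
      rcases Fin.eq_castSucc_or_eq_last i with ⟨i, rfl⟩ | rfl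
      · rw [iN_apply]
      · exact (iN_last _).trans h12.symm
  · rintro ⟨κ, ⟨h1, h2, h3⟩, rfl⟩
    have h12 : iN κ (Fin.last 12) = 0 := iN_last κ
    refine ⟨fun v => ?_, ?_, fun v hv => ?_⟩
    · rcases Fin.eq_castSucc_or_eq_last v with ⟨i, rfl⟩ | rfl
      · rw [iN_apply]
        exact h1 i
      · exact h12.ge
    · rw [Fin.sum_univ_castSucc, h12, add_zero]
      simp only [iN_apply, h2]
    · rcases Fin.eq_castSucc_or_eq_last v with ⟨i, rfl⟩ | rfl
      · rw [iN_apply]
        exact h3 i (mem_cellN.2 hv)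
      · exact h12

theorem castSucc_ne (i : Fin 11) : (i.castSucc : Fin 12) ≠ 11 := by
  intro h
  have := congrArg Fin.val h
  simp at this
  omega

theorem fc_S {m : ℕ} (h : m.testBit 11 = false) : fc m = iS '' smp (cellS m) := by
  ext κ
  constructor
  · rintro ⟨h1, h2, h3⟩
    have h11 : κ (Fin.last 11).castSucc = 0 := h3 _ h
    refine ⟨fun i => if i = 11 then κ 12 else κ i.castSucc, ⟨fun v => ?_, ?_, fun v hv => ?_⟩, ?_⟩
    · dsimp only
      split_ifs
      · exact h1 _
      · exact h1 _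
    · rw [Fin.sum_univ_castSucc, Fin.sum_univ_castSucc, h11, add_zero] at h2
      rw [Fin.sum_univ_castSucc, ← h2]
      exact congrArg₂ (· + ·) (Finset.sum_congr rfl fun i _ => if_neg (castSucc_ne i)) (if_pos rfl)
    · have h4 := mem_cellS.1 hv
      dsimp only
      split_ifs with h5
      · rw [if_pos h5] at h4
        exact h3 12 h4
      · rw [if_neg h5] at h4
        exact h3 _ h4
    · funext i
      rcases Fin.eq_castSucc_or_eq_last i with ⟨i, rfl⟩ | rfl
      · rcases Fin.eq_castSucc_or_eq_last i with ⟨i, rfl⟩ | rfl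
        · rw [iS_apply, if_neg (castSucc_ne i)]
        · exact (iS_eleven _).trans h11.symm
      · exact (iS_last _).trans (if_pos rfl)
  · rintro ⟨κ, ⟨h1, h2, h3⟩, rfl⟩
    have h4 : iS κ (Fin.last 11).castSucc = 0 := iS_eleven κ
    have h5 : iS κ (Fin.last 12) = κ (Fin.last 11) := iS_last κ
    refine ⟨fun v => ?_, ?_, fun v hv => ?_⟩
    · rcases Fin.eq_castSucc_or_eq_last v with ⟨i, rfl⟩ | rfl
      · rcases Fin.eq_castSucc_or_eq_last i with ⟨i, rfl⟩ | rfl
        · rw [iS_apply]
          exact h1 _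
        · exact h4.ge
      · exact (h1 _).trans h5.ge
    · rw [Fin.sum_univ_castSucc, Fin.sum_univ_castSucc, h4, h5, add_zero]
      rw [Fin.sum_univ_castSucc] at h2
      simp only [iS_apply]
      exact h2
    · rcases Fin.eq_castSucc_or_eq_last v with ⟨i, rfl⟩ | rfl
      · rcases Fin.eq_castSucc_or_eq_last i with ⟨i, rfl⟩ | rfl
        · rw [iS_apply]
          refine h3 _ (mem_cellS.2 ?_)
          rw [if_neg (castSucc_ne i)]
          exact hv
        · exact h4
      · refine h5.trans (h3 _ (mem_cellS.2 ?_))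
        have h6 : (Fin.last 11 : Fin 12) = 11 := rfl
        rw [if_pos h6]
        exact hv

theorem cx_st0 : cx st0 = iN '' cK ∪ iS '' cK := by
  have hm := max_mem
  have hl := max_lt
  have hs := faces_sub
  simp only [Bool.and_eq_true, List.all_eq_true, List.any_eq_true, Nat.beq_eq, Nat.blt_eq,
    Bool.or_eq_true] at hm hl hs
  have hmem : ∀ σ, st0.testBit σ = true ↔ σ ∈ faces := by
    intro σ
    rw [← st0_eq, testBit_fcl]
  ext κ
  constructor
  · rintro ⟨σ, _, hσ, hκ⟩
    rw [hmem] at hσ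
    have hsub : ∀ m : ℕ, σ &&& m = σ → κ ∈ fc m := by
      intro m hm
      refine fc_mono (fun w _ hw => ?_) hκ
      rw [← hm, Nat.testBit_and, Bool.and_eq_true] at hw
      exact hw.2
    rcases hs σ hσ with ⟨m, hm1, hm2⟩ | ⟨m, hm1, hm2⟩
    · have h1 := hsub m hm2
      rw [fc_N (cell_N m hm1).1] at h1
      obtain ⟨κ', hκ', rfl⟩ := h1
      exact Or.inl ⟨κ', ⟨_, (cell_N m hm1).2, hκ'⟩, rfl⟩
    · have h1 := hsub m hm2
      rw [fc_S (cell_S m hm1).1] at h1
      obtain ⟨κ', hκ', rfl⟩ := h1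
      exact Or.inr ⟨κ', ⟨_, (cell_S m hm1).2, hκ'⟩, rfl⟩
  · rintro (⟨κ, ⟨t, ht, hκ⟩, rfl⟩ | ⟨κ, ⟨t, ht, hκ⟩, rfl⟩)
    · obtain ⟨m, hm1, rfl⟩ := mask_N t ht
      obtain ⟨σ, hσ, hσ'⟩ := hm.1 m hm1
      refine ⟨m, hl.1 m hm1, ?_, ?_⟩
      · rw [hmem, hσ']
        exact hσ
      · rw [fc_N (cell_N m hm1).1]
        exact mem_image_of_mem _ hκ
    · obtain ⟨m, hm1, rfl⟩ := mask_S t ht
      obtain ⟨σ, hσ, hσ'⟩ := hm.2 m hm1
      refine ⟨m, hl.2 m hm1, ?_, ?_⟩
      · rw [hmem, hσ']
        exact hσ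
      · rw [fc_S (cell_S m hm1).1]
        exact mem_image_of_mem _ hκ

theorem ae_st6 : AE (cx st6) := by
  have h1 : cx st6 = fc 2 := by
    have h2 : fcl [0, 2] = st6 := by decide +kernel
    ext κ
    constructor
    · rintro ⟨σ, _, hσ, hκ⟩
      rw [← h2, testBit_fcl] at hσ
      simp only [List.mem_cons, List.not_mem_nil, or_false] at hσ
      rcases hσ with rfl | rfl
      · obtain ⟨h3, h4, h5⟩ := hκ
        have h6 : ∀ v, κ v = 0 := fun v => h5 v (by simp)
        simp [h6] at h4
      · exact hκ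
    · intro hκ
      refine ⟨2, by norm_num, ?_, hκ⟩
      rw [← h2, testBit_fcl]
      simp
  rw [h1]
  exact ae_fc (v := 1) (by norm_num) (by decide)

theorem ae_susp : AE (iN '' cK ∪ iS '' cK) := by
  rw [← cx_st0]
  exact ae_of_run run1 (ae_of_run run2 (ae_of_run run3 (ae_of_run run4 (ae_of_run run5
    (ae_of_run run6 ae_st6)))))

end Pool.Agent.H71.ZW
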