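import Pool.Agent.H71.ZW.PolyANE
import Pool.Agent.H71.ZW.ConeA
import Pool.Agent.H71.ZW.Susp
import Pool.Agent.H71.ZW.Glue

set_option autoImplicit false

/-!
# Partial joins are absolute extensors

Let `J A = {(x, κ) | (x ∈ C ∧ κ ∈ K) ∨ (x ∈ A ∧ κ ∈ cK)}`. Proof that `J A` is an absolute extensor
when `A ⊆ C` is a nonempty finite union of compact convex sets, by strong induction on the number of
the (nonempty) convex pieces of `A`.

* One piece: `J A` is contractible: contract `C` to a point `p` of `A` and `cK` to the apex, i.e.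
  first `(x, κ) ↦ ((1 - t) • x + t • p, κ)` (it keeps `C × K` and `A × cK`), then at `x = p`,
  `(p, κ) ↦ (p, (1 - t) • κ + t • apex)`; use `IsPoly.ae`.
* `A = A₁ ∪ A₂`, `A₂` one piece. `J A = J A₁ ∪ J A₂`, `J A₁ ∩ J A₂ = J (A₁ ∩ A₂)`. If
  `A₁ ∩ A₂ ≠ ∅`, use the induction hypothesis for `A₁`, `A₂`, `A₁ ∩ A₂` and `AE.union`.
* If `A₁ ∩ A₂ = ∅` then `J A₁ ∩ J A₂ = C × K`. Let `N₁ = iN '' cK`, `N₂ = iS '' cK`,
  `N₁ ∩ N₂ = iN '' K` (`Susp`), `N₁ ∪ N₂` is an absolute extensor, hence contractible. Choose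
  `x₀ ∈ C`. Let `g : J A → N₁ ∪ N₂` be the extension of `C × K → N₁ ∩ N₂`, `(x, κ) ↦ iN κ` by maps
  `J A₁ → N₁`, `J A₂ → N₂` (`AE.extend`), and `k : N₁ ∪ N₂ → J A` the extension of
  `iN κ ↦ (x₀, κ)` by maps `N₁ → J A₁`, `N₂ → J A₂`. Then `k ∘ g` is homotopic to the identity:
  on `C × K` use `(x, κ) ↦ ((1 - t) • x + t • x₀, κ)`, and extend it to `J A₁ × [0, 1] → J A₁` and
  `J A₂ × [0, 1] → J A₂` (`AE.extend`, with the closed set
  `J Aᵢ × {0, 1} ∪ (C × K) × [0, 1]`). Glue everything (`Glue.lean`). So `J A` is contractible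
  (`Contr.dominated`) and hence an absolute extensor (`IsPoly.ae`).
-/

namespace Pool.Agent.H71.ZW

open Set Topology TopologicalSpace

/-- The partial join. -/
private def join_set {V : Type} (C A : Set V) : Set (V × E) :=
  {p : V × E | (p.1 ∈ C ∧ p.2 ∈ K) ∨ (p.1 ∈ A ∧ p.2 ∈ cK)}

private theorem join_set_eq {V : Type} (C A : Set V) : join_set C A = C ×ˢ K ∪ A ×ˢ cK := by
  ext p
  simp only [join_set, mem_ofPred_eq, mem_union, mem_prod]

private theorem join_K_sub : K ⊆ cK := fun _ h => h.1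

private theorem join_cK_compact : IsCompact cK := isPoly_cK.isCompact

private theorem join_K_compact : IsCompact K := isPoly_K.isCompact

/-! ### The two cones of the suspension -/

private def join_rN (x : Fin 13 → ℝ) : E := fun j => x ⟨j.1, by omega⟩

private def join_rS (x : Fin 13 → ℝ) : E := fun j => if h : j.1 < 11 then x ⟨j.1, by omega⟩ else x 12

private theorem join_continuous_rN : Continuous join_rN :=
  continuous_pi fun _ => continuous_apply _

private theorem join_continuous_rS : Continuous join_rS := by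
  refine continuous_pi fun j => ?_
  unfold join_rS
  split_ifs
  · exact continuous_apply _
  · exact continuous_apply _

private theorem join_rN_iN (κ : E) : join_rN (iN κ) = κ := by
  funext j
  have hj : j.1 < 12 := j.2
  simp [join_rN, iN]

private theorem join_rS_iS (κ : E) : join_rS (iS κ) = κ := by
  funext j
  by_cases hj : j.1 < 11
  · simp [join_rS, iS, hj]
  · have h11 : j = 11 := by
      apply Fin.ext
      have := j.2
      show j.1 = 11
      omega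
    subst h11
    simp [join_rS, iS]

private theorem join_ae_N : AE (iN '' cK) :=
  ae_cK.retract join_rN iN join_continuous_rN.continuousOn continuous_iN.continuousOn
    (by
      rintro _ ⟨κ, hκ, rfl⟩
      rw [join_rN_iN]
      exact hκ)
    (fun κ hκ => ⟨κ, hκ, rfl⟩)
    (by
      rintro _ ⟨κ, hκ, rfl⟩
      rw [join_rN_iN])

private theorem join_ae_S : AE (iS '' cK) :=
  ae_cK.retract join_rS iS join_continuous_rS.continuousOn continuous_iS.continuousOn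
    (by
      rintro _ ⟨κ, hκ, rfl⟩
      rw [join_rS_iS]
      exact hκ)
    (fun κ hκ => ⟨κ, hκ, rfl⟩)
    (by
      rintro _ ⟨κ, hκ, rfl⟩
      rw [join_rS_iS])

section

variable {V : Type} [AddCommGroup V] [Module ℝ V] [TopologicalSpace V]
    [IsTopologicalAddGroup V] [ContinuousSMul ℝ V] [LocallyConvexSpace ℝ V] [MetrizableSpace V]

private theorem join_isPoly {C A : Set V} (hC : IsCompact C) (hc : Convex ℝ C) (hA : IsPoly A) :
    IsPoly (join_set C A) := by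
  rw [join_set_eq]
  exact ((isPoly_of_convex hC hc).prod isPoly_K).union (hA.prod isPoly_cK)

/-- One piece. -/
private theorem join_one {C D : Set V} (hC : IsCompact C) (hc : Convex ℝ C) (hD : IsCompact D)
    (hd : Convex ℝ D) (hne : D.Nonempty) (hDC : D ⊆ C) : AE (join_set C D) := by
  obtain ⟨p, hp⟩ := hne
  refine (join_isPoly hC hc (isPoly_of_convex hD hd)).ae ?_
  refine ⟨fun q => ((1 - min (2 * q.2) 1) • q.1.1 + min (2 * q.2) 1 • p,
    up (max (2 * q.2 - 1) 0) q.1.2), (p, apex), Or.inr ⟨hp, apex_mem⟩, ?_, ?_, ?_, ?_⟩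
  · apply Continuous.continuousOn
    refine Continuous.prodMk (by fun_prop) ?_
    exact continuous_up.comp (by fun_prop : Continuous fun q : (V × E) × ℝ =>
      (max (2 * q.2 - 1) 0, q.1.2))
  · rintro ⟨⟨x, κ⟩, t⟩ ⟨hx, ht0, ht1⟩
    change 0 ≤ t at ht0
    change t ≤ 1 at ht1
    change ((x ∈ C ∧ κ ∈ K) ∨ (x ∈ D ∧ κ ∈ cK)) at hx
    show (((1 - min (2 * t) 1) • x + min (2 * t) 1 • p ∈ C ∧ up (max (2 * t - 1) 0) κ ∈ K) ∨
      ((1 - min (2 * t) 1) • x + min (2 * t) 1 • p ∈ D ∧ up (max (2 * t - 1) 0) κ ∈ cK))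
    have ha0 : 0 ≤ min (2 * t) 1 := le_min (by linarith) zero_le_one
    have ha1 : min (2 * t) 1 ≤ 1 := min_le_right _ _
    rcases le_total t (1 / 2) with h | h
    · have hb : max (2 * t - 1) 0 = 0 := max_eq_right (by linarith)
      have hu : up (0 : ℝ) κ = κ := by simp [up]
      rw [hb, hu]
      rcases hx with ⟨hx, hk⟩ | ⟨hx, hk⟩
      · exact Or.inl ⟨hc hx (hDC hp) (by linarith) ha0 (by ring), hk⟩
      · exact Or.inr ⟨hd hx hp (by linarith) ha0 (by ring), hk⟩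
    · have ha : min (2 * t) 1 = 1 := min_eq_right (by linarith)
      have hu : (1 - (1 : ℝ)) • x + (1 : ℝ) • p = p := by simp
      rw [ha, hu]
      refine Or.inr ⟨hp, up_mem (le_max_right _ _) (max_le (by linarith) zero_le_one) ?_⟩
      rcases hx with ⟨hx, hk⟩ | ⟨hx, hk⟩
      · exact join_K_sub hk
      · exact hk
  · rintro ⟨x, κ⟩ -
    simp [up]
  · rintro ⟨x, κ⟩ -
    have h1 : min ((2 : ℝ) * 1) 1 = 1 := by norm_num
    have h2 : max ((2 : ℝ) * 1 - 1) 0 = 1 := by norm_num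
    simp only [h1, h2]
    simp [up]

/-- The homotopy over one of the two parts. -/
private theorem join_homotopy {C A : Set V} (hC : IsCompact C) (hc : Convex ℝ C)
    (hA : IsCompact A) (hae : AE (join_set C A)) {x₀ : V} (hx₀ : x₀ ∈ C) {φ : V × E → V × E}
    (hφ : ContinuousOn φ (join_set C A)) (hφm : MapsTo φ (join_set C A) (join_set C A))
    (hφ0 : ∀ p ∈ C ×ˢ K, φ p = (x₀, p.2)) :
    ∃ H : (V × E) × ℝ → V × E, ContinuousOn H (join_set C A ×ˢ Icc (0 : ℝ) 1) ∧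
      MapsTo H (join_set C A ×ˢ Icc (0 : ℝ) 1) (join_set C A) ∧
      (∀ p ∈ join_set C A, H (p, 0) = p) ∧ (∀ p ∈ join_set C A, H (p, 1) = φ p) ∧
      ∀ p ∈ C ×ˢ K, ∀ t ∈ Icc (0 : ℝ) 1, H (p, t) = ((1 - t) • p.1 + t • x₀, p.2) := by
  have hCK : IsCompact (C ×ˢ K) := hC.prod join_K_compact
  have hJ : IsCompact (join_set C A) := by
    rw [join_set_eq]
    exact hCK.union (hA.prod join_cK_compact)
  have hsub : C ×ˢ K ⊆ join_set C A := by
    rw [join_set_eq]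
    exact subset_union_left
  obtain ⟨F, hF, hF0, hF1, hF2⟩ := exists_glue₃ (A := join_set C A ×ˢ ({0} : Set ℝ))
    (B := join_set C A ×ˢ ({1} : Set ℝ)) (C := (C ×ˢ K) ×ˢ Icc (0 : ℝ) 1)
    (f := fun q : (V × E) × ℝ => q.1) (g := fun q : (V × E) × ℝ => φ q.1)
    (k := fun q : (V × E) × ℝ => ((1 - q.2) • q.1.1 + q.2 • x₀, q.1.2))
    (hJ.isClosed.prod isClosed_singleton) (hJ.isClosed.prod isClosed_singleton)
    (hCK.isClosed.prod isClosed_Icc) continuous_fst.continuousOn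
    (hφ.comp continuous_fst.continuousOn fun q hq => hq.1)
    (Continuous.continuousOn (by fun_prop))
    (by
      rintro ⟨p, t⟩ ⟨-, h0⟩ ⟨-, h1⟩
      have h0' : t = 0 := h0
      have h1' : t = 1 := h1
      exfalso
      linarith)
    (by
      rintro ⟨p, t⟩ ⟨-, h0⟩ -
      have h0' : t = 0 := h0
      subst h0'
      simp)
    (by
      rintro ⟨p, t⟩ ⟨-, h1⟩ ⟨hp, -⟩
      have h1' : t = 1 := h1
      subst h1'
      show φ p = _
      rw [hφ0 p hp]
      simp)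
  have hBQ : join_set C A ×ˢ ({0} : Set ℝ) ∪ join_set C A ×ˢ ({1} : Set ℝ) ∪
      (C ×ˢ K) ×ˢ Icc (0 : ℝ) 1 ⊆ join_set C A ×ˢ Icc (0 : ℝ) 1 := by
    rintro ⟨p, t⟩ ((⟨hp, h0⟩ | ⟨hp, h1⟩) | ⟨hp, ht⟩)
    · have h0' : t = 0 := h0
      exact ⟨hp, by rw [h0']; exact ⟨le_rfl, zero_le_one⟩⟩
    · have h1' : t = 1 := h1
      exact ⟨hp, by rw [h1']; exact ⟨zero_le_one, le_rfl⟩⟩
    · exact ⟨hsub hp, ht⟩
  obtain ⟨H, hH, hHm, hHF⟩ := hae.extend (Q := join_set C A ×ˢ Icc (0 : ℝ) 1)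
    (B := join_set C A ×ˢ ({0} : Set ℝ) ∪ join_set C A ×ˢ ({1} : Set ℝ) ∪
      (C ×ˢ K) ×ˢ Icc (0 : ℝ) 1) (hJ.prod isCompact_Icc)
    (((hJ.isClosed.prod isClosed_singleton).union (hJ.isClosed.prod isClosed_singleton)).union
      (hCK.isClosed.prod isClosed_Icc)) hBQ hF (by
      rintro q ((hq | hq) | hq)
      · rw [hF0 hq]
        exact hq.1
      · rw [hF1 hq]
        exact hφm hq.1
      · rw [hF2 hq]
        exact hsub ⟨hc hq.1.1 hx₀ (by linarith [hq.2.2]) hq.2.1 (by ring), hq.1.2⟩)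
  refine ⟨H, hH, hHm, fun p hp => ?_, fun p hp => ?_, fun p hp t ht => ?_⟩
  · have h : ((p, 0) : (V × E) × ℝ) ∈ join_set C A ×ˢ ({0} : Set ℝ) := ⟨hp, rfl⟩
    rw [hHF (Or.inl (Or.inl h)), hF0 h]
  · have h : ((p, 1) : (V × E) × ℝ) ∈ join_set C A ×ˢ ({1} : Set ℝ) := ⟨hp, rfl⟩
    rw [hHF (Or.inl (Or.inr h)), hF1 h]
  · have h : ((p, t) : (V × E) × ℝ) ∈ (C ×ˢ K) ×ˢ Icc (0 : ℝ) 1 := ⟨hp, ht⟩
    rw [hHF (Or.inr h), hF2 h]

/-- Disjoint parts. -/
private theorem join_disj {C A₁ A₂ : Set V} (hC : IsCompact C) (hc : Convex ℝ C)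
    (hA₁ : IsPoly A₁) (hA₂ : IsPoly A₂) (hne : A₁.Nonempty) (hAC : A₁ ⊆ C)
    (hd : A₁ ∩ A₂ = ∅) (h₁ : AE (join_set C A₁)) (h₂ : AE (join_set C A₂)) :
    AE (join_set C (A₁ ∪ A₂)) := by
  obtain ⟨a, ha⟩ := hne
  have hx₀ : a ∈ C := hAC ha
  have hCK : IsCompact (C ×ˢ K) := hC.prod join_K_compact
  have hJ₁ : IsCompact (join_set C A₁) := (join_isPoly hC hc hA₁).isCompact
  have hJ₂ : IsCompact (join_set C A₂) := (join_isPoly hC hc hA₂).isCompact
  have hs₁ : C ×ˢ K ⊆ join_set C A₁ := by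
    rw [join_set_eq]
    exact subset_union_left
  have hs₂ : C ×ˢ K ⊆ join_set C A₂ := by
    rw [join_set_eq]
    exact subset_union_left
  have hun : join_set C (A₁ ∪ A₂) = join_set C A₁ ∪ join_set C A₂ := by
    rw [join_set_eq, join_set_eq, join_set_eq, union_prod]
    ext p
    simp only [mem_union]
    tauto
  have hin : ∀ p, p ∈ join_set C A₁ → p ∈ join_set C A₂ → p ∈ C ×ˢ K := by
    rintro p (hp | hp) hp'
    · exact hp
    · rcases hp' with hp' | hp'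
      · exact hp'
      · exfalso
        have h : p.1 ∈ A₁ ∩ A₂ := ⟨hp.1, hp'.1⟩
        rw [hd] at h
        exact h
  have hN₁ : IsCompact (iN '' cK) := join_cK_compact.image continuous_iN
  have hN₂ : IsCompact (iS '' cK) := join_cK_compact.image continuous_iS
  have hN₀ : IsCompact (iN '' K) := join_K_compact.image continuous_iN
  have hn₁ : iN '' K ⊆ iN '' cK := image_mono join_K_sub
  have hn₂ : iN '' K ⊆ iS '' cK := by
    rintro _ ⟨κ, hκ, rfl⟩
    exact ⟨κ, join_K_sub hκ, iS_eq_iN hκ⟩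
  have hninter : ∀ y, y ∈ iN '' cK → y ∈ iS '' cK → y ∈ iN '' K := fun y h h' => by
    rw [← inter_susp]
    exact ⟨h, h'⟩
  -- the map to the suspension
  obtain ⟨g₁, hg₁, hg₁m, hg₁e⟩ := join_ae_N.extend hJ₁ hCK.isClosed hs₁
    (f := fun p : V × E => iN p.2) (continuous_iN.comp continuous_snd).continuousOn
    (fun p hp => hn₁ ⟨p.2, hp.2, rfl⟩)
  obtain ⟨g₂, hg₂, hg₂m, hg₂e⟩ := join_ae_S.extend hJ₂ hCK.isClosed hs₂
    (f := fun p : V × E => iN p.2) (continuous_iN.comp continuous_snd).continuousOn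
    (fun p hp => hn₂ ⟨p.2, hp.2, rfl⟩)
  obtain ⟨g, hg, hge₁, hge₂⟩ := exists_glue₂ hJ₁.isClosed hJ₂.isClosed hg₁ hg₂
    (fun p hp hp' => by rw [hg₁e (hin p hp hp'), hg₂e (hin p hp hp')])
  -- the map from the suspension
  have hkm : ∀ y ∈ iN '' K, ((a, join_rN y) : V × E) ∈ C ×ˢ K := by
    rintro _ ⟨κ, hκ, rfl⟩
    refine ⟨hx₀, ?_⟩
    show join_rN (iN κ) ∈ K
    rw [join_rN_iN]
    exact hκ
  obtain ⟨k₁, hk₁, hk₁m, hk₁e⟩ := h₁.extend hN₁ hN₀.isClosed hn₁
    (f := fun y : Fin 13 → ℝ => ((a, join_rN y) : V × E))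
    (continuous_const.prodMk join_continuous_rN).continuousOn (fun y hy => hs₁ (hkm y hy))
  obtain ⟨k₂, hk₂, hk₂m, hk₂e⟩ := h₂.extend hN₂ hN₀.isClosed hn₂
    (f := fun y : Fin 13 → ℝ => ((a, join_rN y) : V × E))
    (continuous_const.prodMk join_continuous_rN).continuousOn (fun y hy => hs₂ (hkm y hy))
  obtain ⟨k, hk, hke₁, hke₂⟩ := exists_glue₂ hN₁.isClosed hN₂.isClosed hk₁ hk₂
    (fun y hy hy' => by rw [hk₁e (hninter y hy hy'), hk₂e (hninter y hy hy')])
  -- the composition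
  have hgm₁ : ∀ p ∈ join_set C A₁, g p ∈ iN '' cK := fun p hp => by
    rw [hge₁ hp]
    exact hg₁m hp
  have hgm₂ : ∀ p ∈ join_set C A₂, g p ∈ iS '' cK := fun p hp => by
    rw [hge₂ hp]
    exact hg₂m hp
  have hkm₁ : ∀ y ∈ iN '' cK, k y ∈ join_set C A₁ := fun y hy => by
    rw [hke₁ hy]
    exact hk₁m hy
  have hkm₂ : ∀ y ∈ iS '' cK, k y ∈ join_set C A₂ := fun y hy => by
    rw [hke₂ hy]
    exact hk₂m hy
  have hgK : ∀ p ∈ C ×ˢ K, g p = iN p.2 := fun p hp => by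
    rw [hge₁ (hs₁ hp), hg₁e hp]
  have hkK : ∀ κ ∈ K, k (iN κ) = (a, κ) := fun κ hκ => by
    have h : iN κ ∈ iN '' K := ⟨κ, hκ, rfl⟩
    rw [hke₁ (hn₁ h), hk₁e h]
    show ((a, join_rN (iN κ)) : V × E) = _
    rw [join_rN_iN]
  have hφ0 : ∀ p ∈ C ×ˢ K, k (g p) = (a, p.2) := fun p hp => by
    rw [hgK p hp, hkK p.2 hp.2]
  have hg₁' : ContinuousOn g (join_set C A₁) := hg.mono subset_union_left
  have hg₂' : ContinuousOn g (join_set C A₂) := hg.mono subset_union_right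
  obtain ⟨H₁, hH₁, hH₁m, hH₁0, hH₁1, hH₁K⟩ := join_homotopy hC hc hA₁.isCompact h₁ hx₀
    (φ := fun p => k (g p)) ((hk.mono subset_union_left).comp hg₁' hgm₁)
    (fun p hp => hkm₁ _ (hgm₁ p hp)) hφ0
  obtain ⟨H₂, hH₂, hH₂m, hH₂0, hH₂1, hH₂K⟩ := join_homotopy hC hc hA₂.isCompact h₂ hx₀
    (φ := fun p => k (g p)) ((hk.mono subset_union_right).comp hg₂' hgm₂)
    (fun p hp => hkm₂ _ (hgm₂ p hp)) hφ0
  obtain ⟨H, hH, hHe₁, hHe₂⟩ := exists_glue₂ (hJ₁.isClosed.prod (isClosed_Icc (a := (0 : ℝ)) (b := 1)))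
    (hJ₂.isClosed.prod (isClosed_Icc (a := (0 : ℝ)) (b := 1))) hH₁ hH₂ (by
      rintro ⟨p, t⟩ ⟨hp, ht⟩ ⟨hp', -⟩
      rw [hH₁K p (hin p hp hp') t ht, hH₂K p (hin p hp hp') t ht])
  refine (join_isPoly hC hc (hA₁.union hA₂)).ae ?_
  have hcN : Contr (iN '' cK ∪ iS '' cK) :=
    ae_susp.contr (hN₁.union hN₂) ⟨iN apex, Or.inl ⟨apex, apex_mem, rfl⟩⟩
  rw [hun]
  refine hcN.dominated g k hg hk ?_ ?_ H ?_ ?_ ?_ ?_
  · rintro p (hp | hp)
    · exact Or.inl (hgm₁ p hp)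
    · exact Or.inr (hgm₂ p hp)
  · rintro y (hy | hy)
    · exact Or.inl (hkm₁ y hy)
    · exact Or.inr (hkm₂ y hy)
  · rw [union_prod]
    exact hH
  · rintro ⟨p, t⟩ ⟨hp | hp, ht⟩
    · have h : ((p, t) : (V × E) × ℝ) ∈ join_set C A₁ ×ˢ Icc (0 : ℝ) 1 := ⟨hp, ht⟩
      rw [hHe₁ h]
      exact Or.inl (hH₁m h)
    · have h : ((p, t) : (V × E) × ℝ) ∈ join_set C A₂ ×ˢ Icc (0 : ℝ) 1 := ⟨hp, ht⟩
      rw [hHe₂ h]
      exact Or.inr (hH₂m h)
  · rintro p (hp | hp)
    · have h : ((p, 0) : (V × E) × ℝ) ∈ join_set C A₁ ×ˢ Icc (0 : ℝ) 1 :=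
        ⟨hp, le_rfl, zero_le_one⟩
      rw [hHe₁ h, hH₁0 p hp]
    · have h : ((p, 0) : (V × E) × ℝ) ∈ join_set C A₂ ×ˢ Icc (0 : ℝ) 1 :=
        ⟨hp, le_rfl, zero_le_one⟩
      rw [hHe₂ h, hH₂0 p hp]
  · rintro p (hp | hp)
    · have h : ((p, 1) : (V × E) × ℝ) ∈ join_set C A₁ ×ˢ Icc (0 : ℝ) 1 :=
        ⟨hp, zero_le_one, le_rfl⟩
      rw [hHe₁ h, hH₁1 p hp]
    · have h : ((p, 1) : (V × E) × ℝ) ∈ join_set C A₂ ×ˢ Icc (0 : ℝ) 1 :=
        ⟨hp, zero_le_one, le_rfl⟩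
      rw [hHe₂ h, hH₂1 p hp]

end

theorem ae_join {V : Type} [AddCommGroup V] [Module ℝ V] [TopologicalSpace V]
    [IsTopologicalAddGroup V] [ContinuousSMul ℝ V] [LocallyConvexSpace ℝ V] [MetrizableSpace V]
    {C A : Set V} (hC : IsCompact C) (hc : Convex ℝ C) (hA : IsPoly A) (hne : A.Nonempty)
    (hAC : A ⊆ C) : AE {p : V × E | (p.1 ∈ C ∧ p.2 ∈ K) ∨ (p.1 ∈ A ∧ p.2 ∈ cK)} := by
  have key : ∀ D : Set V, IsCompact D → Convex ℝ D → D ⊆ C → (A ∩ D).Nonempty →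
      AE (join_set C (A ∩ D)) := by
    refine IsPoly.induct (p := fun P => ∀ D : Set V, IsCompact D → Convex ℝ D → D ⊆ C →
      (P ∩ D).Nonempty → AE (join_set C (P ∩ D))) ?_ ?_ hA
    · rintro D - - - ⟨x, hx, -⟩
      exact hx.elim
    · rintro P C₀ hP hC₀ hc₀ - IH D hD hcD hDC hne
      have hD0 : IsCompact (C₀ ∩ D) := hC₀.inter hD
      have hcD0 : Convex ℝ (C₀ ∩ D) := hc₀.inter hcD
      have hsub : C₀ ∩ D ⊆ C := fun x hx => hDC hx.2
      rw [union_inter_distrib_right] at hne ⊢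
      by_cases h2 : (C₀ ∩ D).Nonempty
      · have e2 := join_one hC hc hD0 hcD0 h2 hsub
        by_cases h1 : (P ∩ D).Nonempty
        · have e1 := IH D hD hcD hDC h1
          have hPD : IsPoly (P ∩ D) := hP.inter_convex hD.isClosed hcD
          have hQD : IsPoly (C₀ ∩ D) := isPoly_of_convex hD0 hcD0
          by_cases h3 : (P ∩ (C₀ ∩ D)).Nonempty
          · have e3 := IH (C₀ ∩ D) hD0 hcD0 hsub h3
            have hun : join_set C (P ∩ D ∪ C₀ ∩ D) =
                join_set C (P ∩ D) ∪ join_set C (C₀ ∩ D) := by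
              rw [join_set_eq, join_set_eq, join_set_eq, union_prod]
              ext p
              simp only [mem_union]
              tauto
            have hin : join_set C (P ∩ (C₀ ∩ D)) =
                join_set C (P ∩ D) ∩ join_set C (C₀ ∩ D) := by
              ext p
              simp only [join_set, mem_ofPred_eq, mem_inter_iff]
              have : p.2 ∈ K → p.2 ∈ cK := fun h => join_K_sub h
              tauto
            rw [hun]
            rw [hin] at e3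
            exact e1.union (join_isPoly hC hc hPD).isCompact.isClosed
              (join_isPoly hC hc hQD).isCompact.isClosed e2 e3
          · have h3' : (P ∩ D) ∩ (C₀ ∩ D) = ∅ := by
              rw [not_nonempty_iff_eq_empty] at h3
              rw [← subset_empty_iff, ← h3]
              rintro x ⟨⟨hx, -⟩, hx'⟩
              exact ⟨hx, hx'⟩
            exact join_disj hC hc hPD hQD h1 (fun x hx => hDC hx.2) h3' e1 e2
        · rw [not_nonempty_iff_eq_empty] at h1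
          rw [h1, empty_union]
          exact e2
      · rw [not_nonempty_iff_eq_empty] at h2
        rw [h2, union_empty] at hne ⊢
        exact IH D hD hcD hDC hne
  have h := key C hC hc subset_rfl (by rwa [inter_eq_self_of_subset_left hAC])
  rw [inter_eq_self_of_subset_left hAC] at h
  exact h

end Pool.Agent.H71.ZW
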