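import Pool.Agent.H71.ZW.StageA

set_option autoImplicit false

/-!
# The limit of the tower: sections

`S k x` is the limit of the sequence `x, σ k x, σ (k + 1) (σ k x), …`: consecutive points `z l`,
`z (l + 1)` satisfy `dm (m l) (z (l + 1)) (z l) ≤ 10 * ε l`, `ε l ≤ ε k / 2 ^ (l - k)` and `m l` is
increasing, so every coordinate converges uniformly. `tr (n k') (z l) ∈ P k'` for `l ≥ k'`
(`IsExt.map`, `tr_tr`), and `P k'` is closed.
-/

namespace Pool.Agent.H71.ZW

open Set Topology TopologicalSpace Filter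

/-- The limit of a tower. -/
def lim (n : ℕ → ℕ) (P : ℕ → Set W) : Set W := {x | ∀ k, tr (n k) x ∈ P k}

variable {m n : ℕ → ℕ} {P : ℕ → Set W} {I : ℕ → Set ℕ} {w : ℕ → ℕ → W} {ε η : ℕ → ℝ}
  {σ : ℕ → W → W} {H : ℕ → W × ℝ → W} {F G : ℕ → W × W → W}

theorem IsTower.n_lt (h : IsTower m n P I w ε η σ H F G) : StrictMono n := by
  refine strictMono_nat_of_lt_succ fun k => ?_
  have h1 := h.m_succ k
  have h2 := h.le_succ k
  omega

theorem IsTower.m_lt (h : IsTower m n P I w ε η σ H F G) : StrictMono fun k => m (k + 1) := by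
  refine strictMono_nat_of_lt_succ fun k => ?_
  have h1 := h.m_succ k
  have h2 := h.m_succ (k + 1)
  have h3 := h.n_lt (Nat.lt_succ_self k)
  show m (k + 1) < m (k + 1 + 1)
  have h4 : n k < n (k + 1) := h3
  omega

theorem IsTower.m_mono (h : IsTower m n P I w ε η σ H F G) : Monotone m := by
  refine monotone_nat_of_le_succ fun k => ?_
  have h1 := h.m_succ k
  have h2 := h.m_le k
  omega

theorem IsTower.le_m (h : IsTower m n P I w ε η σ H F G) (k : ℕ) : k ≤ m k := by
  induction k with
  | zero => exact Nat.zero_le _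
  | succ k ih =>
    have h1 := h.m_succ k
    have h2 := h.m_le k
    omega

theorem IsTower.limA_eps (h : IsTower m n P I w ε η σ H F G) (k j : ℕ) :
    ε (k + j) ≤ ε k * (1 / 2) ^ j := by
  induction j with
  | zero => simp
  | succ j ih =>
    have h1 := h.half (k + j)
    rw [pow_succ]
    have h2 : ε (k + (j + 1)) ≤ ε (k + j) / 2 := h1
    linarith

theorem IsTower.tendsto (h : IsTower m n P I w ε η σ H F G) : Tendsto ε atTop (𝓝 0) := by
  have h1 : Tendsto (fun j : ℕ => ε 0 * (1 / 2 : ℝ) ^ j) atTop (𝓝 0) := by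
    have := (tendsto_pow_atTop_nhds_zero_of_lt_one (r := (1 / 2 : ℝ)) (by norm_num)
      (by norm_num)).const_mul (ε 0)
    simpa using this
  refine squeeze_zero (fun k => (h.pos k).le) (fun k => ?_) h1
  have := h.limA_eps 0 k
  rwa [Nat.zero_add] at this

/-- Truncations of points of later stages. -/
theorem IsTower.tr_mem (h : IsTower m n P I w ε η σ H F G) {k l : ℕ} (hkl : k ≤ l) {x : W}
    (hx : x ∈ P l) : tr (n k) x ∈ P k := by
  induction l, hkl using Nat.le_induction generalizing x with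
  | base =>
    rwa [tr_eq ((h.stage k).zero x hx)]
  | succ l hl ih =>
    have h1 := ih ((h.ext l).map x hx)
    rwa [tr_tr (h.n_lt.monotone hl)] at h1

theorem IsTower.limA_closed (h : IsTower m n P I w ε η σ H F G) : IsClosed (lim n P) := by
  have h1 : lim n P = ⋂ k, (tr (n k)) ⁻¹' (P k) := by
    ext x
    simp [lim]
  rw [h1]
  exact isClosed_iInter fun k => (h.stage k).isCompact.isClosed.preimage (continuous_tr (n k))

theorem IsTower.isCompact_lim (h : IsTower m n P I w ε η σ H F G) : IsCompact (lim n P) := by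
  have h1 : IsCompact (Set.pi univ fun i : ℕ => (fun y : W => y i) '' P (i + 1)) :=
    isCompact_univ_pi fun i => (h.stage (i + 1)).isCompact.image (continuous_apply i)
  refine h1.of_isClosed_subset h.limA_closed fun x hx i _ => ?_
  have hi : i < n (i + 1) := by
    have h2 := h.le_m (i + 1)
    have h3 := h.m_le (i + 1)
    omega
  exact ⟨tr (n (i + 1)) x, hx (i + 1), tr_lt hi x⟩

/-- The iterated sections. -/
def limASec (σ : ℕ → W → W) (k : ℕ) (x : W) : ℕ → W
  | 0 => x
  | j + 1 => σ (k + j) (limASec σ k x j)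

theorem limASec_shift (σ : ℕ → W → W) (k : ℕ) (x : W) (j : ℕ) :
    limASec σ k x (j + 1) = limASec σ (k + 1) (σ k x) j := by
  induction j with
  | zero => rfl
  | succ j ih =>
    show σ (k + (j + 1)) (limASec σ k x (j + 1)) = σ (k + 1 + j) (limASec σ (k + 1) (σ k x) j)
    rw [ih, show k + (j + 1) = k + 1 + j by omega]

theorem IsTower.limASec_mem (h : IsTower m n P I w ε η σ H F G) (k : ℕ) {x : W} (hx : x ∈ P k)
    (j : ℕ) : limASec σ k x j ∈ P (k + j) := by
  induction j with
  | zero => exact hx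
  | succ j ih => exact (h.ext (k + j)).mapS ih

theorem IsTower.limASec_step (h : IsTower m n P I w ε η σ H F G) (k : ℕ) {x : W} (hx : x ∈ P k)
    (j : ℕ) : dm (m (k + j)) (limASec σ k x (j + 1)) (limASec σ k x j) ≤
      10 * ε k * (1 / 2) ^ j := by
  have h1 := h.ctlS (k + j) _ (h.limASec_mem k hx j)
  have h2 := h.limA_eps k j
  refine h1.trans ?_
  linarith

theorem IsTower.limASec_cont (h : IsTower m n P I w ε η σ H F G) (k j : ℕ) :
    ContinuousOn (fun x => limASec σ k x j) (P k) := by
  induction j with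
  | zero => exact continuousOn_id
  | succ j ih =>
    exact (h.ext (k + j)).contS.comp ih fun x hx => h.limASec_mem k hx j

theorem IsTower.limASec_coord (h : IsTower m n P I w ε η σ H F G) (k : ℕ) {x : W} (hx : x ∈ P k)
    (i j : ℕ) : dist (limASec σ k x (j + (i + 1)) i) (limASec σ k x (j + 1 + (i + 1)) i) ≤
      10 * ε k * (1 / 2) ^ j := by
  have hi : i < m (k + (j + (i + 1))) := by
    have := h.le_m (k + (j + (i + 1)))
    omega
  have h1 := norm_sub_le_dm hi (limASec σ k x (j + (i + 1) + 1)) (limASec σ k x (j + (i + 1)))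
  have h2 := h.limASec_step k hx (j + (i + 1))
  have h3 : (10 * ε k) * (1 / 2 : ℝ) ^ (j + (i + 1)) ≤ 10 * ε k * (1 / 2) ^ j := by
    have h4 : (1 / 2 : ℝ) ^ (j + (i + 1)) ≤ (1 / 2) ^ j :=
      pow_le_pow_of_le_one (by norm_num) (by norm_num) (by omega)
    exact mul_le_mul_of_nonneg_left h4 (by have := h.pos k; linarith)
  rw [dist_comm, dist_eq_norm, show j + 1 + (i + 1) = j + (i + 1) + 1 by omega]
  exact (h1.trans h2).trans h3

/-- The limit of the iterated sections. -/
noncomputable def limAS (σ : ℕ → W → W) (k : ℕ) (x : W) : W :=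
  fun i => limUnder atTop fun j => limASec σ k x (j + (i + 1)) i

theorem IsTower.limAS_coord (h : IsTower m n P I w ε η σ H F G) (k : ℕ) {x : W} (hx : x ∈ P k)
    (i : ℕ) : Tendsto (fun j => limASec σ k x (j + (i + 1)) i) atTop (𝓝 (limAS σ k x i)) := by
  have h1 : CauchySeq fun j => limASec σ k x (j + (i + 1)) i :=
    cauchySeq_of_le_geometric (1 / 2) (10 * ε k) (by norm_num) fun j => h.limASec_coord k hx i j
  exact h1.tendsto_limUnder

theorem IsTower.limAS_tendsto (h : IsTower m n P I w ε η σ H F G) (k : ℕ) {x : W} (hx : x ∈ P k) :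
    Tendsto (limASec σ k x) atTop (𝓝 (limAS σ k x)) := by
  refine tendsto_pi_nhds.2 fun i => ?_
  exact (tendsto_add_atTop_iff_nat (f := fun j => limASec σ k x j i) (i + 1)).1
    (h.limAS_coord k hx i)

theorem IsTower.limAS_cont (h : IsTower m n P I w ε η σ H F G) (k : ℕ) :
    ContinuousOn (limAS σ k) (P k) := by
  refine continuousOn_pi.2 fun i => ?_
  have h1 : TendstoUniformlyOn (fun (j : ℕ) (x : W) => limASec σ k x (j + (i + 1)) i)
      (fun x => limAS σ k x i) atTop (P k) := by
    rw [Metric.tendstoUniformlyOn_iff]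
    intro δ hδ
    have h2 : Tendsto (fun j : ℕ => 10 * ε k * (1 / 2 : ℝ) ^ j / (1 - 1 / 2)) atTop (𝓝 0) := by
      have := ((tendsto_pow_atTop_nhds_zero_of_lt_one (r := (1 / 2 : ℝ)) (by norm_num)
        (by norm_num)).const_mul (10 * ε k)).div_const (1 - 1 / 2)
      simpa using this
    filter_upwards [h2.eventually (gt_mem_nhds hδ)] with j hj x hx
    rw [dist_comm]
    refine lt_of_le_of_lt ?_ hj
    exact dist_le_of_le_geometric_of_tendsto (1 / 2) (10 * ε k) (by norm_num)
      (fun j => h.limASec_coord k hx i j) (h.limAS_coord k hx i) j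
  refine h1.continuousOn (Frequently.of_forall fun j => ?_)
  exact (continuous_apply i).comp_continuousOn (h.limASec_cont k (j + (i + 1)))

theorem IsTower.limAS_mem (h : IsTower m n P I w ε η σ H F G) (k : ℕ) {x : W} (hx : x ∈ P k) :
    limAS σ k x ∈ lim n P := by
  intro l
  have h1 : Tendsto (fun j => tr (n l) (limASec σ k x j)) atTop (𝓝 (tr (n l) (limAS σ k x))) :=
    ((continuous_tr (n l)).tendsto _).comp (h.limAS_tendsto k hx)
  refine (h.stage l).isCompact.isClosed.mem_of_tendsto h1 ?_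
  filter_upwards [eventually_ge_atTop l] with j hj
  exact h.tr_mem (by omega) (h.limASec_mem k hx j)

theorem IsTower.limASec_dm (h : IsTower m n P I w ε η σ H F G) (k : ℕ) {x : W} (hx : x ∈ P k)
    (j : ℕ) : dm (m k) (limASec σ k x j) x ≤ 20 * ε k * (1 - (1 / 2) ^ j) := by
  induction j with
  | zero =>
    show dm (m k) x x ≤ _
    rw [dm_self]
    simp
  | succ j ih =>
    have h1 := dm_triangle (m k) (limASec σ k x (j + 1)) (limASec σ k x j) x
    have h2 := dm_mono (h.m_mono (Nat.le_add_right k j)) (limASec σ k x (j + 1))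
      (limASec σ k x j)
    have h3 := h.limASec_step k hx j
    rw [pow_succ]
    nlinarith

theorem IsTower.limAS_dm (h : IsTower m n P I w ε η σ H F G) (k : ℕ) {x : W} (hx : x ∈ P k) :
    dm (m k) (limAS σ k x) x ≤ 20 * ε k := by
  have h0 : Continuous fun y : W => dm (m k) y x :=
    (continuous_dm (m k)).comp (continuous_id.prodMk continuous_const)
  have h1 : Tendsto (fun j => dm (m k) (limASec σ k x j) x) atTop
      (𝓝 (dm (m k) (limAS σ k x) x)) :=
    (h0.tendsto (limAS σ k x)).comp (h.limAS_tendsto k hx)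
  refine le_of_tendsto h1 (Eventually.of_forall fun j => ?_)
  refine (h.limASec_dm k hx j).trans ?_
  have h2 : (0 : ℝ) ≤ (1 / 2) ^ j := by positivity
  have h3 := h.pos k
  nlinarith

theorem IsTower.exists_sec (h : IsTower m n P I w ε η σ H F G) : ∃ S : ℕ → W → W,
    (∀ k, ContinuousOn (S k) (P k)) ∧ (∀ k, MapsTo (S k) (P k) (lim n P)) ∧
    (∀ k, ∀ x ∈ P k, dm (m k) (S k x) x ≤ 20 * ε k) ∧
    ∀ k, ∀ x ∈ P k, S (k + 1) (σ k x) = S k x := by
  refine ⟨limAS σ, h.limAS_cont, fun k x hx => h.limAS_mem k hx, fun k x hx => h.limAS_dm k hx,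
    fun k x hx => ?_⟩
  have h1 := h.limAS_tendsto (k + 1) ((h.ext k).mapS hx)
  have h2 : Tendsto (fun j => limASec σ k x (j + 1)) atTop (𝓝 (limAS σ k x)) :=
    (tendsto_add_atTop_iff_nat (f := fun j => limASec σ k x j) 1).2 (h.limAS_tendsto k hx)
  simp only [limASec_shift] at h2
  exact tendsto_nhds_unique h1 h2

end Pool.Agent.H71.ZW
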