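import Pool.Agent.H71.ZW.LimA
import Pool.Agent.H71.ZW.Glue

set_option autoImplicit false

/-!
# The limit of the tower: extension of maps to the open cone

Let `f : B → lim n P`. `tr (n k) ∘ f` extends to `f' k : Y → P k` (`IsStage.ae`). The maps `f' k` and
`tr (n k) ∘ f' (k + 1)` are homotopic in `P k` relative to `B` (`AE.homotopy`); let `h k` be the
homotopy. With the sections `S` of `IsTower.exists_sec` let, for `u ∈ [0, 1]`,
`Ψ (y, k + u / 2) = S k (h k (y, u))` and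
`Ψ (y, k + (1 + u) / 2) = S (k + 1) (H k (f' (k + 1) y, 1 - u))`; note
`S k (tr (n k) (f' (k + 1) y)) = S (k + 1) (σ k (tr (n k) (f' (k + 1) y)))
= S (k + 1) (H k (f' (k + 1) y, 1))`. For `y ∈ B` and `t ∈ [k, k + 1]`:
`dm (m k) (Ψ (y, t)) (f y) ≤ 20 * ε k` resp. `≤ 20 * ε (k + 1) + 10 * ε k`.
-/

namespace Pool.Agent.H71.ZW

open Set Topology TopologicalSpace Filter

variable {m n : ℕ → ℕ} {P : ℕ → Set W} {I : ℕ → Set ℕ} {w : ℕ → ℕ → W} {ε η : ℕ → ℝ}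
  {σ : ℕ → W → W} {H : ℕ → W × ℝ → W} {F G : ℕ → W × W → W}

/-- Gluing of maps on consecutive intervals. -/
private theorem LimB_glue {X Z : Type} [TopologicalSpace X] [TopologicalSpace Z]
    (G : ℕ → X × ℝ → Z)
    (hG : ∀ k : ℕ, ContinuousOn (G k) (univ ×ˢ Icc (k : ℝ) (k + 1)))
    (ha : ∀ (k : ℕ) (x : X), G k (x, (k : ℝ) + 1) = G (k + 1) (x, (k : ℝ) + 1)) :
    ∃ Ψ : X × ℝ → Z, ContinuousOn Ψ (univ ×ˢ Ici (0 : ℝ)) ∧
      ∀ k : ℕ, EqOn Ψ (G k) (univ ×ˢ Icc (k : ℝ) (k + 1)) := by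
  have hE : ∀ k : ℕ, EqOn (fun p : X × ℝ => G ⌊p.2⌋₊ p) (G k) (univ ×ˢ Icc (k : ℝ) (k + 1)) := by
    rintro k ⟨x, t⟩ ⟨-, ht⟩
    simp only [mem_Icc] at ht
    have h0 : 0 ≤ t := (Nat.cast_nonneg k).trans ht.1
    rcases lt_or_eq_of_le ht.2 with h1 | h1
    · have : ⌊t⌋₊ = k := (Nat.floor_eq_iff h0).2 ⟨ht.1, h1⟩
      simp only [this]
    · have : ⌊t⌋₊ = k + 1 := by
        refine (Nat.floor_eq_iff h0).2 ⟨?_, ?_⟩
        · push_cast
          exact h1.ge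
        · push_cast
          linarith
      simp only [this]
      rw [h1]
      exact (ha k x).symm
  refine ⟨fun p => G ⌊p.2⌋₊ p, ?_, hE⟩
  have hl : LocallyFinite fun k : ℕ => Icc (k : ℝ) (k + 1) := by
    intro x
    refine ⟨Iio (x + 1), Iio_mem_nhds (by linarith), ?_⟩
    refine (finite_Iic ⌈x + 1⌉₊).subset ?_
    rintro k ⟨t, ht, ht'⟩
    rw [mem_Iic]
    have h1 : (k : ℝ) ≤ ⌈x + 1⌉₊ := ht.1.trans (le_of_lt (lt_of_lt_of_le ht' (Nat.le_ceil _)))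
    exact_mod_cast h1
  have hl' : LocallyFinite fun k : ℕ => (univ ×ˢ Icc (k : ℝ) (k + 1) : Set (X × ℝ)) := by
    have := hl.preimage_continuous (continuous_snd (X := X) (Y := ℝ))
    refine this.subset fun k => ?_
    rintro ⟨x, t⟩ ⟨-, ht⟩
    exact ht
  have hc := hl'.continuousOn_iUnion (g := fun p : X × ℝ => G ⌊p.2⌋₊ p)
    (fun k => isClosed_univ.prod isClosed_Icc) (fun k => (hG k).congr (hE k))
  refine hc.mono ?_
  rintro ⟨x, t⟩ ⟨-, ht⟩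
  simp only [mem_Ici] at ht
  rw [mem_iUnion]
  exact ⟨⌊t⌋₊, mem_univ _, Nat.floor_le ht, (Nat.lt_floor_add_one t).le⟩

theorem IsTower.exists_psi (h : IsTower m n P I w ε η σ H F G) {Y : Type} [TopologicalSpace Y]
    [CompactSpace Y] [MetrizableSpace Y] {B : Set Y} {f : Y → W} (hB : IsClosed B)
    (hf : ContinuousOn f B) (hm : MapsTo f B (lim n P)) :
    ∃ Ψ : Y × ℝ → W, ContinuousOn Ψ (univ ×ˢ Ici (0 : ℝ)) ∧
      (∀ y, ∀ t : ℝ, 0 ≤ t → Ψ (y, t) ∈ lim n P) ∧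
      ∀ (k : ℕ), ∀ y ∈ B, ∀ t ∈ Icc (k : ℝ) (k + 1), dm (m k) (Ψ (y, t)) (f y) ≤ 30 * ε k := by
  -- extensions
  have h1 : ∀ k, ∃ F' : Y → W, Continuous F' ∧ (∀ y, F' y ∈ P k) ∧
      EqOn F' (fun y => tr (n k) (f y)) B := fun k =>
    (h.stage k).ae Y B _ hB ((continuous_tr (n k)).comp_continuousOn hf) fun y hy => hm hy k
  choose f' hf'c hf'm hf'e using h1
  have hn : ∀ k, n k ≤ n (k + 1) := fun k => (h.ext k).le
  -- homotopies
  have h2 : ∀ k, ∃ h' : Y × ℝ → W, ContinuousOn h' (univ ×ˢ Icc (0 : ℝ) 1) ∧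
      MapsTo h' (univ ×ˢ Icc (0 : ℝ) 1) (P k) ∧ (∀ x ∈ (univ : Set Y), h' (x, 0) = f' k x) ∧
      (∀ x ∈ (univ : Set Y), h' (x, 1) = tr (n k) (f' (k + 1) x)) ∧
      ∀ x ∈ B, ∀ t ∈ Icc (0 : ℝ) 1, h' (x, t) = f' k x := fun k =>
    AE.homotopy (h.stage k).ae isCompact_univ hB (subset_univ B) (hf'c k).continuousOn
      ((continuous_tr (n k)).comp (hf'c (k + 1))).continuousOn (fun y _ => hf'm k y)
      (fun y _ => (h.ext k).map _ (hf'm (k + 1) y)) (fun y hy => by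
        show f' k y = tr (n k) (f' (k + 1) y)
        rw [hf'e k hy, hf'e (k + 1) hy]
        exact (tr_tr (hn k) (f y)).symm)
  choose h' hh'c hh'm hh'0 hh'1 hh'B using h2
  obtain ⟨S, hSc, hSm, hSd, hSs⟩ := h.exists_sec
  -- the pieces
  have h3 : ∀ k : ℕ, ∃ G : Y × ℝ → W, ContinuousOn G (univ ×ˢ Icc (k : ℝ) (k + 1)) ∧
      EqOn G (fun p => S k (h' k (p.1, 2 * (p.2 - k)))) (univ ×ˢ Icc (k : ℝ) (k + 1 / 2)) ∧
      EqOn G (fun p => S (k + 1) (H k (f' (k + 1) p.1, 2 - 2 * (p.2 - k))))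
        (univ ×ˢ Icc ((k : ℝ) + 1 / 2) (k + 1)) := by
    intro k
    have c1 : ContinuousOn (fun p : Y × ℝ => S k (h' k (p.1, 2 * (p.2 - k))))
        (univ ×ˢ Icc (k : ℝ) (k + 1 / 2)) := by
      have hmap : MapsTo (fun p : Y × ℝ => (p.1, 2 * (p.2 - (k : ℝ))))
          (univ ×ˢ Icc (k : ℝ) (k + 1 / 2)) (univ ×ˢ Icc (0 : ℝ) 1) := by
        rintro ⟨x, t⟩ ⟨-, ht⟩
        simp only [mem_Icc] at ht
        refine ⟨mem_univ _, ?_, ?_⟩
        · show 0 ≤ 2 * (t - k)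
          linarith
        · show 2 * (t - k) ≤ 1
          linarith
      have hcc : ContinuousOn (fun p : Y × ℝ => h' k (p.1, 2 * (p.2 - (k : ℝ))))
          (univ ×ˢ Icc (k : ℝ) (k + 1 / 2)) :=
        (hh'c k).comp (f := fun p : Y × ℝ => (p.1, 2 * (p.2 - (k : ℝ))))
          (by fun_prop) hmap
      exact (hSc k).comp hcc fun p hp => hh'm k (hmap hp)
    have c2 : ContinuousOn (fun p : Y × ℝ => S (k + 1) (H k (f' (k + 1) p.1, 2 - 2 * (p.2 - k))))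
        (univ ×ˢ Icc ((k : ℝ) + 1 / 2) (k + 1)) := by
      have hmap : MapsTo (fun p : Y × ℝ => (f' (k + 1) p.1, 2 - 2 * (p.2 - (k : ℝ))))
          (univ ×ˢ Icc ((k : ℝ) + 1 / 2) (k + 1)) (P (k + 1) ×ˢ Icc (0 : ℝ) 1) := by
        rintro ⟨x, t⟩ ⟨-, ht⟩
        simp only [mem_Icc] at ht
        refine ⟨hf'm (k + 1) x, ?_, ?_⟩
        · show 0 ≤ 2 - 2 * (t - k)
          linarith
        · show 2 - 2 * (t - k) ≤ 1
          linarith
      have hcc : ContinuousOn (fun p : Y × ℝ => H k (f' (k + 1) p.1, 2 - 2 * (p.2 - (k : ℝ))))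
          (univ ×ˢ Icc ((k : ℝ) + 1 / 2) (k + 1)) :=
        (h.ext k).contH.comp
          (f := fun p : Y × ℝ => (f' (k + 1) p.1, 2 - 2 * (p.2 - (k : ℝ))))
          (by
            have := hf'c (k + 1)
            fun_prop) hmap
      exact (hSc (k + 1)).comp hcc fun p hp => (h.ext k).mapH (hmap hp)
    obtain ⟨G, hGc, hG1, hG2⟩ := exists_glue₂ (isClosed_univ.prod isClosed_Icc)
      (isClosed_univ.prod isClosed_Icc) c1 c2 (by
        rintro ⟨x, t⟩ ⟨-, ht⟩ ⟨-, ht'⟩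
        simp only [mem_Icc] at ht ht'
        have ht0 : t = k + 1 / 2 := le_antisymm ht.2 ht'.1
        have e1 : 2 * (t - k) = 1 := by rw [ht0]; ring
        have e2 : (2 : ℝ) - 1 = 1 := by norm_num
        show S k (h' k (x, 2 * (t - k))) = S (k + 1) (H k (f' (k + 1) x, 2 - 2 * (t - k)))
        rw [e1, e2, hh'1 k x (mem_univ _), (h.ext k).H1 _ (hf'm (k + 1) x),
          hSs k _ ((h.ext k).map _ (hf'm (k + 1) x))])
    refine ⟨G, hGc.mono ?_, hG1, hG2⟩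
    rintro ⟨x, t⟩ ⟨-, ht⟩
    simp only [mem_Icc] at ht
    rcases le_total t (k + 1 / 2) with h0 | h0
    · exact Or.inl ⟨mem_univ _, ht.1, h0⟩
    · exact Or.inr ⟨mem_univ _, h0, ht.2⟩
  choose G hGc hG1 hG2 using h3
  obtain ⟨Ψ, hΨc, hΨe⟩ := LimB_glue G hGc (by
    intro k x
    rw [hG2 k (x := (x, (k : ℝ) + 1)) ⟨mem_univ _, by
        show (k : ℝ) + 1 / 2 ≤ k + 1
        linarith, le_refl _⟩,
      hG1 (k + 1) (x := (x, (k : ℝ) + 1)) ⟨mem_univ _, by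
        show (((k + 1 : ℕ) : ℝ)) ≤ k + 1
        push_cast
        exact le_refl _, by
        show (k : ℝ) + 1 ≤ ((k + 1 : ℕ) : ℝ) + 1 / 2
        push_cast
        linarith⟩]
    have e1 : 2 - 2 * ((k : ℝ) + 1 - k) = 0 := by ring
    have e2 : 2 * ((k : ℝ) + 1 - ((k + 1 : ℕ) : ℝ)) = 0 := by push_cast; ring
    show S (k + 1) (H k (f' (k + 1) x, 2 - 2 * ((k : ℝ) + 1 - k))) =
      S (k + 1) (h' (k + 1) (x, 2 * ((k : ℝ) + 1 - ((k + 1 : ℕ) : ℝ))))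
    rw [e1, e2, (h.ext k).H0 _ (hf'm (k + 1) x), hh'0 (k + 1) x (mem_univ _)])
  -- values
  have hval : ∀ (k : ℕ) (y : Y) (t : ℝ), t ∈ Icc (k : ℝ) (k + 1) →
      (∃ u ∈ Icc (0 : ℝ) 1, Ψ (y, t) = S k (h' k (y, u))) ∨
        ∃ u ∈ Icc (0 : ℝ) 1, Ψ (y, t) = S (k + 1) (H k (f' (k + 1) y, u)) := by
    intro k y t ht
    have e := hΨe k (x := (y, t)) ⟨mem_univ _, ht⟩
    simp only [mem_Icc] at ht
    rcases le_total t (k + 1 / 2) with h0 | h0
    · left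
      refine ⟨2 * (t - k), ⟨by linarith, by linarith⟩, ?_⟩
      rw [e]
      exact hG1 k (x := (y, t)) ⟨mem_univ _, ht.1, h0⟩
    · right
      refine ⟨2 - 2 * (t - k), ⟨by linarith, by linarith⟩, ?_⟩
      rw [e]
      exact hG2 k (x := (y, t)) ⟨mem_univ _, h0, ht.2⟩
  refine ⟨Ψ, hΨc, fun y t ht => ?_, fun k y hy t ht => ?_⟩
  · rcases hval ⌊t⌋₊ y t ⟨Nat.floor_le ht, (Nat.lt_floor_add_one t).le⟩ with
      ⟨u, hu, e⟩ | ⟨u, hu, e⟩
    · rw [e]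
      exact hSm _ (hh'm _ (x := (y, u)) ⟨mem_univ _, hu⟩)
    · rw [e]
      exact hSm _ ((h.ext _).mapH (x := (f' (⌊t⌋₊ + 1) y, u)) ⟨hf'm _ y, hu⟩)
  · have hε := h.pos k
    have hfy : ∀ l, f' l y = tr (n l) (f y) := fun l => hf'e l hy
    rcases hval k y t ht with ⟨u, hu, e⟩ | ⟨u, hu, e⟩
    · rw [e, hh'B k y hy u hu]
      have h5 := hSd k _ (hf'm k y)
      have h6 : dm (m k) (f' k y) (f y) = 0 := by
        rw [hfy k]
        exact dm_eq_zero fun i hi => tr_lt (lt_of_lt_of_le hi (h.m_le k)) _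
      have h7 := dm_triangle (m k) (S k (f' k y)) (f' k y) (f y)
      linarith
    · rw [e]
      have hq : H k (f' (k + 1) y, u) ∈ P (k + 1) :=
        (h.ext k).mapH (x := (f' (k + 1) y, u)) ⟨hf'm _ y, hu⟩
      have h5 := hSd (k + 1) _ hq
      have h5' := dm_mono (h.m_mono (Nat.le_succ k)) (S (k + 1) (H k (f' (k + 1) y, u)))
        (H k (f' (k + 1) y, u))
      have h8 := h.ctlH k _ (hf'm (k + 1) y) u hu
      have h6 : dm (m k) (f' (k + 1) y) (f y) = 0 := by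
        rw [hfy (k + 1)]
        exact dm_eq_zero fun i hi =>
          tr_lt (lt_of_lt_of_le hi ((h.m_le k).trans (hn k))) _
      have h7 := dm_triangle (m k) (S (k + 1) (H k (f' (k + 1) y, u))) (H k (f' (k + 1) y, u)) (f y)
      have h9 := dm_triangle (m k) (H k (f' (k + 1) y, u)) (f' (k + 1) y) (f y)
      have h10 := h.half k
      linarith

end Pool.Agent.H71.ZW
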