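import Pool.Agent.H71.ZW.Basic

set_option autoImplicit false

/-!
# The limit of the tower: an extension criterion

Proof. Let `f : B → X` be given (`B` closed in the compact metrizable space `Y`; fix a metric; the
case `B = ∅` is trivial: take `Ψ (y, 0)`), and `Ψ` as in the hypothesis. By compactness (uniform
continuity of `Ψ` on `Y × [k, k + 1]`) there is `δ k > 0` such that for every `y` with
`infDist y B ≤ δ k` there is `b ∈ B` with `dist y b ≤ 1 / (k + 1)` and
`dm (m k) (Ψ (y, t)) (Ψ (b, t)) ≤ 1 / (k + 1)` for all `t ∈ [k, k + 1]`. Let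
`u y = ∑' k, 2⁻¹ ^ (k + 1) * min 1 (infDist y B / δ k)`, a continuous function which vanishes exactly
on `B`; if `u y < 2⁻¹ ^ (k + 1)` then `infDist y B < δ k`. Let `F y = f y` on `B` and
`F y = Ψ (y, max 0 (- Real.logb 2 (u y) - 2))` outside `B`. Near `b₀ ∈ B` the second
coordinate `t` is large, say in `[k, k + 1]`, then `u y < 2⁻¹ ^ (k + 1)`, so with the point `b` from
above `dm (m k) (F y) (f b) ≤ 1 / (k + 1) + ε k`, and `b` is close to `y`, so `f b` is close to `f b₀`.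
-/

namespace Pool.Agent.H71.ZW

open Set Topology TopologicalSpace Filter

theorem limC_unif (m : ℕ) {r : ℝ} (hr : 0 < r) : {p : W × W | dm m p.1 p.2 < r} ∈ uniformity W := by
  rw [uniformity_eq_comap_nhds_zero W, mem_comap]
  have hc : Continuous fun z : W => dm m 0 z :=
    (continuous_dm m).comp (continuous_const.prodMk continuous_id)
  refine ⟨{z | dm m 0 z < r}, ?_, ?_⟩
  · apply (isOpen_Iio.preimage hc).mem_nhds
    show dm m 0 0 < r
    rw [dm_self]
    exact hr
  · rintro ⟨x, y⟩ h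
    change dm m 0 (y - x) < r at h
    change dm m x y < r
    convert h using 1
    simp only [dm]
    refine Finset.sum_congr rfl fun i _ => ?_
    rw [Pi.sub_apply, Pi.zero_apply, zero_sub, neg_sub]

theorem limC_delta {Y : Type} [MetricSpace Y] [CompactSpace Y] {Ψ : Y × ℝ → W}
    (hΨ : ContinuousOn Ψ (univ ×ˢ Ici (0 : ℝ))) (m k : ℕ) :
    ∃ δ : ℝ, 0 < δ ∧ δ ≤ 1 / ((k : ℝ) + 1) ∧ ∀ y b : Y, dist y b < δ →
      ∀ t ∈ Icc (k : ℝ) (k + 1), dm m (Ψ (y, t)) (Ψ (b, t)) ≤ 1 / ((k : ℝ) + 1) := by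
  have hk : (0 : ℝ) < 1 / ((k : ℝ) + 1) := by positivity
  have hK : IsCompact ((univ : Set Y) ×ˢ Icc (k : ℝ) (k + 1)) := isCompact_univ.prod isCompact_Icc
  have hsub : ((univ : Set Y) ×ˢ Icc (k : ℝ) (k + 1)) ⊆ univ ×ˢ Ici (0 : ℝ) :=
    prod_mono subset_rfl fun t ht => le_trans (Nat.cast_nonneg k) ht.1
  have hu := hK.uniformContinuousOn_of_continuous (hΨ.mono hsub)
  have h1 := hu (limC_unif m hk)
  rw [mem_map, mem_inf_principal, Metric.mem_uniformity_dist] at h1
  obtain ⟨δ, hδ, h2⟩ := h1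
  refine ⟨min δ (1 / ((k : ℝ) + 1)), lt_min hδ hk, min_le_right _ _, fun y b hyb t ht => ?_⟩
  have h3 : dist (y, t) (b, t) < δ := by
    rw [Prod.dist_eq, dist_self]
    exact max_lt (hyb.trans_le (min_le_left _ _)) hδ
  exact (h2 h3 ⟨⟨mem_univ _, ht⟩, ⟨mem_univ _, ht⟩⟩ : dm m (Ψ (y, t)) (Ψ (b, t)) < _).le

theorem limC_u {Y : Type} [MetricSpace Y] {B : Set Y} (hB : IsClosed B) (hne : B.Nonempty)
    {δ : ℕ → ℝ} (hδ : ∀ k, 0 < δ k) :
    ∃ u : Y → ℝ, Continuous u ∧ (∀ y ∈ B, u y = 0) ∧ (∀ y, y ∉ B → 0 < u y) ∧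
      ∀ (k : ℕ) (y : Y), u y < (1 / 2) ^ (k + 1) → Metric.infDist y B < δ k := by
  let g : ℕ → Y → ℝ := fun k y => (1 / 2) ^ (k + 1) * min 1 (Metric.infDist y B / δ k)
  have hg0 : ∀ k y, 0 ≤ g k y := fun k y =>
    mul_nonneg (by positivity) (le_min zero_le_one (div_nonneg Metric.infDist_nonneg (hδ k).le))
  have hg1 : ∀ k y, g k y ≤ (1 / 2) ^ (k + 1) := fun k y => by
    have h := mul_le_mul_of_nonneg_left (min_le_left 1 (Metric.infDist y B / δ k))
      (by positivity : (0 : ℝ) ≤ (1 / 2) ^ (k + 1))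
    rw [mul_one] at h
    exact h
  have hs : Summable fun k : ℕ => ((1 / 2 : ℝ)) ^ (k + 1) :=
    (summable_nat_add_iff 1).2 (summable_geometric_of_lt_one (by norm_num) (by norm_num))
  have hgs : ∀ y, Summable fun k => g k y := fun y =>
    Summable.of_nonneg_of_le (fun k => hg0 k y) (fun k => hg1 k y) hs
  have hgc : ∀ k, Continuous (g k) := fun k => by
    have := Metric.continuous_infDist_pt B
    exact continuous_const.mul (continuous_const.min (this.div_const _))
  refine ⟨fun y => ∑' k, g k y, ?_, ?_, ?_, ?_⟩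
  · refine continuous_tsum hgc hs fun k y => ?_
    rw [Real.norm_of_nonneg (hg0 k y)]
    exact hg1 k y
  · intro y hy
    have h0 : ∀ k, g k y = 0 := fun k => by
      simp [g, Metric.infDist_zero_of_mem hy]
    simp [h0]
  · intro y hy
    have h1 : 0 < Metric.infDist y B := (hB.notMem_iff_infDist_pos hne).1 hy
    refine (hgs y).tsum_pos (hg0 · y) 0 ?_
    exact mul_pos (by positivity) (lt_min zero_lt_one (div_pos h1 (hδ 0)))
  · intro k y h
    by_contra hcon
    rw [not_lt] at hcon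
    have h1 : min 1 (Metric.infDist y B / δ k) = 1 := min_eq_left ((one_le_div (hδ k)).2 hcon)
    have h2 : g k y = (1 / 2) ^ (k + 1) := by simp only [g, h1, mul_one]
    have h3 : g k y ≤ ∑' k, g k y := (hgs y).le_tsum k fun j _ => hg0 j y
    rw [h2] at h3
    exact absurd h (not_lt.2 h3)

theorem ae_of_psi {X : Set W} {m : ℕ → ℕ} {ε : ℕ → ℝ} (hm : Tendsto m atTop atTop)
    (hε : Tendsto ε atTop (𝓝 0))
    (h : ∀ (Y : Type) [TopologicalSpace Y] [CompactSpace Y] [MetrizableSpace Y] (B : Set Y)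
      (f : Y → W), IsClosed B → ContinuousOn f B → MapsTo f B X →
      ∃ Ψ : Y × ℝ → W, ContinuousOn Ψ (univ ×ˢ Ici (0 : ℝ)) ∧
        (∀ y, ∀ t : ℝ, 0 ≤ t → Ψ (y, t) ∈ X) ∧
        ∀ (k : ℕ), ∀ y ∈ B, ∀ t ∈ Icc (k : ℝ) (k + 1), dm (m k) (Ψ (y, t)) (f y) ≤ ε k) :
    AE X := by
  classical
  intro Y _ _ _ B f hB hf hfX
  obtain ⟨Ψ, hΨc, hΨX, hΨf⟩ := h Y B f hB hf hfX
  letI : MetricSpace Y := metrizableSpaceMetric Y
  rcases B.eq_empty_or_nonempty with hBe | hne
  · refine ⟨fun y => Ψ (y, 0), ?_, fun y => hΨX y 0 le_rfl, ?_⟩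
    · exact hΨc.comp_continuous (continuous_id.prodMk continuous_const)
        fun y => ⟨mem_univ _, le_refl (0 : ℝ)⟩
    · rw [hBe]
      exact fun y hy => absurd hy (notMem_empty y)
  choose δ hδ hδk hδc using fun k => limC_delta hΨc (m k) k
  obtain ⟨u, huc, hu0, hupos, huδ⟩ := limC_u hB hne hδ
  let T : Y → ℝ := fun y => max 0 (- Real.logb 2 (u y) - 2)
  have hT0 : ∀ y, 0 ≤ T y := fun y => le_max_left _ _
  have hTu : ∀ (k : ℕ), 1 ≤ k → ∀ y, y ∉ B → (k : ℝ) ≤ T y → u y < (1 / 2) ^ (k + 1) := by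
    intro k hk y hy hkT
    have hk' : (1 : ℝ) ≤ k := by exact_mod_cast hk
    have h1 : (k : ℝ) ≤ - Real.logb 2 (u y) - 2 := by
      rcases le_max_iff.1 hkT with h2 | h2
      · linarith
      · exact h2
    have h2 : Real.logb 2 (u y) < -((k + 1 : ℕ) : ℝ) := by
      push_cast
      linarith
    have h3 := (Real.logb_lt_iff_lt_rpow one_lt_two (hupos y hy)).1 h2
    rw [Real.rpow_neg zero_le_two, Real.rpow_natCast] at h3
    rw [one_div, inv_pow]
    exact h3
  have hTlim : ∀ b ∈ B, ∀ K : ℝ, ∀ᶠ y in 𝓝 b, y ∉ B → K ≤ T y := by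
    intro b hb K
    have h1 : Tendsto u (𝓝 b) (𝓝 0) := by
      have := huc.tendsto b
      rwa [hu0 b hb] at this
    have h2 : ∀ᶠ y in 𝓝 b, u y < (2 : ℝ) ^ (-(K + 2)) :=
      h1.eventually (gt_mem_nhds (by positivity))
    filter_upwards [h2] with y hy hyB
    refine le_max_of_le_right ?_
    have h3 := (Real.logb_lt_iff_lt_rpow one_lt_two (hupos y hyB)).2 hy
    linarith
  let F : Y → W := fun y => if y ∈ B then f y else Ψ (y, T y)
  have hFB : ∀ y ∈ B, F y = f y := fun y hy => if_pos hy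
  have hFN : ∀ y, y ∉ B → F y = Ψ (y, T y) := fun y hy => if_neg hy
  refine ⟨F, ?_, ?_, fun y hy => hFB y hy⟩
  · rw [continuous_iff_continuousAt]
    intro y₀
    by_cases hy₀ : y₀ ∈ B
    · rw [ContinuousAt, hFB y₀ hy₀, tendsto_pi_nhds]
      intro i
      rw [Metric.tendsto_nhds]
      intro e he
      -- the coordinate of f is continuous on B
      have h1 : ∀ᶠ y in 𝓝[B] y₀, dist (f y i) (f y₀ i) < e / 3 := by
        have h2 := tendsto_pi_nhds.1 (hf y₀ hy₀) i
        exact Metric.tendsto_nhds.1 h2 (e / 3) (by positivity)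
      rw [eventually_nhdsWithin_iff, Metric.eventually_nhds_iff] at h1
      obtain ⟨ρ, hρ, hρf⟩ := h1
      -- the index
      have h4 : ∀ᶠ k in atTop, i < m k ∧ ε k < e / 3 ∧ 1 / ((k : ℝ) + 1) < min (e / 3) (ρ / 2) := by
        have h5 := hm.eventually (eventually_gt_atTop i)
        have h6 := hε.eventually (gt_mem_nhds (by positivity : 0 < e / 3))
        have h7 := (tendsto_one_div_add_atTop_nhds_zero_nat (𝕜 := ℝ)).eventually
          (gt_mem_nhds (lt_min (by positivity : 0 < e / 3) (by positivity : 0 < ρ / 2)))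
        exact (h5.and (h6.and h7))
      obtain ⟨K, hK⟩ := eventually_atTop.1 h4
      have h8 : ∀ᶠ y in 𝓝 y₀, dist y y₀ < ρ / 2 := Metric.ball_mem_nhds y₀ (by positivity)
      filter_upwards [h8, hTlim y₀ hy₀ ((K + 1 : ℕ) : ℝ)] with y hy1 hy2
      by_cases hyB : y ∈ B
      · rw [hFB y hyB]
        exact (hρf (by linarith) hyB).trans (by linarith)
      · have hy3 := hy2 hyB
        set k := ⌊T y⌋₊ with hk
        have hk1 : (k : ℝ) ≤ T y := Nat.floor_le (hT0 y)
        have hk2 : T y ≤ (k : ℝ) + 1 := (Nat.lt_floor_add_one (T y)).le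
        have hkK : K + 1 ≤ k := Nat.le_floor hy3
        have hd := huδ k y (hTu k (by omega) y hyB hk1)
        obtain ⟨b, hbB, hyb⟩ := (Metric.infDist_lt_iff hne).1 hd
        obtain ⟨hi, hεk, hk3⟩ := hK k (by omega)
        have hk4 := lt_min_iff.1 hk3
        have a1 := hδc k y b hyb (T y) ⟨hk1, hk2⟩
        have a2 := hΨf k b hbB (T y) ⟨hk1, hk2⟩
        have a3 := norm_sub_le_dm hi (Ψ (y, T y)) (Ψ (b, T y))
        have a4 := norm_sub_le_dm hi (Ψ (b, T y)) (f b)
        have hb1 : dist b y₀ < ρ := by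
          have := dist_triangle b y y₀
          have h9 : dist b y < ρ / 2 := by
            rw [dist_comm]
            exact hyb.trans_le ((hδk k).trans hk4.2.le)
          linarith
        have a5 := hρf hb1 hbB
        rw [hFN y hyB]
        have a6 := dist_triangle4 (Ψ (y, T y) i) (Ψ (b, T y) i) (f b i) (f y₀ i)
        have e1 : dist (Ψ (y, T y) i) (Ψ (b, T y) i) = ‖Ψ (y, T y) i - Ψ (b, T y) i‖ :=
          dist_eq_norm _ _
        have e2 : dist (Ψ (b, T y) i) (f b i) = ‖Ψ (b, T y) i - f b i‖ := dist_eq_norm _ _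
        rw [e1, e2] at a6
        linarith [hk4.1]
    · have hop : Bᶜ ∈ 𝓝 y₀ := hB.isOpen_compl.mem_nhds hy₀
      have hTc : ContinuousAt T y₀ := by
        have h1 : ContinuousAt (fun y => Real.logb 2 (u y)) y₀ :=
          (Real.continuousAt_log (hupos y₀ hy₀).ne').comp huc.continuousAt |>.div_const _
        exact continuousAt_const.max ((h1.neg).sub continuousAt_const)
      have h2 : Tendsto (fun y => (y, T y)) (𝓝 y₀) (𝓝[univ ×ˢ Ici (0 : ℝ)] (y₀, T y₀)) := by
        refine tendsto_nhdsWithin_iff.2 ⟨(continuousAt_id.prodMk hTc), ?_⟩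
        exact Eventually.of_forall fun y => ⟨mem_univ _, hT0 y⟩
      have h3 : Tendsto (fun y => Ψ (y, T y)) (𝓝 y₀) (𝓝 (Ψ (y₀, T y₀))) :=
        (hΨc (y₀, T y₀) ⟨mem_univ _, hT0 y₀⟩).tendsto.comp h2
      rw [ContinuousAt, hFN y₀ hy₀]
      refine h3.congr' ?_
      filter_upwards [hop] with y hy
      exact (hFN y hy).symm
  · intro y
    by_cases hy : y ∈ B
    · rw [hFB y hy]
      exact hfX hy
    · rw [hFN y hy]
      exact hΨX y _ (hT0 y)

end Pool.Agent.H71.ZW
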