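import Pool.Agent.H71.ZW.Basic
import Pool.Agent.H71.ZW.Ext
import Pool.Agent.H72.Zp.Defs

set_option autoImplicit false

/-!
# Compact absolute extensors in `W` are compact absolute retracts

* `compactAR_of_ae`: let `i : X → Y` be a closed embedding, `Y` metrizable. `X` is bounded, so it
  is contained in a compact box `Q` of `W` (closed balls in the coordinates). Extend the map
  `i '' X → X → Q` to `Y → Q` coordinatewise (Tietze), and compose with a retraction `Q → X`
  (`AE` for the compact metrizable space `Q`).
* `exists_small`: let `Q` be a compact convex box which contains `X`, `r : Q → X` the retraction. Every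
  member of the cover is open; by compactness (Lebesgue number) there are `M`, `δ` such that for
  `x ∈ X` and `y ∈ Q`, if `dm M y x ≤ δ` then `r y` is in the same member `u` of the cover, where `u`
  depends only on `x`. Use the homotopy `r ((1 - t) • f z + t • g z)`.
-/

namespace Pool.Agent.H71.ZW

open Set Topology TopologicalSpace
open Pool.Agent.H72.Zp (CompactAR HDD00 IsZPoint OpenCover UNear UHomotopic Cube)

theorem compactAR_of_ae {X : Set W} (hc : IsCompact X) (hne : X.Nonempty) (ha : AE X) :
    CompactAR X := by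
  refine ⟨isCompact_iff_compactSpace.1 hc, inferInstance, ?_⟩
  intro Y _ _ i hi
  -- bounds of the coordinates
  have hb : ∀ (n : ℕ) (k : Fin 12), ∃ a : ℝ, ∀ x ∈ X, x n k ∈ Icc (-a) a := by
    intro n k
    have hcont : Continuous fun x : W => x n k :=
      (continuous_apply k).comp (continuous_apply n)
    have h1 : IsCompact ((fun x : W => x n k) '' X) := hc.image hcont
    obtain ⟨a, ha1⟩ := h1.isBounded.subset_closedBall 0
    refine ⟨a, fun x hx => ?_⟩
    have h2 := ha1 (mem_image_of_mem _ hx)
    rw [Real.closedBall_eq_Icc, zero_sub, zero_add] at h2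
    exact h2
  choose a hab using hb
  -- extension of the coordinates
  have hext : ∀ (n : ℕ) (k : Fin 12), ∃ g : C(Y, ℝ), (∀ y, g y ∈ Icc (-a n k) (a n k)) ∧
      ∀ x : X, g (i x) = (x : W) n k := by
    intro n k
    have hcont : Continuous fun x : X => (x : W) n k :=
      (continuous_apply k).comp ((continuous_apply n).comp continuous_subtype_val)
    obtain ⟨x0, hx0⟩ := hne
    obtain ⟨g, hg1, hg2⟩ := ContinuousMap.exists_extension_forall_mem_of_isClosedEmbedding
      (⟨fun x : X => (x : W) n k, hcont⟩ : C(X, ℝ)) (t := Icc (-a n k) (a n k))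
      (fun x => hab n k x x.2) ⟨x0 n k, hab n k x0 hx0⟩ hi
    exact ⟨g, hg1, fun x => congrFun hg2 x⟩
  choose g hg1 hg2 using hext
  -- the box
  let Q : Set W := Set.pi univ fun n => Set.pi univ fun k => Icc (-a n k) (a n k)
  have hQ : IsCompact Q := isCompact_univ_pi fun n => isCompact_univ_pi fun k => isCompact_Icc
  have : CompactSpace Q := isCompact_iff_compactSpace.1 hQ
  obtain ⟨F, hF1, hF2, hF3⟩ := ha Q {q : Q | (q : W) ∈ X} (fun q => (q : W))
    (hc.isClosed.preimage continuous_subtype_val) continuous_subtype_val.continuousOn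
    (fun q hq => hq)
  have hGc : Continuous fun y : Y => (fun n k => g n k y : W) :=
    continuous_pi fun n => continuous_pi fun k => (g n k).continuous
  have hGQ : ∀ y : Y, (fun n k => g n k y : W) ∈ Q := fun y n _ k _ => hg1 n k y
  refine ⟨⟨fun y => ⟨F ⟨fun n k => g n k y, hGQ y⟩, hF2 _⟩,
    (hF1.comp (hGc.subtype_mk hGQ)).subtype_mk _⟩, fun x => ?_⟩
  apply Subtype.ext
  have h1 : (⟨fun n k => g n k (i x), hGQ (i x)⟩ : Q) =
      ⟨(x : W), fun n _ k _ => hab n k x x.2⟩ := by
    apply Subtype.ext
    funext n k
    exact hg2 n k x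
  show F ⟨fun n k => g n k (i x), hGQ (i x)⟩ = x
  rw [h1]
  exact hF3 x.2

end Pool.Agent.H71.ZW
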