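import Pool.Agent.H71.ZW.LimD
import Pool.Agent.H71.ZW.Ess
import Pool.Agent.H71.ZW.Glue

set_option autoImplicit false

/-!
# Spaces without `Z₂`-points

Let `x` be a `Z₂`-point of `X`. The loops `cur I (c t)` and `cur I (up (1 / 2) (c t))` (`c` from
`exists_loop`) have disjoint images (the coordinate `i₀ ∈ I` has height `0` resp. `1 / 2`), so one of
them, `γ`, misses `x`, and so do all points close to it: there are `M₀`, `δ₀ > 0` with
`dm M₀ x (γ t) > δ₀` for all `t ∈ [0, 1]`. Let `f : [0, 1]² → X` be an extension of the map of the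
boundary which is `γ` on the side `{(t, 0)}` and constant on the other three sides (`AE`), `c'`, `M'`, `δ'`
from `exists_close` (for `M₀`, `δ₀`), and `U` from `exists_cover` for `M'`, `δ'`. Let `g` be `U`-near to
`f` with `x ∉ g`. Let `q = (1 / 2, 1 / 2)`, `a = max ‖p - q‖ (1 / 4)`,
`π p = q + (2 * a)⁻¹ • (p - q)` (sup norm; the inner square of side `1 / 2` is mapped
onto the square, the rest is mapped to the boundary, the boundary is fixed) and
`λ p = min 1 (2 - 4 * ‖p - q‖)`; let `G p = c' ((f (π p), g (π p)), λ p)`. `G` misses `x`: if `λ p = 1`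
then `G p = g (π p)`, otherwise `π p` is in the boundary, `f (π p) = γ t` for some `t ∈ [0, 1]` and `G p` is
close to it. On the boundary `G = f`. The image of `G` is compact and misses `x`, so by `hw` there
is `i ∈ I` such that `G` misses all points `y` with `y i = apex`. Then
`F p = dn (ht (G p i)) (G p i)` contradicts `exists_loop` (`dn (1 / 2) (up (1 / 2) κ) = κ`).
-/

namespace Pool.Agent.H71.ZW

open Set Topology TopologicalSpace
open Pool.Agent.H72.Zp (CompactAR HDD00 IsZPoint OpenCover UNear UHomotopic Cube)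

/-- The centre of the square. -/
private noncomputable def nonz_q : ℝ × ℝ := (1 / 2, 1 / 2)

/-- The radial stretching of the square. -/
private noncomputable def nonz_pi (p : ℝ × ℝ) : ℝ × ℝ :=
  nonz_q + (2 * max ‖p - nonz_q‖ (1 / 4))⁻¹ • (p - nonz_q)

private theorem nonz_continuous_pi : Continuous nonz_pi := by
  have h1 : Continuous fun p : ℝ × ℝ => (2 * max ‖p - nonz_q‖ (1 / 4))⁻¹ := by
    apply Continuous.inv₀
    · fun_prop
    · intro p
      have : (1 / 4 : ℝ) ≤ max ‖p - nonz_q‖ (1 / 4) := le_max_right _ _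
      linarith
  have h2 : Continuous fun p : ℝ × ℝ => p - nonz_q := by fun_prop
  exact continuous_const.add (h1.smul h2)

private theorem nonz_mem_iff (p : ℝ × ℝ) :
    p ∈ Icc (0 : ℝ) 1 ×ˢ Icc (0 : ℝ) 1 ↔ ‖p - nonz_q‖ ≤ 1 / 2 := by
  rw [Prod.norm_def, max_le_iff, Real.norm_eq_abs, Real.norm_eq_abs, abs_le, abs_le]
  simp only [nonz_q, mem_prod, mem_Icc, Prod.fst_sub, Prod.snd_sub]
  constructor
  · rintro ⟨⟨h1, h2⟩, h3, h4⟩
    exact ⟨⟨by linarith, by linarith⟩, by linarith, by linarith⟩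
  · rintro ⟨⟨h1, h2⟩, h3, h4⟩
    exact ⟨⟨by linarith, by linarith⟩, by linarith, by linarith⟩

private theorem nonz_bdr {p : ℝ × ℝ} (h : ‖p - nonz_q‖ = 1 / 2) :
    (p.1 ∈ Icc (0 : ℝ) 1 ∧ p.2 ∈ Icc (0 : ℝ) 1) ∧ (p.2 = 0 ∨ p.2 = 1 ∨ p.1 = 0 ∨ p.1 = 1) := by
  have h1 := (nonz_mem_iff p).2 h.le
  refine ⟨h1, ?_⟩
  rw [Prod.norm_def, Real.norm_eq_abs, Real.norm_eq_abs] at h
  simp only [nonz_q, Prod.fst_sub, Prod.snd_sub] at h
  rcases max_choice |p.1 - 1 / 2| |p.2 - 1 / 2| with h2 | h2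
  · rw [h2] at h
    rcases abs_eq (by norm_num : (0 : ℝ) ≤ 1 / 2) |>.1 h with h3 | h3
    · right; right; right; linarith
    · right; right; left; linarith
  · rw [h2] at h
    rcases abs_eq (by norm_num : (0 : ℝ) ≤ 1 / 2) |>.1 h with h3 | h3
    · right; left; linarith
    · left; linarith

private theorem nonz_norm_pi (p : ℝ × ℝ) :
    ‖nonz_pi p - nonz_q‖ = (2 * max ‖p - nonz_q‖ (1 / 4))⁻¹ * ‖p - nonz_q‖ := by
  have : (1 / 4 : ℝ) ≤ max ‖p - nonz_q‖ (1 / 4) := le_max_right _ _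
  unfold nonz_pi
  rw [add_sub_cancel_left, norm_smul, Real.norm_of_nonneg]
  positivity

private theorem nonz_pi_le (p : ℝ × ℝ) : ‖nonz_pi p - nonz_q‖ ≤ 1 / 2 := by
  have h1 : (1 / 4 : ℝ) ≤ max ‖p - nonz_q‖ (1 / 4) := le_max_right _ _
  have h2 : ‖p - nonz_q‖ ≤ max ‖p - nonz_q‖ (1 / 4) := le_max_left _ _
  rw [nonz_norm_pi, inv_mul_le_iff₀ (by linarith)]
  linarith

private theorem nonz_pi_eq {p : ℝ × ℝ} (h : 1 / 4 ≤ ‖p - nonz_q‖) :
    ‖nonz_pi p - nonz_q‖ = 1 / 2 := by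
  rw [nonz_norm_pi, max_eq_left h]
  have : ‖p - nonz_q‖ ≠ 0 := by
    intro h0
    rw [h0] at h
    norm_num at h
  field_simp

private theorem nonz_pi_fix {p : ℝ × ℝ} (h : ‖p - nonz_q‖ = 1 / 2) : nonz_pi p = p := by
  unfold nonz_pi
  rw [h, max_eq_left (by norm_num)]
  norm_num

/-- The map of the plane onto the cube. -/
private noncomputable def nonz_cube (p : ℝ × ℝ) : Cube 2 := fun i =>
  if i = 0 then projIcc 0 1 zero_le_one p.1 else projIcc 0 1 zero_le_one p.2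

private theorem nonz_continuous_cube : Continuous nonz_cube := by
  refine continuous_pi fun i => ?_
  unfold nonz_cube
  by_cases h : i = 0
  · simp only [h, if_true]
    exact continuous_projIcc.comp continuous_fst
  · simp only [h, if_false]
    exact continuous_projIcc.comp continuous_snd

private theorem nonz_abs_ht (κ κ' : E) : |ht κ - ht κ'| ≤ ‖κ - κ'‖ := by
  have h := norm_le_pi_norm (κ - κ') 11
  rw [Real.norm_eq_abs] at h
  exact h

theorem not_isZPoint {X : Set W} (hc : IsCompact X) (ha : AE X) {I : Set ℕ} (hI : I.Nonempty)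
    (hcone : ∀ i ∈ I, ∀ x ∈ X, x i ∈ cK)
    (hw : ∀ x ∈ X, ∀ U : Set W, IsOpen U → x ∈ U → ∃ i ∈ I, ∀ y ∈ X, y i = apex → y ∈ U)
    (hdiag : ∀ κ ∈ cK, ht κ ≤ 1 / 2 → cur I κ ∈ X) (x : X) : ¬ IsZPoint 2 x := by
  intro hZ
  obtain ⟨i₀, hi₀⟩ := hI
  obtain ⟨c, hcc, hcK, hc0, hc1, hno⟩ := exists_loop
  -- the height of the loop
  obtain ⟨a, ha0, ha1, hxa⟩ : ∃ a : ℝ, 0 ≤ a ∧ a ≤ 1 / 2 ∧ 0 < |ht ((x : W) i₀) - a| := by
    by_cases h : ht ((x : W) i₀) = 0
    · refine ⟨1 / 2, by norm_num, le_refl _, ?_⟩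
      rw [h]
      norm_num
    · refine ⟨0, le_refl _, by norm_num, ?_⟩
      rw [sub_zero]
      exact abs_pos.2 h
  set γ : ℝ → W := fun t => cur I (up a (c t)) with hγ
  have hγc : Continuous γ :=
    (continuous_cur I).comp (continuous_up.comp (continuous_const.prodMk hcc))
  have hht : ∀ t, ht (up a (c t)) = a := by
    intro t
    rw [ht_up, (hcK t).2]
    ring
  have hγX : ∀ t, γ t ∈ X := fun t =>
    hdiag _ (up_mem ha0 (by linarith) (hcK t).1) (by rw [hht]; exact ha1)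
  have hγ1 : γ 1 = γ 0 := by simp only [hγ, hc0, hc1]
  set δ₀ : ℝ := |ht ((x : W) i₀) - a| / 2 with hδ₀
  have hδ₀pos : 0 < δ₀ := by positivity
  have hfar : ∀ t (y : W), dm (i₀ + 1) y (γ t) ≤ δ₀ → y ≠ x := by
    intro t y hy hyx
    rw [hyx] at hy
    have h1 : ‖(x : W) i₀ - γ t i₀‖ ≤ dm (i₀ + 1) (x : W) (γ t) :=
      norm_sub_le_dm (Nat.lt_succ_self i₀) _ _
    have h2 := nonz_abs_ht ((x : W) i₀) (γ t i₀)
    have h3 : γ t i₀ = up a (c t) := cur_apply hi₀ _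
    rw [h3, hht] at h2
    rw [h3] at h1
    have : |ht ((x : W) i₀) - a| ≤ |ht ((x : W) i₀) - a| / 2 := by
      calc _ ≤ _ := h2
        _ ≤ _ := h1
        _ ≤ _ := hy
    linarith
  obtain ⟨cl, M', δ', hδ', hclc, hclm, hcl01, hcls⟩ := exists_close hc ha (i₀ + 1) hδ₀pos
  obtain ⟨U, hU, hUs⟩ := exists_cover (X := X) M' hδ'
  -- the map of the boundary
  have hB1 : IsClosed {p : Cube 2 | (p 1 : ℝ) = 0} :=
    isClosed_eq (continuous_subtype_val.comp (continuous_apply 1)) continuous_const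
  have hB2 : IsClosed {p : Cube 2 | (p 1 : ℝ) = 1 ∨ (p 0 : ℝ) = 0 ∨ (p 0 : ℝ) = 1} := by
    have c1 : Continuous fun p : Cube 2 => (p 1 : ℝ) :=
      continuous_subtype_val.comp (continuous_apply 1)
    have c0 : Continuous fun p : Cube 2 => (p 0 : ℝ) :=
      continuous_subtype_val.comp (continuous_apply 0)
    exact (isClosed_eq c1 continuous_const).union
      ((isClosed_eq c0 continuous_const).union (isClosed_eq c0 continuous_const))
  have hp0 : Continuous fun p : Cube 2 => (p 0 : ℝ) :=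
    continuous_subtype_val.comp (continuous_apply 0)
  have hγp : Continuous fun p : Cube 2 => γ (p 0 : ℝ) := hγc.comp hp0
  obtain ⟨f₀, hf₀c, hf₀1, hf₀2⟩ := exists_glue₂ hB1 hB2
    (f := fun p : Cube 2 => γ (p 0)) (g := fun _ => γ 0) hγp.continuousOn
    continuousOn_const (by
      intro p hp1 hp2
      have hp1' : (p 1 : ℝ) = 0 := hp1
      rcases hp2 with h | h | h
      · rw [hp1'] at h; norm_num at h
      · simp only [h]
      · simp only [h, hγ1])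
  obtain ⟨f, hfc, hfX, hfe⟩ := ha (Cube 2) _ f₀ (hB1.union hB2) hf₀c (by
    rintro p (hp | hp)
    · rw [hf₀1 hp]; exact hγX _
    · rw [hf₀2 hp]; exact hγX _)
  obtain ⟨g, hgU, hgx⟩ := hZ U hU ⟨fun p => ⟨f p, hfX p⟩, hfc.subtype_mk _⟩
  have hfg : ∀ p, dm M' (f p) (g p : W) ≤ δ' := by
    intro p
    obtain ⟨u, hu, h1, h2⟩ := hgU p
    exact hUs u hu _ h1 _ h2
  -- the values of `f` on the boundary
  have hfb : ∀ p : ℝ × ℝ, p.1 ∈ Icc (0 : ℝ) 1 → p.2 = 0 → f (nonz_cube p) = γ p.1 := by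
    intro p hp1 hp2
    have h0 : ((nonz_cube p) 0 : ℝ) = p.1 := by
      simp only [nonz_cube, if_true]
      rw [projIcc_of_mem zero_le_one hp1]
    have h1 : ((nonz_cube p) 1 : ℝ) = 0 := by
      simp only [nonz_cube, one_ne_zero, if_false]
      rw [hp2, projIcc_of_mem zero_le_one (left_mem_Icc.2 zero_le_one)]
    rw [hfe (Or.inl h1), hf₀1 h1]
    simp only [h0]
  have hfb' : ∀ p : ℝ × ℝ, p.1 ∈ Icc (0 : ℝ) 1 → p.2 ∈ Icc (0 : ℝ) 1 →
      (p.2 = 1 ∨ p.1 = 0 ∨ p.1 = 1) → f (nonz_cube p) = γ 0 := by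
    intro p hp1 hp2 h
    have h0 : ((nonz_cube p) 0 : ℝ) = p.1 := by
      simp only [nonz_cube, if_true]
      rw [projIcc_of_mem zero_le_one hp1]
    have h1 : ((nonz_cube p) 1 : ℝ) = p.2 := by
      simp only [nonz_cube, one_ne_zero, if_false]
      rw [projIcc_of_mem zero_le_one hp2]
    have h2 : nonz_cube p ∈ {p : Cube 2 | (p 1 : ℝ) = 1 ∨ (p 0 : ℝ) = 0 ∨ (p 0 : ℝ) = 1} := by
      show ((nonz_cube p) 1 : ℝ) = 1 ∨ ((nonz_cube p) 0 : ℝ) = 0 ∨ ((nonz_cube p) 0 : ℝ) = 1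
      rw [h0, h1]
      exact h
    rw [hfe (Or.inr h2), hf₀2 h2]
  have hfbt : ∀ p : ℝ × ℝ, ‖p - nonz_q‖ = 1 / 2 → ∃ t, f (nonz_cube p) = γ t := by
    intro p hp
    obtain ⟨⟨h1, h2⟩, h3 | h3⟩ := nonz_bdr hp
    · exact ⟨_, hfb p h1 h3⟩
    · exact ⟨_, hfb' p h1 h2 h3⟩
  -- the new map
  set lam : ℝ × ℝ → ℝ := fun p => min 1 (2 - 4 * ‖p - nonz_q‖) with hlam
  have hlamc : Continuous lam := by fun_prop
  have hlam01 : ∀ p ∈ Icc (0 : ℝ) 1 ×ˢ Icc (0 : ℝ) 1, lam p ∈ Icc (0 : ℝ) 1 := by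
    intro p hp
    have := (nonz_mem_iff p).1 hp
    exact ⟨le_min zero_le_one (by linarith), min_le_left _ _⟩
  set G : ℝ × ℝ → W := fun p =>
    cl ((f (nonz_cube (nonz_pi p)), (g (nonz_cube (nonz_pi p)) : W)), lam p) with hG
  have hGc : ContinuousOn G (Icc (0 : ℝ) 1 ×ˢ Icc (0 : ℝ) 1) := by
    apply hclc.comp
    · apply Continuous.continuousOn
      have h1 : Continuous fun p => nonz_cube (nonz_pi p) :=
        nonz_continuous_cube.comp nonz_continuous_pi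
      exact ((hfc.comp h1).prodMk (continuous_subtype_val.comp (g.continuous.comp h1))).prodMk
        hlamc
    · intro p hp
      exact ⟨⟨hfX _, Subtype.coe_prop _⟩, hlam01 p hp⟩
  have hGX : ∀ p ∈ Icc (0 : ℝ) 1 ×ˢ Icc (0 : ℝ) 1, G p ∈ X := by
    intro p hp
    exact hclm ⟨⟨hfX _, Subtype.coe_prop _⟩, hlam01 p hp⟩
  have hGb : ∀ p : ℝ × ℝ, ‖p - nonz_q‖ = 1 / 2 → G p = f (nonz_cube p) := by
    intro p hp
    have h1 : lam p = 0 := by
      simp only [hlam, hp]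
      norm_num
    simp only [hG, h1, nonz_pi_fix hp]
    exact (hcl01 _ (hfX _) _ (Subtype.coe_prop _)).1
  have hGx : ∀ p ∈ Icc (0 : ℝ) 1 ×ˢ Icc (0 : ℝ) 1, G p ≠ x := by
    intro p hp
    by_cases h : ‖p - nonz_q‖ ≤ 1 / 4
    · have h1 : lam p = 1 := min_eq_left (by linarith)
      simp only [hG, h1]
      rw [(hcl01 _ (hfX _) _ (Subtype.coe_prop _)).2]
      intro h2
      exact hgx _ (Subtype.ext h2)
    · push Not at h
      obtain ⟨t, ht'⟩ := hfbt (nonz_pi p) (nonz_pi_eq h.le)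
      apply hfar t
      have h2 := hcls (f (nonz_cube (nonz_pi p))) (hfX _) (g (nonz_cube (nonz_pi p)))
        (Subtype.coe_prop _) (hfg _) (lam p) (hlam01 p hp)
      rw [ht'] at h2
      simp only [hG, ht']
      exact h2
  -- a wild point
  have hcomp : IsCompact (G '' (Icc (0 : ℝ) 1 ×ˢ Icc (0 : ℝ) 1)) :=
    (isCompact_Icc.prod isCompact_Icc).image_of_continuousOn hGc
  obtain ⟨i, hi, hiw⟩ := hw x x.2 (G '' (Icc (0 : ℝ) 1 ×ˢ Icc (0 : ℝ) 1))ᶜ
    hcomp.isClosed.isOpen_compl (by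
      rintro ⟨p, hp, hpx⟩
      exact hGx p hp hpx)
  have hne : ∀ p ∈ Icc (0 : ℝ) 1 ×ˢ Icc (0 : ℝ) 1, G p i ≠ apex := by
    intro p hp h
    exact hiw _ (hGX p hp) h ⟨p, hp, rfl⟩
  have hlt : ∀ p ∈ Icc (0 : ℝ) 1 ×ˢ Icc (0 : ℝ) 1, ht (G p i) < 1 := by
    intro p hp
    exact ht_lt_one (hcone i hi _ (hGX p hp)) (hne p hp)
  have hval : ∀ t, dn (ht (γ t i)) (γ t i) = c t := by
    intro t
    have h3 : γ t i = up a (c t) := cur_apply hi _
    rw [h3, hht, dn_up (by linarith)]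
  have hbdry : ∀ p : ℝ × ℝ, p.1 ∈ Icc (0 : ℝ) 1 → p.2 ∈ Icc (0 : ℝ) 1 →
      (p.2 = 0 ∨ p.2 = 1 ∨ p.1 = 0 ∨ p.1 = 1) → ‖p - nonz_q‖ = 1 / 2 := by
    intro p h1 h2 h3
    apply le_antisymm ((nonz_mem_iff p).1 ⟨h1, h2⟩)
    rw [Prod.norm_def, Real.norm_eq_abs, Real.norm_eq_abs]
    simp only [nonz_q, Prod.fst_sub, Prod.snd_sub]
    rcases h3 with h | h | h | h
    · apply le_max_of_le_right
      rw [h]
      norm_num
    · apply le_max_of_le_right
      rw [h]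
      norm_num
    · apply le_max_of_le_left
      rw [h]
      norm_num
    · apply le_max_of_le_left
      rw [h]
      norm_num
  apply hno
  refine ⟨fun p => dn (ht (G p i)) (G p i), ?_, ?_, ?_, ?_, ?_, ?_⟩
  · have h1 : ContinuousOn (fun p => G p i) (Icc (0 : ℝ) 1 ×ˢ Icc (0 : ℝ) 1) :=
      (continuous_apply i).comp_continuousOn hGc
    exact continuousOn_dn.comp ((continuous_ht.comp_continuousOn h1).prodMk h1) hlt
  · intro p hp
    have h1 := hcone i hi _ (hGX p hp)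
    refine ⟨dn_mem (ht_nonneg h1) (hlt p hp) h1 (le_refl _), ?_⟩
    rw [ht_dn (hlt p hp), sub_self, zero_div]
  · intro t ht'
    have h1 : ‖((t, 0) : ℝ × ℝ) - nonz_q‖ = 1 / 2 :=
      hbdry _ ht' (left_mem_Icc.2 zero_le_one) (Or.inl rfl)
    have h2 : G (t, 0) = γ t := by rw [hGb _ h1, hfb _ ht' rfl]
    show dn (ht (G (t, 0) i)) (G (t, 0) i) = c t
    rw [h2, hval]
  · intro t ht'
    have h1 : ‖((t, 1) : ℝ × ℝ) - nonz_q‖ = 1 / 2 :=
      hbdry _ ht' (right_mem_Icc.2 zero_le_one) (Or.inr (Or.inl rfl))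
    have h2 : G (t, 1) = γ 0 := by
      rw [hGb _ h1, hfb' _ ht' (right_mem_Icc.2 zero_le_one) (Or.inl rfl)]
    show dn (ht (G (t, 1) i)) (G (t, 1) i) = base
    rw [h2, hval, hc0]
  · intro t ht'
    have h1 : ‖((0, t) : ℝ × ℝ) - nonz_q‖ = 1 / 2 :=
      hbdry _ (left_mem_Icc.2 zero_le_one) ht' (Or.inr (Or.inr (Or.inl rfl)))
    have h2 : G (0, t) = γ 0 := by
      rw [hGb _ h1, hfb' _ (left_mem_Icc.2 zero_le_one) ht' (Or.inr (Or.inl rfl))]
    show dn (ht (G (0, t) i)) (G (0, t) i) = base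
    rw [h2, hval, hc0]
  · intro t ht'
    have h1 : ‖((1, t) : ℝ × ℝ) - nonz_q‖ = 1 / 2 :=
      hbdry _ (right_mem_Icc.2 zero_le_one) ht' (Or.inr (Or.inr (Or.inr rfl)))
    have h2 : G (1, t) = γ 0 := by
      rw [hGb _ h1, hfb' _ (right_mem_Icc.2 zero_le_one) ht' (Or.inr (Or.inr rfl))]
    show dn (ht (G (1, t) i)) (G (1, t) i) = base
    rw [h2, hval, hc0]

end Pool.Agent.H71.ZW
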