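import Pool.Agent.H71.ZW.LimA

set_option autoImplicit false

/-!
# Wild points and diagonal points of the limit

For `i ∈ I k` let `x` be the point with `x a = w l i a` for all large `l` (so that `tr (n l) x = w l i`
for `l ≥ k`, by `IsTower.w_succ`). A point `x'` of the limit with `x' i = apex` satisfies
`tr (n l) x' i = apex` for `l ≥ k`, so `tr (n l) x' = w l i` (`IsStage.vtx`). Density:
`IsTower.dense`. Diagonal points: `tr (n k) (cur (⋃ l, I l) κ) = cur (I k) κ` by `tr_cur`, `I_new`,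
`IsStage.lt`.
-/

namespace Pool.Agent.H71.ZW

open Set Topology TopologicalSpace Filter

variable {m n : ℕ → ℕ} {P : ℕ → Set W} {I : ℕ → Set ℕ} {w : ℕ → ℕ → W} {ε η : ℕ → ℝ}
  {σ : ℕ → W → W} {H : ℕ → W × ℝ → W} {F G : ℕ → W × W → W}

theorem IsTower.mem_cK (h : IsTower m n P I w ε η σ H F G) {i : ℕ} (hi : i ∈ ⋃ k, I k) :
    ∀ x ∈ lim n P, x i ∈ cK := by
  intro x hx
  obtain ⟨k, hk⟩ := mem_iUnion.1 hi
  have h1 := (h.stage k).cone i hk (tr (n k) x) (hx k)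
  rwa [tr_lt ((h.stage k).lt i hk)] at h1

/-- Open sets contain all points which are close in finitely many coordinates. -/
theorem wild_open {U : Set W} (hU : IsOpen U) {x : W} (hxU : x ∈ U) :
    ∃ (N : ℕ) (δ : ℝ), 0 < δ ∧ ∀ y : W, dm N y x < δ → y ∈ U := by
  obtain ⟨J, u, hu, hJ⟩ := isOpen_pi_iff.1 hU x hxU
  have h1 : ∀ i ∈ J, ∃ δ > 0, Metric.ball (x i) δ ⊆ u i := fun i hi =>
    Metric.isOpen_iff.1 (hu i hi).1 (x i) (hu i hi).2
  choose! d hd hd' using h1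
  obtain ⟨δ, hδ, hδ'⟩ : ∃ δ > 0, ∀ i ∈ J, δ ≤ d i := by
    rcases J.eq_empty_or_nonempty with h0 | h0
    · exact ⟨1, one_pos, by simp [h0]⟩
    · obtain ⟨i, hi, hi'⟩ := J.exists_min_image d h0
      exact ⟨d i, hd i hi, hi'⟩
  refine ⟨J.sup id + 1, δ, hδ, fun y hy => hJ ?_⟩
  intro i hi
  have hi' : i < J.sup id + 1 := Nat.lt_succ_of_le (Finset.le_sup (f := id) hi)
  refine hd' i hi ?_
  rw [Metric.mem_ball, dist_eq_norm]
  exact ((norm_sub_le_dm hi' y x).trans_lt hy).trans_le (hδ' i hi)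

/-- The wild points are dense and given by one coordinate. -/
theorem IsTower.wild (h : IsTower m n P I w ε η σ H F G) {x : W} (hx : x ∈ lim n P) {U : Set W}
    (hU : IsOpen U) (hxU : x ∈ U) :
    ∃ i ∈ ⋃ k, I k, ∀ y ∈ lim n P, y i = apex → y ∈ U := by
  obtain ⟨N, δ, hδ, hN⟩ := wild_open hU hxU
  obtain ⟨k, hk1, hk2⟩ : ∃ k, N ≤ k ∧ ε k < δ := by
    have h1 : ∀ᶠ k in atTop, ε k < δ := h.tendsto.eventually (gt_mem_nhds hδ)
    obtain ⟨k, hk⟩ := ((eventually_ge_atTop N).and h1).exists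
    exact ⟨k, hk.1, hk.2⟩
  obtain ⟨i, hi, hi'⟩ := h.dense k (tr (n k) x) (hx k)
  refine ⟨i, mem_iUnion.2 ⟨k, hi⟩, fun y hy hya => hN y ?_⟩
  have h2 : tr (n k) y = w k i := by
    refine ((h.stage k).vtx i hi (tr (n k) y) (hy k)).1 ?_
    rw [tr_lt ((h.stage k).lt i hi), hya]
  have h3 : dm (m k) y x ≤ ε k := by
    rw [← dm_tr (h.m_le k) (h.m_le k) y x, h2, dm_comm]
    exact hi'
  exact ((dm_mono (hk1.trans (h.le_m k)) y x).trans h3).trans_lt hk2

theorem IsTower.wild_aux (h : IsTower m n P I w ε η σ H F G) (k : ℕ) :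
    (⋃ l, I l) ∩ Iio (n k) = I k := by
  have hmono : Monotone I := monotone_nat_of_le_succ h.I_sub
  have hdown : ∀ d i, i ∈ I (k + d) → i < n k → i ∈ I k := by
    intro d
    induction d with
    | zero => intro i hi _; exact hi
    | succ d ih =>
      intro i hi hlt
      refine ih i (h.I_new (k + d) i hi ?_) hlt
      exact hlt.trans_le (h.n_lt.monotone (Nat.le_add_right k d))
  refine Subset.antisymm ?_ fun i hi => ⟨mem_iUnion.2 ⟨k, hi⟩, (h.stage k).lt i hi⟩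
  rintro i ⟨hi, hlt⟩
  obtain ⟨l, hl⟩ := mem_iUnion.1 hi
  rcases le_total l k with h1 | h1
  · exact hmono h1 hl
  · obtain ⟨d, rfl⟩ := Nat.exists_eq_add_of_le h1
    exact hdown d i hl hlt

theorem IsTower.diag (h : IsTower m n P I w ε η σ H F G) {κ : E} (hκ : κ ∈ cK)
    (hκ' : ht κ ≤ 1 / 2) : cur (⋃ k, I k) κ ∈ lim n P := by
  intro k
  rw [tr_cur, h.wild_aux k]
  exact (h.stage k).diag κ hκ hκ'

theorem IsTower.nonempty (h : IsTower m n P I w ε η σ H F G) : (lim n P).Nonempty := by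
  refine ⟨_, h.diag (κ := base) base_mem.1 ?_⟩
  rw [ht_base]
  norm_num

theorem IsTower.zero_mem' (h : IsTower m n P I w ε η σ H F G) : (0 : ℕ) ∈ ⋃ k, I k :=
  mem_iUnion.2 ⟨0, h.zero_mem 0⟩

end Pool.Agent.H71.ZW
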