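import Pool.Agent.H71.ZW.Tower
import Pool.Agent.H71.ZW.LimB
import Pool.Agent.H71.ZW.LimC
import Pool.Agent.H71.ZW.HDD
import Pool.Agent.H71.ZW.Wild
import Pool.Agent.H71.ZW.NonZ

set_option autoImplicit false

/-!
# A compact AR with `HDD` and without `Z₂`-points
-/

namespace Pool.Agent.H71.ZW

open Set Topology TopologicalSpace Filter
open Pool.Agent.H72.Zp (CompactAR HDD00 IsZPoint OpenCover UNear UHomotopic Cube)

theorem main : ∃ (X : Type) (_ : TopologicalSpace X), Nonempty X ∧ CompactAR X ∧ HDD00 X ∧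
    ∀ x : X, ¬ IsZPoint 2 x := by
  obtain ⟨m, n, P, I, w, ε, η, σ, H, F, G, h⟩ := exists_tower
  have hm : Tendsto m atTop atTop := tendsto_atTop_mono h.le_m tendsto_id
  have hε : Tendsto (fun k => 30 * ε k) atTop (𝓝 0) := by
    simpa using h.tendsto.const_mul 30
  have ha : AE (lim n P) := ae_of_psi hm hε fun Y _ _ _ B f hB hf hm => h.exists_psi hB hf hm
  exact ⟨lim n P, inferInstance, h.nonempty.to_subtype, compactAR_of_ae h.isCompact_lim h.nonempty ha,
    h.hdd ha,
    not_isZPoint h.isCompact_lim ha ⟨0, h.zero_mem'⟩ (fun i hi => h.mem_cK hi)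
      (fun x hx U hU hxU => h.wild hx hU hxU) (fun κ hκ hκ' => h.diag hκ hκ')⟩

end Pool.Agent.H71.ZW
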