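import Pool.Agent.H71.ZW.PolyDm
import Pool.Agent.H71.ZW.ConnA

set_option autoImplicit false

/-!
# Stages near the wild points
-/

namespace Pool.Agent.H71.ZW

open Set Topology TopologicalSpace

theorem IsTrans.mono {P : Set W} {i : ℕ} {s s' : ℝ} {L : W × E → W} (h : IsTrans P i s L)
    (hs : s ≤ s') : IsTrans P i s' L := by
  refine ⟨h.1.mono fun p hp => ⟨hp.1, hs.trans hp.2.1, hp.2.2.1, hs.trans hp.2.2.2⟩, ?_⟩
  intro x hx hxs
  obtain ⟨h1, h2⟩ := h.2 x hx (hs.trans hxs)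
  exact ⟨fun κ hκ hκs => h1 κ hκ (hs.trans hκs), h2⟩

theorem IsStage.isCompact {n : ℕ} {P : Set W} {I : Set ℕ} {w : ℕ → W} (h : IsStage n P I w) :
    IsCompact P := h.poly.isCompact

theorem IsStage.isConnected {n : ℕ} {P : Set W} {I : Set ℕ} {w : ℕ → W} (h : IsStage n P I w) :
    IsConnected P := by
  obtain ⟨c, p, hp, hc, hm, h0, h1⟩ := h.contr
  refine ⟨⟨p, hp⟩, isPreconnected_of_forall p fun y hy => ?_⟩
  have hcont : ContinuousOn (fun t : ℝ => c (y, t)) (Icc (0 : ℝ) 1) :=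
    hc.comp (by fun_prop) fun t ht => ⟨hy, ht⟩
  refine ⟨(fun t : ℝ => c (y, t)) '' Icc (0 : ℝ) 1, ?_, ?_, ?_, ?_⟩
  · rintro _ ⟨t, ht, rfl⟩
    exact hm ⟨hy, ht⟩
  · exact ⟨1, right_mem_Icc.2 zero_le_one, h1 y hy⟩
  · exact ⟨0, left_mem_Icc.2 zero_le_one, h0 y hy⟩
  · exact isPreconnected_Icc.image _ hcont

theorem IsStage.ae {n : ℕ} {P : Set W} {I : Set ℕ} {w : ℕ → W} (h : IsStage n P I w) :
    AE P := h.poly.ae h.contr

theorem IsStage.ht_lt_one {n : ℕ} {P : Set W} {I : Set ℕ} {w : ℕ → W} (h : IsStage n P I w)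
    {i : ℕ} (hi : i ∈ I) {x : W} (hx : x ∈ P) (hne : x ≠ w i) : ht (x i) < 1 :=
  _root_.Pool.Agent.H71.ZW.ht_lt_one (h.cone i hi x hx) fun e => hne ((h.vtx i hi x hx).1 e)

/-- The cones above large heights are in small neighbourhoods of the wild points. -/
theorem IsStage.near {n : ℕ} {P : Set W} {I : Set ℕ} {w : ℕ → W} (h : IsStage n P I w)
    {i : ℕ} (hi : i ∈ I) {U : Set W} (hU : IsOpen U) (hw : w i ∈ U) :
    ∃ s < 1, ∀ x ∈ P, s ≤ ht (x i) → x ∈ U := by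
  have hc : IsCompact (P \ U) := h.isCompact.diff hU
  rcases (P \ U).eq_empty_or_nonempty with he | hne
  · refine ⟨0, zero_lt_one, fun x hx _ => ?_⟩
    by_contra hxU
    have h1 : x ∈ P \ U := ⟨hx, hxU⟩
    rw [he] at h1
    exact h1
  · have hcont : ContinuousOn (fun x : W => ht (x i)) (P \ U) :=
      (continuous_ht.comp (continuous_apply i)).continuousOn
    obtain ⟨x₀, hx₀, hmax⟩ := hc.exists_isMaxOn hne hcont
    have h1 : ht (x₀ i) < 1 := h.ht_lt_one hi hx₀.1 fun e => hx₀.2 (e ▸ hw)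
    refine ⟨(1 + ht (x₀ i)) / 2, by linarith, fun x hx hxs => ?_⟩
    by_contra hxU
    have h2 : ht (x i) ≤ ht (x₀ i) := hmax (show x ∈ P \ U from ⟨hx, hxU⟩)
    linarith

/-- The transport connects every point of the cone with the wild point. -/
theorem stageA_aux {n : ℕ} {P : Set W} {I : Set ℕ} {w : ℕ → W} (h : IsStage n P I w)
    {i : ℕ} (hi : i ∈ I) {t : ℝ} (ht1 : t < 1) {L : W × E → W} (hL : IsTrans P i t L) :
    IsConnected {x | x ∈ P ∧ t ≤ ht (x i)} := by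
  have hwi : w i ∈ P := h.mem i hi
  have hwa : w i i = apex := (h.vtx i hi _ hwi).2 rfl
  refine ⟨⟨w i, hwi, ?_⟩, isPreconnected_of_forall (w i) fun y hy => ?_⟩
  · rw [hwa, ht_apex]
    exact ht1.le
  · obtain ⟨h1, h2⟩ := hL.2 y hy.1 hy.2
    have hcont : ContinuousOn (fun κ : E => L (y, κ)) {κ | κ ∈ cK ∧ t ≤ ht κ} :=
      hL.1.comp (by fun_prop) fun κ hκ => ⟨hy.1, hy.2, hκ.1, hκ.2⟩
    refine ⟨(fun κ : E => L (y, κ)) '' {κ | κ ∈ cK ∧ t ≤ ht κ}, ?_, ?_, ?_, ?_⟩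
    · rintro _ ⟨κ, hκ, rfl⟩
      obtain ⟨h3, h4⟩ := h1 κ hκ.1 hκ.2
      refine ⟨h3, ?_⟩
      show t ≤ ht (L (y, κ) i)
      rw [h4]
      exact hκ.2
    · have ha : apex ∈ {κ | κ ∈ cK ∧ t ≤ ht κ} := ⟨apex_mem, by rw [ht_apex]; exact ht1.le⟩
      obtain ⟨h3, h4⟩ := h1 apex ha.1 ha.2
      exact ⟨apex, ha, (h.vtx i hi _ h3).1 h4⟩
    · exact ⟨y i, ⟨h.cone i hi y hy.1, hy.2⟩, h2⟩
    · exact (isConnected_above ht1.le).isPreconnected.image _ hcont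

/-- The cones are connected: the transport moves every point to the wild point. -/
theorem IsStage.cone_conn {n : ℕ} {P : Set W} {I : Set ℕ} {w : ℕ → W} (h : IsStage n P I w)
    {i : ℕ} (hi : i ∈ I) :
    ∃ s < 1, ∀ t, s ≤ t → t < 1 → IsConnected {x | x ∈ P ∧ t ≤ ht (x i)} := by
  obtain ⟨s, hs, L, hL⟩ := h.trans i hi
  exact ⟨s, hs, fun t hst ht1 => stageA_aux h hi ht1 (hL.mono hst)⟩

/-- The cones above large heights are small. -/
theorem stageA_dm {n : ℕ} {P : Set W} {I : Set ℕ} {w : ℕ → W} (h : IsStage n P I w)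
    {i : ℕ} (hi : i ∈ I) (m : ℕ) {δ : ℝ} (hδ : 0 < δ) :
    ∃ s < 1, ∀ x ∈ P, s ≤ ht (x i) → dm m x (w i) ≤ δ := by
  have hc : Continuous fun x : W => dm m x (w i) :=
    (continuous_dm m).comp (g := fun p : W × W => dm m p.1 p.2)
      (f := fun x : W => (x, w i)) (continuous_id.prodMk continuous_const)
  have hU : IsOpen {x : W | dm m x (w i) < δ} := isOpen_lt hc continuous_const
  have hw : w i ∈ {x : W | dm m x (w i) < δ} := by
    rw [mem_ofPred_eq, dm_self]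
    exact hδ
  obtain ⟨a, ha, h2⟩ := h.near hi hU hw
  exact ⟨a, ha, fun x hx hxs => le_of_lt (h2 x hx hxs)⟩

/-- Good heights for finitely many wild points at once. -/
theorem IsStage.exists_height {n : ℕ} {P : Set W} {I : Set ℕ} {w : ℕ → W} (h : IsStage n P I w)
    (hf : I.Finite) (m : ℕ) {δ s₀ : ℝ} (hδ : 0 < δ) (hs₀ : s₀ < 1) :
    ∃ s, s₀ ≤ s ∧ 1 / 2 ≤ s ∧ s < 1 ∧ ∀ t, s ≤ t → t < 1 → ∀ i ∈ I,
      IsConnected {x | x ∈ P ∧ t ≤ ht (x i)} ∧ IsConnected {x | x ∈ P ∧ ht (x i) = t} ∧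
      (∃ L : W × E → W, IsTrans P i t L) ∧
      (∀ i' ∈ I, i ≠ i' → ∀ x ∈ P, t ≤ ht (x i) → ht (x i') < s) ∧
      ∀ x ∈ P, t ≤ ht (x i) → dm m x (w i) ≤ δ := by
  have hev : ∀ a : ℝ, a < 1 → ∀ᶠ s in 𝓝[<] (1 : ℝ), a ≤ s ∧ s < 1 := fun a ha =>
    Ico_mem_nhdsLT ha
  have hA : ∀ᶠ s in 𝓝[<] (1 : ℝ), ∀ i ∈ I, ∀ t, s ≤ t → t < 1 →
      IsConnected {x | x ∈ P ∧ t ≤ ht (x i)} := by
    refine (Filter.eventually_all_finite hf).2 fun i hi => ?_
    obtain ⟨a, ha, h1⟩ := h.cone_conn hi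
    filter_upwards [hev a ha] with s hs t hst ht1
    exact h1 t (hs.1.trans hst) ht1
  have hB : ∀ᶠ s in 𝓝[<] (1 : ℝ), ∀ i ∈ I, ∀ t, s ≤ t → t < 1 →
      IsConnected {x | x ∈ P ∧ ht (x i) = t} := by
    refine (Filter.eventually_all_finite hf).2 fun i hi => ?_
    obtain ⟨a, ha, h1⟩ := h.sph i hi
    filter_upwards [hev a ha] with s hs t hst ht1
    exact h1 t (hs.1.trans hst) ht1
  have hC : ∀ᶠ s in 𝓝[<] (1 : ℝ), ∀ i ∈ I, ∀ t, s ≤ t →
      ∃ L : W × E → W, IsTrans P i t L := by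
    refine (Filter.eventually_all_finite hf).2 fun i hi => ?_
    obtain ⟨a, ha, L, hL⟩ := h.trans i hi
    filter_upwards [hev a ha] with s hs t hst
    exact ⟨L, hL.mono (hs.1.trans hst)⟩
  have hD : ∀ᶠ s in 𝓝[<] (1 : ℝ), ∀ i ∈ I, ∀ i' ∈ I, i ≠ i' → ∀ x ∈ P, s ≤ ht (x i) →
      ht (x i') < s := by
    refine (Filter.eventually_all_finite hf).2 fun i hi => ?_
    refine (Filter.eventually_all_finite hf).2 fun i' hi' => ?_
    by_cases hne : i = i'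
    · exact Filter.Eventually.of_forall fun s hn => absurd hne hn
    · have h1 : ht (w i i') < 1 := h.ht_lt_one hi' (h.mem i hi) fun e => hne (h.inj i hi i' hi' e)
      have hU : IsOpen {x : W | ht (x i') < (1 + ht (w i i')) / 2} :=
        isOpen_lt (continuous_ht.comp (continuous_apply i')) continuous_const
      obtain ⟨a, ha, h2⟩ := h.near hi hU (show w i ∈ {x : W | ht (x i') < (1 + ht (w i i')) / 2} by
        show ht (w i i') < (1 + ht (w i i')) / 2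
        linarith)
      filter_upwards [hev a ha, hev ((1 + ht (w i i')) / 2) (by linarith)] with s hs hs' _ x hx hxs
      have h3 : ht (x i') < (1 + ht (w i i')) / 2 := h2 x hx (hs.1.trans hxs)
      linarith [hs'.1]
  have hE : ∀ᶠ s in 𝓝[<] (1 : ℝ), ∀ i ∈ I, ∀ x ∈ P, s ≤ ht (x i) → dm m x (w i) ≤ δ := by
    refine (Filter.eventually_all_finite hf).2 fun i hi => ?_
    obtain ⟨a, ha, h2⟩ := stageA_dm h hi m hδ
    filter_upwards [hev a ha] with s hs x hx hxs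
    exact h2 x hx (hs.1.trans hxs)
  have hAll : ∀ᶠ s in 𝓝[<] (1 : ℝ), s₀ ≤ s ∧ 1 / 2 ≤ s ∧ s < 1 ∧ ∀ t, s ≤ t → t < 1 → ∀ i ∈ I,
      IsConnected {x | x ∈ P ∧ t ≤ ht (x i)} ∧ IsConnected {x | x ∈ P ∧ ht (x i) = t} ∧
      (∃ L : W × E → W, IsTrans P i t L) ∧
      (∀ i' ∈ I, i ≠ i' → ∀ x ∈ P, t ≤ ht (x i) → ht (x i') < s) ∧
      ∀ x ∈ P, t ≤ ht (x i) → dm m x (w i) ≤ δ := by
    filter_upwards [hev s₀ hs₀, hev (1 / 2) (by norm_num), hA, hB, hC, hD, hE] with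
      s h0 h1 h2 h3 h4 h5 h6
    exact ⟨h0.1, h1.1, h0.2, fun t hst ht1 i hi => ⟨h2 i hi t hst ht1, h3 i hi t hst ht1,
      h4 i hi t hst, fun i' hi' hne x hx hxt => h5 i hi i' hi' hne x hx (hst.trans hxt),
      fun x hx hxt => h6 i hi x hx (hst.trans hxt)⟩⟩
  exact hAll.exists

end Pool.Agent.H71.ZW
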