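import Pool.Agent.H71.ZW.SplitS
import Pool.Agent.H71.ZW.StageA
import Pool.Agent.H71.ZW.Glue

set_option autoImplicit false

/-!
# The homotopy over the cone around the wild point

Let `r` be the map of `exists_rad` for the height `s`. For `x ∈ P`, `s ≤ ht (x j)`, `t ∈ [0, 1]` let
`(κ, u) = r (x j, t)` and `x' = L (x, κ)`, so `x' ∈ P`, `x' j = κ`, `s ≤ ht κ`. If `u = 0` put
`B (x, t) = (x', up s base)`; if `ht κ = s` (so `x' ∈ S`, `(x', up s base) ∈ splS`) put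
`B (x, t) = D ((x', up s base), u)`. The two definitions agree if both conditions hold. Glue
(`Glue.lean`): e.g. first glue the two maps on the closed subsets
`{(x', u) | x' ∈ P, s ≤ ht (x' j), u = 0}` and `{(x', u) | x' ∈ P, ht (x' j) = s, u ∈ [0, 1]}` of
`W × ℝ`, then compose with `(x, t) ↦ (L (x, (r (x j, t)).1), (r (x j, t)).2)`.
-/

namespace Pool.Agent.H71.ZW

open Set Topology TopologicalSpace

variable {n : ℕ} {P : Set W} {I : Set ℕ} {w : ℕ → W} {j : ℕ} {s : ℝ} {S : Set W} {y : W}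

theorem exists_homC (h : IsCut n P I w j s S y) {D : (W × E) × ℝ → W × E}
    (hD : ContinuousOn D (splS j S y ×ˢ Icc (0 : ℝ) 1))
    (hDm : MapsTo D (splS j S y ×ˢ Icc (0 : ℝ) 1) (splS j S y))
    (hD0 : ∀ p ∈ splS j S y, D (p, 0) = p) :
    ∃ B : W × ℝ → W × E, ContinuousOn B ({x | x ∈ P ∧ s ≤ ht (x j)} ×ˢ Icc (0 : ℝ) 1) ∧
      (∀ x ∈ P, s ≤ ht (x j) → ∀ t ∈ Icc (0 : ℝ) 1, B (x, t) ∈ splS j S y ∨
        ((B (x, t)).1 ∈ P ∧ s ≤ ht ((B (x, t)).1 j) ∧ (B (x, t)).2 = up s base)) ∧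
      (∀ x ∈ P, s ≤ ht (x j) → B (x, 0) = (x, up s base)) ∧
      ∀ x ∈ P, ht (x j) = s → ∀ t ∈ Icc (0 : ℝ) 1, B (x, t) = D ((x, up s base), t) := by
  classical
  obtain ⟨L, hL, hLx⟩ := h.trans
  have hs0 : (0 : ℝ) ≤ s := (by norm_num : (0 : ℝ) ≤ 1 / 2).trans h.half
  obtain ⟨r, hr, hr1, hr2⟩ := exists_rad hs0 h.lt
  have hPc : IsClosed P := h.stage.isCompact.isClosed
  have hcone : ∀ x ∈ P, x j ∈ cK := h.stage.cone j h.hj
  have hbase : up s base ∈ cK := up_mem hs0 h.lt.le base_mem.1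
  have hhtb : ht (up s base) = s := by rw [ht_up, ht_base, mul_zero, zero_add]
  have hspl : ∀ x ∈ P, ht (x j) = s → (x, up s base) ∈ splS j S y := fun x hx hxs =>
    ⟨h.sphere x hx hxs, hbase, Or.inl (by rw [hhtb, hxs])⟩
  have hcj : Continuous fun q : W × ℝ => ht (q.1 j) :=
    continuous_ht.comp ((continuous_apply j).comp continuous_fst)
  -- the two closed pieces
  have hA₁ : IsClosed {q : W × ℝ | q.1 ∈ P ∧ s ≤ ht (q.1 j) ∧ q.2 = 0} :=
    (hPc.preimage continuous_fst).inter ((isClosed_le continuous_const hcj).inter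
      (isClosed_eq continuous_snd continuous_const))
  have hA₂ : IsClosed {q : W × ℝ | q.1 ∈ P ∧ ht (q.1 j) = s ∧ q.2 ∈ Icc (0 : ℝ) 1} :=
    (hPc.preimage continuous_fst).inter ((isClosed_eq hcj continuous_const).inter
      (isClosed_Icc.preimage continuous_snd))
  have hg : ContinuousOn (fun q : W × ℝ => D ((q.1, up s base), q.2))
      {q : W × ℝ | q.1 ∈ P ∧ ht (q.1 j) = s ∧ q.2 ∈ Icc (0 : ℝ) 1} := by
    refine hD.comp (((continuous_fst.prodMk continuous_const).prodMk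
      continuous_snd).continuousOn) ?_
    rintro q ⟨h1, h2, h3⟩
    exact ⟨hspl q.1 h1 h2, h3⟩
  have hf : ContinuousOn (fun q : W × ℝ => (q.1, up s base))
      {q : W × ℝ | q.1 ∈ P ∧ s ≤ ht (q.1 j) ∧ q.2 = 0} :=
    (continuous_fst.prodMk continuous_const).continuousOn
  obtain ⟨G, hG, hGf, hGg⟩ := exists_glue₂ hA₁ hA₂ hf hg (by
    rintro q ⟨h1, h2, h3⟩ ⟨h4, h5, h6⟩
    simp only [h3]
    exact (hD0 _ (hspl q.1 h4 h5)).symm)
  -- the map
  have key : ∀ x ∈ P, s ≤ ht (x j) → ∀ t ∈ Icc (0 : ℝ) 1,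
      L (x, (r (x j, t)).1) ∈ P ∧ L (x, (r (x j, t)).1) j = (r (x j, t)).1 ∧
        s ≤ ht (r (x j, t)).1 ∧ (r (x j, t)).2 ∈ Icc (0 : ℝ) 1 ∧
        ((r (x j, t)).2 = 0 ∨ ht (r (x j, t)).1 = s) := by
    intro x hx hxs t ht'
    obtain ⟨h1, h2, h3, h4⟩ := hr1 (x j) (hcone x hx) hxs t ht'
    obtain ⟨h5, h6⟩ := (hLx x hx hxs).1 _ h1 h2
    exact ⟨h5, h6, h2, h3, h4⟩
  refine ⟨fun q => G (L (q.1, (r (q.1 j, q.2)).1), (r (q.1 j, q.2)).2), ?_, ?_, ?_, ?_⟩
  · have hrc : ContinuousOn (fun q : W × ℝ => r (q.1 j, q.2))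
        ({x | x ∈ P ∧ s ≤ ht (x j)} ×ˢ Icc (0 : ℝ) 1) := by
      refine hr.comp ((((continuous_apply j).comp continuous_fst).prodMk
        continuous_snd).continuousOn) ?_
      rintro q ⟨⟨h1, h2⟩, h3⟩
      exact ⟨hcone _ h1, h2, h3⟩
    refine hG.comp ((hL.comp (continuous_fst.continuousOn.prodMk
      (continuous_fst.comp_continuousOn hrc)) ?_).prodMk
      (continuous_snd.comp_continuousOn hrc)) ?_
    · rintro q ⟨⟨h1, h2⟩, h3⟩
      obtain ⟨h4, h5, h6, h7⟩ := hr1 (q.1 j) (hcone q.1 h1) h2 q.2 h3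
      exact ⟨h1, h2, h4, h5⟩
    · rintro q ⟨⟨h1, h2⟩, h3⟩
      obtain ⟨h4, h5, h6, h7, h8⟩ := key q.1 h1 h2 q.2 h3
      rcases h8 with h8 | h8
      · left
        refine ⟨h4, ?_, h8⟩
        change s ≤ ht (L (q.1, (r (q.1 j, q.2)).1) j)
        rw [h5]
        exact h6
      · right
        refine ⟨h4, ?_, h7⟩
        change ht (L (q.1, (r (q.1 j, q.2)).1) j) = s
        rw [h5]
        exact h8
  · intro x hx hxs t ht'
    obtain ⟨h4, h5, h6, h7, h8⟩ := key x hx hxs t ht'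
    rcases h8 with h8 | h8
    · right
      have e : G (L (x, (r (x j, t)).1), (r (x j, t)).2) =
          (L (x, (r (x j, t)).1), up s base) := hGf ⟨h4, by
        change s ≤ ht (L (x, (r (x j, t)).1) j)
        rw [h5]
        exact h6, h8⟩
      change (G (L (x, (r (x j, t)).1), (r (x j, t)).2)).1 ∈ P ∧
        s ≤ ht ((G (L (x, (r (x j, t)).1), (r (x j, t)).2)).1 j) ∧
        (G (L (x, (r (x j, t)).1), (r (x j, t)).2)).2 = up s base
      rw [e]
      refine ⟨h4, ?_, rfl⟩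
      change s ≤ ht (L (x, (r (x j, t)).1) j)
      rw [h5]
      exact h6
    · left
      have hj' : ht (L (x, (r (x j, t)).1) j) = s := by rw [h5, h8]
      have e : G (L (x, (r (x j, t)).1), (r (x j, t)).2) =
          D ((L (x, (r (x j, t)).1), up s base), (r (x j, t)).2) := hGg ⟨h4, hj', h7⟩
      change G (L (x, (r (x j, t)).1), (r (x j, t)).2) ∈ splS j S y
      rw [e]
      exact hDm ⟨hspl _ h4 hj', h7⟩
  · intro x hx hxs
    have e1 : r (x j, 0) = (x j, 0) :=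
      hr2 (x j) (hcone x hx) hxs 0 ⟨le_rfl, zero_le_one⟩ (Or.inl rfl)
    change G (L (x, (r (x j, 0)).1), (r (x j, 0)).2) = (x, up s base)
    rw [e1, (hLx x hx hxs).2]
    exact hGf ⟨hx, hxs, rfl⟩
  · intro x hx hxs t ht'
    have e1 : r (x j, t) = (x j, t) := hr2 (x j) (hcone x hx) hxs.ge t ht' (Or.inr hxs)
    change G (L (x, (r (x j, t)).1), (r (x j, t)).2) = D ((x, up s base), t)
    rw [e1, (hLx x hx hxs.ge).2]
    exact hGg ⟨hx, hxs, ht'⟩


end Pool.Agent.H71.ZW
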