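import Pool.Agent.H71.ZW.SplitP

set_option autoImplicit false

/-!
# The splitting: transports and spheres

* `i = n`: for `s' > s` the part `{z | s' ≤ ht (z n)}` of the splitting is
  `{y} × {κ ∈ cK | s' ≤ ht κ}`; `L' (z, κ) = upd z n κ`.
* `i = j`: for `s' > s` the part `{z | s' ≤ ht (z j)}` is `{x ∈ P | s' ≤ ht (x j)} × {up s base}`;
  `L' (z, κ) = upd (L (tr n z, κ)) n (up s base)` with the transport `L` of `P` at `j`.
* other `i`: for `s'` close to `1` the set `{x ∈ P | s' ≤ ht (x i)}` is close to `w i`, so on it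
  `x ∉ S` and `ht (x j) < s` (`IsStage.near`, `IsCut.off`, `IsCut.far`), so that
  `{z | s' ≤ ht (z i)}` is the graph of `x ↦ x j` over it;
  `L' (z, κ) = upd (L (tr n z, κ)) n (L (tr n z, κ) j)`.
-/

namespace Pool.Agent.H71.ZW

open Set Topology TopologicalSpace

variable {n : ℕ} {P : Set W} {I : Set ℕ} {w : ℕ → W} {j : ℕ} {s : ℝ} {S : Set W} {y : W}

/-- a point of the splitting in terms of its coordinates -/
private theorem splitT_eq (h : IsCut n P I w j s S y) {z : W} (hz : z ∈ spl n j s P S y) :
    z = upd (tr n z) n (z n) := by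
  have h1 := ((mem_spl h).1 hz).2.2.1
  rw [tr_succ] at h1
  exact h1.symm

private theorem splitT_jlt (h : IsCut n P I w j s S y) : j < n := h.stage.lt j h.hj

private theorem splitT_yle (h : IsCut n P I w j s S y) : ht (y j) ≤ s := h.le y h.yS

private theorem splitT_trj (h : IsCut n P I w j s S y) (z : W) : tr n z j = z j :=
  tr_lt (splitT_jlt h) z

/-- the part of the splitting above the height `s` in the coordinate `n` -/
private theorem splitT_n (h : IsCut n P I w j s S y) {z : W} (hz : z ∈ spl n j s P S y)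
    (hs : s < ht (z n)) : tr n z = y := by
  obtain ⟨-, -, -, h4⟩ := (mem_spl h).1 hz
  rcases h4 with ⟨h5, h6⟩ | ⟨h5, h6⟩ | ⟨h5, h6⟩ | ⟨h5, -⟩
  · rw [h6] at hs
    exact absurd hs (not_lt.2 h5)
  · have h7 := h.le _ h5
    rw [splitT_trj h, ← h6] at h7
    exact absurd hs (not_lt.2 h7)
  · rw [h6, ht_up, ht_base, mul_zero, zero_add] at hs
    exact absurd hs (lt_irrefl _)
  · exact h5

private theorem splitT_n' (h : IsCut n P I w j s S y) {κ : E} (hκ : κ ∈ cK) (hs : s ≤ ht κ) :
    upd y n κ ∈ spl n j s P S y :=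
  ⟨y, h.sub h.yS, κ, hκ, rfl, Or.inr (Or.inr (Or.inr ⟨rfl, (splitT_yle h).trans hs⟩))⟩

/-- the part of the splitting above the height `s` in the coordinate `j` -/
private theorem splitT_j (h : IsCut n P I w j s S y) {z : W} (hz : z ∈ spl n j s P S y)
    (hs : s < ht (z j)) : z n = up s base := by
  obtain ⟨-, -, -, h4⟩ := (mem_spl h).1 hz
  rcases h4 with ⟨h5, h6⟩ | ⟨h5, h6⟩ | ⟨h5, h6⟩ | ⟨h5, -⟩
  · exact absurd hs (not_lt.2 h5)
  · have h7 := h.le _ h5
    rw [splitT_trj h] at h7
    exact absurd hs (not_lt.2 h7)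
  · exact h6
  · have h7 := splitT_yle h
    rw [← h5, splitT_trj h] at h7
    exact absurd hs (not_lt.2 h7)

private theorem splitT_j' (h : IsCut n P I w j s S y) {x : W} (hx : x ∈ P) (hs : s ≤ ht (x j)) :
    upd x n (up s base) ∈ spl n j s P S y :=
  ⟨x, hx, up s base, up_mem (by linarith [h.half]) h.lt.le base_mem.1, rfl,
    Or.inr (Or.inr (Or.inl ⟨hs, rfl⟩))⟩

/-- the part of the splitting near the other wild points -/
private theorem splitT_i (h : IsCut n P I w j s S y) {z : W} (hz : z ∈ spl n j s P S y)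
    (hS : tr n z ∉ S) (hs : ht (z j) < s) : z n = z j := by
  obtain ⟨-, -, -, h4⟩ := (mem_spl h).1 hz
  rcases h4 with ⟨h5, h6⟩ | ⟨h5, h6⟩ | ⟨h5, h6⟩ | ⟨h5, -⟩
  · exact h6
  · exact absurd h5 hS
  · exact absurd hs (not_lt.2 h5)
  · rw [h5] at hS
    exact absurd h.yS hS

private theorem splitT_i' (h : IsCut n P I w j s S y) {x : W} (hx : x ∈ P) (hs : ht (x j) < s) :
    upd x n (x j) ∈ spl n j s P S y :=
  ⟨x, hx, x j, h.stage.cone j h.hj x hx, rfl, Or.inl ⟨hs.le, rfl⟩⟩

/-- the points near the other wild points are neither in `S` nor above the height `s` -/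
private theorem splitT_near (h : IsCut n P I w j s S y) {i : ℕ} (hi : i ∈ I) (hij : i ≠ j) :
    ∃ s' < 1, ∀ x ∈ P, s' ≤ ht (x i) → x ∉ S ∧ ht (x j) < s := by
  have hcl : IsClosed S := h.polyS.isCompact.isClosed
  have hU : IsOpen {x : W | x ∉ S ∧ ht (x j) < s} := by
    have h1 : IsOpen {x : W | x ∉ S} := hcl.isOpen_compl
    have h2 : IsOpen {x : W | ht (x j) < s} :=
      isOpen_lt (continuous_ht.comp (continuous_apply j)) continuous_const
    exact h1.inter h2
  exact h.stage.near hi hU ⟨h.off i hi, h.far i hi hij⟩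

theorem spl_trans (h : IsCut n P I w j s S y) : ∀ i ∈ insert n I, ∃ s' < 1, ∃ L : W × E → W,
    IsTrans (spl n j s P S y) i s' L := by
  have hjn : j ≠ n := (splitT_jlt h).ne
  have hs1 : (s + 1) / 2 < 1 := by linarith [h.lt]
  have hs2 : s < (s + 1) / 2 := by linarith [h.lt]
  rintro i (rfl | hi)
  · -- the new coordinate
    refine ⟨(s + 1) / 2, hs1, fun p => upd p.1 i p.2, (continuous_upd i).continuousOn, ?_⟩
    intro z hz hzs
    have h1 := splitT_n h hz (hs2.trans_le hzs)
    have h2 := splitT_eq h hz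
    refine ⟨fun κ hκ hκs => ⟨?_, upd_same i z κ⟩, upd_self i z⟩
    change upd z i κ ∈ _
    have h3 : upd z i κ = upd y i κ := by
      rw [h2, upd_upd, h1]
    rw [h3]
    exact splitT_n' h hκ (hs2.le.trans hκs)
  · by_cases hij : i = j
    · -- the coordinate `j`
      subst hij
      obtain ⟨L, hLc, hL⟩ := h.trans
      refine ⟨(s + 1) / 2, hs1, fun p => upd (L (tr n p.1, p.2)) n (up s base), ?_, ?_⟩
      · have h1 : ContinuousOn (fun p : W × E => L (tr n p.1, p.2))
            {p | p.1 ∈ spl n i s P S y ∧ (s + 1) / 2 ≤ ht (p.1 i) ∧ p.2 ∈ cK ∧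
              (s + 1) / 2 ≤ ht p.2} := by
          refine hLc.comp (f := fun p : W × E => (tr n p.1, p.2)) ?_ ?_
          · exact (((continuous_tr n).comp continuous_fst).prodMk continuous_snd).continuousOn
          · rintro p ⟨h1, h2, h3, h4⟩
            refine ⟨((mem_spl h).1 h1).1, ?_, h3, hs2.le.trans h4⟩
            change s ≤ ht (tr n p.1 i)
            rw [splitT_trj h]
            exact hs2.le.trans h2
        exact (continuous_upd n).comp_continuousOn (h1.prodMk continuousOn_const)
      · intro z hz hzs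
        have h1 := splitT_j h hz (hs2.trans_le hzs)
        have h2 := splitT_eq h hz
        have h3 : s ≤ ht (tr n z i) := by
          rw [splitT_trj h]
          exact hs2.le.trans hzs
        obtain ⟨h4, h5⟩ := hL (tr n z) ((mem_spl h).1 hz).1 h3
        constructor
        · intro κ hκ hκs
          obtain ⟨h6, h7⟩ := h4 κ hκ (hs2.le.trans hκs)
          refine ⟨splitT_j' h h6 (by rw [h7]; exact hs2.le.trans hκs), ?_⟩
          change upd (L (tr n z, κ)) n (up s base) i = κ
          rw [upd_ne hjn, h7]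
        · change upd (L (tr n z, z i)) n (up s base) = z
          rw [splitT_trj h] at h5
          rw [h5, ← h1]
          exact h2.symm
    · -- the other coordinates
      have hin : i ≠ n := (h.stage.lt i hi).ne
      have htr : ∀ z : W, tr n z i = z i := fun z => tr_lt (h.stage.lt i hi) z
      obtain ⟨s₁, hs₁, hnear⟩ := splitT_near h hi hij
      obtain ⟨s₂, hs₂, L, hL'⟩ := h.stage.trans i hi
      obtain ⟨hLc, hL⟩ := hL'.mono (le_max_right s₁ s₂)
      refine ⟨max s₁ s₂, max_lt hs₁ hs₂, fun p => upd (L (tr n p.1, p.2)) n (L (tr n p.1, p.2) j), ?_, ?_⟩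
      · have h1 : ContinuousOn (fun p : W × E => L (tr n p.1, p.2))
            {p | p.1 ∈ spl n j s P S y ∧ max s₁ s₂ ≤ ht (p.1 i) ∧ p.2 ∈ cK ∧
              max s₁ s₂ ≤ ht p.2} := by
          refine hLc.comp (f := fun p : W × E => (tr n p.1, p.2)) ?_ ?_
          · exact (((continuous_tr n).comp continuous_fst).prodMk continuous_snd).continuousOn
          · rintro p ⟨h1, h2, h3, h4⟩
            refine ⟨((mem_spl h).1 h1).1, ?_, h3, h4⟩
            change max s₁ s₂ ≤ ht (tr n p.1 i)
            rw [htr]
            exact h2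
        have h2 : ContinuousOn (fun p : W × E => L (tr n p.1, p.2) j)
            {p | p.1 ∈ spl n j s P S y ∧ max s₁ s₂ ≤ ht (p.1 i) ∧ p.2 ∈ cK ∧
              max s₁ s₂ ≤ ht p.2} := (continuous_apply j).comp_continuousOn h1
        exact (continuous_upd n).comp_continuousOn (h1.prodMk h2)
      · intro z hz hzs
        have hzP := ((mem_spl h).1 hz).1
        have h3 : max s₁ s₂ ≤ ht (tr n z i) := by
          rw [htr]
          exact hzs
        have h0 := hnear _ hzP ((le_max_left s₁ s₂).trans h3)
        rw [splitT_trj h] at h0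
        have h1 := splitT_i h hz h0.1 h0.2
        have h2 := splitT_eq h hz
        obtain ⟨h4, h5⟩ := hL (tr n z) hzP h3
        constructor
        · intro κ hκ hκs
          obtain ⟨h6, h7⟩ := h4 κ hκ hκs
          have h8 := hnear _ h6 (by rw [h7]; exact (le_max_left s₁ s₂).trans hκs)
          refine ⟨splitT_i' h h6 h8.2, ?_⟩
          change upd (L (tr n z, κ)) n (L (tr n z, κ) j) i = κ
          rw [upd_ne hin, h7]
        · change upd (L (tr n z, z i)) n (L (tr n z, z i) j) = z
          rw [htr] at h5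
          rw [h5, splitT_trj h, ← h1]
          exact h2.symm

theorem spl_sph (h : IsCut n P I w j s S y) : ∀ i ∈ insert n I, ∃ s' < 1, ∀ t, s' ≤ t → t < 1 →
    IsConnected {x | x ∈ spl n j s P S y ∧ ht (x i) = t} := by
  have hjn : j ≠ n := (splitT_jlt h).ne
  have hs1 : (s + 1) / 2 < 1 := by linarith [h.lt]
  have hs2 : s < (s + 1) / 2 := by linarith [h.lt]
  rintro i (rfl | hi)
  · -- the new coordinate
    refine ⟨(s + 1) / 2, hs1, fun t ht1 ht2 => ?_⟩
    have hst : s < t := hs2.trans_le ht1
    have h1 : {x | x ∈ spl i j s P S y ∧ ht (x i) = t} =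
        (fun κ => upd y i κ) '' {κ | κ ∈ cK ∧ ht κ = t} := by
      ext z
      constructor
      · rintro ⟨hz, hzt⟩
        have h1 := splitT_n h hz (by rw [hzt]; exact hst)
        have h2 := splitT_eq h hz
        refine ⟨z i, ⟨((mem_spl h).1 hz).2.1, hzt⟩, ?_⟩
        change upd y i (z i) = z
        rw [← h1]
        exact h2.symm
      · rintro ⟨κ, ⟨hκ, hκt⟩, rfl⟩
        refine ⟨splitT_n' h hκ (by rw [hκt]; exact hst.le), ?_⟩
        change ht (upd y i κ i) = t
        rw [upd_same]
        exact hκt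
    rw [h1]
    refine (isConnected_level (by linarith [h.half]) ht2).image _ ?_
    exact ((continuous_upd i).comp (continuous_const.prodMk continuous_id)).continuousOn
  · obtain ⟨s₀, hs₀, hsph⟩ := h.stage.sph i hi
    by_cases hij : i = j
    · -- the coordinate `j`
      subst hij
      refine ⟨max s₀ ((s + 1) / 2), max_lt hs₀ hs1, fun t ht1 ht2 => ?_⟩
      have hst : s < t := hs2.trans_le ((le_max_right _ _).trans ht1)
      have h1 : {x | x ∈ spl n i s P S y ∧ ht (x i) = t} =
          (fun x => upd x n (up s base)) '' {x | x ∈ P ∧ ht (x i) = t} := by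
        ext z
        constructor
        · rintro ⟨hz, hzt⟩
          have h1 := splitT_j h hz (by rw [hzt]; exact hst)
          have h2 := splitT_eq h hz
          refine ⟨tr n z, ⟨((mem_spl h).1 hz).1, by rw [splitT_trj h]; exact hzt⟩, ?_⟩
          change upd (tr n z) n (up s base) = z
          rw [← h1]
          exact h2.symm
        · rintro ⟨x, ⟨hx, hxt⟩, rfl⟩
          refine ⟨splitT_j' h hx (by rw [hxt]; exact hst.le), ?_⟩
          change ht (upd x n (up s base) i) = t
          rw [upd_ne hjn]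
          exact hxt
      rw [h1]
      refine (hsph t ((le_max_left _ _).trans ht1) ht2).image _ ?_
      exact ((continuous_upd n).comp (continuous_id.prodMk continuous_const)).continuousOn
    · -- the other coordinates
      have hin : i ≠ n := (h.stage.lt i hi).ne
      have htr : ∀ z : W, tr n z i = z i := fun z => tr_lt (h.stage.lt i hi) z
      obtain ⟨s₁, hs₁, hnear⟩ := splitT_near h hi hij
      refine ⟨max s₀ s₁, max_lt hs₀ hs₁, fun t ht1 ht2 => ?_⟩
      have hst : s₁ ≤ t := (le_max_right _ _).trans ht1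
      have h1 : {x | x ∈ spl n j s P S y ∧ ht (x i) = t} =
          (fun x => upd x n (x j)) '' {x | x ∈ P ∧ ht (x i) = t} := by
        ext z
        constructor
        · rintro ⟨hz, hzt⟩
          have hzP := ((mem_spl h).1 hz).1
          have h3 : ht (tr n z i) = t := by rw [htr]; exact hzt
          have h0 := hnear _ hzP (by rw [h3]; exact hst)
          rw [splitT_trj h] at h0
          have h1 := splitT_i h hz h0.1 h0.2
          have h2 := splitT_eq h hz
          refine ⟨tr n z, ⟨hzP, h3⟩, ?_⟩
          change upd (tr n z) n (tr n z j) = z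
          rw [splitT_trj h, ← h1]
          exact h2.symm
        · rintro ⟨x, ⟨hx, hxt⟩, rfl⟩
          have h0 := hnear _ hx (by rw [hxt]; exact hst)
          refine ⟨splitT_i' h hx h0.2, ?_⟩
          change ht (upd x n (x j) i) = t
          rw [upd_ne hin]
          exact hxt
      rw [h1]
      refine (hsph t ((le_max_left _ _).trans ht1) ht2).image _ ?_
      exact ((continuous_upd n).comp (continuous_id.prodMk (continuous_apply j))).continuousOn

end Pool.Agent.H71.ZW
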