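import Pool.Agent.H71.ZW.SplitP
import Pool.Agent.H71.ZW.SplitT
import Pool.Agent.H71.ZW.SplitC
import Pool.Agent.H71.ZW.Glue

set_option autoImplicit false

/-!
# The splitting

Let `D` be as in `exists_homS`, `B` as in `exists_homC`. The homotopy `H (z, t)` is defined on three
closed parts of the splitting (`mem_spl`):
* `z n = z j`, `ht (z j) ≤ s`: `H (z, t) = z`;
* `(tr n z, z n) ∈ splS`: `H (z, t) = updL n (D ((tr n z, z n), t))`;
* `s ≤ ht (z j)`, `z n = up s base`: `H (z, t) = updL n (B (tr n z, t))`.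
On the intersection of the first two parts `D` is stationary; the third part meets the others only
where `ht (z j) = s`, `tr n z ∈ S` (there `B (x, t) = D ((x, up s base), t)`). Use `exists_glue₃`.
Similarly `σ x = upd x n (x j)` if `ht (x j) ≤ s` and `σ x = updL n (B (x, 1))` if
`s ≤ ht (x j)` (glue; for `ht (x j) = s` both are `upd x n (x j)`, as
`B (x, 1) = D ((x, up s base), 1) = (x, x j)`).
The set `spl n j s P S y` is contractible by `Contr.dominated`.
-/

namespace Pool.Agent.H71.ZW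

open Set Topology TopologicalSpace

variable {n : ℕ} {P : Set W} {I : Set ℕ} {w : ℕ → W} {j : ℕ} {s : ℝ} {S : Set W} {y : W}

private theorem split_jn (h : IsCut n P I w j s S y) : j < n := h.stage.lt j h.hj

private theorem split_tr (h : IsCut n P I w j s S y) {x : W} (hx : x ∈ P) : tr n x = x :=
  tr_eq (h.stage.zero x hx)

private theorem split_trupd (h : IsCut n P I w j s S y) {x : W} (hx : x ∈ P) (κ : E) :
    tr n (upd x n κ) = x := by
  rw [tr_upd, split_tr h hx]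

private theorem split_up_mem (h : IsCut n P I w j s S y) : up s base ∈ cK :=
  up_mem (by linarith [h.half]) h.lt.le base_mem.1

private theorem split_ht_up : ht (up s base) = s := by
  rw [ht_up, ht_base]; ring

/-- The part over `S` is in the splitting. -/
private theorem split_memS (h : IsCut n P I w j s S y) {p : W × E} (hp : p ∈ splS j S y) :
    updL n p ∈ spl n j s P S y := by
  obtain ⟨h1, h2, h3⟩ := hp
  refine ⟨p.1, h.sub h1, p.2, h2, rfl, ?_⟩
  rcases h3 with h3 | ⟨h3, h4⟩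
  · exact Or.inr (Or.inl ⟨h1, h3⟩)
  · refine Or.inr (Or.inr (Or.inr ⟨h3, ?_⟩))
    rw [h3]; exact h4

private theorem split_memB (h : IsCut n P I w j s S y) {p : W × E}
    (hp : p ∈ splS j S y ∨ (p.1 ∈ P ∧ s ≤ ht (p.1 j) ∧ p.2 = up s base)) :
    updL n p ∈ spl n j s P S y := by
  rcases hp with hp | ⟨h1, h2, h3⟩
  · exact split_memS h hp
  · exact ⟨p.1, h1, p.2, h3 ▸ split_up_mem h, rfl, Or.inr (Or.inr (Or.inl ⟨h2, h3⟩))⟩

private theorem split_ctl (h : IsCut n P I w j s S y) {p : W × E}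
    (hp : p ∈ splS j S y ∨ (p.1 ∈ P ∧ s ≤ ht (p.1 j) ∧ p.2 = up s base)) :
    tr n (updL n p) ∈ S ∨ s ≤ ht (updL n p j) := by
  rw [updL_apply]
  rcases hp with hp | ⟨h1, h2, h3⟩
  · left
    rw [split_trupd h (h.sub hp.1)]
    exact hp.1
  · right
    rw [upd_ne (split_jn h).ne]
    exact h2

theorem exists_ext_spl (h : IsCut n P I w j s S y) :
    ∃ (σ : W → W) (H : W × ℝ → W), IsExt n P (n + 1) (spl n j s P S y) σ H ∧
      (∀ x ∈ P, ht (x j) ≤ s → σ x = upd x n (x j)) ∧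
      (∀ x ∈ P, s ≤ ht (x j) → tr n (σ x) ∈ S ∨ s ≤ ht (σ x j)) ∧
      ∀ z ∈ spl n j s P S y, ∀ t ∈ Icc (0 : ℝ) 1, tr n (H (z, t)) = tr n z ∨
        ((tr n z ∈ S ∨ s ≤ ht (z j)) ∧ (tr n (H (z, t)) ∈ S ∨ s ≤ ht (H (z, t) j))) := by
  have hjn := split_jn h
  have hPc : IsClosed P := h.stage.poly.isCompact.isClosed
  obtain ⟨D, hD, hDm, hD0, hD1, hDs⟩ := exists_homS (j := j) h.polyS h.conn h.yS h.lt
    (fun x hx => ⟨h.stage.cone j h.hj x (h.sub hx), h.le x hx⟩)
  obtain ⟨B, hB, hBm, hB0, hBs⟩ := exists_homC h hD hDm hD0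
  have hQc : IsClosed (spl n j s P S y) := (isPoly_spl h).isCompact.isClosed
  have hSc : IsClosed (splS j S y) := (isCompact_splS (j := j) (y := y)
    h.polyS.isCompact).isClosed
  have hupS : ∀ x ∈ P, ht (x j) = s → (x, up s base) ∈ splS j S y := fun x hx hxs =>
    ⟨h.sphere x hx hxs, split_up_mem h, Or.inl (by rw [split_ht_up]; exact hxs.symm)⟩
  have hcj : Continuous fun z : W => ht (z j) := continuous_ht.comp (continuous_apply j)
  have hcI : IsClosed (Icc (0 : ℝ) 1) := isClosed_Icc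
  -- the section
  obtain ⟨σ, hσ, hσ1, hσ2⟩ := exists_glue₂ (X := W) (Y := W)
    (A := {x | x ∈ P ∧ ht (x j) ≤ s}) (B := {x | x ∈ P ∧ s ≤ ht (x j)})
    (f := fun x => upd x n (x j)) (g := fun x => updL n (B (x, 1)))
    (hPc.inter (isClosed_le hcj continuous_const))
    (hPc.inter (isClosed_le continuous_const hcj))
    ((continuous_upd n).comp (continuous_id.prodMk (continuous_apply j))).continuousOn
    ((updL n).continuous.comp_continuousOn (hB.comp
      (continuous_id.prodMk continuous_const).continuousOn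
      fun x hx => ⟨hx, right_mem_Icc.2 zero_le_one⟩))
    (by
      rintro x ⟨hx, hx1⟩ ⟨-, hx2⟩
      have hxs : ht (x j) = s := le_antisymm hx1 hx2
      rw [hBs x hx hxs 1 (right_mem_Icc.2 zero_le_one), hD1 _ (hupS x hx hxs), updL_apply])
  have hσP : {x | x ∈ P ∧ ht (x j) ≤ s} ∪ {x | x ∈ P ∧ s ≤ ht (x j)} = P := by
    ext x
    constructor
    · rintro (hx | hx) <;> exact hx.1
    · intro hx
      rcases le_total (ht (x j)) s with hs | hs
      · exact Or.inl ⟨hx, hs⟩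
      · exact Or.inr ⟨hx, hs⟩
  rw [hσP] at hσ
  -- the homotopy
  have hcp : Continuous fun q : W × ℝ => (((tr n q.1, q.1 n), q.2) : (W × E) × ℝ) :=
    (((continuous_tr n).comp continuous_fst).prodMk
      ((continuous_apply n).comp continuous_fst)).prodMk continuous_snd
  have hcq : Continuous fun q : W × ℝ => ((tr n q.1, q.2) : W × ℝ) :=
    ((continuous_tr n).comp continuous_fst).prodMk continuous_snd
  obtain ⟨H, hH, hH1, hH2, hH3⟩ := exists_glue₃ (X := W × ℝ) (Y := W)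
    (A := {q | q.1 ∈ spl n j s P S y ∧ q.2 ∈ Icc (0 : ℝ) 1 ∧ ht (q.1 j) ≤ s ∧ q.1 n = q.1 j})
    (B := {q | q.1 ∈ spl n j s P S y ∧ q.2 ∈ Icc (0 : ℝ) 1 ∧ (tr n q.1, q.1 n) ∈ splS j S y})
    (C := {q | q.1 ∈ spl n j s P S y ∧ q.2 ∈ Icc (0 : ℝ) 1 ∧ s ≤ ht (q.1 j) ∧
      q.1 n = up s base})
    (f := fun q => q.1) (g := fun q => updL n (D ((tr n q.1, q.1 n), q.2)))
    (k := fun q => updL n (B (tr n q.1, q.2)))
    ((hQc.preimage continuous_fst).inter ((hcI.preimage continuous_snd).inter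
      ((isClosed_le (hcj.comp continuous_fst) continuous_const).inter
        (isClosed_eq ((continuous_apply n).comp continuous_fst)
          ((continuous_apply j).comp continuous_fst)))))
    ((hQc.preimage continuous_fst).inter ((hcI.preimage continuous_snd).inter
      (hSc.preimage (((continuous_tr n).comp continuous_fst).prodMk
        ((continuous_apply n).comp continuous_fst)))))
    ((hQc.preimage continuous_fst).inter ((hcI.preimage continuous_snd).inter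
      ((isClosed_le continuous_const (hcj.comp continuous_fst)).inter
        (isClosed_eq ((continuous_apply n).comp continuous_fst) continuous_const))))
    continuous_fst.continuousOn
    ((updL n).continuous.comp_continuousOn (hD.comp hcp.continuousOn
      fun q hq => ⟨hq.2.2, hq.2.1⟩))
    ((updL n).continuous.comp_continuousOn (hB.comp hcq.continuousOn
      fun q hq => ⟨⟨((mem_spl h).1 hq.1).1, by
        show s ≤ ht (tr n q.1 j)
        rw [tr_lt hjn]
        exact hq.2.2.1⟩, hq.2.1⟩))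
    (by
      rintro ⟨z, t⟩ ⟨hz, ht1, hz1, hz2⟩ ⟨-, -, hz3⟩
      simp only at hz ht1 hz1 hz2 hz3 ⊢
      have hzt : tr n z j = z j := tr_lt hjn z
      have e := hDs (tr n z) hz3.1 t ht1
      rw [hzt, ← hz2] at e
      rw [e, updL_apply, ← tr_succ, ((mem_spl h).1 hz).2.2.1])
    (by
      rintro ⟨z, t⟩ ⟨hz, ht1, hz1, hz2⟩ ⟨-, -, hz3, hz4⟩
      simp only at hz ht1 hz1 hz2 hz3 hz4 ⊢
      have hzt : tr n z j = z j := tr_lt hjn z
      have hzP : tr n z ∈ P := ((mem_spl h).1 hz).1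
      have hzs : ht (tr n z j) = s := by rw [hzt]; exact le_antisymm hz1 hz3
      have e := hDs (tr n z) (h.sphere _ hzP hzs) t ht1
      rw [hzt, ← hz2] at e
      rw [hBs _ hzP hzs t ht1, ← hz4, e, updL_apply, ← tr_succ, ((mem_spl h).1 hz).2.2.1])
    (by
      rintro ⟨z, t⟩ ⟨hz, ht1, hz1⟩ ⟨-, -, hz3, hz4⟩
      simp only at hz ht1 hz1 hz3 hz4 ⊢
      have hzt : tr n z j = z j := tr_lt hjn z
      have hzP : tr n z ∈ P := ((mem_spl h).1 hz).1
      have hzs : ht (tr n z j) = s := le_antisymm (h.le _ hz1.1) (by rw [hzt]; exact hz3)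
      rw [hBs _ hzP hzs t ht1, hz4])
  -- the three cases
  have key : ∀ z ∈ spl n j s P S y, ∀ t ∈ Icc (0 : ℝ) 1,
      (ht (z j) ≤ s ∧ z n = z j ∧ H (z, t) = z) ∨
      ((tr n z, z n) ∈ splS j S y ∧ H (z, t) = updL n (D ((tr n z, z n), t))) ∨
      (s ≤ ht (z j) ∧ z n = up s base ∧ H (z, t) = updL n (B (tr n z, t))) := by
    intro z hz t ht'
    have hzt : tr n z j = z j := tr_lt hjn z
    obtain ⟨h1, h2, h3, h4⟩ := (mem_spl h).1 hz
    rcases h4 with h4 | h4 | h4 | h4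
    · exact Or.inl ⟨h4.1, h4.2, hH1 ⟨hz, ht', h4.1, h4.2⟩⟩
    · have h5 : (tr n z, z n) ∈ splS j S y := ⟨h4.1, h2, Or.inl (by
        show ht (z n) = ht (tr n z j)
        rw [hzt]; exact h4.2)⟩
      exact Or.inr (Or.inl ⟨h5, hH2 ⟨hz, ht', h5⟩⟩)
    · exact Or.inr (Or.inr ⟨h4.1, h4.2, hH3 ⟨hz, ht', h4.1, h4.2⟩⟩)
    · have h5 : (tr n z, z n) ∈ splS j S y := ⟨by
        show tr n z ∈ S
        rw [h4.1]; exact h.yS, h2, Or.inr ⟨h4.1, by
        show ht (y j) ≤ ht (z n)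
        rw [← h4.1, hzt]; exact h4.2⟩⟩
      exact Or.inr (Or.inl ⟨h5, hH2 ⟨hz, ht', h5⟩⟩)
  have hzupd : ∀ z ∈ spl n j s P S y, upd (tr n z) n (z n) = z := fun z hz => by
    rw [← tr_succ, ((mem_spl h).1 hz).2.2.1]
  have hBm' : ∀ z ∈ spl n j s P S y, s ≤ ht (z j) → ∀ t ∈ Icc (0 : ℝ) 1,
      B (tr n z, t) ∈ splS j S y ∨ ((B (tr n z, t)).1 ∈ P ∧ s ≤ ht ((B (tr n z, t)).1 j) ∧
        (B (tr n z, t)).2 = up s base) := fun z hz hs t ht' =>
    hBm _ ((mem_spl h).1 hz).1 (by rw [tr_lt hjn]; exact hs) t ht'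
  refine ⟨σ, H, ⟨n.le_succ, fun z hz => ((mem_spl h).1 hz).1, spl_fib h, hσ, ?_, ?_, ?_, ?_, ?_⟩,
    ?_, ?_, ?_⟩
  · -- mapS
    intro x hx
    rcases le_total (ht (x j)) s with hs | hs
    · rw [hσ1 ⟨hx, hs⟩]
      exact ⟨x, hx, x j, h.stage.cone j h.hj x hx, rfl, Or.inl ⟨hs, rfl⟩⟩
    · rw [hσ2 ⟨hx, hs⟩]
      exact split_memB h (hBm x hx hs 1 (right_mem_Icc.2 zero_le_one))
  · -- contH
    refine hH.mono ?_
    rintro ⟨z, t⟩ ⟨hz, ht'⟩
    simp only at hz ht'
    rcases key z hz t ht' with h1 | h1 | h1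
    · exact Or.inl (Or.inl ⟨hz, ht', h1.1, h1.2.1⟩)
    · exact Or.inl (Or.inr ⟨hz, ht', h1.1⟩)
    · exact Or.inr ⟨hz, ht', h1.1, h1.2.1⟩
  · -- mapH
    rintro ⟨z, t⟩ ⟨hz, ht'⟩
    simp only at hz ht'
    rcases key z hz t ht' with ⟨-, -, h1⟩ | ⟨h0, h1⟩ | ⟨h0, -, h1⟩
    · rw [h1]; exact hz
    · rw [h1]; exact split_memS h (hDm ⟨h0, ht'⟩)
    · rw [h1]; exact split_memB h (hBm' z hz h0 t ht')
  · -- H0
    intro z hz
    rcases key z hz 0 (left_mem_Icc.2 zero_le_one) with ⟨-, -, h1⟩ | ⟨h0, h1⟩ | ⟨h0, h2, h1⟩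
    · exact h1
    · rw [h1, hD0 _ h0, updL_apply]; exact hzupd z hz
    · rw [h1, hB0 _ ((mem_spl h).1 hz).1 (by rw [tr_lt hjn]; exact h0), updL_apply, ← h2]
      exact hzupd z hz
  · -- H1
    intro z hz
    have hzP := ((mem_spl h).1 hz).1
    have hzt : tr n z j = z j := tr_lt hjn z
    rcases key z hz 1 (right_mem_Icc.2 zero_le_one) with ⟨h2, h3, h1⟩ | ⟨h0, h1⟩ | ⟨h0, h2, h1⟩
    · rw [h1, hσ1 ⟨hzP, by rw [hzt]; exact h2⟩]
      show z = upd (tr n z) n (tr n z j)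
      rw [hzt, ← h3]
      exact (hzupd z hz).symm
    · rw [h1, hD1 _ h0, hσ1 ⟨hzP, h.le _ h0.1⟩, updL_apply]
    · rw [h1, hσ2 ⟨hzP, by rw [hzt]; exact h0⟩]
  · exact fun x hx hs => hσ1 ⟨hx, hs⟩
  · intro x hx hs
    rw [hσ2 ⟨hx, hs⟩]
    exact split_ctl h (hBm x hx hs 1 (right_mem_Icc.2 zero_le_one))
  · intro z hz t ht'
    rcases key z hz t ht' with ⟨-, -, h1⟩ | ⟨h0, h1⟩ | ⟨h0, -, h1⟩
    · left; rw [h1]
    · right
      rw [h1]
      exact ⟨Or.inl h0.1, split_ctl h (Or.inl (hDm ⟨h0, ht'⟩))⟩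
    · right
      rw [h1]
      exact ⟨Or.inr h0, split_ctl h (hBm' z hz h0 t ht')⟩

theorem isStage_spl (h : IsCut n P I w j s S y) :
    IsStage (n + 1) (spl n j s P S y) (insert n I) (wspl n j s w y) := by
  obtain ⟨σ, H, hE, -⟩ := exists_ext_spl h
  refine ⟨isPoly_spl h, spl_zero h, ?_, spl_mem h, spl_cone h, spl_vtx h, spl_inj h, ?_,
    spl_trans h, spl_sph h, spl_diag h⟩
  · rintro i (rfl | hi)
    · exact Nat.lt_succ_self _
    · exact (h.stage.lt i hi).trans (Nat.lt_succ_self _)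
  · exact Contr.dominated h.stage.contr (tr n) σ (continuous_tr n).continuousOn hE.contS
      (fun z hz => hE.map z hz) hE.mapS H hE.contH hE.mapH hE.H0 hE.H1

end Pool.Agent.H71.ZW
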