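import Pool.Agent.H71.ZW.Cut
import Pool.Agent.H71.ZW.Split
import Pool.Agent.H71.ZW.ExtComp

set_option autoImplicit false

/-!
# Repeated splitting

Proof of `multi_split` by induction on `N`. `N = 0`: `IsExt.refl`. Step: put `j = J 0`, choose
`s ≥ s₀`, `S` by `exists_cut` for `Z 0`, `y 0`, and let `P₁ = spl n j s P S (y 0)`,
`I₁ = insert n I`, `w₁ = wspl …`, `σ₁`, `H₁` by `exists_ext_spl`. Apply the induction hypothesis to
`P₁`, `n + 1`, `I₁`, `w₁`, the same `A`, `m`, `ε`, `ε'`, the new height `s` instead of `s₀`, and the data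
`J (k + 1)`, `Z₁ k = {z ∈ P₁ | tr n z ∈ Z (k + 1)}` (connected by `isConnected_preim` and the
fibres of `H₁`), `y₁ k` = the point `upd (y (k + 1)) n κ` of `P₁` with `κ = y (k + 1) j` if
`ht (y (k + 1) j) ≤ s` and `κ = up s base` otherwise (so `κ ≠ apex`, so `y₁ k` is not wild). Note
`tr n (w₁ i) = w i` for `i ∈ I`, `tr n (w₁ n) = y 0`. Let `σ'`, `H'` be the result, `σ = σ' ∘ σ₁`, and
`H` the homotopy of `IsExt.comp`.
* `x ∈ P`, `ht (x i) ≤ s₀` for all `i ∈ A`: `σ₁ x = upd x n (x j)` is fixed by `σ'`.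
* `x ∈ P`, `i ∈ A`, `s₀ ≤ ht (x i)`. If `ht (x j) ≤ s` then `σ₁ x = upd x n (x j)`, and either `σ'`
  fixes it (and `dm m x (w i) ≤ ε'` by `small`), or `s < ht (x i')` for some `i' ∈ A`, so
  `i' = i` by `disj` and `ctl` for `σ'` applies. If `s < ht (x j)` then `i = j`; if `tr n (σ₁ x) ∈ S`
  then `σ'` fixes `σ₁ x` (as `ht (x' i') ≤ s` for `x' ∈ S`, `i' ∈ A`) and `dm m x' (w j) ≤ ε'` for
  `x' ∈ S`; if `s ≤ ht (σ₁ x j)`, apply `ctl` for `σ'`.
* `H (z, t)` is `H' (z, u)` or `σ' v` with `v = H₁ (tr (n + 1) z, u)`. For all `v ∈ P₁`,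
  `dm m (σ' v) v ≤ 2 * ε'` (fixed, or `s < ht (v i)` for some `i ∈ A`, and `dm m (σ' v) (w i) ≤ ε'`,
  `dm m v (w i) ≤ ε'`), and `dm m v z ≤ 2 * ε'` by the property of `H₁`: `tr n v = tr n z`, or
  `tr n v` and `tr n z` are in `S ∪ {s ≤ ht (x j)}`, where `dm m x (w j) ≤ ε'`.
-/

namespace Pool.Agent.H71.ZW

open Set Topology TopologicalSpace

/-- The data of a repeated splitting. -/
structure IsMulti (m n : ℕ) (P : Set W) (I : Set ℕ) (w : ℕ → W) (A : Set ℕ) (s ε ε' : ℝ) (N : ℕ)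
    (J : ℕ → ℕ) (y : ℕ → W) (Z : ℕ → Set W) : Prop where
  stage : IsStage n P I w
  fin : I.Finite
  hA : A ⊆ I
  le : m ≤ n
  half : 1 / 2 ≤ s
  lt : s < 1
  eps : ε < ε'
  hJ : ∀ k < N, J k ∈ A
  poly : ∀ k < N, IsPoly (Z k)
  conn : ∀ k < N, IsConnected (Z k)
  sub : ∀ k < N, Z k ⊆ P
  yZ : ∀ k < N, y k ∈ Z k
  wZ : ∀ k < N, w (J k) ∈ Z k
  yw : ∀ k < N, ∀ i ∈ I, y k ≠ w i
  sep : ∀ k < N, ∀ i ∈ A, w i ∈ Z k ∨ ∀ x ∈ Z k, ht (x i) < s
  dist : ∀ k < N, ∀ x ∈ Z k, dm m x (w (J k)) ≤ ε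
  small : ∀ i ∈ A, ∀ x ∈ P, s ≤ ht (x i) → dm m x (w i) ≤ ε'
  disj : ∀ i ∈ A, ∀ i' ∈ A, i ≠ i' → ∀ x ∈ P, s ≤ ht (x i) → ht (x i') < s
  nn : 0 ≤ ε'

theorem multi_tr_wspl {n j : ℕ} {s : ℝ} {P : Set W} {I : Set ℕ} {w : ℕ → W} (y : W)
    (h : IsStage n P I w) {i : ℕ} (hi : i ∈ I) : tr n (wspl n j s w y i) = w i := by
  have hlt := h.lt i hi
  have h1 : tr n (w i) = w i := tr_eq (h.zero _ (h.mem i hi))
  simp only [wspl]
  rw [if_neg hlt.ne]
  split_ifs with hj
  · rw [tr_upd, ← hj, h1]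
  · rw [tr_upd, h1]

theorem multi_dm_wspl {m n j : ℕ} {s : ℝ} {P : Set W} {I : Set ℕ} {w : ℕ → W} (y : W)
    (h : IsStage n P I w) (hm : m ≤ n) {i : ℕ} (hi : i ∈ I) (x : W) :
    dm m x (wspl n j s w y i) = dm m x (w i) := by
  have h1 : tr n (w i) = w i := tr_eq (h.zero _ (h.mem i hi))
  have h2 := multi_tr_wspl (j := j) (s := s) y h hi
  rw [← dm_tr hm hm x (wspl n j s w y i), ← dm_tr hm hm x (w i), h2, h1]

/-- Lifts of points to the splitting. -/
theorem multi_lift {n j : ℕ} {s : ℝ} {P S : Set W} {I : Set ℕ} {w : ℕ → W} {y x : W}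
    (h : IsStage n P I w) (hj : j ∈ I) (hs0 : 0 ≤ s) (hs1 : s < 1) (hx : x ∈ P) :
    ∃ z ∈ spl n j s P S y, tr n z = x ∧ z n ≠ apex := by
  have htx : tr n x = x := tr_eq (h.zero _ hx)
  have hap : ∀ κ : E, ht κ ≤ s → κ ≠ apex := by
    rintro κ h1 rfl
    rw [ht_apex] at h1
    linarith
  rcases le_total (ht (x j)) s with h1 | h1
  · refine ⟨upd x n (x j), ⟨x, hx, x j, h.cone j hj x hx, rfl, Or.inl ⟨h1, rfl⟩⟩, ?_, ?_⟩
    · rw [tr_upd, htx]
    · rw [upd_same]
      exact hap _ h1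
  · refine ⟨upd x n (up s base), ⟨x, hx, up s base, up_mem hs0 hs1.le base_mem.1, rfl,
      Or.inr (Or.inr (Or.inl ⟨h1, rfl⟩))⟩, ?_, ?_⟩
    · rw [tr_upd, htx]
    · rw [upd_same]
      apply hap
      rw [ht_up, ht_base]
      linarith

/-- The data for the remaining splittings. -/
theorem multi_data {m n : ℕ} {P : Set W} {I : Set ℕ} {w : ℕ → W} {A : Set ℕ} {s ε ε' : ℝ} {N : ℕ}
    {J : ℕ → ℕ} {y : ℕ → W} {Z : ℕ → Set W} (h : IsMulti m n P I w A s ε ε' (N + 1) J y Z)
    {s₁ : ℝ} {S : Set W} (hs : s ≤ s₁) (hc : IsCut n P I w (J 0) s₁ S (y 0)) {σ₁ : W → W}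
    {H₁ : W × ℝ → W} (he : IsExt n P (n + 1) (spl n (J 0) s₁ P S (y 0)) σ₁ H₁) :
    ∃ y₁ : ℕ → W, (∀ k < N, tr n (y₁ k) = y (k + 1)) ∧
      IsMulti m (n + 1) (spl n (J 0) s₁ P S (y 0)) (insert n I) (wspl n (J 0) s₁ w (y 0)) A s₁ ε ε' N
        (fun k => J (k + 1)) y₁
        (fun k => {z | z ∈ spl n (J 0) s₁ P S (y 0) ∧ tr n z ∈ Z (k + 1)}) := by
  have hst := isStage_spl hc
  have hjI : J 0 ∈ I := h.hA (h.hJ 0 (by omega))
  have hlift : ∀ k : ℕ, ∃ z : W, k < N → z ∈ spl n (J 0) s₁ P S (y 0) ∧ tr n z = y (k + 1) ∧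
      z n ≠ apex := by
    intro k
    by_cases hk : k < N
    · obtain ⟨z, h1, h2, h3⟩ := multi_lift (S := S) (y := y 0) h.stage hjI
        (by linarith [hc.half]) hc.lt (h.sub (k + 1) (by omega) (h.yZ (k + 1) (by omega)))
      exact ⟨z, fun _ => ⟨h1, h2, h3⟩⟩
    · exact ⟨0, fun hk' => absurd hk' hk⟩
  choose y₁ hy₁ using hlift
  have hcoord : ∀ i ∈ A, ∀ z : W, z i = tr n z i := fun i hi z =>
    (tr_lt (h.stage.lt i (h.hA hi)) z).symm
  refine ⟨y₁, fun k hk => (hy₁ k hk).2.1, ?_⟩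
  exact
    { stage := hst
      fin := h.fin.insert n
      hA := h.hA.trans (subset_insert _ _)
      le := h.le.trans (Nat.le_succ n)
      half := hc.half
      lt := hc.lt
      eps := h.eps
      hJ := fun k hk => h.hJ (k + 1) (by omega)
      poly := fun k hk => by
        have h1 := hst.poly.inter_preimage (h.poly (k + 1) (by omega)) (trL n)
        exact h1
      conn := fun k hk => by
        refine isConnected_preim (f := tr n) hst.isCompact (continuous_tr n).continuousOn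
          (h.poly (k + 1) (by omega)).isCompact.isClosed (h.conn (k + 1) (by omega)) ?_
        intro x hx
        exact he.fib x (h.sub (k + 1) (by omega) hx)
      sub := fun k hk z hz => hz.1
      yZ := fun k hk => ⟨(hy₁ k hk).1, by rw [(hy₁ k hk).2.1]; exact h.yZ (k + 1) (by omega)⟩
      wZ := fun k hk => by
        have h1 : J (k + 1) ∈ I := h.hA (h.hJ (k + 1) (by omega))
        refine ⟨hst.mem _ (mem_insert_of_mem _ h1), ?_⟩
        rw [multi_tr_wspl _ h.stage h1]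
        exact h.wZ (k + 1) (by omega)
      yw := fun k hk i hi e => by
        rcases hi with hi | hi
        · apply (hy₁ k hk).2.2
          rw [e, hi]
          simp only [wspl, if_true, upd_same]
        · apply h.yw (k + 1) (by omega) i hi
          rw [← (hy₁ k hk).2.1, e, multi_tr_wspl _ h.stage hi]
      sep := fun k hk i hi => by
        rcases h.sep (k + 1) (by omega) i hi with h1 | h1
        · left
          refine ⟨hst.mem _ (mem_insert_of_mem _ (h.hA hi)), ?_⟩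
          rw [multi_tr_wspl _ h.stage (h.hA hi)]
          exact h1
        · right
          intro z hz
          rw [hcoord i hi z]
          exact (h1 _ hz.2).trans_le hs
      dist := fun k hk z hz => by
        rw [multi_dm_wspl _ h.stage h.le (h.hA (h.hJ (k + 1) (by omega)))]
        have h1 := h.dist (k + 1) (by omega) _ hz.2
        have h2 : tr n (w (J (k + 1))) = w (J (k + 1)) :=
          tr_eq (h.stage.zero _ (h.stage.mem _ (h.hA (h.hJ (k + 1) (by omega)))))
        rw [← dm_tr h.le h.le z (w (J (k + 1))), h2]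
        exact h1
      small := fun i hi z hz hz' => by
        rw [multi_dm_wspl _ h.stage h.le (h.hA hi)]
        have h2 : tr n (w i) = w i := tr_eq (h.stage.zero _ (h.stage.mem _ (h.hA hi)))
        rw [← dm_tr h.le h.le z (w i), h2]
        refine h.small i hi _ (he.map z hz) ?_
        rw [← hcoord i hi z]
        exact hs.trans hz'
      disj := fun i hi i' hi' hne z hz hz' => by
        rw [hcoord i' hi' z]
        refine (h.disj i hi i' hi' hne _ (he.map z hz) ?_).trans_le hs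
        rw [← hcoord i hi z]
        exact hs.trans hz'
      nn := h.nn }

theorem multi_split (N : ℕ) : ∀ {m n : ℕ} {P : Set W} {I : Set ℕ} {w : ℕ → W} {A : Set ℕ}
    {s ε ε' : ℝ} {J : ℕ → ℕ} {y : ℕ → W} {Z : ℕ → Set W}, IsMulti m n P I w A s ε ε' N J y Z →
    ∃ (n' : ℕ) (P' : Set W) (I' : Set ℕ) (w' : ℕ → W) (σ : W → W) (H : W × ℝ → W),
      IsStage n' P' I' w' ∧ I'.Finite ∧ IsExt n P n' P' σ H ∧ I ⊆ I' ∧ (∀ i ∈ I', i < n → i ∈ I) ∧
      (∀ i ∈ I, tr n (w' i) = w i) ∧ (∀ k < N, ∃ i ∈ I', tr n (w' i) = y k) ∧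
      (∀ x ∈ P, (∀ i ∈ A, ht (x i) ≤ s) → tr n (σ x) = x) ∧
      (∀ x ∈ P, ∀ i ∈ A, s ≤ ht (x i) → dm m (σ x) (w i) ≤ ε') ∧
      ∀ z ∈ P', ∀ t ∈ Icc (0 : ℝ) 1, dm m (H (z, t)) z ≤ 4 * ε' := by
  induction N with
  | zero =>
    intro m n P I w A s ε ε' J y Z h
    have htr : ∀ x ∈ P, tr n x = x := fun x hx => tr_eq (h.stage.zero x hx)
    refine ⟨n, P, I, w, id, Prod.fst, h.stage, h.fin, IsExt.refl h.stage.zero, Subset.rfl,
      fun i hi _ => hi, fun i hi => htr _ (h.stage.mem i hi), fun k hk => absurd hk (by omega),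
      fun x hx _ => htr x hx, fun x hx i hi hs => h.small i hi x hx hs, fun z _ t _ => ?_⟩
    simp only [dm_self]
    linarith [h.nn]
  | succ N ih =>
    intro m n P I w A s ε ε' J y Z h
    have hjA : J 0 ∈ A := h.hJ 0 (by omega)
    have hjI : J 0 ∈ I := h.hA hjA
    obtain ⟨s₁, S, hs, hc, hSd, hSA⟩ := exists_cut (m := m) (ε := ε) (ε' := ε') (s₀ := s)
      h.stage h.fin hjI h.hA (h.poly 0 (by omega)) (h.conn 0 (by omega)) (h.sub 0 (by omega))
      (h.wZ 0 (by omega)) (h.yZ 0 (by omega)) (h.yw 0 (by omega)) h.lt h.eps (h.dist 0 (by omega))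
      (h.sep 0 (by omega))
    obtain ⟨σ₁, H₁, he, hσ1, hσ2, hH⟩ := exists_ext_spl hc
    have hst := isStage_spl hc
    obtain ⟨y₁, hy₁, hm⟩ := multi_data h hs hc he
    obtain ⟨n', P', I', w', σ', H', hst', hf', he', hI, hI', hw', hyy, hfix, hctl, hH'⟩ := ih hm
    obtain ⟨H'', heH, hHH⟩ := he.comp he' hst.isCompact hst'.isCompact
    have htr : ∀ x ∈ P, tr n x = x := fun x hx => tr_eq (h.stage.zero x hx)
    have hcoord : ∀ i ∈ A, ∀ z : W, z i = tr n z i := fun i hi z =>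
      (tr_lt (h.stage.lt i (h.hA hi)) z).symm
    have hdw : ∀ i ∈ A, ∀ z : W, dm m z (wspl n (J 0) s₁ w (y 0) i) = dm m z (w i) :=
      fun i hi z => multi_dm_wspl _ h.stage h.le (h.hA hi) z
    have hdt : ∀ i ∈ A, ∀ z : W, dm m z (w i) = dm m (tr n z) (w i) := by
      intro i hi z
      have h2 : tr n (w i) = w i := tr_eq (h.stage.zero _ (h.stage.mem _ (h.hA hi)))
      rw [← dm_tr h.le h.le z (w i), h2]
    have hle1 : m ≤ n + 1 := h.le.trans (Nat.le_succ n)
    -- `σ'` moves the points of the splitting by at most `2 * ε'`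
    have hmove0 : ∀ v ∈ spl n (J 0) s₁ P S (y 0), (∀ i ∈ A, ht (v i) ≤ s₁) →
        ∀ z : W, dm m (σ' v) z = dm m v z := by
      intro v hv hvA z
      have h1 := hfix v hv hvA
      apply dm_congr
      · intro i hi
        have h2 := congrFun h1 i
        rw [tr_lt (by omega)] at h2
        exact h2
      · intro i _
        rfl
    have hmove : ∀ v ∈ spl n (J 0) s₁ P S (y 0), dm m (σ' v) v ≤ 2 * ε' := by
      intro v hv
      by_cases hvA : ∀ i ∈ A, ht (v i) ≤ s₁
      · rw [hmove0 v hv hvA, dm_self]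
        linarith [h.nn]
      · push Not at hvA
        obtain ⟨i, hi, hvi⟩ := hvA
        have h1 := hctl v hv i hi hvi.le
        have h2 := hm.small i hi v hv hvi.le
        have h3 := dm_triangle m (σ' v) (wspl n (J 0) s₁ w (y 0) i) v
        rw [dm_comm m (wspl n (J 0) s₁ w (y 0) i) v] at h3
        linarith
    refine ⟨n', P', I', w', σ' ∘ σ₁, H'', hst', hf', heH, (subset_insert _ _).trans hI, ?_, ?_, ?_,
      ?_, ?_, ?_⟩
    · intro i hi hin
      rcases hI' i hi (by omega) with h1 | h1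
      · omega
      · exact h1
    · intro i hi
      rw [← tr_tr (Nat.le_succ n) (w' i), hw' i (mem_insert_of_mem _ hi),
        multi_tr_wspl _ h.stage hi]
    · intro k hk
      rcases k with _ | k
      · refine ⟨n, hI (mem_insert _ _), ?_⟩
        rw [← tr_tr (Nat.le_succ n) (w' n), hw' n (mem_insert _ _)]
        simp only [wspl, if_true, tr_upd]
        exact htr _ (h.sub 0 (by omega) (h.yZ 0 (by omega)))
      · obtain ⟨i, hi, e⟩ := hyy k (by omega)
        refine ⟨i, hi, ?_⟩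
        rw [← tr_tr (Nat.le_succ n) (w' i), e, hy₁ k (by omega)]
    · intro x hx hxA
      have h1 : σ₁ x = upd x n (x (J 0)) := hσ1 x hx ((hxA _ hjA).trans hs)
      have h2 : σ₁ x ∈ spl n (J 0) s₁ P S (y 0) := he.mapS hx
      have h3 : tr n (σ₁ x) = x := by rw [h1, tr_upd, htr x hx]
      have h4 := hfix (σ₁ x) h2 (fun i hi => by
        rw [hcoord i hi (σ₁ x), h3]
        exact (hxA i hi).trans hs)
      rw [Function.comp, ← tr_tr (Nat.le_succ n) (σ' (σ₁ x)), h4, h3]
    · intro x hx i hi hxi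
      have h2 : σ₁ x ∈ spl n (J 0) s₁ P S (y 0) := he.mapS hx
      rw [Function.comp]
      rcases le_or_gt (ht (x (J 0))) s₁ with hxj | hxj
      · have h1 : σ₁ x = upd x n (x (J 0)) := hσ1 x hx hxj
        have h3 : tr n (σ₁ x) = x := by rw [h1, tr_upd, htr x hx]
        by_cases hvA : ∀ i ∈ A, ht (σ₁ x i) ≤ s₁
        · rw [hmove0 _ h2 hvA, hdt i hi, h3]
          exact h.small i hi x hx hxi
        · push Not at hvA
          obtain ⟨i', hi', hvi⟩ := hvA
          have h5 : i = i' := by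
            by_contra hne
            have h6 := h.disj i hi i' hi' hne x hx hxi
            rw [hcoord i' hi' (σ₁ x), h3] at hvi
            linarith
          subst h5
          have h6 := hctl _ h2 i hi hvi.le
          rw [hdw i hi] at h6
          exact h6
      · have h5 : i = J 0 := by
          by_contra hne
          have h6 := h.disj (J 0) hjA i hi (Ne.symm hne) x hx (hs.trans hxj.le)
          linarith
        subst h5
        rcases hσ2 x hx hxj.le with h6 | h6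
        · have hvA : ∀ i ∈ A, ht (σ₁ x i) ≤ s₁ := by
            intro i' hi'
            rw [hcoord i' hi' (σ₁ x)]
            exact hSA _ h6 i' hi'
          rw [hmove0 _ h2 hvA, hdt _ hi]
          exact hSd _ h6
        · have h7 := hctl _ h2 _ hi h6
          rw [hdw _ hi] at h7
          exact h7
    · intro z hz t htI
      rcases hHH z hz t htI with ⟨u, hu, e⟩ | ⟨u, hu, e⟩
      · rw [e]
        exact hH' z hz u hu
      · rw [e]
        have hz1 : tr (n + 1) z ∈ spl n (J 0) s₁ P S (y 0) := he'.map z hz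
        have hv : H₁ (tr (n + 1) z, u) ∈ spl n (J 0) s₁ P S (y 0) :=
          he.mapH (⟨hz1, hu⟩ : (tr (n + 1) z, u) ∈
            spl n (J 0) s₁ P S (y 0) ×ˢ Icc (0 : ℝ) 1)
        have h1 := hmove _ hv
        have hz2 : tr n (tr (n + 1) z) = tr n z := tr_tr (Nat.le_succ n) z
        have hnear : ∀ v ∈ spl n (J 0) s₁ P S (y 0), (tr n v ∈ S ∨ s₁ ≤ ht (v (J 0))) →
            dm m v (w (J 0)) ≤ ε' := by
          intro v hv h3
          rcases h3 with h3 | h3
          · rw [hdt _ hjA]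
            exact hSd _ h3
          · rw [hdt _ hjA]
            refine h.small _ hjA _ (he.map v hv) ?_
            rw [← hcoord _ hjA v]
            exact hs.trans h3
        have h2 : dm m (H₁ (tr (n + 1) z, u)) z ≤ 2 * ε' := by
          rcases hH _ hz1 u hu with h3 | ⟨h3, h4⟩
          · rw [← dm_tr h.le h.le, h3, hz2, dm_self]
            linarith [h.nn]
          · have h5 := hnear _ hz1 h3
            have h6 := hnear _ hv h4
            have h7 : dm m (tr (n + 1) z) (w (J 0)) = dm m z (w (J 0)) := by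
              rw [hdt _ hjA, hz2, ← hdt _ hjA]
            have h8 := dm_triangle m (H₁ (tr (n + 1) z, u)) (w (J 0)) z
            rw [dm_comm m (w (J 0)) z, ← h7] at h8
            linarith
        have h9 := dm_triangle m (σ' (H₁ (tr (n + 1) z, u))) (H₁ (tr (n + 1) z, u)) z
        linarith

end Pool.Agent.H71.ZW
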