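import Pool.Agent.H71.ZW.Multi
import Pool.Agent.H71.ZW.Thk

set_option autoImplicit false

/-!
# The next level

Let `T = thk n c P I`, a stage by `isStage_thk`; it is the union of finitely many small convex sets
`D` (`IsPoly.small` with `m = n + 1`, `ε₁`). Let `D₀, …, D_{N-1}` be those which contain no wild
point `w i`, `i ∈ I`; choose `y k ∈ D k`, `Z ∈ 𝒵` with `tr n (y k) ∈ Z`, `J k ∈ I` with
`w (J k) ∈ Z`, `dm m x (w (J k)) ≤ ε` on `Z`, and let `Z k = {x ∈ T | tr n x ∈ Z}`, which is connected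
(`isConnected_preim` with the fibres of `isExt_thk`). Apply `multi_split` with `A = I`, `ε' = 2 * ε`
(`1/2 ≤ s`, `sep`, `small`, `disj` from `IsGood`). The new family `𝒵'` consists of the
preimages `{z ∈ P' | tr (n + 1) z ∈ D}` of all the convex sets `D`.
-/

namespace Pool.Agent.H71.ZW

open Set Topology TopologicalSpace

/-- The preimages in `T` of the members of `𝒵`. -/
def preZ (n : ℕ) (T : Set W) (𝒵 : Set (Set W)) : Set (Set W) :=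
  (fun Z => {x | x ∈ T ∧ tr n x ∈ Z}) '' 𝒵

theorem level_next {m n : ℕ} {P : Set W} {I : Set ℕ} {w : ℕ → W} {ε : ℝ} {𝒵 : Set (Set W)}
    {c s : ℝ} (h : IsLevel m n P I w ε 𝒵) (hc : 0 < c)
    (hg : IsGood m (thk n c P I) I w (preZ n (thk n c P I) 𝒵) s (2 * ε)) {ε₁ : ℝ} (hε₁ : 0 < ε₁) :
    ∃ (n' : ℕ) (P' : Set W) (I' : Set ℕ) (w' : ℕ → W) (𝒵' : Set (Set W)) (σ : W → W)
      (H : W × ℝ → W), IsLevel (n + 1) n' P' I' w' ε₁ 𝒵' ∧
      IsExt (n + 1) (thk n c P I) n' P' σ H ∧ I ⊆ I' ∧ (∀ i ∈ I', i < n + 1 → i ∈ I) ∧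
      (∀ i ∈ I, tr (n + 1) (w' i) = w i) ∧ IsCtl m (n + 1) (thk n c P I) I w s (2 * ε) σ ∧
      ∀ z ∈ P', ∀ t ∈ Icc (0 : ℝ) 1, dm m (H (z, t)) z ≤ 8 * ε := by
  classical
  have hI : I.Nonempty := ⟨0, h.zero_mem⟩
  have hT := isStage_thk h.stage h.fin hI hc
  have hE := isExt_thk h.stage h.fin hI hc
  obtain ⟨𝒞, hf, hU, hC⟩ := (isPoly_thk h.stage h.fin hI hc).small (n + 1) hε₁
  have hCT : ∀ C ∈ 𝒞, C ⊆ thk n c P I := fun C hCm => by
    rw [hU]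
    exact subset_sUnion_of_mem hCm
  -- the data for one piece
  have hdat : ∀ D ∈ {D | D ∈ 𝒞 ∧ ∀ i ∈ I, w i ∉ D}, ∃ (y : W) (Z : Set W) (j : ℕ), y ∈ D ∧
      Z ∈ 𝒵 ∧ tr n y ∈ Z ∧ j ∈ I ∧ w j ∈ Z ∧ ∀ x ∈ Z, dm m x (w j) ≤ ε := by
    rintro D ⟨hD, -⟩
    obtain ⟨y, hy⟩ := (hC D hD).2.2.1
    obtain ⟨Z, hZ, hyZ⟩ := h.cover (hE.map y (hCT D hD hy))
    obtain ⟨j, hj, hjZ, hjd⟩ := h.wild Z hZ
    exact ⟨y, Z, j, hy, hZ, hyZ, hj, hjZ, hjd⟩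
  have hfD : {D | D ∈ 𝒞 ∧ ∀ i ∈ I, w i ∉ D}.Finite := hf.subset fun D hD => hD.1
  obtain ⟨N, D, hD1, hD2⟩ : ∃ (N : ℕ) (D : ℕ → Set W),
      (∀ k < N, D k ∈ {D | D ∈ 𝒞 ∧ ∀ i ∈ I, w i ∉ D}) ∧
      ∀ C ∈ {D | D ∈ 𝒞 ∧ ∀ i ∈ I, w i ∉ D}, ∃ k < N, D k = C := by
    refine ⟨hfD.toFinset.toList.length, fun k => hfD.toFinset.toList.getD k ∅, fun k hk => ?_,
      fun C hCm => ?_⟩
    · show hfD.toFinset.toList.getD k ∅ ∈ _
      rw [List.getD_eq_getElem _ _ hk]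
      have h1 := List.getElem_mem hk
      rw [Finset.mem_toList, Set.Finite.mem_toFinset] at h1
      exact h1
    · have h1 : C ∈ hfD.toFinset.toList := by
        rw [Finset.mem_toList, Set.Finite.mem_toFinset]
        exact hCm
      obtain ⟨k, hk, hke⟩ := List.getElem_of_mem h1
      refine ⟨k, hk, ?_⟩
      show hfD.toFinset.toList.getD k ∅ = C
      rw [List.getD_eq_getElem _ _ hk]
      exact hke
  have hdat2 : ∀ k, ∃ (y : W) (Z : Set W) (j : ℕ), k < N → y ∈ D k ∧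
      Z ∈ 𝒵 ∧ tr n y ∈ Z ∧ j ∈ I ∧ w j ∈ Z ∧ ∀ x ∈ Z, dm m x (w j) ≤ ε := by
    intro k
    by_cases hk : k < N
    · obtain ⟨y, Z, j, hh⟩ := hdat (D k) (hD1 k hk)
      exact ⟨y, Z, j, fun _ => hh⟩
    · exact ⟨0, ∅, 0, fun hk' => absurd hk' hk⟩
  choose y Z₀ J hyZ using hdat2
  have hZcl : ∀ Z ∈ 𝒵, IsClosed Z := fun Z hZ => (h.poly Z hZ).isCompact.isClosed
  have hwT : ∀ i ∈ I, w i ∈ thk n c P I := hT.mem
  have htrw : ∀ i ∈ I, tr n (w i) = w i := fun i hi =>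
    tr_eq (h.stage.zero (w i) (h.stage.mem i hi))
  have hmulti : IsMulti m (n + 1) (thk n c P I) I w I s ε (2 * ε) N J y
      (fun k => {x | x ∈ thk n c P I ∧ tr n x ∈ Z₀ k}) := by
    refine ⟨hT, h.fin, Subset.refl _, h.le.trans (Nat.le_succ n), hg.half, hg.lt, ?_,
      fun k hk => (hyZ k hk).2.2.2.1, fun k hk => ?_, fun k hk => ?_, fun k _ x hx => hx.1,
      fun k hk => ?_, fun k hk => ?_, fun k hk i hi => ?_, fun k hk i hi => ?_,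
      fun k hk x hx => ?_, hg.small, hg.disj, by
      have := h.pos
      linarith⟩
    · have := h.pos
      linarith
    · exact hT.poly.preim (h.poly _ (hyZ k hk).2.1) n
    · have hZ := (hyZ k hk).2.1
      exact isConnected_preim hT.isCompact (continuous_tr n).continuousOn (hZcl _ hZ)
        (h.conn _ hZ) fun x hx => hE.fib x (h.sub _ hZ hx)
    · exact ⟨hCT _ (hD1 k hk).1 (hyZ k hk).1, (hyZ k hk).2.2.1⟩
    · refine ⟨hwT _ (hyZ k hk).2.2.2.1, ?_⟩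
      rw [htrw _ (hyZ k hk).2.2.2.1]
      exact (hyZ k hk).2.2.2.2.1
    · intro he
      have h3 := (hyZ k hk).1
      rw [he] at h3
      exact (hD1 k hk).2 i hi h3
    · exact hg.sep _ ⟨Z₀ k, (hyZ k hk).2.1, rfl⟩ i hi
    · have h1 := (hyZ k hk).2.2.2.2.2 (tr n x) hx.2
      have h2 : dm m (tr n x) (tr n (w (J k))) = dm m x (w (J k)) := dm_tr h.le h.le _ _
      rw [htrw _ (hyZ k hk).2.2.2.1] at h2
      rw [← h2]
      exact h1
  obtain ⟨n', P', I', w', σ, H, hS', hI'f, hE', hII', hI'n, hw', hyk, hc1, hc2, hH⟩ :=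
    multi_split N hmulti
  refine ⟨n', P', I', w', (fun C => {z | z ∈ P' ∧ tr (n + 1) z ∈ C}) '' 𝒞, σ, H, ?_, hE', hII',
    hI'n, hw', ⟨hc1, hc2⟩, fun z hz t ht => ?_⟩
  · refine ⟨hS', hI'f, hE'.le, hII' h.zero_mem, hε₁, hf.image _, ?_, ?_, ?_, ?_, ?_⟩
    · rintro _ ⟨C, hCm, rfl⟩
      exact hS'.poly.preim (isPoly_of_convex (hC C hCm).1 (hC C hCm).2.1) (n + 1)
    · rintro _ ⟨C, hCm, rfl⟩
      exact isConnected_preim hS'.isCompact (continuous_tr (n + 1)).continuousOn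
        (hC C hCm).1.isClosed ⟨(hC C hCm).2.2.1, (hC C hCm).2.1.isPreconnected⟩
        fun x hx => hE'.fib x (hCT C hCm hx)
    · rintro _ ⟨C, -, rfl⟩ x hx
      exact hx.1
    · rintro _ ⟨C, hCm, rfl⟩
      have hex : ∃ i ∈ I', tr (n + 1) (w' i) ∈ C := by
        by_cases hw : ∃ i ∈ I, w i ∈ C
        · obtain ⟨i, hi, hiC⟩ := hw
          exact ⟨i, hII' hi, by rw [hw' i hi]; exact hiC⟩
        · push Not at hw
          obtain ⟨k, hk, hkC⟩ := hD2 C ⟨hCm, hw⟩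
          obtain ⟨i, hi, hie⟩ := hyk k hk
          refine ⟨i, hi, ?_⟩
          rw [hie, ← hkC]
          exact (hyZ k hk).1
      obtain ⟨i, hi, hiC⟩ := hex
      refine ⟨i, hi, ⟨hS'.mem i hi, hiC⟩, fun x hx => ?_⟩
      have h2 : dm (n + 1) (tr (n + 1) x) (tr (n + 1) (w' i)) = dm (n + 1) x (w' i) :=
        dm_tr le_rfl le_rfl _ _
      rw [← h2]
      exact (hC C hCm).2.2.2 _ hx.2 _ hiC
    · intro z hz
      have h1 : tr (n + 1) z ∈ ⋃₀ 𝒞 := by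
        rw [← hU]
        exact hE'.map z hz
      obtain ⟨C, hCm, hzC⟩ := h1
      exact ⟨_, ⟨C, hCm, rfl⟩, hz, hzC⟩
  · refine (hH z hz t ht).trans ?_
    linarith

end Pool.Agent.H71.ZW
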