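import Pool.Agent.H71.ZW.Defs

set_option autoImplicit false

/-!
# Finite unions of compact convex sets
-/

namespace Pool.Agent.H71.ZW

open Set Topology TopologicalSpace

variable {V V' : Type} [AddCommGroup V] [Module ℝ V] [TopologicalSpace V]
  [AddCommGroup V'] [Module ℝ V'] [TopologicalSpace V']

theorem isPoly_empty : IsPoly (∅ : Set V) :=
  ⟨∅, finite_empty, fun C hC => absurd hC (notMem_empty C), by simp⟩

theorem isPoly_of_convex {C : Set V} (hC : IsCompact C) (hc : Convex ℝ C) : IsPoly C :=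
  ⟨{C}, finite_singleton C, fun D hD => by rw [mem_singleton_iff.1 hD]; exact ⟨hC, hc⟩, by simp⟩

theorem isPoly_singleton (x : V) : IsPoly ({x} : Set V) :=
  isPoly_of_convex isCompact_singleton (convex_singleton x)

theorem IsPoly.isCompact {P : Set V} (h : IsPoly P) : IsCompact P := by
  obtain ⟨𝒞, hf, hC, rfl⟩ := h
  exact hf.isCompact_sUnion fun C h => (hC C h).1

theorem IsPoly.union {P Q : Set V} (h : IsPoly P) (h' : IsPoly Q) : IsPoly (P ∪ Q) := by
  obtain ⟨𝒞, hf, hC, rfl⟩ := h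
  obtain ⟨𝒟, hf', hD, rfl⟩ := h'
  refine ⟨𝒞 ∪ 𝒟, hf.union hf', ?_, (sUnion_union 𝒞 𝒟).symm⟩
  rintro C (h | h)
  · exact hC C h
  · exact hD C h

theorem isPoly_sUnion {𝒬 : Set (Set V)} (hf : 𝒬.Finite) (h : ∀ P ∈ 𝒬, IsPoly P) :
    IsPoly (⋃₀ 𝒬) := by
  induction 𝒬, hf using Set.Finite.induction_on with
  | empty => simpa using isPoly_empty
  | @insert P 𝒮 _ _ ih =>
    rw [sUnion_insert]
    exact (h P (mem_insert P 𝒮)).union (ih fun Q hQ => h Q (mem_insert_of_mem P hQ))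

theorem isPoly_biUnion {ι : Type} {I : Set ι} (hf : I.Finite) {P : ι → Set V}
    (h : ∀ i ∈ I, IsPoly (P i)) : IsPoly (⋃ i ∈ I, P i) := by
  rw [← sUnion_image]
  refine isPoly_sUnion (hf.image P) ?_
  rintro Q ⟨i, hi, rfl⟩
  exact h i hi

/-- The general form of the operations with two polyhedra. -/
private theorem poly_aux {U : Type} [AddCommGroup U] [Module ℝ U] [TopologicalSpace U]
    {P : Set V} {Q : Set V'} (h : IsPoly P) (h' : IsPoly Q) (f : Set V → Set V' → Set U)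
    (hl : ∀ 𝒞 : Set (Set V), ∀ D, f (⋃₀ 𝒞) D = ⋃ C ∈ 𝒞, f C D)
    (hr : ∀ C, ∀ 𝒟 : Set (Set V'), f C (⋃₀ 𝒟) = ⋃ D ∈ 𝒟, f C D)
    (hf : ∀ C D, IsCompact C → Convex ℝ C → IsCompact D → Convex ℝ D →
      IsCompact (f C D) ∧ Convex ℝ (f C D)) : IsPoly (f P Q) := by
  obtain ⟨𝒞, hf1, hC, rfl⟩ := h
  obtain ⟨𝒟, hf2, hD, rfl⟩ := h'
  rw [hl]
  refine isPoly_biUnion hf1 fun C hC' => ?_
  rw [hr]
  refine isPoly_biUnion hf2 fun D hD' => ?_
  obtain ⟨h1, h2⟩ := hf C D (hC C hC').1 (hC C hC').2 (hD D hD').1 (hD D hD').2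
  exact isPoly_of_convex h1 h2

theorem IsPoly.inter [T2Space V] {P Q : Set V} (h : IsPoly P) (h' : IsPoly Q) :
    IsPoly (P ∩ Q) := by
  refine poly_aux h h' (fun C D => C ∩ D) (fun 𝒞 D => ?_) (fun C 𝒟 => ?_)
    (fun C D hC hc hD hd => ⟨hC.inter hD, hc.inter hd⟩)
  · rw [sUnion_eq_biUnion, iUnion₂_inter]
  · rw [sUnion_eq_biUnion, inter_iUnion₂]

theorem IsPoly.inter_convex {P D : Set V} (h : IsPoly P) (hD : IsClosed D) (hc : Convex ℝ D) :
    IsPoly (P ∩ D) := by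
  obtain ⟨𝒞, hf, hC, rfl⟩ := h
  rw [sUnion_eq_biUnion, iUnion₂_inter]
  exact isPoly_biUnion hf fun C hC' =>
    isPoly_of_convex ((hC C hC').1.inter_right hD) ((hC C hC').2.inter hc)

theorem IsPoly.image [IsTopologicalAddGroup V'] {P : Set V} (h : IsPoly P) (A : V →L[ℝ] V')
    (b : V') : IsPoly ((fun x => A x + b) '' P) := by
  obtain ⟨𝒞, hf, hC, rfl⟩ := h
  rw [sUnion_eq_biUnion, image_iUnion₂]
  refine isPoly_biUnion hf fun C hC' => isPoly_of_convex ?_ ?_
  · exact (hC C hC').1.image (by fun_prop)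
  · rintro _ ⟨x, hx, rfl⟩ _ ⟨y, hy, rfl⟩ a c ha hc hac
    refine ⟨a • x + c • y, (hC C hC').2 hx hy ha hc hac, ?_⟩
    simp only [map_add, map_smul, smul_add]
    have hb : a • b + c • b = b := by rw [← add_smul, hac, one_smul]
    calc a • A x + c • A y + b = a • A x + c • A y + (a • b + c • b) := by rw [hb]
      _ = a • A x + a • b + (c • A y + c • b) := by abel

theorem IsPoly.prod {P : Set V} {Q : Set V'} (h : IsPoly P) (h' : IsPoly Q) :
    IsPoly (P ×ˢ Q) := by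
  refine poly_aux h h' (fun C D => C ×ˢ D) (fun 𝒞 D => ?_) (fun C 𝒟 => ?_)
    (fun C D hC hc hD hd => ⟨hC.prod hD, hc.prod hd⟩)
  · ext p
    simp only [mem_prod, mem_sUnion, mem_iUnion]
    constructor
    · rintro ⟨⟨C, hC, h1⟩, h2⟩
      exact ⟨C, hC, h1, h2⟩
    · rintro ⟨C, hC, h1, h2⟩
      exact ⟨⟨C, hC, h1⟩, h2⟩
  · ext p
    simp only [mem_prod, mem_sUnion, mem_iUnion]
    constructor
    · rintro ⟨h1, C, hC, h2⟩
      exact ⟨C, hC, h1, h2⟩
    · rintro ⟨C, hC, h1, h2⟩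
      exact ⟨h1, C, hC, h2⟩

theorem IsPoly.inter_preimage [T2Space V'] {P : Set V} {Q : Set V'} (h : IsPoly P)
    (h' : IsPoly Q) (A : V →L[ℝ] V') : IsPoly (P ∩ A ⁻¹' Q) := by
  refine poly_aux h h' (fun C D => C ∩ A ⁻¹' D) (fun 𝒞 D => ?_) (fun C 𝒟 => ?_)
    (fun C D hC hc hD hd => ⟨hC.inter_right (hD.isClosed.preimage A.continuous), hc.inter ?_⟩)
  · rw [sUnion_eq_biUnion, iUnion₂_inter]
  · rw [sUnion_eq_biUnion, preimage_iUnion₂, inter_iUnion₂]
  · intro x hx y hy a c ha hc' hac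
    simp only [mem_preimage, map_add, map_smul]
    exact hd hx hy ha hc' hac

/-- Induction on the number of the convex pieces. -/
theorem IsPoly.induct {p : Set V → Prop} (h0 : p ∅)
    (h1 : ∀ P C, IsPoly P → IsCompact C → Convex ℝ C → C.Nonempty → p P → p (P ∪ C))
    {P : Set V} (hP : IsPoly P) : p P := by
  obtain ⟨𝒞, hf, hC, rfl⟩ := hP
  induction 𝒞, hf using Set.Finite.induction_on with
  | empty => simpa using h0
  | @insert C 𝒮 _ hfS ih =>
    have hS : ∀ D ∈ 𝒮, IsCompact D ∧ Convex ℝ D := fun D hD => hC D (mem_insert_of_mem C hD)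
    rw [sUnion_insert, union_comm]
    rcases C.eq_empty_or_nonempty with he | hne
    · rw [he, union_empty]
      exact ih hS
    · exact h1 _ C ⟨𝒮, hfS, hS, rfl⟩ (hC C (mem_insert C 𝒮)).1 (hC C (mem_insert C 𝒮)).2 hne
        (ih hS)

private theorem poly_dm_cont (m : ℕ) (x : W) : Continuous fun z : W => dm m z x := by
  unfold dm
  fun_prop

private theorem poly_dm_comm (m : ℕ) (x y : W) : dm m x y = dm m y x := by
  unfold dm
  exact Finset.sum_congr rfl fun i _ => norm_sub_rev _ _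

private theorem poly_dm_tri (m : ℕ) (x y z : W) : dm m x z ≤ dm m x y + dm m y z := by
  unfold dm
  rw [← Finset.sum_add_distrib]
  exact Finset.sum_le_sum fun i _ => norm_sub_le_norm_sub_add_norm_sub _ _ _

private theorem poly_dm_self (m : ℕ) (x : W) : dm m x x = 0 := by
  simp [dm]

private theorem poly_dm_convex (m : ℕ) (x : W) (r : ℝ) : Convex ℝ {z : W | dm m z x ≤ r} := by
  intro y hy z hz a c ha hc hac
  have hy' : dm m y x ≤ r := hy
  have hz' : dm m z x ≤ r := hz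
  change dm m (a • y + c • z) x ≤ r
  have h : dm m (a • y + c • z) x ≤ a * dm m y x + c * dm m z x := by
    unfold dm
    rw [Finset.mul_sum, Finset.mul_sum, ← Finset.sum_add_distrib]
    refine Finset.sum_le_sum fun i _ => ?_
    have h1 : (a • y + c • z) i - x i = a • (y i - x i) + c • (z i - x i) := by
      have h2 : x i = a • x i + c • x i := by rw [← add_smul, hac, one_smul]
      calc (a • y + c • z) i - x i = a • y i + c • z i - (a • x i + c • x i) := by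
            rw [← h2]; rfl
        _ = a • (y i - x i) + c • (z i - x i) := by rw [smul_sub, smul_sub]; abel
    rw [h1]
    refine (norm_add_le _ _).trans ?_
    rw [norm_smul, norm_smul, Real.norm_of_nonneg ha, Real.norm_of_nonneg hc]
  calc dm m (a • y + c • z) x ≤ a * dm m y x + c * dm m z x := h
    _ ≤ a * r + c * r := by gcongr
    _ = r := by rw [← add_mul, hac, one_mul]

/-- Polyhedra in `W` are finite unions of small nonempty compact convex sets. -/
theorem IsPoly.small {P : Set W} (hP : IsPoly P) (m : ℕ) {ε : ℝ} (hε : 0 < ε) :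
    ∃ 𝒞 : Set (Set W), 𝒞.Finite ∧ P = ⋃₀ 𝒞 ∧ ∀ C ∈ 𝒞, IsCompact C ∧ Convex ℝ C ∧ C.Nonempty ∧
      ∀ x ∈ C, ∀ y ∈ C, dm m x y ≤ ε := by
  refine IsPoly.induct (p := fun P : Set W => ∃ 𝒞 : Set (Set W), 𝒞.Finite ∧ P = ⋃₀ 𝒞 ∧
    ∀ C ∈ 𝒞, IsCompact C ∧ Convex ℝ C ∧ C.Nonempty ∧ ∀ x ∈ C, ∀ y ∈ C, dm m x y ≤ ε)
    ⟨∅, finite_empty, by simp, fun C hC => absurd hC (notMem_empty C)⟩ ?_ hP
  rintro Q C - hC hc - ⟨𝒞, hf, rfl, h𝒞⟩
  obtain ⟨t, htC, htf, hcov⟩ := hC.elim_finite_subcover_image (b := C)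
    (c := fun x => {z : W | dm m z x < ε / 2})
    (fun x _ => isOpen_lt (poly_dm_cont m x) continuous_const)
    (fun x hx => mem_iUnion₂.2 ⟨x, hx, by
      change dm m x x < ε / 2
      rw [poly_dm_self]
      positivity⟩)
  refine ⟨𝒞 ∪ (fun x => C ∩ {z : W | dm m z x ≤ ε / 2}) '' t, hf.union (htf.image _), ?_, ?_⟩
  · rw [sUnion_union, sUnion_image]
    congr 1
    refine Subset.antisymm (fun z hz => ?_) (iUnion₂_subset fun x _ => inter_subset_left)
    obtain ⟨x, hx, hzx⟩ := mem_iUnion₂.1 (hcov hz)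
    have hzx' : dm m z x < ε / 2 := hzx
    exact mem_iUnion₂.2 ⟨x, hx, hz, show dm m z x ≤ ε / 2 from hzx'.le⟩
  · rintro D (hD | ⟨x, hx, rfl⟩)
    · exact h𝒞 D hD
    · refine ⟨hC.inter_right (isClosed_le (poly_dm_cont m x) continuous_const),
        hc.inter (poly_dm_convex m x _), ⟨x, htC hx, ?_⟩, ?_⟩
      · change dm m x x ≤ ε / 2
        rw [poly_dm_self]
        positivity
      · rintro y ⟨-, hy⟩ z ⟨-, hz⟩
        have hy' : dm m y x ≤ ε / 2 := hy
        have hz' : dm m z x ≤ ε / 2 := hz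
        have h1 := poly_dm_tri m y x z
        rw [poly_dm_comm m x z] at h1
        linarith

end Pool.Agent.H71.ZW
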