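import Pool.Agent.H71.ZW.Ext
import Pool.Agent.H71.ZW.Dug
import Pool.Agent.H71.ZW.Poly

set_option autoImplicit false

/-!
# Polyhedra are absolute neighbourhood extensors
-/

namespace Pool.Agent.H71.ZW

open Set Topology TopologicalSpace

variable {V : Type} [AddCommGroup V] [Module ℝ V] [TopologicalSpace V] [IsTopologicalAddGroup V]
  [ContinuousSMul ℝ V] [LocallyConvexSpace ℝ V] [T2Space V]

omit [AddCommGroup V] [Module ℝ V] [IsTopologicalAddGroup V] [ContinuousSMul ℝ V]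
  [LocallyConvexSpace ℝ V] [T2Space V] in
theorem polyANE_empty : ANE (∅ : Set V) := by
  intro Y _ _ _ B f hB hf hm
  refine ⟨∅, f, isOpen_empty, ?_, continuousOn_empty f, mapsTo_empty f ∅, fun _ _ => rfl⟩
  intro y hy
  exact absurd (hm hy) (notMem_empty _)

omit [T2Space V] in
theorem polyANE_convex {C : Set V} (hC : Convex ℝ C) : ANE C := by
  rcases C.eq_empty_or_nonempty with h | h
  · rw [h]
    exact polyANE_empty
  · exact (ae_convex hC h).ane

theorem polyANE_aux {𝒞 : Set (Set V)} (hf : 𝒞.Finite) :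
    (∀ C ∈ 𝒞, IsCompact C ∧ Convex ℝ C) →
      ∀ D : Set V, IsClosed D → Convex ℝ D → ANE (⋃₀ 𝒞 ∩ D) := by
  induction 𝒞, hf using Set.Finite.induction_on with
  | empty =>
    intro _ D _ _
    rw [sUnion_empty, empty_inter]
    exact polyANE_empty
  | @insert C 𝒟 _ hfin ih =>
    intro h D hD hDc
    obtain ⟨hC, hCc⟩ := h C (mem_insert _ _)
    have h' : ∀ C ∈ 𝒟, IsCompact C ∧ Convex ℝ C := fun C' hC' => h C' (mem_insert_of_mem _ hC')
    have hcl : IsClosed (⋃₀ 𝒟) := (hfin.isCompact_sUnion fun C' hC' => (h' C' hC').1).isClosed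
    have hCD : IsClosed (C ∩ D) := hC.isClosed.inter hD
    have hCDc : Convex ℝ (C ∩ D) := hCc.inter hDc
    have h0 : (C ∩ D) ∩ (⋃₀ 𝒟 ∩ D) = ⋃₀ 𝒟 ∩ (C ∩ D) := by
      ext x
      simp only [mem_inter_iff]
      tauto
    rw [sUnion_insert, union_inter_distrib_right]
    refine ANE.union hCD (hcl.inter hD) (polyANE_convex hCDc) (ih h' D hD hDc) ?_
    rw [h0]
    exact ih h' (C ∩ D) hCD hCDc

theorem IsPoly.ane {P : Set V} (h : IsPoly P) : ANE P := by
  obtain ⟨𝒞, hf, hC, rfl⟩ := h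
  have h1 := polyANE_aux hf hC univ isClosed_univ convex_univ
  rwa [inter_univ] at h1

theorem IsPoly.ae {P : Set V} (h : IsPoly P) (hc : Contr P) : AE P :=
  ANE.ae h.ane hc

/-- A polyhedron which is star-shaped with respect to a point of it is an absolute extensor. -/
theorem IsPoly.ae_of_star {P : Set V} (h : IsPoly P) {p : V} (hp : p ∈ P)
    (hs : ∀ x ∈ P, ∀ t ∈ Icc (0 : ℝ) 1, (1 - t) • x + t • p ∈ P) : AE P := by
  refine h.ae ⟨fun z => (1 - z.2) • z.1 + z.2 • p, p, hp, ?_, ?_, ?_, ?_⟩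
  · exact Continuous.continuousOn (by fun_prop)
  · rintro ⟨x, t⟩ ⟨hx, ht⟩
    exact hs x hx t ht
  · intro x _
    simp
  · intro x _
    simp

end Pool.Agent.H71.ZW
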