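import Pool.Agent.H71.ZW.Basic
import Pool.Agent.H71.ZW.ConeA

set_option autoImplicit false

/-!
# Parts of polyhedra

The sets where `dm` is large: `dm m x a` is the sum of the norms of `m` vectors of `E`, so
`r ≤ dm m x a` iff there are indices `c i : Fin 12` and signs `e i` for `i < m` with
`r ≤ ∑ i ∈ range m, e i * (x i (c i) - a i (c i))`: a finite union of half spaces.
-/

namespace Pool.Agent.H71.ZW

open Set Topology TopologicalSpace

/-- The norm on `E` is attained at a signed coordinate. -/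
private theorem polyDm_norm (v : E) : ∃ p : Fin 12 × Bool, ‖v‖ = (if p.2 then 1 else -1) * v p.1 := by
  obtain ⟨c, hc⟩ : ∃ c, ‖v‖ = ‖v c‖ := by
    obtain ⟨c, -, hc⟩ := Finset.exists_mem_eq_sup' (Finset.univ_nonempty (α := Fin 12))
      (fun c => ‖v c‖)
    refine ⟨c, le_antisymm ?_ (norm_le_pi_norm v c)⟩
    rw [← hc]
    refine (pi_norm_le_iff_of_nonneg ?_).2 fun i => Finset.le_sup' (fun c => ‖v c‖) (Finset.mem_univ i)
    rw [hc]
    exact norm_nonneg _
  rw [Real.norm_eq_abs] at hc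
  rcases abs_cases (v c) with ⟨h, -⟩ | ⟨h, -⟩
  · exact ⟨(c, true), by rw [hc, h]; simp⟩
  · exact ⟨(c, false), by rw [hc, h]; simp⟩

private theorem polyDm_le (v : E) (p : Fin 12 × Bool) : (if p.2 then 1 else -1) * v p.1 ≤ ‖v‖ := by
  have h1 := norm_le_pi_norm v p.1
  rw [Real.norm_eq_abs] at h1
  have h2 := le_abs_self (v p.1)
  have h3 := neg_abs_le (v p.1)
  split_ifs <;> linarith

theorem IsPoly.dm_le {P : Set W} (h : IsPoly P) (m : ℕ) (a : W) (r : ℝ) :
    IsPoly {x | x ∈ P ∧ dm m x a ≤ r} :=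
  h.inter_convex (isClosed_dm_le m a r) (convex_dm_le m a r)

/-- The half spaces. -/
private def polyDm_half (m : ℕ) (a : W) (r : ℝ) (q : Fin m → Fin 12 × Bool) : Set W :=
  {x | r ≤ ∑ i, (if (q i).2 then (1 : ℝ) else -1) * (x i (q i).1 - a i (q i).1)}

private theorem polyDm_closed (m : ℕ) (a : W) (r : ℝ) (q : Fin m → Fin 12 × Bool) :
    IsClosed (polyDm_half m a r q) := by
  refine isClosed_le continuous_const (continuous_finsetSum _ fun i _ => ?_)
  have h1 : Continuous fun x : W => x i (q i).1 :=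
    (continuous_apply (q i).1).comp (continuous_apply (i : ℕ))
  exact continuous_const.mul (h1.sub continuous_const)

private theorem polyDm_convex (m : ℕ) (a : W) (r : ℝ) (q : Fin m → Fin 12 × Bool) :
    Convex ℝ (polyDm_half m a r q) := by
  intro x hx y hy s t hs ht hst
  have hx' : r ≤ ∑ i : Fin m, (if (q i).2 then (1 : ℝ) else -1) * (x i (q i).1 - a i (q i).1) := hx
  have hy' : r ≤ ∑ i : Fin m, (if (q i).2 then (1 : ℝ) else -1) * (y i (q i).1 - a i (q i).1) := hy
  change r ≤ ∑ i : Fin m, (if (q i).2 then (1 : ℝ) else -1) *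
    ((s • x + t • y) i (q i).1 - a i (q i).1)
  have e : ∑ i : Fin m, (if (q i).2 then (1 : ℝ) else -1) *
      ((s • x + t • y) i (q i).1 - a i (q i).1) =
      s * (∑ i : Fin m, (if (q i).2 then (1 : ℝ) else -1) * (x i (q i).1 - a i (q i).1)) +
      t * ∑ i : Fin m, (if (q i).2 then (1 : ℝ) else -1) * (y i (q i).1 - a i (q i).1) := by
    rw [Finset.mul_sum, Finset.mul_sum, ← Finset.sum_add_distrib]
    refine Finset.sum_congr rfl fun i _ => ?_
    have ht' : t = 1 - s := by linarith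
    simp only [Pi.add_apply, Pi.smul_apply, smul_eq_mul]
    rw [ht']
    ring
  rw [e]
  have h1 := mul_le_mul_of_nonneg_left hx' hs
  have h2 := mul_le_mul_of_nonneg_left hy' ht
  have h3 : s * r + t * r = r := by rw [← add_mul, hst, one_mul]
  linarith

theorem IsPoly.dm_ge {P : Set W} (h : IsPoly P) (m : ℕ) (a : W) (r : ℝ) :
    IsPoly {x | x ∈ P ∧ r ≤ dm m x a} := by
  have e : {x | x ∈ P ∧ r ≤ dm m x a} =
      ⋃ q ∈ (univ : Set (Fin m → Fin 12 × Bool)), P ∩ polyDm_half m a r q := by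
    ext x
    simp only [mem_ofPred_eq, mem_iUnion, mem_inter_iff, mem_univ, exists_prop, true_and]
    constructor
    · rintro ⟨hx, hr⟩
      choose q hq using fun i : Fin m => polyDm_norm (x i - a i)
      refine ⟨q, hx, ?_⟩
      change r ≤ ∑ i : Fin m, (if (q i).2 then (1 : ℝ) else -1) * (x i (q i).1 - a i (q i).1)
      rw [dm, Finset.sum_range] at hr
      refine hr.trans (le_of_eq (Finset.sum_congr rfl fun i _ => ?_))
      rw [hq i, Pi.sub_apply]
    · rintro ⟨q, hx, hq⟩
      refine ⟨hx, ?_⟩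
      have hq' : r ≤ ∑ i : Fin m, (if (q i).2 then (1 : ℝ) else -1) *
        (x i (q i).1 - a i (q i).1) := hq
      rw [dm, Finset.sum_range]
      refine hq'.trans (Finset.sum_le_sum fun i _ => ?_)
      have := polyDm_le (x i - a i) (q i)
      rwa [Pi.sub_apply] at this
  rw [e]
  exact isPoly_biUnion (Set.toFinite _) fun q _ =>
    h.inter_convex (polyDm_closed m a r q) (polyDm_convex m a r q)

private theorem polyDm_cont (i : ℕ) : Continuous fun x : W => ht (x i) := by
  unfold ht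
  exact (continuous_apply (11 : Fin 12)).comp (continuous_apply i)

private theorem polyDm_lin (i : ℕ) (x y : W) (s t : ℝ) :
    ht ((s • x + t • y) i) = s * ht (x i) + t * ht (y i) := rfl

private theorem polyDm_hle (i : ℕ) (s : ℝ) : Convex ℝ {x : W | ht (x i) ≤ s} := by
  intro x hx y hy a b ha hb hab
  have hx' : ht (x i) ≤ s := hx
  have hy' : ht (y i) ≤ s := hy
  change ht ((a • x + b • y) i) ≤ s
  rw [polyDm_lin]
  have h1 := mul_le_mul_of_nonneg_left hx' ha
  have h2 := mul_le_mul_of_nonneg_left hy' hb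
  have h3 : a * s + b * s = s := by rw [← add_mul, hab, one_mul]
  linarith

private theorem polyDm_hge (i : ℕ) (s : ℝ) : Convex ℝ {x : W | s ≤ ht (x i)} := by
  intro x hx y hy a b ha hb hab
  have hx' : s ≤ ht (x i) := hx
  have hy' : s ≤ ht (y i) := hy
  change s ≤ ht ((a • x + b • y) i)
  rw [polyDm_lin]
  have h1 := mul_le_mul_of_nonneg_left hx' ha
  have h2 := mul_le_mul_of_nonneg_left hy' hb
  have h3 : a * s + b * s = s := by rw [← add_mul, hab, one_mul]
  linarith

theorem IsPoly.ht_le {P : Set W} (h : IsPoly P) (i : ℕ) (s : ℝ) :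
    IsPoly {x | x ∈ P ∧ ht (x i) ≤ s} :=
  h.inter_convex (isClosed_le (polyDm_cont i) continuous_const) (polyDm_hle i s)

theorem IsPoly.ht_ge {P : Set W} (h : IsPoly P) (i : ℕ) (s : ℝ) :
    IsPoly {x | x ∈ P ∧ s ≤ ht (x i)} :=
  h.inter_convex (isClosed_le continuous_const (polyDm_cont i)) (polyDm_hge i s)

/-- Conditions on finitely many coordinates. -/
theorem IsPoly.forall_ht_le {P : Set W} (h : IsPoly P) {I : Set ℕ} (hI : I.Finite) (s : ℝ) :
    IsPoly {x | x ∈ P ∧ ∀ i ∈ I, ht (x i) ≤ s} := by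
  have e : {x : W | ∀ i ∈ I, ht (x i) ≤ s} = ⋂ i ∈ I, {x : W | ht (x i) ≤ s} := by
    ext x
    simp
  have h1 : IsClosed {x : W | ∀ i ∈ I, ht (x i) ≤ s} := by
    rw [e]
    exact isClosed_biInter fun i _ => isClosed_le (polyDm_cont i) continuous_const
  have h2 : Convex ℝ {x : W | ∀ i ∈ I, ht (x i) ≤ s} := by
    rw [e]
    exact convex_iInter₂ fun i _ => polyDm_hle i s
  exact h.inter_convex h1 h2

/-- Preimages under the truncation. -/
theorem IsPoly.preim {P Z : Set W} (h : IsPoly P) (hZ : IsPoly Z) (n : ℕ) :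
    IsPoly {x | x ∈ P ∧ tr n x ∈ Z} :=
  h.inter_preimage hZ (trL n)

end Pool.Agent.H71.ZW
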