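import Pool.Agent.H71.ZW.StageA

set_option autoImplicit false

/-!
# The splitting: the polyhedron and the wild points

`spl n j s P S y` is the union of four parts: the graph of `x ↦ x j` over `{x ∈ P | ht (x j) ≤ s}`
(image under a continuous linear map), the image of `{(x, κ) ∈ S × cK | ht κ = ht (x j)}` under
`updL n`, the affine image of `{x ∈ P | s ≤ ht (x j)}` and the image of
`{y} × {κ ∈ cK | ht (y j) ≤ ht κ}`. Remember `x n = 0`, `tr n x = x` for `x ∈ P` (`IsStage.zero`) and
`i < n` for `i ∈ I`; in particular the point `upd x n κ` determines `x = tr n (upd x n κ)` and `κ`.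
-/

namespace Pool.Agent.H71.ZW

open Set Topology TopologicalSpace

variable {n : ℕ} {P : Set W} {I : Set ℕ} {w : ℕ → W} {j : ℕ} {s : ℝ} {S : Set W} {y : W}

private theorem splitP_aux_base (h : IsCut n P I w j s S y) : up s base ∈ cK :=
  up_mem (by linarith [h.half]) h.lt.le base_mem.1

private theorem splitP_aux_tr (h : IsCut n P I w j s S y) {x : W} (hx : x ∈ P) (κ : E) :
    tr n (upd x n κ) = x := by
  rw [tr_upd]
  exact tr_eq (h.stage.zero x hx)

private theorem splitP_aux_ne (h : IsCut n P I w j s S y) {i : ℕ} (hi : i ∈ I) : i ≠ n :=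
  (h.stage.lt i hi).ne

private theorem splitP_aux_one (h : IsCut n P I w j s S y) {i : ℕ} (hi : i ∈ I) : w i i = apex :=
  (h.stage.vtx i hi (w i) (h.stage.mem i hi)).2 rfl

theorem isPoly_spl (h : IsCut n P I w j s S y) : IsPoly (spl n j s P S y) := by
  have hjc := h.stage.cone j h.hj
  -- first part
  have h1 : IsPoly ((fun x => ((updL n).comp ((ContinuousLinearMap.id ℝ W).prod
      (ContinuousLinearMap.proj j : W →L[ℝ] E))) x + (0 : W)) '' {x | x ∈ P ∧ ht (x j) ≤ s}) :=
    (h.stage.poly.ht_le j s).image _ _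
  -- second part
  have h2 : IsPoly ((fun p : W × E => updL n p + (0 : W)) ''
      ((S ×ˢ cK) ∩ {p : W × E | ht p.2 = ht (p.1 j)})) := by
    refine IsPoly.image (IsPoly.inter_convex (h.polyS.prod isPoly_cK) ?_ ?_) (updL n) 0
    · exact isClosed_eq (continuous_ht.comp continuous_snd)
        (continuous_ht.comp ((continuous_apply j).comp continuous_fst))
    · intro p hp q hq a b _ _ _
      simp only [mem_setOf_eq] at hp hq ⊢
      rw [Prod.snd_add, Prod.fst_add, Prod.smul_snd, Prod.smul_snd, Prod.smul_fst, Prod.smul_fst,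
        Pi.add_apply, Pi.smul_apply, Pi.smul_apply, ht_add, ht_add, ht_smul, ht_smul, ht_smul,
        ht_smul, hp, hq]
  -- third part
  have h3 : IsPoly ((fun x => ((updL n).comp (ContinuousLinearMap.inl ℝ W E)) x +
      updL n (0, up s base)) '' {x | x ∈ P ∧ s ≤ ht (x j)}) :=
    (h.stage.poly.ht_ge j s).image _ _
  -- fourth part
  have h4 : IsPoly ((fun κ => ((updL n).comp (ContinuousLinearMap.inr ℝ W E)) κ +
      updL n (y, 0)) '' (cK ∩ {κ | ht (y j) ≤ ht κ})) := by
    refine IsPoly.image (IsPoly.inter_convex isPoly_cK ?_ ?_) _ _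
    · exact isClosed_le continuous_const continuous_ht
    · intro p hp q hq a b ha hb hab
      simp only [mem_setOf_eq] at hp hq ⊢
      rw [ht_add, ht_smul, ht_smul]
      calc ht (y j) = a * ht (y j) + b * ht (y j) := by rw [← add_mul, hab, one_mul]
        _ ≤ _ := add_le_add (mul_le_mul_of_nonneg_left hp ha) (mul_le_mul_of_nonneg_left hq hb)
  have a3 : ∀ x : W, updL n (x, (0 : E)) + updL n ((0 : W), up s base) = upd x n (up s base) := by
    intro x
    rw [← map_add, Prod.mk_add_mk, add_zero, zero_add, updL_apply]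
  have a4 : ∀ κ : E, updL n ((0 : W), κ) + updL n (y, (0 : E)) = upd y n κ := by
    intro κ
    rw [← map_add, Prod.mk_add_mk, add_zero, zero_add, updL_apply]
  convert h1.union (h2.union (h3.union h4)) using 1
  ext z
  constructor
  · rintro ⟨x, hx, κ, hκ, rfl, h5 | h5 | h5 | h5⟩
    · left
      refine ⟨x, ⟨hx, h5.1⟩, ?_⟩
      simp only [ContinuousLinearMap.comp_apply, ContinuousLinearMap.prod_apply,
        ContinuousLinearMap.id_apply, ContinuousLinearMap.proj_apply, updL_apply, add_zero]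
      rw [h5.2]
    · right; left
      refine ⟨(x, κ), ⟨⟨h5.1, hκ⟩, h5.2⟩, ?_⟩
      simp only [updL_apply, add_zero]
    · right; right; left
      refine ⟨x, ⟨hx, h5.1⟩, ?_⟩
      simp only [ContinuousLinearMap.comp_apply, ContinuousLinearMap.inl_apply]
      rw [a3, h5.2]
    · right; right; right
      refine ⟨κ, ⟨hκ, ?_⟩, ?_⟩
      · rw [← h5.1]
        exact h5.2
      · simp only [ContinuousLinearMap.comp_apply, ContinuousLinearMap.inr_apply]
        rw [a4, h5.1]
  · rintro (⟨x, ⟨hx, h5⟩, rfl⟩ | ⟨⟨x, κ⟩, ⟨⟨hx, hκ⟩, h5⟩, rfl⟩ | ⟨x, ⟨hx, h5⟩, rfl⟩ | ⟨κ, ⟨hκ, h5⟩, rfl⟩)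
    · refine ⟨x, hx, x j, hjc x hx, ?_, Or.inl ⟨h5, rfl⟩⟩
      simp only [ContinuousLinearMap.comp_apply, ContinuousLinearMap.prod_apply,
        ContinuousLinearMap.id_apply, ContinuousLinearMap.proj_apply, updL_apply, add_zero]
    · refine ⟨x, h.sub hx, κ, hκ, ?_, Or.inr (Or.inl ⟨hx, h5⟩)⟩
      simp only [updL_apply, add_zero]
    · refine ⟨x, hx, up s base, splitP_aux_base h, ?_, Or.inr (Or.inr (Or.inl ⟨h5, rfl⟩))⟩
      simp only [ContinuousLinearMap.comp_apply, ContinuousLinearMap.inl_apply]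
      rw [a3]
    · refine ⟨y, h.sub h.yS, κ, hκ, ?_, Or.inr (Or.inr (Or.inr ⟨rfl, h5⟩))⟩
      simp only [ContinuousLinearMap.comp_apply, ContinuousLinearMap.inr_apply]
      rw [a4]

/-- Membership in the splitting in terms of the truncation and the last coordinate. -/
theorem mem_spl (h : IsCut n P I w j s S y) {z : W} : z ∈ spl n j s P S y ↔
    tr n z ∈ P ∧ z n ∈ cK ∧ tr (n + 1) z = z ∧ ((ht (z j) ≤ s ∧ z n = z j) ∨
      (tr n z ∈ S ∧ ht (z n) = ht (z j)) ∨ (s ≤ ht (z j) ∧ z n = up s base) ∨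
      (tr n z = y ∧ ht (z j) ≤ ht (z n))) := by
  have hj := splitP_aux_ne h h.hj
  constructor
  · rintro ⟨x, hx, κ, hκ, rfl, h5⟩
    have h6 := splitP_aux_tr h hx κ
    rw [h6, upd_same, upd_ne hj, tr_succ, h6, upd_same]
    exact ⟨hx, hκ, rfl, h5⟩
  · rintro ⟨h1, h2, h3, h4⟩
    refine ⟨tr n z, h1, z n, h2, ?_, ?_⟩
    · rw [← tr_succ, h3]
    · rw [tr_lt (h.stage.lt j h.hj)]
      exact h4

theorem spl_zero (h : IsCut n P I w j s S y) : ∀ x ∈ spl n j s P S y, ∀ k, n + 1 ≤ k → x k = 0 := by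
  intro x hx k hk
  have h1 := ((mem_spl h).1 hx).2.2.1
  rw [← h1]
  exact tr_ge hk x

private theorem splitP_aux_wn (y : W) : wspl n j s w y n = upd y n apex := by
  simp [wspl]

private theorem splitP_aux_wj (h : IsCut n P I w j s S y) :
    wspl n j s w y j = upd (w j) n (up s base) := by
  simp [wspl, splitP_aux_ne h h.hj]

private theorem splitP_aux_wi (h : IsCut n P I w j s S y) {i : ℕ} (hi : i ∈ I) (hij : i ≠ j) :
    wspl n j s w y i = upd (w i) n (w i j) := by
  simp [wspl, splitP_aux_ne h hi, hij]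

theorem spl_mem (h : IsCut n P I w j s S y) : ∀ i ∈ insert n I, wspl n j s w y i ∈ spl n j s P S y := by
  intro i hi
  have hyP : y ∈ P := h.sub h.yS
  rcases hi with rfl | hi
  · rw [splitP_aux_wn]
    refine ⟨y, hyP, apex, apex_mem, rfl, Or.inr (Or.inr (Or.inr ⟨rfl, ?_⟩))⟩
    rw [ht_apex]
    exact ht_le_one (h.stage.cone j h.hj y hyP)
  · rcases eq_or_ne i j with rfl | hij
    · rw [splitP_aux_wj h]
      refine ⟨w i, h.stage.mem i hi, up s base, splitP_aux_base h, rfl,
        Or.inr (Or.inr (Or.inl ⟨?_, rfl⟩))⟩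
      rw [splitP_aux_one h hi, ht_apex]
      exact h.lt.le
    · rw [splitP_aux_wi h hi hij]
      exact ⟨w i, h.stage.mem i hi, w i j, h.stage.cone j h.hj _ (h.stage.mem i hi), rfl,
        Or.inl ⟨(h.far i hi hij).le, rfl⟩⟩

theorem spl_cone (h : IsCut n P I w j s S y) : ∀ i ∈ insert n I, ∀ x ∈ spl n j s P S y, x i ∈ cK := by
  intro i hi z hz
  rcases hi with rfl | hi
  · exact ((mem_spl h).1 hz).2.1
  · have h1 := h.stage.cone i hi _ ((mem_spl h).1 hz).1
    rwa [tr_lt (h.stage.lt i hi)] at h1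

theorem spl_vtx (h : IsCut n P I w j s S y) : ∀ i ∈ insert n I, ∀ x ∈ spl n j s P S y,
    x i = apex ↔ x = wspl n j s w y i := by
  intro i hi z hz
  obtain ⟨x, hx, κ, hκ, rfl, h5⟩ := hz
  have hlt := h.lt
  rcases hi with rfl | hi
  · rw [splitP_aux_wn, upd_same]
    constructor
    · rintro rfl
      rcases h5 with h5 | h5 | h5 | h5
      · exfalso
        have := h5.1
        rw [← h5.2, ht_apex] at this
        linarith
      · exfalso
        have := h.le x h5.1
        rw [← h5.2, ht_apex] at this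
        linarith
      · exfalso
        have := congrArg ht h5.2
        rw [ht_apex, ht_up, ht_base] at this
        linarith
      · rw [h5.1]
    · intro h6
      have := congrFun h6 i
      rw [upd_same, upd_same] at this
      exact this
  · have hin := splitP_aux_ne h hi
    rcases eq_or_ne i j with rfl | hij
    · rw [splitP_aux_wj h, upd_ne hin]
      constructor
      · intro h6
        have h7 := (h.stage.vtx i hi x hx).1 h6
        have h8 : ht (x i) = 1 := by rw [h6, ht_apex]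
        rcases h5 with h5 | h5 | h5 | h5
        · exfalso
          linarith [h5.1]
        · exfalso
          linarith [h.le x h5.1]
        · rw [h5.2, h7]
        · exfalso
          have := h.le y h.yS
          rw [← h5.1] at this
          linarith
      · intro h6
        have := congrFun h6 i
        rw [upd_ne hin, upd_ne hin, splitP_aux_one h hi] at this
        exact this
    · rw [splitP_aux_wi h hi hij, upd_ne hin]
      constructor
      · intro h6
        have h7 := (h.stage.vtx i hi x hx).1 h6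
        rcases h5 with h5 | h5 | h5 | h5
        · rw [h5.2, h7]
        · exact absurd (h7 ▸ h5.1) (h.off i hi)
        · exfalso
          have h8 := h.far i hi hij
          rw [← h7] at h8
          linarith [h5.1]
        · exfalso
          apply h.off i hi
          rw [← h7, h5.1]
          exact h.yS
      · intro h6
        have := congrFun h6 i
        rw [upd_ne hin, upd_ne hin, splitP_aux_one h hi] at this
        exact this

private theorem splitP_aux_trw (h : IsCut n P I w j s S y) {i : ℕ} (hi : i ∈ I) :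
    tr n (wspl n j s w y i) = w i := by
  rcases eq_or_ne i j with rfl | hij
  · rw [splitP_aux_wj h]
    exact splitP_aux_tr h (h.stage.mem i hi) _
  · rw [splitP_aux_wi h hi hij]
    exact splitP_aux_tr h (h.stage.mem i hi) _

private theorem splitP_aux_trn (h : IsCut n P I w j s S y) : tr n (wspl n j s w y n) = y := by
  rw [splitP_aux_wn]
  exact splitP_aux_tr h (h.sub h.yS) _

theorem spl_inj (h : IsCut n P I w j s S y) : ∀ i ∈ insert n I, ∀ i' ∈ insert n I,
    wspl n j s w y i = wspl n j s w y i' → i = i' := by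
  intro i hi i' hi' h1
  have h2 := congrArg (tr n) h1
  rcases hi with rfl | hi
  · rcases hi' with rfl | hi'
    · rfl
    · rw [splitP_aux_trn h, splitP_aux_trw h hi'] at h2
      exact absurd (h2 ▸ h.yS) (h.off i' hi')
  · rcases hi' with rfl | hi'
    · rw [splitP_aux_trn h, splitP_aux_trw h hi] at h2
      exact absurd (h2 ▸ h.yS) (h.off i hi)
    · rw [splitP_aux_trw h hi, splitP_aux_trw h hi'] at h2
      exact h.stage.inj i hi i' hi' h2

theorem spl_diag (h : IsCut n P I w j s S y) :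
    ∀ κ ∈ cK, ht κ ≤ 1 / 2 → cur (insert n I) κ ∈ spl n j s P S y := by
  intro κ hκ hκ'
  rw [← upd_cur]
  refine ⟨cur I κ, h.stage.diag κ hκ hκ', κ, hκ, rfl, Or.inl ⟨?_, ?_⟩⟩
  · rw [cur_apply h.hj]
    exact hκ'.trans h.half
  · rw [cur_apply h.hj]

/-- The fibres of the splitting are connected: a point, a level set `{κ ∈ cK | ht κ = ht (x j)}` or
a set `{κ ∈ cK | ht (y j) ≤ ht κ}`. -/
theorem spl_fib (h : IsCut n P I w j s S y) :
    ∀ x ∈ P, IsConnected {z | z ∈ spl n j s P S y ∧ tr n z = x} := by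
  intro x hx
  have hlt := h.lt
  have hc := h.stage.cone j h.hj x hx
  -- the fibre
  have e : {z | z ∈ spl n j s P S y ∧ tr n z = x} = (fun κ : E => upd x n κ) ''
      {κ | κ ∈ cK ∧ ((ht (x j) ≤ s ∧ κ = x j) ∨ (x ∈ S ∧ ht κ = ht (x j)) ∨
        (s ≤ ht (x j) ∧ κ = up s base) ∨ (x = y ∧ ht (x j) ≤ ht κ))} := by
    ext z
    constructor
    · rintro ⟨⟨x', hx', κ, hκ, rfl, h5⟩, h6⟩
      rw [splitP_aux_tr h hx'] at h6
      subst h6
      exact ⟨κ, ⟨hκ, h5⟩, rfl⟩
    · rintro ⟨κ, ⟨hκ, h5⟩, rfl⟩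
      exact ⟨⟨x, hx, κ, hκ, rfl, h5⟩, splitP_aux_tr h hx κ⟩
  rw [e]
  have hcont : Continuous fun κ : E => upd x n κ :=
    (continuous_upd n).comp (continuous_const.prodMk continuous_id)
  suffices hF : IsConnected {κ | κ ∈ cK ∧ ((ht (x j) ≤ s ∧ κ = x j) ∨ (x ∈ S ∧ ht κ = ht (x j)) ∨
        (s ≤ ht (x j) ∧ κ = up s base) ∨ (x = y ∧ ht (x j) ≤ ht κ))} from
    hF.image _ hcont.continuousOn
  have hup : ht (up s base) = s := by
    rw [ht_up, ht_base]
    ring
  by_cases hxS : x ∈ S
  · have hle := h.le x hxS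
    by_cases hxy : x = y
    · have e2 : {κ | κ ∈ cK ∧ ((ht (x j) ≤ s ∧ κ = x j) ∨ (x ∈ S ∧ ht κ = ht (x j)) ∨
          (s ≤ ht (x j) ∧ κ = up s base) ∨ (x = y ∧ ht (x j) ≤ ht κ))} =
          {κ | κ ∈ cK ∧ ht (x j) ≤ ht κ} := by
        ext κ
        constructor
        · rintro ⟨hκ, h5 | h5 | h5 | h5⟩
          · exact ⟨hκ, by rw [h5.2]⟩
          · exact ⟨hκ, h5.2.ge⟩
          · exact ⟨hκ, by rw [h5.2, hup]; exact hle⟩
          · exact ⟨hκ, h5.2⟩
        · rintro ⟨hκ, h5⟩
          exact ⟨hκ, Or.inr (Or.inr (Or.inr ⟨hxy, h5⟩))⟩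
      rw [e2]
      exact isConnected_above (ht_le_one hc)
    · have e2 : {κ | κ ∈ cK ∧ ((ht (x j) ≤ s ∧ κ = x j) ∨ (x ∈ S ∧ ht κ = ht (x j)) ∨
          (s ≤ ht (x j) ∧ κ = up s base) ∨ (x = y ∧ ht (x j) ≤ ht κ))} =
          {κ | κ ∈ cK ∧ ht κ = ht (x j)} := by
        ext κ
        constructor
        · rintro ⟨hκ, h5 | h5 | h5 | h5⟩
          · exact ⟨hκ, by rw [h5.2]⟩
          · exact ⟨hκ, h5.2⟩
          · exact ⟨hκ, by rw [h5.2, hup]; exact le_antisymm h5.1 hle⟩
          · exact absurd h5.1 hxy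
        · rintro ⟨hκ, h5⟩
          exact ⟨hκ, Or.inr (Or.inl ⟨hxS, h5⟩)⟩
      rw [e2]
      exact isConnected_level (ht_nonneg hc) (hle.trans_lt hlt)
  · have hxy : x ≠ y := by
      rintro rfl
      exact hxS h.yS
    rcases lt_trichotomy (ht (x j)) s with h7 | h7 | h7
    · have e2 : {κ | κ ∈ cK ∧ ((ht (x j) ≤ s ∧ κ = x j) ∨ (x ∈ S ∧ ht κ = ht (x j)) ∨
          (s ≤ ht (x j) ∧ κ = up s base) ∨ (x = y ∧ ht (x j) ≤ ht κ))} = {x j} := by
        ext κ
        constructor
        · rintro ⟨hκ, h5 | h5 | h5 | h5⟩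
          · exact h5.2
          · exact absurd h5.1 hxS
          · exact absurd h5.1 (not_le.2 h7)
          · exact absurd h5.1 hxy
        · rintro rfl
          exact ⟨hc, Or.inl ⟨h7.le, rfl⟩⟩
      rw [e2]
      exact isConnected_singleton
    · exact absurd (h.sphere x hx h7) hxS
    · have e2 : {κ | κ ∈ cK ∧ ((ht (x j) ≤ s ∧ κ = x j) ∨ (x ∈ S ∧ ht κ = ht (x j)) ∨
          (s ≤ ht (x j) ∧ κ = up s base) ∨ (x = y ∧ ht (x j) ≤ ht κ))} = {up s base} := by
        ext κ
        constructor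
        · rintro ⟨hκ, h5 | h5 | h5 | h5⟩
          · exact absurd h5.1 (not_le.2 h7)
          · exact absurd h5.1 hxS
          · exact h5.2
          · exact absurd h5.1 hxy
        · rintro rfl
          exact ⟨splitP_aux_base h, Or.inr (Or.inr (Or.inl ⟨h7.le, rfl⟩))⟩
      rw [e2]
      exact isConnected_singleton

end Pool.Agent.H71.ZW
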