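import Pool.Agent.H71.ZW.Retr
import Pool.Agent.H71.ZW.Basic

set_option autoImplicit false

/-!
# The homotopy over `S`

Let `ϖ` be the retraction of `S × cK` onto `S × K ∪ {y} × cK` (`exists_retr` with `S₀ = {y}`; the
condition `hc` is satisfied because `S` is connected and contains `y`) and `c` the equiconnecting map
of the cone (`exists_equi`). For `(x, κ) ∈ splS` put `κ' = dn (ht (x j)) κ`, which is in `K` if
`ht κ = ht (x j)` and in `cK` if `x = y`, `ht (y j) ≤ ht κ`, and `x' = dn (ht (x j)) (x j) ∈ K`. Then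
`D ((x, κ), t) = U (ϖ (x, c ((κ', x'), t)))` with `U (x, κ) = (x, up (ht (x j)) κ)`.
-/

namespace Pool.Agent.H71.ZW

open Set Topology TopologicalSpace

/-- The part of the splitting over `S`. -/
def splS (j : ℕ) (S : Set W) (y : W) : Set (W × E) :=
  {p | p.1 ∈ S ∧ p.2 ∈ cK ∧ (ht p.2 = ht (p.1 j) ∨ (p.1 = y ∧ ht (y j) ≤ ht p.2))}

theorem isCompact_splS {j : ℕ} {S : Set W} {y : W} (hS : IsCompact S) : IsCompact (splS j S y) := by
  have e : splS j S y = (S ×ˢ cK) ∩ ({p : W × E | ht p.2 = ht (p.1 j)} ∪ ({p : W × E | p.1 = y} ∩ {p : W × E | ht (y j) ≤ ht p.2})) := by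
    ext p
    constructor
    · rintro ⟨h1, h2, h3⟩
      exact ⟨⟨h1, h2⟩, h3⟩
    · rintro ⟨⟨h1, h2⟩, h3⟩
      exact ⟨h1, h2, h3⟩
  have c2 : Continuous fun p : W × E => ht p.2 := continuous_ht.comp continuous_snd
  have c1 : Continuous fun p : W × E => ht (p.1 j) := continuous_ht.comp ((continuous_apply j).comp continuous_fst)
  rw [e]
  exact (hS.prod isPoly_cK.isCompact).inter_right ((isClosed_eq c2 c1).union
    ((isClosed_eq continuous_fst continuous_const).inter (isClosed_le continuous_const c2)))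

private theorem splitS_mem {j : ℕ} {S : Set W} {y : W} {s : ℝ} (hs : s < 1) (hj : ∀ x ∈ S, x j ∈ cK ∧ ht (x j) ≤ s) {x : W} {κ : E}
    (h : (x, κ) ∈ splS j S y) : dn (ht (x j)) κ ∈ cK ∧ (dn (ht (x j)) κ ∈ K ∨ x ∈ ({y} : Set W)) := by
  obtain ⟨h1, h2, h3⟩ := h
  have h4 : ht (x j) < 1 := lt_of_le_of_lt (hj x h1).2 hs
  have h5 : 0 ≤ ht (x j) := ht_nonneg (hj x h1).1
  simp only at h2 h3
  rcases h3 with h3 | ⟨h3, h6⟩
  · have h7 : dn (ht (x j)) κ ∈ cK := dn_mem h5 h4 h2 h3.ge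
    refine ⟨h7, Or.inl ⟨h7, ?_⟩⟩
    rw [ht_dn h4, h3, sub_self, zero_div]
  · subst h3
    exact ⟨dn_mem h5 h4 h2 h6, Or.inr rfl⟩

private theorem splitS_self {j : ℕ} {S : Set W} {s : ℝ} (hs : s < 1) (hj : ∀ x ∈ S, x j ∈ cK ∧ ht (x j) ≤ s) {x : W}
    (h : x ∈ S) : dn (ht (x j)) (x j) ∈ K := by
  have h4 : ht (x j) < 1 := lt_of_le_of_lt (hj x h).2 hs
  have h5 : 0 ≤ ht (x j) := ht_nonneg (hj x h).1
  refine ⟨dn_mem h5 h4 (hj x h).1 le_rfl, ?_⟩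
  rw [ht_dn h4, sub_self, zero_div]

theorem exists_homS {j : ℕ} {S : Set W} {y : W} {s : ℝ} (hS : IsPoly S) (hc : IsConnected S)
    (hy : y ∈ S) (hs : s < 1) (hj : ∀ x ∈ S, x j ∈ cK ∧ ht (x j) ≤ s) :
    ∃ D : (W × E) × ℝ → W × E, ContinuousOn D (splS j S y ×ˢ Icc (0 : ℝ) 1) ∧
      MapsTo D (splS j S y ×ˢ Icc (0 : ℝ) 1) (splS j S y) ∧
      (∀ p ∈ splS j S y, D (p, 0) = p) ∧ (∀ p ∈ splS j S y, D (p, 1) = (p.1, p.1 j)) ∧
      ∀ x ∈ S, ∀ t ∈ Icc (0 : ℝ) 1, D ((x, x j), t) = (x, x j) := by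
  have hcc : ∀ A B : Set W, IsClosed A → IsClosed B → Disjoint A B → A ∪ B = S → ({y} : Set W) ⊆ A → B = ∅ := by
    intro A B hA hB hAB hu hyA
    by_contra hne
    obtain ⟨b, hb⟩ := nonempty_iff_ne_empty.mpr hne
    have h1 := (isPreconnected_closed_iff.mp hc.isPreconnected) A B hA hB hu.ge ⟨y, hy, hyA rfl⟩
      ⟨b, hu ▸ mem_union_right A hb, hb⟩
    obtain ⟨z, _, hz⟩ := h1
    exact Set.disjoint_left.mp hAB hz.1 hz.2
  obtain ⟨ϖ, hϖ, hϖ2, hϖ3⟩ := exists_retr hS (isPoly_singleton y) (singleton_subset_iff.mpr hy) hcc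
  obtain ⟨c, hcc', hcm, hce, hcs⟩ := exists_equi
  have hlt : ∀ x ∈ S, ht (x j) < 1 := fun x hx => lt_of_le_of_lt (hj x hx).2 hs
  have hge : ∀ x ∈ S, 0 ≤ ht (x j) := fun x hx => ht_nonneg (hj x hx).1
  -- continuity of the first map
  have cht : Continuous fun p : (W × E) × ℝ => ht (p.1.1 j) :=
    continuous_ht.comp ((continuous_apply j).comp (continuous_fst.comp continuous_fst))
  have d1 : ContinuousOn (fun p : (W × E) × ℝ => dn (ht (p.1.1 j)) p.1.2) (splS j S y ×ˢ Icc (0 : ℝ) 1) := by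
    have h1 : ContinuousOn (fun p : (W × E) × ℝ => ((ht (p.1.1 j), p.1.2) : ℝ × E)) (splS j S y ×ˢ Icc (0 : ℝ) 1) :=
      (cht.prodMk (continuous_snd.comp continuous_fst)).continuousOn
    exact continuousOn_dn.comp h1 fun p hp => hlt _ hp.1.1
  have d2 : ContinuousOn (fun p : (W × E) × ℝ => dn (ht (p.1.1 j)) (p.1.1 j)) (splS j S y ×ˢ Icc (0 : ℝ) 1) := by
    have h1 : ContinuousOn (fun p : (W × E) × ℝ => ((ht (p.1.1 j), p.1.1 j) : ℝ × E)) (splS j S y ×ˢ Icc (0 : ℝ) 1) :=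
      (cht.prodMk ((continuous_apply j).comp (continuous_fst.comp continuous_fst))).continuousOn
    exact continuousOn_dn.comp h1 fun p hp => hlt _ hp.1.1
  have hm1 : ∀ p ∈ splS j S y ×ˢ Icc (0 : ℝ) 1,
      (((dn (ht (p.1.1 j)) p.1.2, dn (ht (p.1.1 j)) (p.1.1 j)), p.2) : (E × E) × ℝ) ∈ (cK ×ˢ cK) ×ˢ Icc (0 : ℝ) 1 := by
    rintro ⟨⟨x, κ⟩, t⟩ ⟨hp, ht'⟩
    exact ⟨⟨(splitS_mem hs hj hp).1, (splitS_self hs hj hp.1).1⟩, ht'⟩
  have d3 : ContinuousOn (fun p : (W × E) × ℝ => c ((dn (ht (p.1.1 j)) p.1.2, dn (ht (p.1.1 j)) (p.1.1 j)), p.2))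
      (splS j S y ×ˢ Icc (0 : ℝ) 1) :=
    hcc'.comp ((d1.prodMk d2).prodMk continuous_snd.continuousOn) hm1
  have hm2 : ∀ p ∈ splS j S y ×ˢ Icc (0 : ℝ) 1,
      ((p.1.1, c ((dn (ht (p.1.1 j)) p.1.2, dn (ht (p.1.1 j)) (p.1.1 j)), p.2)) : W × E) ∈ S ×ˢ cK := fun p hp =>
    ⟨hp.1.1, hcm (hm1 p hp)⟩
  have d4 : ContinuousOn (fun p : (W × E) × ℝ => ϖ (p.1.1, c ((dn (ht (p.1.1 j)) p.1.2, dn (ht (p.1.1 j)) (p.1.1 j)), p.2)))
      (splS j S y ×ˢ Icc (0 : ℝ) 1) :=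
    hϖ.comp ((continuous_fst.comp continuous_fst).continuousOn.prodMk d3) hm2
  have hU : Continuous fun q : W × E => ((q.1, up (ht (q.1 j)) q.2) : W × E) :=
    continuous_fst.prodMk (continuous_up.comp ((continuous_ht.comp ((continuous_apply j).comp continuous_fst)).prodMk continuous_snd))
  refine ⟨fun p => ((ϖ (p.1.1, c ((dn (ht (p.1.1 j)) p.1.2, dn (ht (p.1.1 j)) (p.1.1 j)), p.2))).1,
    up (ht ((ϖ (p.1.1, c ((dn (ht (p.1.1 j)) p.1.2, dn (ht (p.1.1 j)) (p.1.1 j)), p.2))).1 j))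
      (ϖ (p.1.1, c ((dn (ht (p.1.1 j)) p.1.2, dn (ht (p.1.1 j)) (p.1.1 j)), p.2))).2), hU.comp_continuousOn d4, ?_, ?_, ?_, ?_⟩
  · intro p hp
    have h1 := hm2 p hp
    obtain ⟨k1, k2, k3⟩ := hϖ2 _ h1.1 _ h1.2
    set q := ϖ (p.1.1, c ((dn (ht (p.1.1 j)) p.1.2, dn (ht (p.1.1 j)) (p.1.1 j)), p.2)) with hq
    refine ⟨k1, up_mem (hge _ k1) (hlt _ k1).le k2, ?_⟩
    rcases k3 with k3 | k3
    · left
      show ht (up (ht (q.1 j)) q.2) = ht (q.1 j)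
      rw [ht_up, k3.2]
      ring
    · right
      have k4 : q.1 = y := k3
      refine ⟨k4, ?_⟩
      show ht (y j) ≤ ht (up (ht (q.1 j)) q.2)
      rw [ht_up, k4]
      have k5 := ht_nonneg k2
      have k6 := hlt y hy
      nlinarith [mul_nonneg (sub_nonneg.mpr k6.le) k5]
  · rintro ⟨x, κ⟩ hp
    obtain ⟨h1, h2⟩ := splitS_mem hs hj hp
    have h3 := splitS_self hs hj hp.1
    have h4 : ϖ (x, dn (ht (x j)) κ) = (x, dn (ht (x j)) κ) := hϖ3 x hp.1 _ h1 h2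
    simp only [(hce _ h1 _ h3.1).1, h4, up_dn (hlt x hp.1)]
  · rintro ⟨x, κ⟩ hp
    obtain ⟨h1, h2⟩ := splitS_mem hs hj hp
    have h3 := splitS_self hs hj hp.1
    have h4 : ϖ (x, dn (ht (x j)) (x j)) = (x, dn (ht (x j)) (x j)) := hϖ3 x hp.1 _ h3.1 (Or.inl h3)
    simp only [(hce _ h1 _ h3.1).2, h4, up_dn (hlt x hp.1)]
  · intro x hx t ht'
    have h3 := splitS_self hs hj hx
    have h4 : ϖ (x, dn (ht (x j)) (x j)) = (x, dn (ht (x j)) (x j)) := hϖ3 x hx _ h3.1 (Or.inl h3)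
    simp only [hcs _ h3.1 t ht', h4, up_dn (hlt x hx)]

end Pool.Agent.H71.ZW
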