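import Pool.Agent.H71.ZW.Next
import Pool.Agent.H71.ZW.Good
import Pool.Agent.H71.ZW.FG

set_option autoImplicit false

/-!
# One step of the tower

Take `c = 1`, `T = thk n 1 P I`, `s` from `exists_good` for `T` (`isStage_thk`), the family
`preZ n T 𝒵` and `2 * ε`; `F₀`, `G₀`, `η` from `exists_FG` if `1 ≤ m` (and the projections, `η = 1`,
otherwise). For given `ε₁` apply `level_next`, put `F = σ' ∘ F₀`, `G = σ' ∘ G₀` and compose
`isExt_thk` with the extension of `level_next` (`IsExt.comp`). Note `T = tr (n + 1) '' P'` (`IsExt.map`,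
`IsExt.fib`); for `x ∈ T`, `dm m (σ' x) x ≤ 4 * ε` by `IsCtl` and `IsGood.small`.
-/

namespace Pool.Agent.H71.ZW

open Set Topology TopologicalSpace

/-- The section of `level_next` moves points by at most `4 * ε`. -/
theorem step_aux {m n : ℕ} {T : Set W} {I : Set ℕ} {w : ℕ → W} {s ε : ℝ} {𝒵 : Set (Set W)}
    {σ : W → W} (hmn : m ≤ n) (hε : 0 < ε) (hg : IsGood m T I w 𝒵 s (2 * ε))
    (hc : IsCtl m n T I w s (2 * ε) σ) {x : W} (hx : x ∈ T) : dm m (σ x) x ≤ 4 * ε := by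
  by_cases h : ∀ i ∈ I, ht (x i) ≤ s
  · have h1 := hc.1 x hx h
    have h2 : dm m (σ x) x = 0 := by
      apply dm_eq_zero
      intro i hi
      rw [← tr_lt (lt_of_lt_of_le hi hmn) (σ x), h1]
    rw [h2]
    positivity
  · push Not at h
    obtain ⟨i, hi, hlt⟩ := h
    have h1 := hc.2 x hx i hi hlt.le
    have h2 := hg.small i hi x hx hlt.le
    have h3 := dm_triangle m (σ x) (w i) x
    rw [dm_comm m (w i) x] at h3
    linarith

theorem level_step {m n : ℕ} {P : Set W} {I : Set ℕ} {w : ℕ → W} {ε : ℝ} {𝒵 : Set (Set W)}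
    (h : IsLevel m n P I w ε 𝒵) (hε : ε ≤ 1 / 100) :
    ∃ η > 0, ∀ ε₁ > 0, ∃ (n' : ℕ) (P' : Set W) (I' : Set ℕ) (w' : ℕ → W) (𝒵' : Set (Set W))
      (σ : W → W) (H : W × ℝ → W) (F G : W × W → W), IsLevel (n + 1) n' P' I' w' ε₁ 𝒵' ∧
      I ⊆ I' ∧ (∀ i ∈ I', i < n → i ∈ I) ∧ (∀ i ∈ I, tr n (w' i) = w i) ∧
      IsExt n P n' P' σ H ∧ (∀ x ∈ P, dm m (σ x) x ≤ 10 * ε) ∧
      (∀ z ∈ P', ∀ t ∈ Icc (0 : ℝ) 1, dm m (H (z, t)) z ≤ 10 * ε) ∧
      ContinuousOn F {p | p.1 ∈ tr (n + 1) '' P' ∧ p.2 ∈ tr (n + 1) '' P'} ∧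
      ContinuousOn G {p | p.1 ∈ tr (n + 1) '' P' ∧ p.2 ∈ tr (n + 1) '' P'} ∧
      ∀ x ∈ tr (n + 1) '' P', ∀ y ∈ tr (n + 1) '' P', F (x, y) ∈ P' ∧ G (x, y) ∈ P' ∧
        (1 ≤ m → dm m (F (x, y)) x ≤ 100 * ε ∧ dm m (G (x, y)) y ≤ 100 * ε ∧
          η ≤ dm (n + 1) (F (x, y)) (G (x, y))) := by
  classical
  have hpos := h.pos
  set T : Set W := thk n 1 P I with hTdef
  have hI : I.Nonempty := ⟨0, h.zero_mem⟩
  have hT : IsStage (n + 1) T I w := isStage_thk h.stage h.fin hI one_pos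
  have hE := isExt_thk h.stage h.fin hI (one_pos : (0 : ℝ) < 1)
  have hTc : IsCompact T := hT.isCompact
  obtain ⟨s, hg⟩ := exists_good (m := m) (𝒵 := preZ n T 𝒵) (ε := 2 * ε) hT h.fin
    (h.finZ.image _) (by
      rintro _ ⟨Z, hZ, rfl⟩
      show IsCompact (T ∩ tr n ⁻¹' Z)
      exact hTc.inter_right (((h.poly Z hZ).isCompact).isClosed.preimage (continuous_tr n)))
    (by
      rintro _ ⟨Z, hZ, rfl⟩ x hx
      exact hx.1) (by positivity)
  -- the maps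
  obtain ⟨F₀, G₀, η, hη, hF₀, hG₀, hFG⟩ : ∃ (F₀ G₀ : W × W → W) (η : ℝ), 0 < η ∧
      ContinuousOn F₀ (T ×ˢ T) ∧ ContinuousOn G₀ (T ×ˢ T) ∧ ∀ x ∈ T, ∀ y ∈ T,
        F₀ (x, y) ∈ T ∧ G₀ (x, y) ∈ T ∧ (1 ≤ m → dm m (F₀ (x, y)) x ≤ 30 * ε ∧
          dm m (G₀ (x, y)) y ≤ 30 * ε ∧ ∀ σ : W → W, IsCtl m (n + 1) T I w s (2 * ε) σ →
            η ≤ dm (n + 1) (σ (F₀ (x, y))) (σ (G₀ (x, y)))) := by
    by_cases hm : 1 ≤ m
    · have hg' : IsGood m T I w ∅ s (2 * ε) :=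
        { half := hg.half, lt := hg.lt, cone := hg.cone, sph := hg.sph, disj := hg.disj,
          small := hg.small, sep := fun Z hZ => absurd hZ (Set.notMem_empty Z),
          trans := hg.trans }
      obtain ⟨F, G, hF, hG, h1, η, hη, h2⟩ := exists_FG h.stage h.fin h.zero_mem hm h.le
        one_pos hg' hpos hε
      refine ⟨F, G, η, hη, hF, hG, fun x hx y hy => ?_⟩
      obtain ⟨h3, h4, h5, h6⟩ := h1 x hx y hy
      exact ⟨h3, h4, fun _ => ⟨h5, h6, fun σ hσ => h2 σ hσ x hx y hy⟩⟩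
    · exact ⟨Prod.fst, Prod.fst, 1, one_pos, continuousOn_fst, continuousOn_fst,
        fun x hx y hy => ⟨hx, hx, fun h => absurd h hm⟩⟩
  refine ⟨η, hη, fun ε₁ hε₁ => ?_⟩
  obtain ⟨n', P', I', w', 𝒵', σ, H, hL, hE', hII', hI', hw', hctl, hH⟩ :=
    level_next h one_pos hg hε₁
  obtain ⟨H'', hE'', hH''⟩ := hE.comp hE' hTc hL.stage.isCompact
  have himg : tr (n + 1) '' P' = T := by
    apply Subset.antisymm
    · rintro _ ⟨z, hz, rfl⟩
      exact hE'.map z hz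
    · intro x hx
      obtain ⟨z, hz, hzx⟩ := (hE'.fib x hx).nonempty
      exact ⟨z, hz, hzx⟩
  have hσ : ∀ x ∈ T, dm m (σ x) x ≤ 4 * ε := fun x hx =>
    step_aux (h.le.trans (Nat.le_succ n)) hpos hg hctl hx
  have hset : {p : W × W | p.1 ∈ tr (n + 1) '' P' ∧ p.2 ∈ tr (n + 1) '' P'} = T ×ˢ T := by
    rw [himg]
    rfl
  refine ⟨n', P', I', w', 𝒵', σ ∘ id, H'', fun p => σ (F₀ p), fun p => σ (G₀ p), hL, hII', ?_,
    ?_, hE'', ?_, ?_, ?_, ?_, ?_⟩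
  · intro i hi hin
    exact hI' i hi (hin.trans (Nat.lt_succ_self n))
  · intro i hi
    rw [← tr_tr (Nat.le_succ n), Nat.succ_eq_add_one, hw' i hi]
    exact tr_eq (h.stage.zero _ (h.stage.mem i hi))
  · intro x hx
    have h1 := hσ x (hE.mapS hx)
    show dm m (σ x) x ≤ 10 * ε
    linarith
  · intro z hz t ht
    rcases hH'' z hz t ht with ⟨u, hu, h1⟩ | ⟨u, hu, h1⟩
    · rw [h1]
      have := hH z hz u hu
      linarith
    · rw [h1]
      have hx : tr (n + 1) z ∈ T := hE'.map z hz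
      have h2 := hσ _ (hE.mapH (mk_mem_prod hx hu))
      have h3 : dm m (upd (tr (n + 1) z) n ((1 - u) • (tr (n + 1) z) n)) z = 0 := by
        apply dm_eq_zero
        intro i hi
        have hin : i < n := lt_of_lt_of_le hi h.le
        rw [upd_ne (by omega), tr_lt (by omega)]
      have h4 := dm_triangle m (σ (upd (tr (n + 1) z) n ((1 - u) • (tr (n + 1) z) n)))
        (upd (tr (n + 1) z) n ((1 - u) • (tr (n + 1) z) n)) z
      rw [h3] at h4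
      simp only at h2 ⊢
      linarith
  · rw [hset]
    exact hE'.contS.comp hF₀ (by
      rintro ⟨x, y⟩ ⟨hx, hy⟩
      exact (hFG x hx y hy).1)
  · rw [hset]
    exact hE'.contS.comp hG₀ (by
      rintro ⟨x, y⟩ ⟨hx, hy⟩
      exact (hFG x hx y hy).2.1)
  · intro x hx y hy
    rw [himg] at hx hy
    obtain ⟨h1, h2, h3⟩ := hFG x hx y hy
    refine ⟨hE'.mapS h1, hE'.mapS h2, fun hm => ?_⟩
    obtain ⟨h4, h5, h6⟩ := h3 hm
    refine ⟨?_, ?_, h6 σ hctl⟩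
    · have h7 := hσ _ h1
      have h8 := dm_triangle m (σ (F₀ (x, y))) (F₀ (x, y)) x
      linarith
    · have h7 := hσ _ h2
      have h8 := dm_triangle m (σ (G₀ (x, y))) (G₀ (x, y)) y
      linarith

end Pool.Agent.H71.ZW
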