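import Pool.Agent.H71.ZW.Step
import Pool.Agent.H71.ZW.Init

set_option autoImplicit false

/-!
# Existence of the tower

Start with `level_zero` (`m 0 = 0`, `n 0 = 1`, `ε 0 = 1 / 100`); by `level_step` every level has a number
`η` and, for every `ε₁ > 0`, a next level; take `ε (k + 1) = min (ε k / 2) (η k / 100)`. Organize
the recursion with a structure (or a sigma type) of levels with `ε ≤ 1 / 100`.
-/

namespace Pool.Agent.H71.ZW

open Set Topology TopologicalSpace

/-- The levels with their data. -/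
structure TowerLv where
  /-- number of small coordinates -/
  m : ℕ
  /-- number of coordinates -/
  n : ℕ
  /-- the stage -/
  P : Set W
  /-- the indices -/
  I : Set ℕ
  /-- the wild points -/
  w : ℕ → W
  /-- the size -/
  ε : ℝ
  /-- the cover -/
  Z : Set (Set W)
  /-- the level -/
  lev : IsLevel m n P I w ε Z
  /-- the size is small -/
  small : ε ≤ 1 / 100

/-- The relation between a level and its successor. -/
structure TowerNx (L : TowerLv) (η : ℝ) (L' : TowerLv) (σ : W → W) (H : W × ℝ → W)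
    (F G : W × W → W) : Prop where
  posη : 0 < η
  m_succ : L'.m = L.n + 1
  half : L'.ε ≤ L.ε / 2
  eta : 100 * L'.ε ≤ η
  I_sub : L.I ⊆ L'.I
  I_new : ∀ i ∈ L'.I, i < L.n → i ∈ L.I
  w_succ : ∀ i ∈ L.I, tr L.n (L'.w i) = L.w i
  ext : IsExt L.n L.P L'.n L'.P σ H
  ctlS : ∀ x ∈ L.P, dm L.m (σ x) x ≤ 10 * L.ε
  ctlH : ∀ z ∈ L'.P, ∀ t ∈ Icc (0 : ℝ) 1, dm L.m (H (z, t)) z ≤ 10 * L.ε
  contF : ContinuousOn F {p | p.1 ∈ tr (L.n + 1) '' L'.P ∧ p.2 ∈ tr (L.n + 1) '' L'.P}
  contG : ContinuousOn G {p | p.1 ∈ tr (L.n + 1) '' L'.P ∧ p.2 ∈ tr (L.n + 1) '' L'.P}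
  all : ∀ x ∈ tr (L.n + 1) '' L'.P, ∀ y ∈ tr (L.n + 1) '' L'.P, F (x, y) ∈ L'.P ∧ G (x, y) ∈ L'.P ∧
        (1 ≤ L.m → dm L.m (F (x, y)) x ≤ 100 * L.ε ∧ dm L.m (G (x, y)) y ≤ 100 * L.ε ∧
          η ≤ dm (L.n + 1) (F (x, y)) (G (x, y)))

theorem tower_next (L : TowerLv) : ∃ (η : ℝ) (L' : TowerLv) (σ : W → W) (H : W × ℝ → W)
    (F G : W × W → W), TowerNx L η L' σ H F G := by
  obtain ⟨η, hη, h⟩ := level_step L.lev L.small
  have hpos : 0 < L.ε := L.lev.pos
  have he : 0 < min (L.ε / 2) (η / 100) := lt_min (by linarith) (by linarith)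
  have he1 : min (L.ε / 2) (η / 100) ≤ L.ε / 2 := min_le_left _ _
  have he2 : min (L.ε / 2) (η / 100) ≤ η / 100 := min_le_right _ _
  obtain ⟨n', P', I', w', Z', σ, H, F, G, h1, h2, h3, h4, h5, h6, h7, h8, h9, h10⟩ := h _ he
  have hsm : min (L.ε / 2) (η / 100) ≤ 1 / 100 := by
    have := L.small
    linarith
  exact ⟨η, ⟨L.n + 1, n', P', I', w', _, Z', h1, hsm⟩, σ, H, F, G,
    { posη := hη
      m_succ := rfl
      half := he1
      eta := by
        show 100 * min (L.ε / 2) (η / 100) ≤ η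
        linarith
      I_sub := h2
      I_new := h3
      w_succ := h4
      ext := h5
      ctlS := h6
      ctlH := h7
      contF := h8
      contG := h9
      all := h10 }⟩

theorem exists_tower : ∃ (m n : ℕ → ℕ) (P : ℕ → Set W) (I : ℕ → Set ℕ) (w : ℕ → ℕ → W)
    (ε η : ℕ → ℝ) (σ : ℕ → W → W) (H : ℕ → W × ℝ → W) (F G : ℕ → W × W → W),
    IsTower m n P I w ε η σ H F G := by
  obtain ⟨P0, w0, Z0, h0⟩ := level_zero (ε := 1 / 100) (by norm_num)
  choose eta nx sg hh ff gg hall using tower_next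
  let seq : ℕ → TowerLv := fun k => Nat.rec ⟨0, 1, P0, {0}, w0, 1 / 100, Z0, h0, le_rfl⟩
    (fun _ L => nx L) k
  have hseq : ∀ k, seq (k + 1) = nx (seq k) := fun k => rfl
  have hk : ∀ k, TowerNx (seq k) (eta (seq k)) (seq (k + 1)) (sg (seq k)) (hh (seq k))
      (ff (seq k)) (gg (seq k)) := fun k => hall (seq k)
  have hm1 : ∀ k, 1 ≤ k → 1 ≤ (seq k).m := by
    intro k hk1
    obtain ⟨j, rfl⟩ : ∃ j, k = j + 1 := ⟨k - 1, by omega⟩
    rw [(hk j).m_succ]
    omega
  refine ⟨fun k => (seq k).m, fun k => (seq k).n, fun k => (seq k).P, fun k => (seq k).I,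
    fun k => (seq k).w, fun k => (seq k).ε, fun k => eta (seq k), fun k => sg (seq k),
    fun k => hh (seq k), fun k => ff (seq k), fun k => gg (seq k), ?_⟩
  exact
    { stage := fun k => (seq k).lev.stage
      m_le := fun k => (seq k).lev.le
      m_succ := fun k => (hk k).m_succ
      le_succ := fun k => (seq (k + 1)).lev.le
      zero_mem := fun k => (seq k).lev.zero_mem
      I_sub := fun k => (hk k).I_sub
      I_new := fun k => (hk k).I_new
      w_succ := fun k => (hk k).w_succ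
      dense := by
        intro k x hx
        obtain ⟨Z, hZ, hxZ⟩ := (seq k).lev.cover hx
        obtain ⟨i, hi, -, h⟩ := (seq k).lev.wild Z hZ
        exact ⟨i, hi, h x hxZ⟩
      pos := fun k => (seq k).lev.pos
      half := fun k => (hk k).half
      ext := fun k => (hk k).ext
      ctlS := fun k => (hk k).ctlS
      ctlH := fun k => (hk k).ctlH
      contF := fun k => (hk k).contF
      contG := fun k => (hk k).contG
      mapF := fun k x hx y hy => ⟨((hk k).all x hx y hy).1, ((hk k).all x hx y hy).2.1⟩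
      ctlF := fun k hk1 x hx y hy =>
        ⟨(((hk k).all x hx y hy).2.2 (hm1 k hk1)).1, (((hk k).all x hx y hy).2.2 (hm1 k hk1)).2.1⟩
      posη := fun k => (hk k).posη
      sep := fun k hk1 x hx y hy => (((hk k).all x hx y hy).2.2 (hm1 k hk1)).2.2
      eta := fun k => (hk k).eta }

end Pool.Agent.H71.ZW
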